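import Pool.Agent.Helper190_Can.Lat3

set_option linter.unusedSimpArgs false

open Module

noncomputable section

namespace Pool.Agent.Helper190_Can

/-- the index set of the monomial basis -/
abbrev Ix : Type := {p : Bool × Lt // inD p.1 p.2}

variable {R A : Type} [CommRing R] [CommRing A] [Algebra R A]

/-- the basis element, extended by zero -/
def EE (B : Basis Ix R A) (d : Bool) (v : Lt) : A :=
  if h : inD d v then B ⟨(d, v), h⟩ else 0

/-- the coordinate functional, extended by zero -/
def cf (B : Basis Ix R A) (d : Bool) (v : Lt) : A →ₗ[R] R :=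
  if h : inD d v then B.coord ⟨(d, v), h⟩ else 0

lemma EE_of {B : Basis Ix R A} {d : Bool} {v : Lt} (h : inD d v) : EE B d v = B ⟨(d, v), h⟩ :=
  dif_pos h

lemma EE_out {B : Basis Ix R A} {d : Bool} {v : Lt} (h : ¬ inD d v) : EE B d v = 0 :=
  dif_neg h

lemma cf_out {B : Basis Ix R A} {d : Bool} {v : Lt} (h : ¬ inD d v) (x : A) :
    cf B d v x = 0 := by
  rw [cf, dif_neg h]; rfl

lemma EE_ix (B : Basis Ix R A) (i : Ix) : B i = EE B i.1.1 i.1.2 := by
  rw [EE_of i.2]

lemma cf_EE (B : Basis Ix R A) (d d' : Bool) (v v' : Lt) :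
    cf B d v (EE B d' v') = if (d = d' ∧ v = v') ∧ inD d v then 1 else 0 := by
  classical
  by_cases h : inD d v
  · by_cases h' : inD d' v'
    · rw [cf, dif_pos h, EE_of h', Basis.coord_apply, Basis.repr_self, Finsupp.single_apply]
      simp only [Subtype.mk.injEq, Prod.mk.injEq, h, and_true]
      congr 1
      simp only [eq_iff_iff]
      tauto
    · rw [EE_out h', map_zero, if_neg]
      rintro ⟨⟨rfl, rfl⟩, _⟩
      exact h' h
  · rw [cf_out h, if_neg]
    exact fun h' => h h'.2

lemma mem_span_EE {B : Basis Ix R A} {P : A → Prop} (h0 : P 0)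
    (hadd : ∀ x y, P x → P y → P (x + y)) (hs : ∀ (r : R) x, P x → P (r • x))
    (hE : ∀ d v, inD d v → P (EE B d v)) (x : A) : P x := by
  have hx : x ∈ Submodule.span R (Set.range B) := by rw [B.span_eq]; trivial
  refine Submodule.span_induction (p := fun x _ => P x) ?_ h0 (fun x y _ _ hx hy => hadd x y hx hy)
    (fun r x _ hx => hs r x hx) hx
  rintro _ ⟨i, rfl⟩
  rw [EE_ix]
  exact hE _ _ i.2

lemma mem_smul_top_iff (B : Basis Ix R A) (J : Ideal R) (x : A) :
    x ∈ J • (⊤ : Submodule R A) ↔ ∀ d v, cf B d v x ∈ J := by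
  constructor
  · intro hx d v
    refine Submodule.smul_induction_on hx ?_ ?_
    · intro r hr n _
      rw [map_smul, smul_eq_mul]
      exact J.mul_mem_right _ hr
    · intro x y hx hy
      rw [map_add]
      exact J.add_mem hx hy
  · intro h
    rw [← B.linearCombination_repr x, Finsupp.linearCombination_apply]
    refine Submodule.sum_mem _ fun i _ => ?_
    refine Submodule.smul_mem_smul ?_ trivial
    have := h i.1.1 i.1.2
    rwa [cf, dif_pos i.2] at this

lemma mul_mem_smul_top {J K : Ideal R} {x y : A} (hx : x ∈ J • (⊤ : Submodule R A))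
    (hy : y ∈ K • (⊤ : Submodule R A)) : x * y ∈ (J * K) • (⊤ : Submodule R A) := by
  refine Submodule.smul_induction_on hx ?_ ?_
  · intro r hr n _
    refine Submodule.smul_induction_on hy ?_ ?_
    · intro s hs m _
      rw [smul_mul_smul_comm]
      exact Submodule.smul_mem_smul (Ideal.mul_mem_mul hr hs) trivial
    · intro x y hx hy
      rw [mul_add]
      exact Submodule.add_mem _ hx hy
  · intro x y hx hy
    rw [add_mul]
    exact Submodule.add_mem _ hx hy

lemma mul_left_mem {J : Ideal R} {x : A} (y : A) (hx : x ∈ J • (⊤ : Submodule R A)) :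
    y * x ∈ J • (⊤ : Submodule R A) := by
  refine Submodule.smul_induction_on hx ?_ ?_
  · intro r hr n _
    rw [mul_smul_comm]
    exact Submodule.smul_mem_smul hr trivial
  · intro x z hx hz
    rw [mul_add]
    exact Submodule.add_mem _ hx hz

lemma map_mem_of_basis (B : Basis Ix R A) {K J : Ideal R} (f : A →ₗ[R] R)
    (hf : ∀ d v, inD d v → f (EE B d v) ∈ K) {x : A} (hx : x ∈ J • (⊤ : Submodule R A)) :
    f x ∈ J * K := by
  have h1 : ∀ y, f y ∈ K := by
    intro y
    refine mem_span_EE (B := B) (P := fun y => f y ∈ K) ?_ ?_ ?_ hf y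
    · simp
    · intro x y hx hy; rw [map_add]; exact K.add_mem hx hy
    · intro r x hx; rw [map_smul]; exact K.mul_mem_left _ hx
  refine Submodule.smul_induction_on hx ?_ ?_
  · intro r hr n _
    rw [map_smul, smul_eq_mul]
    exact Ideal.mul_mem_mul hr (h1 n)
  · intro x y hx hy
    rw [map_add]
    exact Ideal.add_mem _ hx hy

/-! ### the quotient `J / J²` -/

/-- the class in the cotangent module, extended by zero -/
def qt (J : Ideal R) (r : R) : J.Cotangent := by
  classical exact if h : r ∈ J then J.toCotangent ⟨r, h⟩ else 0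

lemma qt_of {J : Ideal R} {r : R} (h : r ∈ J) : qt J r = J.toCotangent ⟨r, h⟩ := by
  rw [qt, dif_pos h]

lemma qt_zero (J : Ideal R) : qt J 0 = 0 := by
  rw [qt_of J.zero_mem]
  exact map_zero _

lemma qt_add {J : Ideal R} {r s : R} (hr : r ∈ J) (hs : s ∈ J) :
    qt J (r + s) = qt J r + qt J s := by
  rw [qt_of hr, qt_of hs, qt_of (J.add_mem hr hs), ← map_add]; rfl

lemma qt_sub {J : Ideal R} {r s : R} (hr : r ∈ J) (hs : s ∈ J) :
    qt J (r - s) = qt J r - qt J s := by
  rw [qt_of hr, qt_of hs, qt_of (J.sub_mem hr hs), ← map_sub]; rfl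

lemma qt_eq {J : Ideal R} {r s : R} (hr : r ∈ J) (hs : s ∈ J) :
    qt J r = qt J s ↔ r - s ∈ J ^ 2 := by
  rw [qt_of hr, qt_of hs, Ideal.toCotangent_eq]

lemma qt_eq_zero {J : Ideal R} {r : R} (hr : r ∈ J) : qt J r = 0 ↔ r ∈ J ^ 2 := by
  rw [← qt_zero, qt_eq hr J.zero_mem, sub_zero]

lemma exists_lift (J : Ideal R) : ∃ l : J.Cotangent → R, (∀ x, l x ∈ J) ∧
    (∀ x, qt J (l x) = x) ∧ l 0 = 0 := by
  classical
  have h : ∀ x : J.Cotangent, ∃ y : J, J.toCotangent y = x := J.toCotangent_surjective
  choose l hl using h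
  refine ⟨fun x => if x = 0 then 0 else (l x : R), ?_, ?_, ?_⟩
  · intro x
    dsimp only
    split_ifs
    · exact J.zero_mem
    · exact (l x).2
  · intro x
    dsimp only
    split_ifs with hx
    · rw [hx, qt_zero]
    · rw [qt_of (l x).2]
      exact hl x
  · simp

/-! ### homogeneity -/

section graded
variable (gr : ℕ → Submodule R A) [GradedAlgebra gr]

/-- the basis is homogeneous -/
def HomB (B : Basis Ix R A) : Prop := ∀ d v, inD d v → EE B d v ∈ gr v.1.toNat

lemma inD_nonneg {d : Bool} {v : Lt} (h : inD d v) : 0 ≤ v.1 := by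
  obtain ⟨n, i, j⟩ := v
  cases d <;> simp only [inD, inS, inM] at h ⊢ <;> omega

variable {gr}

lemma cf_degree {B : Basis Ix R A} (hB : HomB gr B) {n : ℕ} {x : A} (hx : x ∈ gr n) (d : Bool)
    {w : Lt} (hw : w.1 ≠ n) : cf B d w x = 0 := by
  by_cases hd : inD d w
  swap
  · exact cf_out hd x
  have h0 := inD_nonneg hd
  have key : ∀ (m : ℕ) (y : A), cf B d w (GradedAlgebra.proj gr m y) =
      if w.1.toNat = m then cf B d w y else 0 := by
    intro m y
    refine mem_span_EE (B := B) (P := fun y => cf B d w (GradedAlgebra.proj gr m y) =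
      if w.1.toNat = m then cf B d w y else 0) ?_ ?_ ?_ ?_ y
    · simp only [map_zero]
      split_ifs <;> rfl
    · intro x y hx hy
      rw [map_add, map_add, hx, hy, map_add]
      split_ifs <;> simp
    · intro r x hx
      rw [map_smul, map_smul, hx, map_smul]
      split_ifs <;> simp
    · intro d' v' h'
      have hE := hB d' v' h'
      rw [GradedAlgebra.proj_apply]
      by_cases hm : v'.1.toNat = m
      · subst hm
        rw [DirectSum.decompose_of_mem_same gr hE, cf_EE]
        split_ifs with h1 h2 h2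
        · rfl
        · exfalso; apply h2; rw [h1.1.2]
        · rfl
        · rfl
      · rw [DirectSum.decompose_of_mem_ne gr hE hm, map_zero, cf_EE]
        split_ifs with h1 h2
        · exfalso; apply hm; rw [← h2.1.2, h1]
        · rfl
        · rfl
  have h1 := key n x
  rw [GradedAlgebra.proj_apply, DirectSum.decompose_of_mem_same gr hx, if_neg] at h1
  · exact h1
  · omega

end graded

end Pool.Agent.Helper190_Can
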