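import Pool.Agent.Helper190_Can.CanAlg

set_option linter.unusedSimpArgs false
set_option linter.unusedSectionVars false
set_option linter.unusedVariables false

open Module MvPolynomial DirectSum
open Pool.Agent.Helper190_CoarseTwo (wt zdeg Cox piece ex nf nf_surj nf_inj root_sq qd)

noncomputable section

namespace Pool.Agent.Helper190_Can

variable {R S : Type} [CommRing R] [CommRing S] (f : R →+* S)

/-! ### base change of algebras with a basis -/

section
variable {A A' : Type} [CommRing A] [Algebra R A] [CommRing A'] [Algebra S A']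

/-- the additive base change map -/
def bcAdd (B : Basis Ix R A) (B' : Basis Ix S A') : A →+ A' :=
  (B'.repr.symm.toLinearMap.toAddMonoidHom.comp (Finsupp.mapRange.addMonoidHom
    f.toAddMonoidHom)).comp B.repr.toLinearMap.toAddMonoidHom

lemma bcAdd_basis (B : Basis Ix R A) (B' : Basis Ix S A') (i : Ix) :
    bcAdd f B B' (B i) = B' i := by
  simp [bcAdd]

lemma bcAdd_smul (B : Basis Ix R A) (B' : Basis Ix S A') (r : R) (x : A) :
    bcAdd f B B' (r • x) = f r • bcAdd f B B' x := by
  have h1 : B.repr (r • x) = r • B.repr x := map_smul _ _ _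
  change B'.repr.symm (Finsupp.mapRange f (map_zero f) (B.repr (r • x))) =
    f r • B'.repr.symm (Finsupp.mapRange f (map_zero f) (B.repr x))
  rw [h1, ← map_smul B'.repr.symm]
  refine congrArg _ (Finsupp.ext fun i => ?_)
  simp

lemma bcAdd_EE (B : Basis Ix R A) (B' : Basis Ix S A') (d : Bool) (v : Lt) :
    bcAdd f B B' (EE B d v) = EE B' d v := by
  by_cases hv : inD d v
  · rw [EE_of hv, EE_of hv, bcAdd_basis]
  · rw [EE_out hv, EE_out hv, map_zero]

variable {B : Basis Ix R A} {B' : Basis Ix S A'} {α : Bool → Lt → R} {α' : Bool → Lt → S}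

lemma bcAdd_mul (h : Tab B α) (h' : Tab B' α') (hα : ∀ d κ, α' d κ = f (α d κ)) (x y : A) :
    bcAdd f B B' (x * y) = bcAdd f B B' x * bcAdd f B B' y := by
  refine mem_span_EE (B := B) (P := fun x => bcAdd f B B' (x * y) =
    bcAdd f B B' x * bcAdd f B B' y) ?_ ?_ ?_ ?_ x
  · simp
  · intro x x' h1 h2
    rw [add_mul, map_add, h1, h2, map_add, add_mul]
  · intro r x h1
    rw [smul_mul_assoc, bcAdd_smul, h1, bcAdd_smul, smul_mul_assoc]
  intro d v hv
  refine mem_span_EE (B := B) (P := fun y => bcAdd f B B' (EE B d v * y) =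
    bcAdd f B B' (EE B d v) * bcAdd f B B' y) ?_ ?_ ?_ ?_ y
  · simp
  · intro x x' h1 h2
    rw [mul_add, map_add, h1, h2, map_add, mul_add]
  · intro r x h1
    rw [mul_smul_comm, bcAdd_smul, h1, bcAdd_smul, mul_smul_comm]
  intro d' v' hv'
  rw [bcAdd_EE, bcAdd_EE]
  cases d
  · rw [h.mulS d' v v' hv hv', bcAdd_EE, h'.mulS d' v v' hv hv']
  · cases d'
    · rw [mul_comm (EE B true v), h.mulS true v' v hv' hv, bcAdd_EE, mul_comm (EE B' true v),
        h'.mulS true v' v hv' hv]
    · rw [h.mulM v v' hv hv', h'.mulM v v' hv hv', map_neg, map_sum]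
      congr 1
      refine Finset.sum_congr rfl fun d _ => ?_
      rw [map_sum]
      refine Finset.sum_congr rfl fun κ hκ => ?_
      rw [bcAdd_smul, bcAdd_EE, hα]

/-- the base change ring homomorphism -/
def bcHom (h : Tab B α) (h' : Tab B' α') (hα : ∀ d κ, α' d κ = f (α d κ)) : A →+* A' where
  toFun := bcAdd f B B'
  map_zero' := map_zero _
  map_add' := map_add _
  map_one' := by rw [← h.one, bcAdd_EE, h'.one]
  map_mul' := bcAdd_mul f h h' hα

theorem isBC_ofTab (h : Tab B α) (h' : Tab B' α') (hα : ∀ d κ, α' d κ = f (α d κ)) :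
    IsBC f (GrAlg.ofTab h) (GrAlg.ofTab h') := by
  rw [isBC_iff]
  refine ⟨bcHom f h h' hα, ?_, ?_⟩
  · intro r
    change bcAdd f B B' (algebraMap R A r) = algebraMap S A' (f r)
    rw [Algebra.algebraMap_eq_smul_one, bcAdd_smul, ← h.one, bcAdd_EE, h'.one,
      Algebra.algebraMap_eq_smul_one]
  · intro n
    obtain ⟨k, ⟨e⟩⟩ := Finite.exists_equiv_fin (Ixn n)
    refine ⟨k, (basB B n).reindex e, (basB B' n).reindex e, fun i => ?_⟩
    change bcAdd f B B' (((basB B n).reindex e i : grB B n) : A) =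
      (((basB B' n).reindex e i : grB B' n) : A')
    rw [Basis.reindex_apply, Basis.reindex_apply, basB_coe, basB_coe, bcAdd_basis]

end

/-! ### restricting a homogeneous basis to a degree -/

section
variable {A : Type} [CommRing A] [Algebra R A] {gr : ℕ → Submodule R A} [GradedAlgebra gr]

lemma grB_eq {B : Basis Ix R A} (hB : HomB gr B) (n : ℕ) : grB B n = gr n := by
  apply le_antisymm
  · rw [grB, Submodule.span_le]
    rintro _ ⟨⟨i, hi⟩, rfl⟩
    have := hB i.1.1 i.1.2 i.2
    change B i ∈ gr n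
    rw [EE_ix, ← hi]
    exact this
  · intro x hx
    rw [← eq_bsum hB hx]
    refine Submodule.sum_mem _ fun d _ => Submodule.sum_mem _ fun v hv => ?_
    refine Submodule.smul_mem _ _ ?_
    by_cases h : inD d v
    · exact mem_grB' B h (box_fst hv)
    · rw [EE_out h]; exact Submodule.zero_mem _

/-- the restricted basis -/
def resB {B : Basis Ix R A} (hB : HomB gr B) (n : ℕ) : Basis (Ixn n) R (gr n) :=
  (basB B n).map (LinearEquiv.ofEq _ _ (grB_eq hB n))

lemma resB_coe {B : Basis Ix R A} (hB : HomB gr B) (n : ℕ) (i : Ixn n) :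
    (resB hB n i : A) = B i.1 := by
  rw [resB, Basis.map_apply, LinearEquiv.coe_ofEq_apply, basB_coe]

/-- reindexing -/
def sigE : (Σ n, Ixn n) ≃ Ix where
  toFun x := x.2.1
  invFun i := ⟨i.1.2.1.toNat, ⟨i, rfl⟩⟩
  left_inv := by
    rintro ⟨n, ⟨i, hi⟩⟩
    subst hi
    rfl
  right_inv i := rfl

/-- collecting bases of the graded pieces -/
def colB (u : ∀ n, Basis (Ixn n) R (gr n)) : Basis Ix R A :=
  ((DirectSum.Decomposition.isInternal gr).collectedBasis u).reindex sigE

lemma colB_apply (u : ∀ n, Basis (Ixn n) R (gr n)) (i : Ix) :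
    colB u i = (u i.1.2.1.toNat ⟨i, rfl⟩ : A) := by
  rw [colB, Basis.reindex_apply, DirectSum.IsInternal.collectedBasis_coe]
  rfl

end

/-! ### images of bases -/

lemma basis_image {V W ι : Type} [AddCommGroup V] [Module R V] [AddCommGroup W] [Module S W]
    [Finite ι] (Φ : V →+ W) (hΦ : ∀ (r : R) x, Φ (r • x) = f r • Φ x) {k : ℕ}
    (v : Basis (Fin k) R V) (w : Basis (Fin k) S W) (hvw : ∀ i, Φ (v i) = w i)
    (u : Basis ι R V) : ∃ u' : Basis ι S W, ∀ i, u' i = Φ (u i) := by
  classical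
  cases nonempty_fintype ι
  let P := v.toMatrix u
  let Q := u.toMatrix v
  have hPQ : P * Q = 1 := v.toMatrix_mul_toMatrix_flip u
  have hQP : Q * P = 1 := u.toMatrix_mul_toMatrix_flip v
  have hPQ' : P.map f * Q.map f = 1 := by
    rw [← Matrix.map_mul, hPQ]; simp
  have hQP' : Q.map f * P.map f = 1 := by
    rw [← Matrix.map_mul, hQP]; simp
  let e : W ≃ₗ[S] (ι → S) := w.equivFun ≪≫ₗ Matrix.toLin'OfInv hPQ' hQP'
  refine ⟨Basis.ofEquivFun e, fun i => ?_⟩
  have h1 : Basis.ofEquivFun e i = e.symm (Pi.single i 1) := by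
    rw [Basis.coe_ofEquivFun]
  rw [h1]
  change w.equivFun.symm (Matrix.toLin' (P.map f) (Pi.single i 1)) = _
  rw [Basis.equivFun_symm_apply]
  have h2 : u i = ∑ j, P j i • v j := (Basis.sum_toMatrix_smul_self v u i).symm
  rw [h2, map_sum]
  refine Finset.sum_congr rfl fun j _ => ?_
  rw [hΦ, hvw]
  congr 1
  simp [Matrix.toLin'_apply, Matrix.mulVec_single]

end Pool.Agent.Helper190_Can
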