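import Pool.Agent.Helper190_Can.BC

set_option linter.unusedSimpArgs false
set_option linter.unusedSectionVars false
set_option linter.unusedVariables false

open Module MvPolynomial DirectSum
open Pool.Agent.Helper190_CoarseTwo (wt zdeg Cox piece ex nf nf_surj nf_inj root_sq qd)

noncomputable section

namespace Pool.Agent.Helper190_Can

variable {R S : Type} [CommRing R] [CommRing S] {f : R →+* S}

section
variable {X : GrAlg R} {Y : GrAlg S} (Φ : X.A →+* Y.A)
  (hΦ : ∀ r, Φ (algebraMap R X.A r) = algebraMap S Y.A (f r))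
include hΦ

lemma bc_smul (r : R) (x : X.A) : Φ (r • x) = f r • Φ x := by
  rw [Algebra.smul_def, map_mul, hΦ, Algebra.smul_def]

lemma bc_mem {n k : ℕ} (v : Basis (Fin k) R (X.gr n)) (w : Basis (Fin k) S (Y.gr n))
    (hvw : ∀ i, Φ (v i) = w i) {x : X.A} (hx : x ∈ X.gr n) : Φ x ∈ Y.gr n := by
  have h1 : x = ∑ i, v.repr ⟨x, hx⟩ i • (v i : X.A) := by
    have h2 := congrArg (Submodule.subtype _) (v.sum_repr ⟨x, hx⟩)
    rw [map_sum] at h2
    exact h2.symm
  rw [h1, map_sum]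
  refine Submodule.sum_mem _ fun i _ => ?_
  rw [bc_smul Φ hΦ, hvw]
  exact Submodule.smul_mem _ _ (w i).2

end

/-- the restriction of a base change map to a degree -/
def bcn {X : GrAlg R} {Y : GrAlg S} (Φ : X.A →+* Y.A) (n : ℕ)
    (h : ∀ x ∈ X.gr n, Φ x ∈ Y.gr n) : X.gr n →+ Y.gr n where
  toFun x := ⟨Φ x, h x x.2⟩
  map_zero' := by apply Subtype.ext; simp
  map_add' x y := by apply Subtype.ext; simp

theorem tab_image {X : GrAlg R} {Y : GrAlg S} (hbc : IsBC f X Y) {B : Basis Ix R X.A}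
    {α : Bool → Lt → R} (hB : HomB X.gr B) (h : Tab B α) :
    ∃ B' : Basis Ix S Y.A, HomB Y.gr B' ∧ Tab B' (fun d κ => f (α d κ)) := by
  obtain ⟨Φ, hΦ, hbas⟩ := isBC_iff.mp hbc
  have hsm := bc_smul Φ hΦ
  have hu : ∀ n, ∃ u' : Basis (Ixn n) S (Y.gr n), ∀ i, (u' i : Y.A) = Φ (resB hB n i) := by
    intro n
    obtain ⟨k, v, w, hvw⟩ := hbas n
    have hmem : ∀ x ∈ X.gr n, Φ x ∈ Y.gr n := fun x hx => bc_mem Φ hΦ v w hvw hx
    obtain ⟨u', hu'⟩ := basis_image f (bcn Φ n hmem) (fun r x => by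
      apply Subtype.ext
      exact hsm r x) v w (fun i => Subtype.ext (hvw i)) (resB hB n)
    exact ⟨u', fun i => by rw [hu']; rfl⟩
  choose u' hu' using hu
  have hE : ∀ d v, EE (colB u') d v = Φ (EE B d v) := by
    intro d v
    by_cases hv : inD d v
    · rw [EE_of hv, EE_of hv, colB_apply, hu', resB_coe]
    · rw [EE_out hv, EE_out hv, map_zero]
  refine ⟨colB u', ?_, ?_, ?_, ?_⟩
  · intro d v hv
    rw [EE_of hv, colB_apply]
    exact (u' _ _).2
  · rw [hE, h.one, map_one]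
  · intro d σ μ hσ hμ
    rw [hE, hE, hE, ← map_mul, h.mulS d σ μ hσ hμ]
  · intro μ ν hμ hν
    rw [hE, hE, ← map_mul, h.mulM μ ν hμ hν, map_neg, map_sum]
    congr 1
    refine Finset.sum_congr rfl fun d _ => ?_
    rw [map_sum]
    refine Finset.sum_congr rfl fun κ hκ => ?_
    rw [hsm, hE]

/-! ### lifting a presentation from a quotient by a nilpotent ideal -/

lemma isUnit_of_map_nil {k : Type} [CommRing k] {ε : R →+* k} (hs : Function.Surjective ε)
    (hnil : IsNilpotent (RingHom.ker ε)) {r : R} (hr : IsUnit (ε r)) : IsUnit r := by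
  obtain ⟨s, hs'⟩ := hr.exists_right_inv
  obtain ⟨t, rfl⟩ := hs s
  have h1 : 1 - r * t ∈ RingHom.ker ε := by
    rw [RingHom.mem_ker, map_sub, map_one, map_mul, hs', sub_self]
  obtain ⟨n, hn⟩ := hnil
  have h2 : IsNilpotent (1 - r * t) := by
    refine ⟨n, ?_⟩
    have := Ideal.pow_mem_pow h1 n
    rw [hn] at this
    simpa using this
  have h3 : IsUnit (r * t) := by
    have h4 := h2.isUnit_sub_one.neg
    have h5 : -(1 - r * t - 1) = r * t := by ring
    rwa [h5] at h4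
  exact isUnit_of_mul_isUnit_left h3

lemma lift_basis {V W ι : Type} [AddCommGroup V] [Module R V] {k : Type} [CommRing k]
    [Nontrivial k] [AddCommGroup W] [Module k W] [Finite ι] {ε : R →+* k}
    (hs : Function.Surjective ε) (hnil : IsNilpotent (RingHom.ker ε)) (Φ : V →+ W)
    (hΦ : ∀ (r : R) x, Φ (r • x) = ε r • Φ x) {m : ℕ} (v : Basis (Fin m) R V)
    (w : Basis (Fin m) k W) (hvw : ∀ i, Φ (v i) = w i) (u₀ : Basis ι k W) (u : ι → V)
    (hu : ∀ i, Φ (u i) = u₀ i) : ∃ u' : Basis ι R V, ∀ i, u' i = u i := by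
  classical
  cases nonempty_fintype ι
  let e := w.indexEquiv u₀
  let v' := v.reindex e
  let w' := w.reindex e
  have hvw' : ∀ i, Φ (v' i) = w' i := by
    intro i
    rw [Basis.reindex_apply, Basis.reindex_apply, hvw]
  have h1 : (v'.toMatrix u).map ε = w'.toMatrix u₀ := by
    ext i j
    rw [Matrix.map_apply, Basis.toMatrix_apply, Basis.toMatrix_apply, ← hu j]
    have h2 : u j = ∑ i, v'.repr (u j) i • v' i := (v'.sum_repr (u j)).symm
    have h3 : Φ (u j) = ∑ i, ε (v'.repr (u j) i) • w' i := by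
      conv_lhs => rw [h2]
      rw [map_sum]
      refine Finset.sum_congr rfl fun i _ => ?_
      rw [hΦ, hvw']
    rw [h3, Basis.repr_sum_self]
  have h4 : IsUnit (ε (v'.toMatrix u).det) := by
    rw [RingHom.map_det]
    have : ε.mapMatrix (v'.toMatrix u) = w'.toMatrix u₀ := h1
    rw [this, ← Basis.det_apply]
    exact w'.isUnit_det u₀
  have h5 : IsUnit (v'.det u) := by
    rw [Basis.det_apply]
    exact isUnit_of_map_nil hs hnil h4
  rw [← Basis.is_basis_iff_det v'] at h5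
  exact ⟨Basis.mk h5.1 h5.2.ge, fun i => by rw [Basis.mk_apply]⟩

theorem tab_lift' {k : Type} [CommRing k] [Nontrivial k] {ε : R →+* k}
    (hs : Function.Surjective ε)
    (hnil : IsNilpotent (RingHom.ker ε)) {X : GrAlg R} {X₀ : GrAlg k} (Φ : X.A →+* X₀.A)
    (hΦ : ∀ r, Φ (algebraMap R X.A r) = algebraMap k X₀.A (ε r))
    (hbas : ∀ n, ∃ (m : ℕ) (v : Basis (Fin m) R (X.gr n)) (w : Basis (Fin m) k (X₀.gr n)),
      ∀ i, Φ (v i) = w i)
    {B₀ : Basis Ix k X₀.A} {α₀ : Bool → Lt → k} (hB₀ : HomB X₀.gr B₀) (h₀ : Tab B₀ α₀) :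
    ∃ (B : Basis Ix R X.A) (α : Bool → Lt → R), HomB X.gr B ∧ Tab B α ∧
      (∀ d κ, ε (α d κ) = α₀ d κ) ∧ ∀ d v, Φ (EE B d v) = EE B₀ d v := by
  classical
  have hsm := bc_smul Φ hΦ
  have hsurj : ∀ n (y : X₀.A), y ∈ X₀.gr n → ∃ x ∈ X.gr n, Φ x = y := by
    intro n y hy
    obtain ⟨m, v, w, hvw⟩ := hbas n
    choose c hc using hs
    refine ⟨∑ i, c (w.repr ⟨y, hy⟩ i) • (v i : X.A), ?_, ?_⟩
    · exact Submodule.sum_mem _ fun i _ => Submodule.smul_mem _ _ (v i).2
    · rw [map_sum]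
      have h1 := congrArg (Submodule.subtype _) (w.sum_repr ⟨y, hy⟩)
      rw [map_sum] at h1
      have h2 : (∑ i, w.repr ⟨y, hy⟩ i • (w i : X₀.A)) = y := h1
      conv_rhs => rw [← h2]
      refine Finset.sum_congr rfl fun i _ => ?_
      rw [hsm, hc, hvw]
  -- lifts of the basis elements
  have hlift : ∀ i : Ix, ∃ x ∈ X.gr i.1.2.1.toNat, Φ x = B₀ i ∧ (i.1 = (false, 0) → x = 1) := by
    intro i
    by_cases hi : i.1 = (false, 0)
    · refine ⟨1, ?_, ?_, fun _ => rfl⟩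
      · rw [hi]
        change (1 : X.A) ∈ X.gr 0
        exact SetLike.GradedOne.one_mem
      · rw [map_one, EE_ix, hi, h₀.one]
    · obtain ⟨x, hx, hx'⟩ := hsurj _ (B₀ i) (by rw [EE_ix]; exact hB₀ _ _ i.2)
      exact ⟨x, hx, hx', fun h => absurd h hi⟩
  choose F hF1 hF2 hF3 using hlift
  have hu : ∀ n, ∃ u : Basis (Ixn n) R (X.gr n), ∀ i, (u i : X.A) = F i.1 := by
    intro n
    obtain ⟨m, v, w, hvw⟩ := hbas n
    have hmem : ∀ x ∈ X.gr n, Φ x ∈ X₀.gr n := fun x hx => bc_mem Φ hΦ v w hvw hx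
    obtain ⟨u', hu'⟩ := lift_basis hs hnil (bcn Φ n hmem) (fun r x => by
      apply Subtype.ext
      exact hsm r x) v w (fun i => Subtype.ext (hvw i)) (resB hB₀ n)
      (fun i => ⟨F i.1, by have := hF1 i.1; rwa [i.2] at this⟩) (fun i => by
        apply Subtype.ext
        rw [resB_coe]
        exact hF2 i.1)
    exact ⟨u', fun i => by rw [hu']⟩
  choose u hu using hu
  set B := colB u with hB
  have hBi : ∀ i, B i = F i := fun i => by rw [hB, colB_apply, hu]
  have hE : ∀ d v, Φ (EE B d v) = EE B₀ d v := by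
    intro d v
    by_cases hv : inD d v
    · rw [EE_of hv, EE_of hv, hBi, hF2]
    · rw [EE_out hv, EE_out hv, map_zero]
  have hHom : HomB X.gr B := by
    intro d v hv
    rw [EE_of hv, hBi]
    exact hF1 ⟨(d, v), hv⟩
  have hker : ∀ x : X.A, Φ x = 0 → x ∈ (RingHom.ker ε) • (⊤ : Submodule R X.A) := by
    intro x hx
    have hc : ∀ (d : Bool) (w : Lt) (x : X.A), cf B₀ d w (Φ x) = ε (cf B d w x) := by
      intro d w x
      refine mem_span_EE (B := B) (P := fun x => cf B₀ d w (Φ x) = ε (cf B d w x)) ?_ ?_ ?_ ?_ x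
      · simp
      · intro x y h1 h2
        rw [map_add, map_add, h1, h2, map_add, map_add]
      · intro r x h1
        rw [hsm, map_smul, h1, map_smul, smul_eq_mul, smul_eq_mul, map_mul]
      · intro d' v hv
        rw [hE, cf_EE, cf_EE]
        split_ifs <;> simp
    rw [mem_smul_top_iff B]
    intro d w
    rw [RingHom.mem_ker, ← hc, hx, map_zero]
  choose c hc using hs
  have hrel : Rel B (fun _ => RingHom.ker ε) (RingHom.ker ε) (fun d κ => c (α₀ d κ)) := by
    refine ⟨?_, ?_, ?_⟩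
    · rw [EE_of (show inD false 0 from inS_zero), hBi]
      exact hF3 _ rfl
    · intro d σ μ hσ hμ
      apply hker
      rw [map_sub, map_mul, hE, hE, hE, h₀.mulS d σ μ hσ hμ, sub_self]
    · intro μ ν hμ hν
      apply hker
      rw [map_add, map_mul, hE, hE, h₀.mulM μ ν hμ hν, map_sum, neg_add_eq_zero]
      refine Finset.sum_congr rfl fun d _ => ?_
      rw [map_sum]
      refine Finset.sum_congr rfl fun κ hκ => ?_
      rw [hsm, hE, hc]
  obtain ⟨B', α', h1, h2, h3, h5⟩ := lift_all hHom hnil hrel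
  refine ⟨B', α', h1, h2.tab, fun d κ => ?_, fun d v => ?_⟩
  · have h4 := h3 d κ
    rw [RingHom.mem_ker, map_sub, hc, sub_eq_zero] at h4
    exact h4
  · rw [← hE d v, ← sub_eq_zero, ← map_sub]
    refine Submodule.smul_induction_on (h5 d v) ?_ ?_
    · intro r hr x _
      rw [hsm, (RingHom.mem_ker).mp hr, zero_smul]
    · intro x y hx hy
      rw [map_add, hx, hy, add_zero]

theorem tab_lift {k : Type} [Field k] {ε : R →+* k} (hs : Function.Surjective ε)
    (hnil : IsNilpotent (RingHom.ker ε)) {X : GrAlg R} {X₀ : GrAlg k} (hbc : IsBC ε X X₀)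
    {B₀ : Basis Ix k X₀.A} {α₀ : Bool → Lt → k} (hB₀ : HomB X₀.gr B₀) (h₀ : Tab B₀ α₀) :
    ∃ (B : Basis Ix R X.A) (α : Bool → Lt → R), HomB X.gr B ∧ Tab B α ∧
      ∀ d κ, ε (α d κ) = α₀ d κ := by
  obtain ⟨Φ, hΦ, hbas⟩ := isBC_iff.mp hbc
  obtain ⟨B, α, h1, h2, h3, _⟩ := tab_lift' hs hnil Φ hΦ hbas hB₀ h₀
  exact ⟨B, α, h1, h2, h3⟩

end Pool.Agent.Helper190_Can
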