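import Pool.Agent.Helper190_Can.CEmb

set_option linter.unusedSimpArgs false
set_option linter.unusedVariables false
set_option linter.unusedSectionVars false
set_option linter.style.haveILetI false

open Module MvPolynomial
open Pool.Agent.Helper190_CoarseTwo (wt zdeg bz ex)

noncomputable section

namespace Pool.Agent.Helper190_Can

variable (k : Type) [Field k]

/-- the canonical form -/
def cE : ⋀[KA k]^2 Ω[KA k⁄k] :=
  (aeval ![cU k, cw k] (pderiv 0 (GA k)))⁻¹ • dd k (cw k) (cz k)

lemma cU_ne : cU k ≠ 0 := by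
  have h := (chartA_one k).ne_zero (X_ne_zero (R := k) (σ := Fin 2) 0)
  rwa [aeval_X] at h

lemma cw_ne : cw k ≠ 0 := by
  have h := (chartA_one k).ne_zero (X_ne_zero (R := k) (σ := Fin 2) 1)
  rwa [aeval_X] at h

lemma cz_ne : cz k ≠ 0 := by
  intro h
  have h1 := ((chartA_one k).inj 0 1 (by rw [map_zero, map_one, h]; ring)).2
  exact one_ne_zero h1

lemma std : Std k (cU k) (cw k) (cz k) (cE k) where
  A := chartA_one k
  B := by
    refine mkB (cz_sq k) dG0_ne ?_ ?_
    · exact smul_ne_zero (inv_ne_zero dG0_ne) dd_ne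
    · rw [cE, smul_smul, mul_inv_cancel₀ dG0_ne, one_smul]
  U0 := cU_ne k
  w0 := cw_ne k
  z0 := cz_ne k
  Uk c h := by
    have h1 : (X 0 : P2 k) = C c := by
      apply (chartA_one k).inj'
      rw [aeval_X, aeval_C]
      exact h
    have h2 := congrArg (eval (0 : Fin 2 → k)) h1
    have h3 := congrArg (eval (1 : Fin 2 → k)) h1
    simp at h2 h3
    rw [← h2] at h3
    exact one_ne_zero h3
  Yk c h := by
    have h1 : (X 0 * X 1 ^ 2 : P2 k) = C c := by
      apply (chartA_one k).inj'
      rw [map_mul, map_pow, aeval_X, aeval_X, aeval_C]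
      exact h
    have h2 := congrArg (eval (0 : Fin 2 → k)) h1
    have h3 := congrArg (eval (1 : Fin 2 → k)) h1
    simp at h2 h3
    rw [← h2] at h3
    exact one_ne_zero h3
  g0 := dG0_ne
  g0' := by
    have hA := (chartA_one k).inv (cU_ne k) (cw_ne k) ((chartA_one k).li (cU_ne k) (cw_ne k))
    apply hA.ne_zero
    intro h
    have h1 := congrArg (eval (0 : Fin 2 → k)) h
    rw [GB] at h1
    simp [pderiv_mul, pderiv_pow, pderiv_X] at h1

lemma algInd : AlgebraicIndependent k ![cU k, cw k] := (chartA_one k).inj'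

lemma trBasis : IsTranscendenceBasis k ![cU k, cw k] := by
  rw [(algInd k).isTranscendenceBasis_iff_isAlgebraic]
  refine ⟨fun f => ?_⟩
  obtain ⟨d, p, q, hd, hdf⟩ := (chartA_one k).gen f
  have hmem : ∀ p : P2 k, aeval ![cU k, cw k] p ∈ Algebra.adjoin k (Set.range ![cU k, cw k]) := by
    intro p
    rw [Algebra.adjoin_range_eq_range_aeval]
    exact ⟨p, rfl⟩
  let T : P2 k → Algebra.adjoin k (Set.range ![cU k, cw k]) := fun p => ⟨_, hmem p⟩
  refine ⟨Polynomial.C (T (d ^ 2)) * Polynomial.X ^ 2 + Polynomial.C (T (-(2 * d * p))) *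
    Polynomial.X + Polynomial.C (T (p ^ 2 + q ^ 2 * GA k)), ?_, ?_⟩
  · intro h0
    have h1 := congrArg (fun P => Polynomial.coeff P 2) h0
    simp only [Polynomial.coeff_add, Polynomial.coeff_C_mul, Polynomial.coeff_X_pow,
      Polynomial.coeff_X, Polynomial.coeff_C, Polynomial.coeff_zero] at h1
    norm_num at h1
    have h2 := congrArg Subtype.val h1
    exact (chartA_one k).ne_zero (pow_ne_zero 2 hd) h2
  · simp only [map_add, map_mul, map_pow, Polynomial.aeval_C, Polynomial.aeval_X]
    change aeval ![cU k, cw k] (d ^ 2) * f ^ 2 + aeval ![cU k, cw k] (-(2 * d * p)) * f +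
      aeval ![cU k, cw k] (p ^ 2 + q ^ 2 * GA k) = 0
    have h3 := cz_sq k
    simp only [map_neg, map_mul, map_add, map_pow, map_ofNat]
    linear_combination (aeval ![cU k, cw k] d * f - aeval ![cU k, cw k] p +
      aeval ![cU k, cw k] q * cz k) * hdf + (aeval ![cU k, cw k] q) ^ 2 * h3

lemma fgK : (⊤ : IntermediateField k (KA k)).FG := by
  classical
  refine ⟨{cU k, cw k, cz k}, ?_⟩
  rw [eq_top_iff]
  rintro f -
  set L := IntermediateField.adjoin k ((({cU k, cw k, cz k} : Finset (KA k)) : Set (KA k)))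
  have hU : cU k ∈ L := IntermediateField.subset_adjoin _ _ (by simp)
  have hw : cw k ∈ L := IntermediateField.subset_adjoin _ _ (by simp)
  have hz : cz k ∈ L := IntermediateField.subset_adjoin _ _ (by simp)
  have hp : ∀ p : P2 k, aeval ![cU k, cw k] p ∈ L := by
    intro p
    induction p using MvPolynomial.induction_on with
    | C a => rw [aeval_C]; exact L.algebraMap_mem a
    | add p q hp hq => rw [map_add]; exact L.add_mem hp hq
    | mul_X p i hp =>
      rw [map_mul, aeval_X]
      refine L.mul_mem hp ?_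
      fin_cases i
      · exact hU
      · exact hw
  obtain ⟨d, p, q, hd, hdf⟩ := (chartA_one k).gen f
  have hd0 := (chartA_one k).ne_zero hd
  have : f = (aeval ![cU k, cw k] d)⁻¹ * (aeval ![cU k, cw k] p + aeval ![cU k, cw k] q * cz k) := by
    rw [← hdf, ← mul_assoc, inv_mul_cancel₀ hd0, one_mul]
  rw [this]
  exact L.mul_mem (L.inv_mem (hp d)) (L.add_mem (hp p) (L.mul_mem (hp q) hz))

variable {k}

/-- the image of a graded piece -/
lemma image_piece {K : Type} [Field K] [Algebra k K] {U w ζ : K} {A : Type} [CommRing A]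
    [Algebra k A] {gr : ℕ → Submodule k A} [GradedAlgebra gr] {B : Basis Ix k A}
    (hB : HomB gr B) (n : ℕ) : (emb B U w ζ '' (gr n : Set A)) =
      {F | ∃ f : K, F = Polynomial.monomial n f ∧
        f ∈ Submodule.span k (Bm U w ζ '' VSet n)} := by
  ext F
  constructor
  · rintro ⟨x, hx, rfl⟩
    rw [← eq_bsum hB hx]
    generalize (fun d v => cf B d v x) = φ
    refine ⟨∑ d, ∑ v ∈ box n, φ d v • (if inD d v then Bm U w ζ (mx d v) else 0), ?_, ?_⟩
    · rw [bsum, map_sum, map_sum]
      refine Finset.sum_congr rfl fun d _ => ?_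
      rw [map_sum, map_sum]
      refine Finset.sum_congr rfl fun v hv => ?_
      rw [map_smul]
      split_ifs with h
      · have h1 := (mem_box h).mp hv
        rw [emb_EE B h, Polynomial.smul_monomial, h1, Int.toNat_natCast]
      · rw [EE_out h, map_zero, smul_zero, smul_zero, map_zero]
    · refine Submodule.sum_mem _ fun d _ => Submodule.sum_mem _ fun v hv => ?_
      refine Submodule.smul_mem _ _ ?_
      split_ifs with h
      · exact Submodule.subset_span ⟨mx d v, mx_valid h ((mem_box h).mp hv), rfl⟩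
      · exact Submodule.zero_mem _
  · rintro ⟨f, rfl, hf⟩
    refine Submodule.span_induction (p := fun f _ => Polynomial.monomial n f ∈
      (emb B U w ζ '' (gr n : Set A))) ?_ ?_ ?_ ?_ hf
    · rintro _ ⟨x, hx, rfl⟩
      obtain ⟨v, h1, h2, h3⟩ := valid_mx hx
      refine ⟨EE B x.2.2 v, ?_, ?_⟩
      · have := hB x.2.2 v h1
        rwa [h2, Int.toNat_natCast] at this
      · rw [emb_EE B h1, h3, h2, Int.toNat_natCast]
    · exact ⟨0, (gr n).zero_mem, by simp⟩
    · rintro x y _ _ ⟨a, ha, hax⟩ ⟨b, hb, hby⟩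
      exact ⟨a + b, (gr n).add_mem ha hb, by rw [map_add, hax, hby, map_add]⟩
    · rintro r x _ ⟨a, ha, hax⟩
      exact ⟨r • a, (gr n).smul_mem r ha, by rw [map_smul, hax, Polynomial.smul_monomial]⟩

variable (k) in
/-- the differentials are spanned by `dw, dζ` -/
lemma D_span (f : KA k) : ∃ a b : KA k, KaehlerDifferential.D k (KA k) f =
    a • KaehlerDifferential.D k (KA k) (cw k) + b • KaehlerDifferential.D k (KA k) (cz k) := by
  set S := Submodule.span (KA k) {KaehlerDifferential.D k (KA k) (cw k),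
    KaehlerDifferential.D k (KA k) (cz k)} with hS
  have hw : KaehlerDifferential.D k (KA k) (cw k) ∈ S := Submodule.subset_span (by simp)
  have hz : KaehlerDifferential.D k (KA k) (cz k) ∈ S := Submodule.subset_span (by simp)
  have hU : KaehlerDifferential.D k (KA k) (cU k) ∈ S := by
    have h1 := congrArg (KaehlerDifferential.D k (KA k)) (cz_sq k)
    rw [map_add, map_zero, Derivation.leibniz_pow, D_aeval, Fin.sum_univ_two] at h1
    have h2 : aeval ![cU k, cw k] (pderiv 0 (GA k)) • KaehlerDifferential.D k (KA k) (cU k) ∈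
        S := by
      have h3 : aeval ![cU k, cw k] (pderiv 0 (GA k)) • KaehlerDifferential.D k (KA k) (cU k) =
          -(2 • cz k ^ (2 - 1) • KaehlerDifferential.D k (KA k) (cz k)) -
          aeval ![cU k, cw k] (pderiv 1 (GA k)) • KaehlerDifferential.D k (KA k) (cw k) := by
        rw [eq_sub_iff_add_eq, eq_neg_iff_add_eq_zero, add_comm]
        exact h1
      rw [h3]
      exact S.sub_mem (S.neg_mem (S.smul_of_tower_mem 2 (S.smul_mem _ hz))) (S.smul_mem _ hw)
    have h4 := S.smul_mem (aeval ![cU k, cw k] (pderiv 0 (GA k)))⁻¹ h2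
    rwa [smul_smul, inv_mul_cancel₀ dG0_ne, one_smul] at h4
  have hp : ∀ p : P2 k, KaehlerDifferential.D k (KA k) (aeval ![cU k, cw k] p) ∈ S := by
    intro p
    rw [D_aeval, Fin.sum_univ_two]
    exact S.add_mem (S.smul_mem _ hU) (S.smul_mem _ hw)
  have hf : KaehlerDifferential.D k (KA k) f ∈ S := by
    obtain ⟨d, p, q, hd, hdf⟩ := (chartA_one k).gen f
    have hd0 := (chartA_one k).ne_zero hd
    have h1 := congrArg (KaehlerDifferential.D k (KA k)) hdf
    rw [Derivation.leibniz, map_add, Derivation.leibniz] at h1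
    have h2 : aeval ![cU k, cw k] d • KaehlerDifferential.D k (KA k) f ∈ S := by
      rw [eq_sub_of_add_eq h1]
      refine S.sub_mem (S.add_mem (hp p) (S.add_mem (S.smul_mem _ hz) (S.smul_mem _ (hp q)))) ?_
      exact S.smul_mem _ (hp d)
    have h4 := S.smul_mem (aeval ![cU k, cw k] d)⁻¹ h2
    rwa [smul_smul, inv_mul_cancel₀ hd0, one_smul] at h4
  obtain ⟨a, b, hab⟩ := Submodule.mem_span_pair.mp hf
  exact ⟨a, b, hab.symm⟩

/-- rescaling the form -/
lemma isRegW_smul_iff {K : Type} [Field K] [Algebra k K] {e : ⋀[K]^2 Ω[K⁄k]} {c : K} (hc : c ≠ 0)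
    {n : ℕ} {f : K} {V : ValuationSubring K} :
    IsRegW (c • e) n f V ↔ IsRegW e n (f * c ^ n) V := by
  constructor
  · rintro ⟨u, hu, v, hv, j, hj, hf⟩
    refine ⟨u, hu, v, hv, c⁻¹ * j, ?_, ?_⟩
    · rw [mul_smul, ← hj, smul_smul, inv_mul_cancel₀ hc, one_smul]
    · have e1 : f * c ^ n * (c⁻¹ * j) ^ n = f * j ^ n := by
        rw [mul_pow, mul_assoc, ← mul_assoc (c ^ n), ← mul_pow, mul_inv_cancel₀ hc, one_pow,
          one_mul]
      rw [e1]; exact hf
  · rintro ⟨u, hu, v, hv, j, hj, hf⟩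
    refine ⟨u, hu, v, hv, c * j, ?_, ?_⟩
    · rw [mul_smul, ← hj]
    · rw [mul_pow, ← mul_assoc]; exact hf

variable (k) in
/-- the basis of the differential forms -/
def cx : Fin 2 → KA k := ![cw k, cz k]

lemma dd_cx : dd k (cx k 0) (cx k 1) = (aeval ![cU k, cw k] (pderiv 0 (GA k))) • cE k := by
  have hx0 : cx k 0 = cw k := rfl
  have hx1 : cx k 1 = cz k := rfl
  rw [hx0, hx1, cE, smul_smul, mul_inv_cancel₀ dG0_ne, one_smul]

lemma dd_cx_ne : dd k (cx k 0) (cx k 1) ≠ 0 := by
  have hx0 : cx k 0 = cw k := rfl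
  have hx1 : cx k 1 = cz k := rfl
  rw [hx0, hx1]
  exact dd_ne

lemma isReg_cx {n : ℕ} {f : KA k} {V : ValuationSubring (KA k)} : IsReg k (cx k) n f V ↔
    IsRegW (cE k) n (f * (aeval ![cU k, cw k] (pderiv 0 (GA k))) ^ n) V := by
  have hs : ∀ f : KA k, ∃ a b : KA k, KaehlerDifferential.D k (KA k) f =
      a • KaehlerDifferential.D k (KA k) (cx k 0) +
      b • KaehlerDifferential.D k (KA k) (cx k 1) := by
    have hx0 : cx k 0 = cw k := rfl
    have hx1 : cx k 1 = cz k := rfl
    rw [hx0, hx1]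
    exact D_span k
  rw [isReg_iff dd_cx_ne hs, dd_cx]
  exact isRegW_smul_iff dG0_ne

/-- the canonical ring of `S_{0,bz}` is a canonical ring -/
theorem isCanonicalRing_of_tab [IsAlgClosed k] (hchar : CharZero k ∨ CharP k 2) {Y : GrAlg k}
    {B : Basis Ix k Y.A} {α : Bool → Lt → k} (hB : HomB Y.gr B) (h : Tab B α)
    (hα : pol false α = bz k 2) (hα' : ∀ κ, α true κ = 0) : IsCanonicalRing k Y := by
  have hs := std k
  set g := aeval ![cU k, cw k] (pderiv 0 (GA k)) with hg
  have hg0 : g ≠ 0 := dG0_ne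
  let σ : Polynomial (KA k) →ₐ[k] Polynomial (KA k) :=
    (Polynomial.aeval (Polynomial.C g⁻¹ * Polynomial.X)).restrictScalars k
  let τ : Polynomial (KA k) →ₐ[k] Polynomial (KA k) :=
    (Polynomial.aeval (Polynomial.C g * Polynomial.X)).restrictScalars k
  have hσ : ∀ n (f : KA k), σ (Polynomial.monomial n f) = Polynomial.monomial n (f * g⁻¹ ^ n) := by
    intro n f
    change Polynomial.aeval (Polynomial.C g⁻¹ * Polynomial.X) (Polynomial.monomial n f) = _
    rw [Polynomial.aeval_monomial, mul_pow, ← Polynomial.C_pow, Polynomial.algebraMap_eq,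
      ← mul_assoc, ← Polynomial.C_mul, Polynomial.C_mul_X_pow_eq_monomial]
  have hτσ : ∀ F, τ (σ F) = F := by
    intro F
    induction F using Polynomial.induction_on' with
    | add p q hp hq => rw [map_add, map_add, hp, hq]
    | monomial n f =>
      rw [hσ]
      change Polynomial.aeval (Polynomial.C g * Polynomial.X)
        (Polynomial.monomial n (f * g⁻¹ ^ n)) = _
      rw [Polynomial.aeval_monomial, mul_pow, ← Polynomial.C_pow, Polynomial.algebraMap_eq,
        ← mul_assoc, ← Polynomial.C_mul, Polynomial.C_mul_X_pow_eq_monomial, mul_assoc, ← mul_pow,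
        inv_mul_cancel₀ hg0, one_pow, mul_one]
  refine ⟨KA k, inferInstance, inferInstance, cx k,
    σ.comp (embHom h hα hα' hs.U0 hs.w0 hs.A.sq), fgK k, ?_, ?_, ?_, ?_⟩
  · have h1 := (trBasis k).lift_cardinalMk_eq_trdeg
    simpa using h1.symm
  · exact li_of_dd dd_cx_ne
  · intro a b hab
    apply emb_injective (B := B) (hs.A.li hs.U0 hs.w0)
    have h1 := congrArg τ hab
    change τ (σ _) = τ (σ _) at h1
    rw [hτσ, hτσ] at h1
    exact h1
  · intro n
    have h1 := image_piece (U := cU k) (w := cw k) (ζ := cz k) hB n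
    have h2 : (σ.comp (embHom h hα hα' hs.U0 hs.w0 hs.A.sq)) '' (Y.gr n : Set Y.A) =
        σ '' (emb B (cU k) (cw k) (cz k) '' (Y.gr n : Set Y.A)) := by
      rw [Set.image_image]; rfl
    rw [h2, h1]
    ext F
    constructor
    · rintro ⟨_, ⟨f, rfl, hf⟩, rfl⟩
      refine ⟨f * g⁻¹ ^ n, hσ n f, fun V hV => ?_⟩
      rw [isReg_cx]
      have e1 : f * g⁻¹ ^ n * g ^ n = f := by
        rw [mul_assoc, ← mul_pow, inv_mul_cancel₀ hg0, one_pow, mul_one]
      rw [e1]
      exact (regular_iff hchar hs n f).mpr hf V hV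
    · rintro ⟨f, rfl, hf⟩
      refine ⟨Polynomial.monomial n (f * g ^ n), ⟨f * g ^ n, rfl, ?_⟩, ?_⟩
      · rw [← regular_iff hchar hs n (f * g ^ n)]
        intro V hV
        exact isReg_cx.mp (hf V hV)
      · rw [hσ, mul_assoc, ← mul_pow, mul_inv_cancel₀ hg0, one_pow, mul_one]

end Pool.Agent.Helper190_Can
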