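import Mathlib

set_option linter.unusedSimpArgs false
set_option linter.unusedVariables false

open MvPolynomial

noncomputable section

namespace Pool.Agent.Helper190_Can

variable {k : Type} [Field k]

abbrev P2 (k : Type) [Field k] : Type := MvPolynomial (Fin 2) k

/-- nondegeneracy of the critical points of `G` which matter -/
def NodeG (G : P2 k) : Prop := ∀ a : Fin 2 → k, a 0 ≠ 0 → ((2 : k) = 0 ∨ eval a G = 0) →
  eval a (pderiv 0 G) = 0 → eval a (pderiv 1 G) = 0 →
  eval a (pderiv 0 (pderiv 0 G)) * eval a (pderiv 1 (pderiv 1 G)) -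
    eval a (pderiv 0 (pderiv 1 G)) ^ 2 ≠ 0

lemma exists_point [IsAlgClosed k] {π g : P2 k} (hπ : Irreducible π) (hg : ¬ π ∣ g) :
    ∃ a : Fin 2 → k, eval a π = 0 ∧ eval a g ≠ 0 := by
  by_contra hcon
  push Not at hcon
  apply hg
  have hp : Prime π := hπ.prime
  have hP : (Ideal.span {π}).IsPrime := (Ideal.span_singleton_prime hp.ne_zero).mpr hp
  have h1 := MvPolynomial.IsPrime.vanishingIdeal_zeroLocus (K := k) (Ideal.span {π})
  rw [← Ideal.mem_span_singleton, ← h1, mem_vanishingIdeal_iff]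
  intro a ha
  rw [mem_zeroLocus_iff] at ha
  exact hcon a (ha π (Ideal.mem_span_singleton_self π))

lemma totalDegree_pos {π : P2 k} (hπ : Irreducible π) : 1 ≤ π.totalDegree := by
  by_contra h
  have h0 : π.totalDegree = 0 := by omega
  rw [totalDegree_eq_zero_iff_eq_C] at h0
  have h1 : π ≠ 0 := hπ.ne_zero
  apply hπ.not_isUnit
  rw [h0]
  apply IsUnit.map
  rw [isUnit_iff_ne_zero]
  intro h2
  rw [h2, map_zero] at h0
  exact h1 h0

lemma bad_one [IsAlgClosed k] (h2 : (2 : k) ≠ 0) {G π : P2 k} (hG : NodeG G) (hπ : Irreducible π)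
    (hX : ¬ π ∣ X 0) (h : π ^ 2 ∣ G) : False := by
  obtain ⟨H, rfl⟩ := h
  obtain ⟨a, ha, ha0⟩ := exists_point hπ hX
  rw [eval_X] at ha0
  refine hG a ha0 (Or.inr ?_) ?_ ?_ ?_
  · rw [map_mul, map_pow, ha]; ring
  · simp only [pow_two, pderiv_mul, map_add, map_mul, ha]; ring
  · simp only [pow_two, pderiv_mul, map_add, map_mul, ha]; ring
  · simp only [pow_two, pderiv_mul, map_add, map_mul, ha]; ring

lemma bad_two [IsAlgClosed k] (h2 : (2 : k) = 0) {G π S c H : P2 k} (hG : NodeG G)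
    (hπ : Irreducible π) (hX : ¬ π ∣ X 0) (hS : ¬ π ∣ S) (h : S ^ 2 * G = c ^ 2 + π ^ 2 * H) :
    False := by
  have h2' : (2 : P2 k) = 0 := by
    have := congrArg (C : k → P2 k) h2
    rwa [map_ofNat, map_zero] at this
  have hSX : ¬ π ∣ S * X 0 := by
    intro h'
    rcases hπ.prime.dvd_or_dvd h' with h' | h'
    · exact hS h'
    · exact hX h'
  obtain ⟨a, ha, ha0⟩ := exists_point hπ hSX
  rw [map_mul, eval_X] at ha0
  have haS : eval a S ≠ 0 := left_ne_zero_of_mul ha0
  have ha1 : a 0 ≠ 0 := right_ne_zero_of_mul ha0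
  have d1 : ∀ i, S ^ 2 * pderiv i G = π ^ 2 * pderiv i H := by
    intro i
    have h3 := congrArg (pderiv i) h
    simp only [pow_two, pderiv_mul, map_add] at h3
    linear_combination h3 + (c * pderiv i c + π * pderiv i π * H - S * pderiv i S * G) * h2'
  have d2 : ∀ i j, S ^ 2 * pderiv j (pderiv i G) = π ^ 2 * pderiv j (pderiv i H) := by
    intro i j
    have h3 := congrArg (pderiv j) (d1 i)
    simp only [pow_two, pderiv_mul, map_add] at h3
    linear_combination h3 + (π * pderiv j π * pderiv i H - S * pderiv j S * pderiv i G) * h2'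
  have e1 : ∀ i, eval a (pderiv i G) = 0 := by
    intro i
    have h3 := congrArg (eval a) (d1 i)
    rw [map_mul, map_mul, map_pow, map_pow, ha] at h3
    have h4 : eval a S ^ 2 * eval a (pderiv i G) = 0 := by rw [h3]; ring
    exact (mul_eq_zero.mp h4).resolve_left (pow_ne_zero 2 haS)
  have e2 : ∀ i j, eval a (pderiv j (pderiv i G)) = 0 := by
    intro i j
    have h3 := congrArg (eval a) (d2 i j)
    rw [map_mul, map_mul, map_pow, map_pow, ha] at h3
    have h4 : eval a S ^ 2 * eval a (pderiv j (pderiv i G)) = 0 := by rw [h3]; ring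
    exact (mul_eq_zero.mp h4).resolve_left (pow_ne_zero 2 haS)
  refine hG a ha1 (Or.inl h2) (e1 0) (e1 1) ?_
  rw [e2, e2, e2]; ring

/-- the divisibility statement behind normality in codimension one -/
lemma normal_dvd [IsAlgClosed k] {G π s p q h c c' : P2 k} (hG : NodeG G)
    (hπ : Irreducible π) (hX : ¬ π ∣ X 0) (hs : ¬ π ∣ s) (hh : π ∣ h)
    (hpq : ¬ (π ∣ p ∧ π ∣ q)) (h1 : h * c = 2 * s * p)
    (h2 : h ^ 2 * c' = s ^ 2 * (p ^ 2 + q ^ 2 * G)) : False := by
  have hp := hπ.prime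
  obtain ⟨h', rfl⟩ := hh
  by_cases h22 : (2 : k) = 0
  · have h2' : (2 : P2 k) = 0 := by
      have := congrArg (C : k → P2 k) h22
      rwa [map_ofNat, map_zero] at this
    by_cases hq : π ∣ q
    · obtain ⟨q', rfl⟩ := hq
      apply hpq
      refine ⟨?_, dvd_mul_right _ _⟩
      have h3 : π ∣ s ^ 2 * p ^ 2 := by
        refine ⟨π * (h' ^ 2 * c' - s ^ 2 * q' ^ 2 * G), ?_⟩
        linear_combination -h2
      rcases hp.dvd_or_dvd h3 with h4 | h4
      · exact absurd (hp.dvd_of_dvd_pow h4) hs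
      · exact hp.dvd_of_dvd_pow h4
    · refine bad_two h22 hG hπ hX (S := s * q) (c := s * p) (H := h' ^ 2 * c') ?_ ?_
      · intro h3
        rcases hp.dvd_or_dvd h3 with h4 | h4
        · exact hs h4
        · exact hq h4
      · linear_combination -h2 - s ^ 2 * p ^ 2 * h2'
  · have hπp : π ∣ p := by
      have h3 : π ∣ 2 * s * p := ⟨h' * c, by linear_combination -h1⟩
      rcases hp.dvd_or_dvd h3 with h4 | h4
      · rcases hp.dvd_or_dvd h4 with h5 | h5
        · exfalso
          apply hp.not_isUnit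
          refine isUnit_of_dvd_unit h5 ?_
          have h6 : (2 : P2 k) = C 2 := by rw [map_ofNat]
          rw [h6]
          exact (isUnit_iff_ne_zero.mpr h22).map _
        · exact absurd h5 hs
      · exact h4
    obtain ⟨p', rfl⟩ := hπp
    have hq : ¬ π ∣ q := fun h3 => hpq ⟨dvd_mul_right _ _, h3⟩
    apply bad_one h22 hG hπ hX
    have h3 : π ^ 2 ∣ (s * q) ^ 2 * G := by
      refine ⟨h' ^ 2 * c' - s ^ 2 * p' ^ 2, ?_⟩
      linear_combination -h2
    refine Prime.pow_dvd_of_dvd_mul_left hp 2 ?_ h3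
    intro h4
    rcases hp.dvd_or_dvd (hp.dvd_of_dvd_pow h4) with h5 | h5
    · exact hs h5
    · exact hq h5

end Pool.Agent.Helper190_Can
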