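import Pool.Agent.Helper190_Can.CVal
import Pool.Agent.Helper190_Can.CPoly

set_option linter.unusedSimpArgs false
set_option linter.unusedVariables false
set_option linter.style.haveILetI false

open MvPolynomial

noncomputable section

namespace Pool.Agent.Helper190_Can

variable {k K : Type} [Field k] [Field K] [Algebra k K]

/-- a chart of the surface: `K` is generated by `U, w, ζ` with `ζ² + G(U, w) = 0` -/
structure ChartA (G : P2 k) (U w ζ : K) : Prop where
  inj : ∀ p q : P2 k, aeval ![U, w] p + aeval ![U, w] q * ζ = 0 → p = 0 ∧ q = 0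
  gen : ∀ f : K, ∃ h p q : P2 k, h ≠ 0 ∧ aeval ![U, w] h * f = aeval ![U, w] p +
    aeval ![U, w] q * ζ
  conj : ∃ σ : K →ₐ[k] K, σ U = U ∧ σ w = w ∧ σ ζ = -ζ
  sq : ζ ^ 2 + aeval ![U, w] G = 0

/-- the differential relations -/
structure ChartB (G : P2 k) (U w ζ : K) (e : ⋀[K]^2 Ω[K⁄k]) : Prop where
  ne : e ≠ 0
  E0 : aeval ![U, w] (pderiv 0 G) • e = dd k w ζ
  E1 : aeval ![U, w] (pderiv 1 G) • e = dd k ζ U
  E2 : (2 * ζ) • e = dd k U w

section
variable {G : P2 k} {U w ζ : K}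

lemma ChartA.inj' (h : ChartA G U w ζ) : Function.Injective (aeval ![U, w] : P2 k →ₐ[k] K) := by
  rw [injective_iff_map_eq_zero]
  intro p hp
  exact (h.inj p 0 (by rw [hp, map_zero]; ring)).1

lemma ChartA.ne_zero (h : ChartA G U w ζ) {p : P2 k} (hp : p ≠ 0) : aeval ![U, w] p ≠ 0 :=
  fun h0 => hp (h.inj' (h0.trans (map_zero _).symm))

/-- reduced representations -/
lemma ChartA.rep (h : ChartA G U w ζ) (f : K) : ∃ d p q : P2 k, d ≠ 0 ∧
    aeval ![U, w] d * f = aeval ![U, w] p + aeval ![U, w] q * ζ ∧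
    ∀ π : P2 k, Irreducible π → π ∣ d → ¬ (π ∣ p ∧ π ∣ q) := by
  classical
  have hex : ∃ n : ℕ, ∃ d p q : P2 k, d ≠ 0 ∧ d.totalDegree = n ∧
      aeval ![U, w] d * f = aeval ![U, w] p + aeval ![U, w] q * ζ := by
    obtain ⟨d, p, q, h1, h2⟩ := h.gen f
    exact ⟨_, d, p, q, h1, rfl, h2⟩
  obtain ⟨d, p, q, h1, h2, h3⟩ := Nat.find_spec hex
  refine ⟨d, p, q, h1, h3, ?_⟩
  rintro π hπ ⟨d', rfl⟩ ⟨⟨p', rfl⟩, ⟨q', rfl⟩⟩
  have hd' : d' ≠ 0 := right_ne_zero_of_mul h1
  have h4 := totalDegree_mul_of_isDomain hπ.ne_zero hd'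
  have h5 := totalDegree_pos hπ
  refine Nat.find_min hex (m := d'.totalDegree) (by omega) ⟨d', p', q', hd', rfl, ?_⟩
  have h6 := h.ne_zero hπ.ne_zero
  apply mul_left_cancel₀ h6
  simp only [map_mul] at h3
  linear_combination h3

/-- quadratic equations without common factor -/
lemma ChartA.quad (h : ChartA G U w ζ) (u : K) {π : P2 k} (hπ : Irreducible π) :
    ∃ a b c : P2 k, ¬ (π ∣ a ∧ π ∣ b ∧ π ∣ c) ∧
    aeval ![U, w] a * u ^ 2 + aeval ![U, w] b * u + aeval ![U, w] c = 0 := by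
  classical
  have hex : ∃ n : ℕ, ∃ a b c : P2 k, a ≠ 0 ∧ a.totalDegree = n ∧
      aeval ![U, w] a * u ^ 2 + aeval ![U, w] b * u + aeval ![U, w] c = 0 := by
    obtain ⟨d, p, q, h1, h2⟩ := h.gen u
    refine ⟨_, d ^ 2, -(2 * d * p), p ^ 2 + q ^ 2 * G, pow_ne_zero 2 h1, rfl, ?_⟩
    have h3 := h.sq
    simp only [map_neg, map_mul, map_add, map_pow, map_ofNat]
    linear_combination (aeval ![U, w] d * u - aeval ![U, w] p + aeval ![U, w] q * ζ) * h2 +
      (aeval ![U, w] q) ^ 2 * h3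
  obtain ⟨a, b, c, h1, h2, h3⟩ := Nat.find_spec hex
  refine ⟨a, b, c, ?_, h3⟩
  rintro ⟨⟨a', rfl⟩, ⟨b', rfl⟩, ⟨c', rfl⟩⟩
  have ha' : a' ≠ 0 := right_ne_zero_of_mul h1
  have h4 := totalDegree_mul_of_isDomain hπ.ne_zero ha'
  have h5 := totalDegree_pos hπ
  refine Nat.find_min hex (m := a'.totalDegree) (by omega) ⟨a', b', c', ha', rfl, ?_⟩
  have h6 := h.ne_zero hπ.ne_zero
  apply mul_left_cancel₀ h6
  simp only [map_mul] at h3
  linear_combination h3

/-- integrality over the polynomial ring -/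
def IntC (U w x : K) : Prop := (aeval ![U, w] : P2 k →ₐ[k] K).toRingHom.IsIntegralElem x

end

section
variable {G : P2 k} {U w ζ : K} 

lemma ChartA.intC_descend (h : ChartA G U w ζ) {x : K} {d a : P2 k} (hd : d ≠ 0)
    (hx : aeval ![U, w] d * x = aeval ![U, w] a) (hi : IntC (k := k) U w x) :
    ∃ c : P2 k, x = aeval ![U, w] c := by
  letI : Algebra (P2 k) K := (aeval ![U, w] : P2 k →ₐ[k] K).toRingHom.toAlgebra
  have hinj : Function.Injective (algebraMap (P2 k) K) := h.inj'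
  haveI : FaithfulSMul (P2 k) K := (faithfulSMul_iff_algebraMap_injective _ _).mpr hinj
  letI := FractionRing.liftAlgebra (P2 k) K
  have hF : IsScalarTower (P2 k) (FractionRing (P2 k)) K := inferInstance
  let y : FractionRing (P2 k) := algebraMap (P2 k) _ a / algebraMap (P2 k) _ d
  have hd' : algebraMap (P2 k) (FractionRing (P2 k)) d ≠ 0 := by
    rwa [Ne, IsFractionRing.to_map_eq_zero_iff]
  have hy : algebraMap (FractionRing (P2 k)) K y = x := by
    have h1 : algebraMap (FractionRing (P2 k)) K (algebraMap (P2 k) _ a) = aeval ![U, w] a := by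
      rw [← IsScalarTower.algebraMap_apply]; rfl
    have h2 : algebraMap (FractionRing (P2 k)) K (algebraMap (P2 k) _ d) = aeval ![U, w] d := by
      rw [← IsScalarTower.algebraMap_apply]; rfl
    rw [map_div₀, h1, h2, ← hx, mul_div_assoc, mul_comm, div_mul_cancel₀]
    exact h.ne_zero hd
  have hi' : IsIntegral (P2 k) x := hi
  rw [← hy, isIntegral_algebraMap_iff (algebraMap (FractionRing (P2 k)) K).injective] at hi'
  obtain ⟨c, hc⟩ := IsIntegrallyClosed.algebraMap_eq_of_integral hi'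
  refine ⟨c, ?_⟩
  rw [← hy, ← hc, ← IsScalarTower.algebraMap_apply]
  rfl

/-- normality in codimension one -/
theorem ChartA.not_intC [IsAlgClosed k] (h : ChartA G U w ζ) (hG : NodeG G) {f : K}
    {π d p q : P2 k} (hπ : Irreducible π) (hX : ¬ π ∣ X 0) (hd0 : d ≠ 0) (hd : π ∣ d)
    (hpq : ¬ (π ∣ p ∧ π ∣ q))
    (hf : aeval ![U, w] d * f = aeval ![U, w] p + aeval ![U, w] q * ζ) {s : P2 k}
    (hs : ¬ π ∣ s) : ¬ IntC (k := k) U w (aeval ![U, w] s * f) := by
  intro hi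
  obtain ⟨σ, hσU, hσw, hσz⟩ := h.conj
  have hσp : ∀ a : P2 k, σ (aeval ![U, w] a) = aeval ![U, w] a := by
    intro a
    have h1 : σ.comp (aeval ![U, w]) = (aeval ![U, w] : P2 k →ₐ[k] K) := by
      apply MvPolynomial.algHom_ext
      intro i
      fin_cases i
      · simpa using hσU
      · simpa using hσw
    exact DFunLike.congr_fun h1 a
  letI : Algebra (P2 k) K := (aeval ![U, w] : P2 k →ₐ[k] K).toRingHom.toAlgebra
  have hi' : IsIntegral (P2 k) (aeval ![U, w] s * f) := hi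
  let σ' : K →ₐ[P2 k] K := { σ with commutes' := hσp }
  have hi2 : IsIntegral (P2 k) (σ (aeval ![U, w] s * f)) := hi'.map σ'
  have hsf : aeval ![U, w] d * σ f = aeval ![U, w] p - aeval ![U, w] q * ζ := by
    have h1 := congrArg σ hf
    rw [map_mul, map_add, map_mul, hσp, hσp, hσp, hσz] at h1
    linear_combination h1
  rw [map_mul, hσp] at hi2
  have ht := hi'.add hi2
  have hn := hi'.mul hi2
  obtain ⟨c, hc⟩ := h.intC_descend (a := 2 * s * p) hd0 (by
    simp only [map_mul, map_ofNat]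
    linear_combination (aeval ![U, w] s) * hf + (aeval ![U, w] s) * hsf) ht
  obtain ⟨c', hc'⟩ := h.intC_descend (d := d ^ 2) (a := s ^ 2 * (p ^ 2 + q ^ 2 * G))
    (pow_ne_zero 2 hd0) (by
    have h3 := h.sq
    simp only [map_mul, map_add, map_pow]
    linear_combination (aeval ![U, w] s) ^ 2 * (aeval ![U, w] d * σ f) * hf +
      (aeval ![U, w] s) ^ 2 * (aeval ![U, w] p + aeval ![U, w] q * ζ) * hsf -
      (aeval ![U, w] s) ^ 2 * (aeval ![U, w] q) ^ 2 * h3) hn
  refine normal_dvd hG hπ hX hs hd hpq (c := c) (c' := c') ?_ ?_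
  · apply h.inj'
    simp only [map_mul, map_ofNat]
    rw [← hc]
    linear_combination (aeval ![U, w] s) * hf + (aeval ![U, w] s) * hsf
  · apply h.inj'
    have h3 := h.sq
    simp only [map_mul, map_add, map_pow]
    rw [← hc']
    linear_combination (aeval ![U, w] s) ^ 2 * (aeval ![U, w] d * σ f) * hf +
      (aeval ![U, w] s) ^ 2 * (aeval ![U, w] p + aeval ![U, w] q * ζ) * hsf -
      (aeval ![U, w] s) ^ 2 * (aeval ![U, w] q) ^ 2 * h3

/-- the integral elements: reduced denominators -/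
lemma ChartA.rep_int [IsAlgClosed k] (h : ChartA G U w ζ) (hG : NodeG G) {v : K}
    {π : P2 k} (hπ : Irreducible π) (hX : ¬ π ∣ X 0) {s : P2 k} (hs : ¬ π ∣ s)
    (hi : IntC (k := k) U w (aeval ![U, w] s * v)) : ∃ d p q : P2 k, ¬ π ∣ d ∧
    aeval ![U, w] d * v = aeval ![U, w] p + aeval ![U, w] q * ζ := by
  obtain ⟨d, p, q, h1, h2, h3⟩ := h.rep v
  refine ⟨d, p, q, ?_, h2⟩
  intro hd
  exact h.not_intC hG hπ hX h1 hd (h3 π hπ hd) h2 hs hi

end

end Pool.Agent.Helper190_Can
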