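import Pool.Agent.Helper190_Can.CChart

set_option linter.unusedSimpArgs false
set_option linter.unusedVariables false
set_option linter.style.haveILetI false

open MvPolynomial

noncomputable section

namespace Pool.Agent.Helper190_Can

variable {k K : Type} [Field k] [Field K] [Algebra k K]

/-! ### scalar calculus for forms -/

lemma sc_swap {e : ⋀[K]^2 Ω[K⁄k]} {u v s : K} (h : dd k u v = s • e) : dd k v u = (-s) • e := by
  rw [dd_comm, h]
  apply neg_eq_of_add_eq_zero_left
  rw [← add_smul, neg_add_cancel, zero_smul]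

lemma sc_self {e : ⋀[K]^2 Ω[K⁄k]} (u : K) : dd k u u = (0 : K) • e := by
  rw [dd_self, zero_smul]

lemma sc_mul_left {e : ⋀[K]^2 Ω[K⁄k]} {u u' v s s' : K} (h : dd k u v = s • e)
    (h' : dd k u' v = s' • e) : dd k (u * u') v = (u * s' + u' * s) • e := by
  rw [dd_mul_left, h, h', smul_smul, smul_smul, ← add_smul]

lemma sc_mul_right {e : ⋀[K]^2 Ω[K⁄k]} {u v v' s s' : K} (h : dd k u v = s • e)
    (h' : dd k u v' = s' • e) : dd k u (v * v') = (v * s' + v' * s) • e := by
  rw [dd_mul_right, h, h', smul_smul, smul_smul, ← add_smul]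

lemma sc_inv_left {e : ⋀[K]^2 Ω[K⁄k]} {u v s : K} (hu : u ≠ 0) (h : dd k u v = s • e) :
    dd k u⁻¹ v = (-(u⁻¹ ^ 2 * s)) • e := by
  have h1 : dd k (u * u⁻¹) v = 0 := by
    rw [mul_inv_cancel₀ hu]
    have := dd_const_left (1 : k) v
    rwa [map_one] at this
  rw [dd_mul_left, h, smul_smul] at h1
  have h2 : u⁻¹ • (u • dd k u⁻¹ v + (u⁻¹ * s) • e) = 0 := by rw [h1, smul_zero]
  rw [smul_add, smul_smul, smul_smul, inv_mul_cancel₀ hu, one_smul] at h2
  have h3 := eq_neg_of_add_eq_zero_left h2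
  rw [h3]
  apply neg_eq_of_add_eq_zero_left
  rw [← add_smul]
  have : -(u⁻¹ ^ 2 * s) + u⁻¹ * (u⁻¹ * s) = 0 := by ring
  rw [this, zero_smul]

lemma sc_inv_right {e : ⋀[K]^2 Ω[K⁄k]} {u v s : K} (hv : v ≠ 0) (h : dd k u v = s • e) :
    dd k u v⁻¹ = (-(v⁻¹ ^ 2 * s)) • e := by
  have h1 := sc_swap (sc_inv_left hv (sc_swap h))
  rw [h1]
  congr 1
  ring

lemma sc_pow_left {e : ⋀[K]^2 Ω[K⁄k]} {u v s : K} (h : dd k u v = s • e) (n : ℕ) :
    dd k (u ^ (n + 1)) v = (((n + 1 : ℕ) : K) * u ^ n * s) • e := by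
  induction n with
  | zero => simp [h]
  | succ n ih =>
    rw [pow_succ, sc_mul_left ih h]
    congr 1
    push_cast
    ring

lemma sc_pow_right {e : ⋀[K]^2 Ω[K⁄k]} {u v s : K} (h : dd k u v = s • e) (n : ℕ) :
    dd k u (v ^ (n + 1)) = (((n + 1 : ℕ) : K) * v ^ n * s) • e := by
  rw [sc_swap (sc_pow_left (sc_swap h) n)]
  congr 1
  ring

/-! ### the valuation ring -/

variable {G : P2 k} {U w ζ : K}

theorem ChartA.exists_V (h : ChartA G U w ζ) {π : P2 k} (hπ : Irreducible π) {f : K}
    (hf : ∀ s : P2 k, ¬ π ∣ s → ¬ IntC (k := k) U w (aeval ![U, w] s * f)) :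
    ∃ V : ValuationSubring K, (∀ p : P2 k, aeval ![U, w] p ∈ V) ∧
      (∀ p : P2 k, ¬ π ∣ p → (aeval ![U, w] p)⁻¹ ∈ V) ∧ ζ ∈ V ∧ f ∉ V ∧
      (aeval ![U, w] π)⁻¹ ∉ V ∧ (∀ x : K, IntC (k := k) U w x → x ∈ V) := by
  classical
  letI : Algebra (P2 k) K := (aeval ![U, w] : P2 k →ₐ[k] K).toRingHom.toAlgebra
  have hp := hπ.prime
  have hP : (Ideal.span {π}).IsPrime := (Ideal.span_singleton_prime hp.ne_zero).mpr hp
  have hunit : ∀ y : (Ideal.span {π}).primeCompl, IsUnit (algebraMap (P2 k) K y) := by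
    intro y
    rw [isUnit_iff_ne_zero]
    apply h.ne_zero
    intro h0
    exact y.2 (by rw [h0]; exact Ideal.zero_mem _)
  letI : Algebra (Localization.AtPrime (Ideal.span {π})) K :=
    (IsLocalization.lift (M := (Ideal.span {π}).primeCompl) hunit).toAlgebra
  haveI : IsScalarTower (P2 k) (Localization.AtPrime (Ideal.span {π})) K :=
    .of_algebraMap_eq (fun x => (IsLocalization.lift_eq hunit x).symm)
  have hfi : f ∉ (integralClosure (Localization.AtPrime (Ideal.span {π})) K).toSubring := by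
    intro h1
    have h2 : IsIntegral (Localization.AtPrime (Ideal.span {π})) f := h1
    obtain ⟨m, hm⟩ := IsIntegral.exists_multiple_integral_of_isLocalization
      (Ideal.span {π}).primeCompl f h2
    refine hf m.1 ?_ ?_
    · intro h3
      exact m.2 (Ideal.mem_span_singleton.mpr h3)
    · exact hm
  obtain ⟨V, hV1, hV2⟩ := Subring.exists_le_valuationSubring_of_isIntegrallyClosedIn hfi
  have hI : ∀ x : K, IntC (k := k) U w x → x ∈ V := by
    intro x hx
    apply hV1
    have h1 : IsIntegral (P2 k) x := hx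
    exact h1.tower_top (A := Localization.AtPrime (Ideal.span {π}))
  have hL : ∀ y : Localization.AtPrime (Ideal.span {π}), algebraMap _ K y ∈ V :=
    fun y => hV1 (isIntegral_algebraMap (x := y))
  have hC : ∀ p : P2 k, aeval ![U, w] p ∈ V := by
    intro p
    have h1 := hL (algebraMap _ _ p)
    rwa [← IsScalarTower.algebraMap_apply] at h1
  have hCi : ∀ p : P2 k, ¬ π ∣ p → (aeval ![U, w] p)⁻¹ ∈ V := by
    intro p hp
    have hpm : p ∈ (Ideal.span {π}).primeCompl := fun h0 => hp (Ideal.mem_span_singleton.mp h0)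
    have h1 := hL (IsLocalization.mk' _ (1 : P2 k) ⟨p, hpm⟩)
    have h2 : algebraMap (Localization.AtPrime (Ideal.span {π})) K
        (IsLocalization.mk' _ (1 : P2 k) ⟨p, hpm⟩) = (aeval ![U, w] p)⁻¹ := by
      apply eq_inv_of_mul_eq_one_left
      have h3 := IsLocalization.mk'_spec (Localization.AtPrime (Ideal.span {π})) (1 : P2 k)
        ⟨p, hpm⟩
      have h4 := congrArg (algebraMap (Localization.AtPrime (Ideal.span {π})) K) h3
      rw [map_mul, ← IsScalarTower.algebraMap_apply, ← IsScalarTower.algebraMap_apply,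
        map_one] at h4
      exact h4
    rwa [h2] at h1
  have hz : ζ ∈ V := by
    apply hI
    refine ⟨Polynomial.X ^ 2 + Polynomial.C G, ?_, ?_⟩
    · have : (Polynomial.X ^ 2 + Polynomial.C G : Polynomial (P2 k)).Monic := by
        apply Polynomial.monic_X_pow_add
        exact lt_of_le_of_lt Polynomial.degree_C_le (by norm_num)
      exact this
    · rw [Polynomial.eval₂_add, Polynomial.eval₂_pow, Polynomial.eval₂_X, Polynomial.eval₂_C]
      exact h.sq
  refine ⟨V, hC, hCi, hz, hV2, ?_, hI⟩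
  intro hπV
  apply hV2
  have hall : ∀ p : P2 k, p ≠ 0 → (aeval ![U, w] p)⁻¹ ∈ V := by
    intro p hp0
    obtain ⟨n, q, hq, hpq⟩ := WfDvdMonoid.max_power_factor' hp0 hπ.not_isUnit
    rw [hpq, map_mul, map_pow, mul_inv, ← inv_pow]
    exact V.mul_mem _ _ (V.toSubring.pow_mem hπV n) (hCi q hq)
  obtain ⟨d, p, q, h1, h2⟩ := h.gen f
  have h3 : f = (aeval ![U, w] d)⁻¹ * (aeval ![U, w] p + aeval ![U, w] q * ζ) := by
    rw [← h2, ← mul_assoc, inv_mul_cancel₀ (h.ne_zero h1), one_mul]
  rw [h3]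
  exact V.mul_mem _ _ (hall d h1) (V.add_mem _ _ (hC p) (V.mul_mem _ _ (hC q) hz))

/-- every element of the valuation ring is a quotient of elements of the chart ring -/
theorem ChartA.frac [IsAlgClosed k] (h : ChartA G U w ζ) (hG : NodeG G) {π : P2 k}
    (hπ : Irreducible π) (hX : ¬ π ∣ X 0) {V : ValuationSubring K}
    (hC : ∀ p : P2 k, aeval ![U, w] p ∈ V)
    (hCi : ∀ p : P2 k, ¬ π ∣ p → (aeval ![U, w] p)⁻¹ ∈ V) (hz : ζ ∈ V)
    (hπV : (aeval ![U, w] π)⁻¹ ∉ V) (hI : ∀ x : K, IntC (k := k) U w x → x ∈ V) {u : K}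
    (hu : u ∈ V) : ∃ p q p' q' : P2 k, aeval ![U, w] p + aeval ![U, w] q * ζ ≠ 0 ∧
      (aeval ![U, w] p + aeval ![U, w] q * ζ)⁻¹ ∈ V ∧
      (aeval ![U, w] p + aeval ![U, w] q * ζ) * u = aeval ![U, w] p' + aeval ![U, w] q' * ζ := by
  have hdiv : ∀ p : P2 k, aeval ![U, w] p ≠ 0 → (aeval ![U, w] p)⁻¹ ∉ V → π ∣ p :=
    fun p _ h1 => by
      by_contra h2
      exact h1 (hCi p h2)
  -- elements of `(π)` are nonunits
  have hnon : ∀ (p : P2 k) (x : K), π ∣ p → x ∈ V → aeval ![U, w] p * x = 1 → False := by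
    rintro p x ⟨p', rfl⟩ hx h1
    apply hπV
    rw [map_mul, mul_assoc] at h1
    rw [← eq_inv_of_mul_eq_one_right h1]
    exact V.mul_mem _ _ (hC p') hx
  have h1π : ¬ π ∣ 1 := fun h0 => hπ.not_isUnit (isUnit_of_dvd_one h0)
  obtain ⟨a, b, c, habc, hq⟩ := h.quad u hπ
  -- `a u` is integral
  have hint : IntC (k := k) U w (aeval ![U, w] a * u) := by
    refine ⟨Polynomial.X ^ 2 + (Polynomial.C b * Polynomial.X + Polynomial.C (a * c)), ?_, ?_⟩
    · have : (Polynomial.X ^ 2 + (Polynomial.C b * Polynomial.X + Polynomial.C (a * c)) :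
          Polynomial (P2 k)).Monic := by
        apply Polynomial.monic_X_pow_add
        exact lt_of_le_of_lt Polynomial.degree_linear_le (by norm_num)
      exact this
    · rw [Polynomial.eval₂_add, Polynomial.eval₂_add, Polynomial.eval₂_mul, Polynomial.eval₂_pow,
        Polynomial.eval₂_X, Polynomial.eval₂_C, Polynomial.eval₂_C]
      change (aeval ![U, w] a * u) ^ 2 + (aeval ![U, w] b * (aeval ![U, w] a * u) +
        aeval ![U, w] (a * c)) = 0
      rw [map_mul]
      linear_combination (aeval ![U, w] a) * hq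
  by_cases ha : π ∣ a
  · obtain ⟨d, p, q, hd, hdq⟩ := h.rep_int hG hπ hX (s := 1) (v := aeval ![U, w] a * u) h1π
      (by rw [map_one, one_mul]; exact hint)
    -- `s = a u + b`
    by_cases hs : aeval ![U, w] a * u + aeval ![U, w] b = 0 ∨
      (aeval ![U, w] a * u + aeval ![U, w] b)⁻¹ ∉ V
    · exfalso
      apply habc
      have hsV : aeval ![U, w] a * u + aeval ![U, w] b ∈ V :=
        V.add_mem _ _ (V.mul_mem _ _ (hC a) hu) (hC b)
      -- `x y = 1` with `x = s` impossible
      have hns : ∀ x ∈ V, (aeval ![U, w] a * u + aeval ![U, w] b) * x ≠ 1 := by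
        intro x hx h1
        rcases hs with h2 | h2
        · rw [h2, zero_mul] at h1
          exact zero_ne_one h1
        · apply h2
          rw [← eq_inv_of_mul_eq_one_right h1]
          exact hx
      refine ⟨ha, ?_, ?_⟩
      · by_contra hb
        obtain ⟨a', rfl⟩ := ha
        have hb1 := hCi b hb
        have hb0 : aeval ![U, w] b ≠ 0 := h.ne_zero (fun h0 => hb (by rw [h0]; exact dvd_zero _))
        -- `s = b (1 + a u / b)`; `1 + π y` is a unit
        have hy : aeval ![U, w] a' * u * (aeval ![U, w] b)⁻¹ ∈ V :=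
          V.mul_mem _ _ (V.mul_mem _ _ (hC a') hu) hb1
        have hunit : (1 + aeval ![U, w] π * (aeval ![U, w] a' * u * (aeval ![U, w] b)⁻¹))⁻¹ ∈ V ∧
            (1 + aeval ![U, w] π * (aeval ![U, w] a' * u * (aeval ![U, w] b)⁻¹)) ≠ 0 := by
          set y := aeval ![U, w] a' * u * (aeval ![U, w] b)⁻¹
          have hne : 1 + aeval ![U, w] π * y ≠ 0 := by
            intro h0
            refine hnon π (-y) dvd_rfl (V.neg_mem _ hy) ?_
            linear_combination -h0
          refine ⟨?_, hne⟩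
          rcases V.mem_or_inv_mem (1 + aeval ![U, w] π * y)⁻¹ with h1 | h1
          · exact h1
          · rw [inv_inv] at h1
            by_contra h2
            -- `1 + π y` nonunit: then `1` is a nonunit
            let m1 : V := ⟨1 + aeval ![U, w] π * y, h1⟩
            let m2 : V := ⟨aeval ![U, w] π * y, V.mul_mem _ _ (hC π) hy⟩
            have n1 : m1 ∈ nonunits V := by
              intro hu1
              obtain ⟨x, hx⟩ := hu1.exists_right_inv
              apply h2
              have hx' : (1 + aeval ![U, w] π * y) * (x : K) = 1 := congrArg Subtype.val hx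
              rw [← eq_inv_of_mul_eq_one_right hx']
              exact x.2
            have n2 : m2 ∈ nonunits V := by
              intro hu1
              obtain ⟨x, hx⟩ := hu1.exists_right_inv
              have hx' : (aeval ![U, w] π * y) * (x : K) = 1 := congrArg Subtype.val hx
              refine hnon π (y * x) dvd_rfl (V.mul_mem _ _ hy x.2) ?_
              rw [← mul_assoc]; exact hx'
            have n3 : m1 - m2 ∈ IsLocalRing.maximalIdeal V :=
              Ideal.sub_mem _ n1 n2
            have n4 : m1 - m2 = 1 := Subtype.ext (by change (1 + _) - _ = (1 : K); ring)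
            rw [n4] at n3
            exact n3 isUnit_one
        refine hns ((aeval ![U, w] b)⁻¹ *
          (1 + aeval ![U, w] π * (aeval ![U, w] a' * u * (aeval ![U, w] b)⁻¹))⁻¹)
          (V.mul_mem _ _ hb1 hunit.1) ?_
        have h5 : aeval ![U, w] (π * a') * u + aeval ![U, w] b = aeval ![U, w] b *
            (1 + aeval ![U, w] π * (aeval ![U, w] a' * u * (aeval ![U, w] b)⁻¹)) := by
          rw [map_mul]
          field_simp
          ring
        rw [h5]
        have h6 := hunit.2
        set t := (1 + aeval ![U, w] π * (aeval ![U, w] a' * u * (aeval ![U, w] b)⁻¹))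
        rw [mul_mul_mul_comm, mul_inv_cancel₀ hb0, mul_inv_cancel₀ h6, mul_one]
      · by_contra hc
        have hc1 := hCi c hc
        have hc0 : aeval ![U, w] c ≠ 0 := h.ne_zero (fun h0 => hc (by rw [h0]; exact dvd_zero _))
        refine hns (-(u * (aeval ![U, w] c)⁻¹)) (V.neg_mem _ (V.mul_mem _ _ hu hc1)) ?_
        have h5 : (aeval ![U, w] a * u + aeval ![U, w] b) * u = -aeval ![U, w] c := by
          linear_combination hq
        rw [mul_neg, ← mul_assoc, h5, neg_mul, neg_neg, mul_inv_cancel₀ hc0]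
    · rw [not_or, not_not] at hs
      obtain ⟨hs0, hs1⟩ := hs
      have hd0 : aeval ![U, w] d ≠ 0 := h.ne_zero (fun h0 => hd (by rw [h0]; exact dvd_zero _))
      have h5 : aeval ![U, w] (p + b * d) + aeval ![U, w] q * ζ =
          aeval ![U, w] d * (aeval ![U, w] a * u + aeval ![U, w] b) := by
        rw [map_add, map_mul]
        linear_combination -hdq
      refine ⟨p + b * d, q, -(c * d), 0, ?_, ?_, ?_⟩
      · rw [h5]; exact mul_ne_zero hd0 hs0
      · rw [h5, mul_inv]; exact V.mul_mem _ _ (hCi d hd) hs1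
      · rw [h5, map_zero, zero_mul, add_zero, map_neg, map_mul]
        linear_combination (aeval ![U, w] d) * hq
  · obtain ⟨d, p, q, hd, hdq⟩ := h.rep_int hG hπ hX ha hint
    have hd0 : aeval ![U, w] d ≠ 0 := h.ne_zero (fun h0 => hd (by rw [h0]; exact dvd_zero _))
    refine ⟨d, 0, p, q, ?_, ?_, ?_⟩
    · rw [map_zero, zero_mul, add_zero]; exact hd0
    · rw [map_zero, zero_mul, add_zero]; exact hCi d hd
    · rw [map_zero, zero_mul, add_zero]; exact hdq

end Pool.Agent.Helper190_Can
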