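import Pool.Agent.Helper190_Can.CConv

set_option linter.unusedSimpArgs false
set_option linter.unusedVariables false
set_option linter.style.haveILetI false

open MvPolynomial

noncomputable section

namespace Pool.Agent.Helper190_Can

variable {k K : Type} [Field k] [Field K] [Algebra k K] {G : P2 k} {U w ζ : K}

/-- the differential of an element of the chart ring -/
lemma D_chart {V : ValuationSubring K} (hC : ∀ p : P2 k, aeval ![U, w] p ∈ V) (hz : ζ ∈ V)
    (p q : P2 k) : ∃ a0 ∈ V, ∃ a1 ∈ V, ∃ a2 ∈ V,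
    KaehlerDifferential.D k K (aeval ![U, w] p + aeval ![U, w] q * ζ) =
      a0 • KaehlerDifferential.D k K U + a1 • KaehlerDifferential.D k K w +
      a2 • KaehlerDifferential.D k K ζ := by
  refine ⟨aeval ![U, w] (pderiv 0 p) + ζ * aeval ![U, w] (pderiv 0 q), ?_,
    aeval ![U, w] (pderiv 1 p) + ζ * aeval ![U, w] (pderiv 1 q), ?_, aeval ![U, w] q, hC q, ?_⟩
  · exact V.add_mem _ _ (hC _) (V.mul_mem _ _ hz (hC _))
  · exact V.add_mem _ _ (hC _) (V.mul_mem _ _ hz (hC _))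
  · rw [map_add, Derivation.leibniz, D_aeval, D_aeval, Fin.sum_univ_two, Fin.sum_univ_two]
    simp only [Matrix.cons_val_zero, Matrix.cons_val_one, Matrix.cons_val_fin_one]
    module

lemma D_frac {V : ValuationSubring K} (hC : ∀ p : P2 k, aeval ![U, w] p ∈ V) (hz : ζ ∈ V)
    {u : K} (hu : u ∈ V) {p q p' q' : P2 k} (h0 : aeval ![U, w] p + aeval ![U, w] q * ζ ≠ 0)
    (h1 : (aeval ![U, w] p + aeval ![U, w] q * ζ)⁻¹ ∈ V)
    (h2 : (aeval ![U, w] p + aeval ![U, w] q * ζ) * u =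
      aeval ![U, w] p' + aeval ![U, w] q' * ζ) : ∃ a0 ∈ V, ∃ a1 ∈ V, ∃ a2 ∈ V,
    KaehlerDifferential.D k K u = a0 • KaehlerDifferential.D k K U +
      a1 • KaehlerDifferential.D k K w + a2 • KaehlerDifferential.D k K ζ := by
  obtain ⟨a0, ha0, a1, ha1, a2, ha2, ha⟩ := D_chart (V := V) hC hz p q
  obtain ⟨b0, hb0, b1, hb1, b2, hb2, hb⟩ := D_chart (V := V) hC hz p' q'
  rw [← h2, Derivation.leibniz, ha] at hb
  set y := aeval ![U, w] p + aeval ![U, w] q * ζ
  have key : KaehlerDifferential.D k K u = y⁻¹ • (y • KaehlerDifferential.D k K u) := by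
    rw [smul_smul, inv_mul_cancel₀ h0, one_smul]
  refine ⟨y⁻¹ * (b0 - u * a0), V.mul_mem _ _ h1 (V.toSubring.sub_mem hb0 (V.mul_mem _ _ hu ha0)),
    y⁻¹ * (b1 - u * a1), V.mul_mem _ _ h1 (V.toSubring.sub_mem hb1 (V.mul_mem _ _ hu ha1)),
    y⁻¹ * (b2 - u * a2), V.mul_mem _ _ h1 (V.toSubring.sub_mem hb2 (V.mul_mem _ _ hu ha2)), ?_⟩
  rw [key]
  have h3 : y • KaehlerDifferential.D k K u =
      (b0 • KaehlerDifferential.D k K U + b1 • KaehlerDifferential.D k K w +
        b2 • KaehlerDifferential.D k K ζ) - u • (a0 • KaehlerDifferential.D k K U +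
        a1 • KaehlerDifferential.D k K w + a2 • KaehlerDifferential.D k K ζ) := by
    rw [← hb]; abel
  rw [h3]
  module

lemma wedge_mem {V : ValuationSubring K} (hC : ∀ p : P2 k, aeval ![U, w] p ∈ V) (hz : ζ ∈ V)
    {e : ⋀[K]^2 Ω[K⁄k]} (hB : ChartB G U w ζ e) {u v : K}
    (hu : ∃ a0 ∈ V, ∃ a1 ∈ V, ∃ a2 ∈ V,
      KaehlerDifferential.D k K u = a0 • KaehlerDifferential.D k K U +
      a1 • KaehlerDifferential.D k K w + a2 • KaehlerDifferential.D k K ζ)
    (hv : ∃ a0 ∈ V, ∃ a1 ∈ V, ∃ a2 ∈ V,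
      KaehlerDifferential.D k K v = a0 • KaehlerDifferential.D k K U +
      a1 • KaehlerDifferential.D k K w + a2 • KaehlerDifferential.D k K ζ) :
    ∃ c ∈ V, dd k u v = c • e := by
  obtain ⟨a0, ha0, a1, ha1, a2, ha2, ha⟩ := hu
  obtain ⟨b0, hb0, b1, hb1, b2, hb2, hb⟩ := hv
  have e01 : dd k U w = (2 * ζ) • e := hB.E2.symm
  have e12 : dd k w ζ = aeval ![U, w] (pderiv 0 G) • e := hB.E0.symm
  have e20 : dd k ζ U = aeval ![U, w] (pderiv 1 G) • e := hB.E1.symm
  have e10 := sc_swap e01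
  have e21 := sc_swap e12
  have e02 := sc_swap e20
  have e00 := sc_self (e := e) U
  have e11 := sc_self (e := e) w
  have e22 := sc_self (e := e) ζ
  rw [dd_eq] at e00 e01 e02 e10 e11 e12 e20 e21 e22
  refine ⟨(a0 * b1 - a1 * b0) * (2 * ζ) + (a1 * b2 - a2 * b1) * aeval ![U, w] (pderiv 0 G) +
    (a2 * b0 - a0 * b2) * aeval ![U, w] (pderiv 1 G), ?_, ?_⟩
  · have h2 : (2 : K) ∈ V := by
      have := V.add_mem _ _ V.one_mem V.one_mem
      rwa [one_add_one_eq_two] at this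
    refine V.add_mem _ _ (V.add_mem _ _ ?_ ?_) ?_
    · exact V.mul_mem _ _ (V.toSubring.sub_mem (V.mul_mem _ _ ha0 hb1) (V.mul_mem _ _ ha1 hb0))
        (V.mul_mem _ _ h2 hz)
    · exact V.mul_mem _ _ (V.toSubring.sub_mem (V.mul_mem _ _ ha1 hb2) (V.mul_mem _ _ ha2 hb1))
        (hC _)
    · exact V.mul_mem _ _ (V.toSubring.sub_mem (V.mul_mem _ _ ha2 hb0) (V.mul_mem _ _ ha0 hb2))
        (hC _)
  · rw [dd_eq, ha, hb]
    simp only [wd_add_left, wd_add_right, wd_smul_left, wd_smul_right, e00, e01, e02, e10, e11,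
      e12, e20, e21, e22, smul_smul, ← add_smul]
    congr 1
    ring

/-- forms regular at all valuation rings lie in the localised chart ring -/
theorem conv [IsAlgClosed k] (hA : ChartA G U w ζ) (hG : NodeG G) {e : ⋀[K]^2 Ω[K⁄k]}
    (hB : ChartB G U w ζ e) {n : ℕ} {f : K}
    (hf : ∀ V : ValuationSubring K, (∀ c : k, algebraMap k K c ∈ V) → IsRegW e n f V) :
    ∃ (N : ℕ) (p q : P2 k), U ^ N * f = aeval ![U, w] p + aeval ![U, w] q * ζ := by
  obtain ⟨d, p, q, hd0, hd, hred⟩ := hA.rep f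
  -- the prime factors of `d`
  have hfac : ∀ π : P2 k, Irreducible π → π ∣ d → π ∣ X 0 := by
    intro π hπ hπd
    by_contra hX
    have hni : ∀ s : P2 k, ¬ π ∣ s → ¬ IntC (k := k) U w (aeval ![U, w] s * f) :=
      fun s hs => hA.not_intC hG hπ hX hd0 hπd (hred π hπ hπd) hd hs
    obtain ⟨V, hC, hCi, hz, hfV, hπV, hI⟩ := hA.exists_V hπ hni
    have hfr : ∀ u ∈ V, ∃ a0 ∈ V, ∃ a1 ∈ V, ∃ a2 ∈ V,
        KaehlerDifferential.D k K u = a0 • KaehlerDifferential.D k K U +
        a1 • KaehlerDifferential.D k K w + a2 • KaehlerDifferential.D k K ζ := by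
      intro u hu
      obtain ⟨p, q, p', q', h0, h1, h2⟩ := hA.frac hG hπ hX hC hCi hz hπV hI hu
      exact D_frac hC hz hu h0 h1 h2
    obtain ⟨u, hu, v, hv, j, hj, hfj⟩ := hf V (fun c => by
      have := hC (C c)
      rwa [aeval_C] at this)
    obtain ⟨c, hc, hcuv⟩ := wedge_mem hC hz hB (hfr u hu) (hfr v hv)
    rw [hcuv, smul_smul] at hj
    have hjc : j * c = 1 := by
      have h1 : (1 - j * c) • e = 0 := by
        have h2 : (1 - j * c) • e + (j * c) • e = e := by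
          rw [← add_smul, sub_add_cancel, one_smul]
        rw [← hj] at h2
        exact add_eq_right.mp h2
      rcases smul_eq_zero.mp h1 with h2 | h2
      · linear_combination -h2
      · exact absurd h2 hB.ne
    apply hfV
    have : f = (f * j ^ n) * c ^ n := by
      rw [mul_assoc, ← mul_pow, hjc, one_pow, mul_one]
    rw [this]
    exact V.mul_mem _ _ hfj (V.toSubring.pow_mem hc n)
  -- hence `d` divides a power of `X 0`
  have hdvd : ∀ d : P2 k, d ≠ 0 → (∀ π : P2 k, Irreducible π → π ∣ d → π ∣ X 0) →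
      ∃ N, d ∣ X 0 ^ N := by
    intro d
    induction d using WfDvdMonoid.induction_on_irreducible with
    | zero => intro h; exact absurd rfl h
    | unit u hu => intro _ _; exact ⟨0, hu.dvd⟩
    | mul a i ha0 hi ih =>
      intro _ h2
      obtain ⟨N, hN⟩ := ih ha0 (fun π hπ hπa => h2 π hπ (hπa.mul_left _))
      refine ⟨N + 1, ?_⟩
      rw [pow_succ']
      exact mul_dvd_mul (h2 i hi (dvd_mul_right _ _)) hN
  obtain ⟨N, d', hd'⟩ := hdvd d hd0 hfac
  refine ⟨N, d' * p, d' * q, ?_⟩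
  have h1 : U ^ N = aeval ![U, w] d * aeval ![U, w] d' := by
    rw [← map_mul, ← hd', map_pow, aeval_X]; rfl
  rw [h1, map_mul, map_mul]
  linear_combination (aeval ![U, w] d') * hd

end Pool.Agent.Helper190_Can
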