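import Pool.Agent.Helper190_Can.ZDefs

open Module

noncomputable section

namespace Pool.Agent.Helper190_Can

/-- The `n`-fold differential form `f (dx₀ ∧ dx₁)ⁿ` of the field extension `K / k` is regular at
the valuation ring `V`: it is equal to `g (du₀ ∧ du₁)ⁿ` for some `g, u₀, u₁` in `V`. Here
`dxᵢ = ∑ⱼ Aᵢⱼ duⱼ`, so that `g = f det(A)ⁿ`. -/
def IsReg (k : Type) {K : Type} [Field k] [Field K] [Algebra k K] (x : Fin 2 → K) (n : ℕ) (f : K)
    (V : ValuationSubring K) : Prop :=
  ∃ (u : Fin 2 → K) (A : Matrix (Fin 2) (Fin 2) K), (∀ i, u i ∈ V) ∧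
    (∀ i, KaehlerDifferential.D k K (x i) = ∑ j, A i j • KaehlerDifferential.D k K (u j)) ∧
    f * A.det ^ n ∈ V

/-- `Y` is the canonical ring of the surfaces with function field `K`, where `K / k` is some
finitely generated field extension of transcendence degree `2`: the graded ring of the `n`-fold
differential forms `f (dx₀ ∧ dx₁)ⁿ` of `K / k` which are regular at all valuation rings of `K / k`.
Here `dx₀, dx₁` is a basis of the differential forms of `K / k`. For a smooth projective model `X`
of `K` these are the global sections of the powers of the canonical line bundle of `X`, since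
every valuation ring of `K / k` has a centre on `X`. -/
def IsCanonicalRing (k : Type) [Field k] (Y : GrAlg k) : Prop :=
  ∃ (K : Type) (_ : Field K) (_ : Algebra k K) (x : Fin 2 → K) (Φ : Y.A →ₐ[k] Polynomial K),
    (⊤ : IntermediateField k K).FG ∧ Algebra.trdeg k K = 2 ∧
    LinearIndependent K (fun i => KaehlerDifferential.D k K (x i)) ∧ Function.Injective Φ ∧
    ∀ n : ℕ, Φ '' (Y.gr n : Set Y.A) = {F | ∃ f : K, F = Polynomial.monomial n f ∧
      ∀ V : ValuationSubring K, (∀ c : k, algebraMap k K c ∈ V) → IsReg k x n f V}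

/-- `Y` is the canonical ring of a canonically polarized surface with `K² = a`, `χ = b`, `q = 0`:
the plurigenera are `P₁ = b - 1` and `Pₙ = b + a n (n - 1) / 2` for `n ≥ 2`. -/
def CanRing (a b : ℕ) (k : Type) [Field k] (Y : GrAlg k) : Prop :=
  IsCanonicalRing k Y ∧ finrank k (Y.gr 1) + 1 = b ∧
    ∀ n : ℕ, 2 ≤ n → 2 * finrank k (Y.gr n) + a * n = 2 * b + a * n ^ 2

end Pool.Agent.Helper190_Can
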