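import Pool.Agent.Helper190_Can.CField

set_option linter.unusedSimpArgs false
set_option linter.unusedVariables false
set_option linter.style.haveILetI false

open MvPolynomial

noncomputable section

namespace Pool.Agent.Helper190_Can

variable {k : Type} [Field k]

section der
variable (v0 v1 v2 : KA k)

/-- the deformation of the coordinates -/
def i0 : P2 k →ₐ[k] TrivSqZeroExt (KA k) (KA k) :=
  aeval ![TrivSqZeroExt.inl (cU k) + TrivSqZeroExt.inr v0,
    TrivSqZeroExt.inl (cw k) + TrivSqZeroExt.inr v1]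

lemma fst_i0 (p : P2 k) : (i0 v0 v1 p).fst = aeval ![cU k, cw k] p := by
  have h : (TrivSqZeroExt.fstHom k (KA k) (KA k)).comp (i0 v0 v1) = aeval ![cU k, cw k] := by
    apply MvPolynomial.algHom_ext
    intro i
    fin_cases i <;> simp [i0]
  exact DFunLike.congr_fun h p

lemma snd_i0 (p : P2 k) : (i0 v0 v1 p).snd = aeval ![cU k, cw k] (pderiv 0 p) * v0 +
    aeval ![cU k, cw k] (pderiv 1 p) * v1 := by
  induction p using MvPolynomial.induction_on with
  | C a =>
    rw [i0, aeval_C]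
    simp [TrivSqZeroExt.algebraMap_eq_inl']
  | add p q hp hq =>
    rw [map_add, TrivSqZeroExt.snd_add, hp, hq]
    simp only [map_add]
    ring
  | mul_X p j hp =>
    rw [map_mul, TrivSqZeroExt.snd_mul, hp, fst_i0, fst_i0]
    fin_cases j
    · simp [i0, pderiv_mul, pderiv_X]
      ring
    · simp [i0, pderiv_mul, pderiv_X]
      ring

lemma unit_i0 (y : nonZeroDivisors (P2 k)) : IsUnit (i0 v0 v1 y) := by
  rw [TrivSqZeroExt.isUnit_iff_isUnit_fst, fst_i0, isUnit_iff_ne_zero]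
  exact (chartA_one k).ne_zero (nonZeroDivisors.coe_ne_zero y)

/-- the extension to the rational functions -/
def i1 : FractionRing (P2 k) →ₐ[k] TrivSqZeroExt (KA k) (KA k) :=
  IsLocalization.liftAlgHom (M := nonZeroDivisors (P2 k)) (f := i0 v0 v1) (unit_i0 v0 v1)

lemma i1_algebraMap (p : P2 k) : i1 v0 v1 (algebraMap (P2 k) _ p) = i0 v0 v1 p := by
  rw [i1]
  exact IsLocalization.lift_eq (M := nonZeroDivisors (P2 k)) (unit_i0 v0 v1) p

variable (h : aeval ![cU k, cw k] (pderiv 0 (GA k)) * v0 +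
    aeval ![cU k, cw k] (pderiv 1 (GA k)) * v1 + 2 * cz k * v2 = 0)

include h in
lemma i2_aux : Polynomial.eval₂ (i1 v0 v1 : FractionRing (P2 k) →+* TrivSqZeroExt (KA k) (KA k))
    (TrivSqZeroExt.inl (cz k) + TrivSqZeroExt.inr v2) (polyA k) = 0 := by
  change Polynomial.eval₂ (i1 v0 v1 : FractionRing (P2 k) →+* TrivSqZeroExt (KA k) (KA k))
    (TrivSqZeroExt.inl (cz k) + TrivSqZeroExt.inr v2)
    (Polynomial.X ^ 2 + Polynomial.C (algebraMap (P2 k) _ (GA k))) = 0
  rw [Polynomial.eval₂_add, Polynomial.eval₂_pow, Polynomial.eval₂_X, Polynomial.eval₂_C]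
  change _ + i1 v0 v1 (algebraMap (P2 k) _ (GA k)) = 0
  rw [i1_algebraMap]
  ext
  · rw [TrivSqZeroExt.fst_add, fst_i0]
    have := cz_sq k
    simpa [pow_two] using this
  · rw [TrivSqZeroExt.snd_add, snd_i0]
    simp [pow_two]
    linear_combination h

/-- the extension to the function field -/
def i2 : KA k →ₐ[k] TrivSqZeroExt (KA k) (KA k) :=
  AdjoinRoot.liftAlgHom (polyA k) (i1 v0 v1) (TrivSqZeroExt.inl (cz k) + TrivSqZeroExt.inr v2)
    (i2_aux v0 v1 v2 h)

lemma i2_of (p : P2 k) : i2 v0 v1 v2 h (AdjoinRoot.of _ (algebraMap (P2 k) _ p)) =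
    i0 v0 v1 p := by
  rw [i2, AdjoinRoot.liftAlgHom_of, i1_algebraMap]

lemma i2_root : i2 v0 v1 v2 h (cz k) = TrivSqZeroExt.inl (cz k) + TrivSqZeroExt.inr v2 :=
  AdjoinRoot.liftAlgHom_root _ _ _ _

lemma fst_i2 (x : KA k) : (i2 v0 v1 v2 h x).fst = x := by
  have h1 : (TrivSqZeroExt.fstHom k (KA k) (KA k)).comp (i2 v0 v1 v2 h) = AlgHom.id k (KA k) := by
    apply AdjoinRoot.algHom_ext'
    · apply IsLocalization.algHom_ext (nonZeroDivisors (P2 k))
      apply MvPolynomial.algHom_ext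
      intro i
      change (i2 v0 v1 v2 h (AdjoinRoot.of _ (algebraMap (P2 k) _ (X i)))).fst =
        AdjoinRoot.of _ (algebraMap (P2 k) _ (X i))
      rw [i2_of, fst_i0, aeval_of]
    · change (i2 v0 v1 v2 h (cz k)).fst = cz k
      rw [i2_root]
      simp
  exact DFunLike.congr_fun h1 x

include h in
/-- the derivation -/
theorem exists_der : ∃ δ : Derivation k (KA k) (KA k), δ (cU k) = v0 ∧ δ (cw k) = v1 ∧
    δ (cz k) = v2 := by
  refine ⟨Derivation.mk' ((TrivSqZeroExt.sndHom (KA k) (KA k)).restrictScalars k ∘ₗ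
    (i2 v0 v1 v2 h).toLinearMap) ?_, ?_, ?_, ?_⟩
  · intro x y
    change (i2 v0 v1 v2 h (x * y)).snd = x • (i2 v0 v1 v2 h y).snd + y • (i2 v0 v1 v2 h x).snd
    rw [map_mul, TrivSqZeroExt.snd_mul, fst_i2, fst_i2]
    simp
    ring
  · change (i2 v0 v1 v2 h (AdjoinRoot.of _ (algebraMap (P2 k) _ (X 0)))).snd = v0
    rw [i2_of, snd_i0]
    simp [pderiv_X]
  · change (i2 v0 v1 v2 h (AdjoinRoot.of _ (algebraMap (P2 k) _ (X 1)))).snd = v1
    rw [i2_of, snd_i0]
    simp [pderiv_X]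
  · change (i2 v0 v1 v2 h (cz k)).snd = v2
    rw [i2_root]
    simp

end der

lemma dG0_ne : aeval ![cU k, cw k] (pderiv 0 (GA k)) ≠ 0 := by
  apply (chartA_one k).ne_zero
  intro h
  have h1 := congrArg (eval (0 : Fin 2 → k)) h
  rw [GA] at h1
  simp [pderiv_mul, pderiv_pow, pderiv_X] at h1

/-- the form `dw ∧ dζ` does not vanish -/
theorem dd_ne : dd k (cw k) (cz k) ≠ 0 := by
  set g0 := aeval ![cU k, cw k] (pderiv 0 (GA k)) with hg0
  set g1 := aeval ![cU k, cw k] (pderiv 1 (GA k)) with hg1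
  obtain ⟨δ, hδ1, hδ2, hδ3⟩ := exists_der (-g1) g0 0 (by rw [← hg0, ← hg1]; ring)
  obtain ⟨δ', hδ1', hδ2', hδ3'⟩ := exists_der (-(2 * cz k)) 0 g0 (by rw [← hg0, ← hg1]; ring)
  intro h
  let L : Fin 2 → (Ω[KA k⁄k] →ₗ[KA k] KA k) :=
    ![δ.liftKaehlerDifferential, δ'.liftKaehlerDifferential]
  let A : Ω[KA k⁄k] [⋀^Fin 2]→ₗ[KA k] KA k :=
    Matrix.detRowAlternating.compLinearMap (LinearMap.pi L)
  have h1 := congrArg (exteriorPower.alternatingMapLinearEquiv A) h
  rw [map_zero, dd, exteriorPower.alternatingMapLinearEquiv_apply_ιMulti] at h1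
  have h2 : A ![KaehlerDifferential.D k (KA k) (cw k), KaehlerDifferential.D k (KA k) (cz k)] =
      g0 * g0 := by
    change Matrix.det (Matrix.of fun i => LinearMap.pi L (![KaehlerDifferential.D k (KA k) (cw k),
      KaehlerDifferential.D k (KA k) (cz k)] i)) = _
    rw [Matrix.det_fin_two]
    simp [L, Derivation.liftKaehlerDifferential_comp_D, hδ2, hδ3, hδ2', hδ3']
  rw [h2] at h1
  exact mul_ne_zero dG0_ne dG0_ne h1

end Pool.Agent.Helper190_Can
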