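import Pool.Agent.Helper190_Can.BC2
import Pool.Agent.Helper190_CoarseTwo.D2

open Pool.Agent.Helper190_CoarseTwo

noncomputable section

namespace Pool.Agent.Helper190_Can

variable (k : Type) [Field k]

instance : Algebra k (D2 k) := (D2.C k).toAlgebra

/-- the augmentation -/
def D2aug : D2 k →ₐ[k] k where
  toFun u := u.c0
  map_one' := rfl
  map_zero' := rfl
  map_add' _ _ := rfl
  map_mul' _ _ := rfl
  commutes' _ := rfl

lemma D2aug_surj : Function.Surjective (D2aug k) := fun r => ⟨⟨r, 0, 0, 0⟩, rfl⟩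

lemma D2aug_nil : IsNilpotent (RingHom.ker (D2aug k : D2 k →+* k)) := by
  refine ⟨3, ?_⟩
  rw [Ideal.zero_eq_bot, eq_bot_iff, pow_succ, pow_two, Ideal.mul_le]
  intro r hr s hs
  rw [Ideal.mem_bot]
  have hs0 : s.c0 = 0 := hs
  refine Submodule.mul_induction_on hr ?_ ?_
  · intro a ha b hb
    have ha0 : a.c0 = 0 := ha
    have hb0 : b.c0 = 0 := hb
    ext <;> simp [ha0, hb0, hs0]
  · intro x y hx hy
    rw [add_mul, hx, hy, add_zero]

instance : IsLocalRing (D2 k) := by
  have : Nontrivial (D2 k) := ⟨⟨0, 1, fun h => zero_ne_one (congrArg D2.c0 h)⟩⟩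
  refine IsLocalRing.of_isUnit_or_isUnit_one_sub_self fun a => ?_
  by_cases h : a.c0 = 0
  · right
    refine isUnit_of_map_nil (ε := (D2aug k : D2 k →+* k)) (D2aug_surj k) (D2aug_nil k) ?_
    have : (D2aug k : D2 k →+* k) (1 - a) = 1 - a.c0 := by
      rw [map_sub, map_one]; rfl
    rw [this, h, sub_zero]
    exact isUnit_one
  · left
    refine isUnit_of_map_nil (ε := (D2aug k : D2 k →+* k)) (D2aug_surj k) (D2aug_nil k) ?_
    exact IsUnit.mk0 _ h

instance : Module.Finite k (D2 k) := by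
  let f : (Fin 4 → k) →ₗ[k] D2 k :=
    { toFun := fun v => ⟨v 0, v 1, v 2, v 3⟩
      map_add' := fun v w => by ext <;> simp
      map_smul' := fun r v => by
        rw [Algebra.smul_def]
        change _ = D2.C k r * _
        ext <;> simp [D2.C] }
  refine Module.Finite.of_surjective f ?_
  intro u
  exact ⟨![u.c0, u.c1, u.c2, u.c3], rfl⟩

instance : IsArtinianRing (D2 k) := IsArtinianRing.of_finite k (D2 k)

end Pool.Agent.Helper190_Can
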