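import Pool.Agent.Helper190_Can.Defs

open MvPolynomial
open Pool.Agent.Helper190_CoarseTwo (wt zdeg)

noncomputable section

namespace Pool.Agent.Helper190_Can

variable {k : Type} [Field k]

/-- The coefficient of `X ^ e` in the Taylor expansion `F(c + X)` of `F` at the point `c`. -/
def tay (F : MvPolynomial (Fin 3) k) (c : Fin 3 → k) (e : Fin 3 →₀ ℕ) : k :=
  coeff e (bind₁ (fun i => X i + C (c i)) F)

/-- The coefficient of `XᵢXⱼ` in the Taylor expansion `F(c + X)` of `F` at the point `c`. -/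
def tay2 (F : MvPolynomial (Fin 3) k) (c : Fin 3 → k) (i j : Fin 3) : k :=
  tay F c (Finsupp.single i 1 + Finsupp.single j 1)

/-- If the point `c` lies on the surface `F = 0` in affine space, then the surface is smooth at
`c` (some `Xᵢ` occurs in `F(c + X)`), or it has a node at `c` (the quadratic part of `F(c + X)`
has nonzero half-discriminant). -/
def SmoothOrNode (F : MvPolynomial (Fin 3) k) (c : Fin 3 → k) : Prop :=
  eval c F = 0 → (∃ i, tay F c (Finsupp.single i 1) ≠ 0) ∨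
    4 * tay2 F c 0 0 * tay2 F c 1 1 * tay2 F c 2 2 + tay2 F c 0 1 * tay2 F c 0 2 * tay2 F c 1 2 -
      tay2 F c 0 0 * tay2 F c 1 2 ^ 2 - tay2 F c 1 1 * tay2 F c 0 2 ^ 2 -
      tay2 F c 2 2 * tay2 F c 0 1 ^ 2 ≠ 0

/-- `F(U, w, ζ) = 0` is the equation of `S_{a,b} = {z² + a z + b = 0} / μ₂` over the chart
`s₀ s₁ t₀ ≠ 0` of `(ℙ¹ × ℙ¹) / μ₂`, in the invariant coordinates `U = u²`, `w = v/u`, `ζ = u z`,
where `u = s₁/s₀` and `v = t₁/t₀`. -/
def IsChart (a b : MvPolynomial (Fin 4) k) (F : MvPolynomial (Fin 3) k) : Prop :=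
  bind₁ ![X 0 ^ 2, X 1, X 0 * X 2] F = X 0 ^ 2 * (X 2 ^ 2 +
    bind₁ ![1, X 0, 1, X 0 * X 1] a * X 2 + bind₁ ![1, X 0, 1, X 0 * X 1] b)

/-- `S_{a,b} = {z² + a z + b = 0} / μ₂` has at worst nodes: `b` does not vanish at the four fixed
points of `μ₂` on `ℙ¹ × ℙ¹`, and in the four charts of the above kind (which together cover the
rest) the surface is smooth or has a node at each point. -/
structure IsNodal (a b : MvPolynomial (Fin 4) k) : Prop where
  ha : a.IsWeightedHomogeneous wt (zdeg 2)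
  hb : b.IsWeightedHomogeneous wt (zdeg 2 + zdeg 2)
  h00 : eval ![1, 0, 1, 0] b ≠ 0
  h10 : eval ![0, 1, 1, 0] b ≠ 0
  h01 : eval ![1, 0, 0, 1] b ≠ 0
  h11 : eval ![0, 1, 0, 1] b ≠ 0
  node : ∀ g : Fin 4 → Fin 4, g = ![0, 1, 2, 3] ∨ g = ![2, 3, 0, 1] ∨ g = ![1, 0, 3, 2] ∨
    g = ![3, 2, 1, 0] → ∃ F, IsChart (rename g a) (rename g b) F ∧
      ∀ c : Fin 3 → k, c 0 ≠ 0 → SmoothOrNode F c

end Pool.Agent.Helper190_Can
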