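import Pool.Agent.Helper190_Can.Defs
import Pool.Agent.Helper190_CoarseTwo.Main
import Pool.Agent.Helper190_Can.Node

open Module MvPolynomial CategoryTheory
open Pool.Agent.Helper190_CoarseTwo (wt zdeg Cox piece bz CharTwo)

noncomputable section

namespace Pool.Agent.Helper190_Can

/-- Families over `R`: finitely generated graded algebras with graded pieces free of finite rank,
all of whose geometric fibres lie in the class `P`. -/
structure Fam (P : ∀ (k : Type) [Field k], GrAlg k → Prop) (R : Type) [CommRing R] where
  X : GrAlg R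
  ft : Algebra.FiniteType R X.A
  fib : ∀ (k : Type) [Field k] [IsAlgClosed k] (f : R →+* k) (Y : GrAlg k), IsBC f X Y → P k Y

variable {P : ∀ (k : Type) [Field k], GrAlg k → Prop}

/-- The family `X` over the `k`-algebra `A` is a deformation of the object `X₀` over `k`. -/
def IsDef {k : Type} [Field k] (X₀ : Fam P k) {A : Type} [CommRing A] [Algebra k A]
    (X : Fam P A) : Prop :=
  ∃ ε : A →ₐ[k] k, IsBC (ε : A →+* k) X.X X₀.X

/-- A local Artinian `k`-algebra. -/
structure Art (k : Type) [Field k] where
  A : Type
  [cr : CommRing A]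
  [loc : IsLocalRing A]
  [art : IsArtinianRing A]
  [alg : Algebra k A]

attribute [instance] Art.cr Art.loc Art.art Art.alg

/-- A function on the formal deformation space of `X₀`: an element of `A` for every deformation
of `X₀` over a local Artinian `k`-algebra `A`, compatible with base change (hence with
isomorphisms of families). -/
structure FormalFun {k : Type} [Field k] (X₀ : Fam P k) where
  f : ∀ (A : Art k) (X : Fam P A.A), IsDef X₀ X → A.A
  nat : ∀ (A B : Art k) (g : A.A →ₐ[k] B.A) (X : Fam P A.A) (Y : Fam P B.A)
    (hX : IsDef X₀ X) (hY : IsDef X₀ Y), IsBC (g : A.A →+* B.A) X.X Y.X → f B Y hY = g (f A X hX)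

/-- The maps `π R` from the families over `R` to `M R` are compatible with base change (hence
invariant under isomorphisms of families). -/
def IsNat (M : CommRingCat.{0} ⥤ Type) (π : ∀ R : CommRingCat.{0}, Fam P R → M.obj R) : Prop :=
  ∀ (R S : CommRingCat.{0}) (f : R ⟶ S) (X : Fam P R) (Y : Fam P S),
    IsBC f.hom X.X Y.X → M.map f (π R X) = π S Y

/-- The functions on the formal deformation spaces of the objects over algebraically closed
fields of characteristic `2` factor through `π'`. -/
def FormalSep (M' : CharTwo.FullSubcategory ⥤ Type)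
    (π' : ∀ R : CharTwo.FullSubcategory, Fam P R.obj → M'.obj R) : Prop :=
  ∀ (k : Type) [Field k] [IsAlgClosed k] [CharP k 2] (X₀ : Fam P k) (F : FormalFun X₀)
    (A : Art k) (h2 : CharTwo (CommRingCat.of A.A)) (X Y : Fam P A.A) (hX : IsDef X₀ X)
    (hY : IsDef X₀ Y), π' ⟨CommRingCat.of A.A, h2⟩ X = π' ⟨CommRingCat.of A.A, h2⟩ Y →
    F.f A X hX = F.f A Y hY

/-- `P` contains the canonical rings of the surfaces `S_{a,b}` with at worst nodes, over all
algebraically closed fields. -/
def HasNodal (P : ∀ (k : Type) [Field k], GrAlg k → Prop) : Prop :=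
  ∀ (k : Type) [Field k] [IsAlgClosed k] (a b : MvPolynomial (Fin 4) k), IsNodal a b →
    ∀ Y : GrAlg k, IsCan a b Y → P k Y

end Pool.Agent.Helper190_Can
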