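import Pool.Agent.Helper190_Can.NodeTwo
import Mathlib.RingTheory.Valuation.LocalSubring

set_option linter.unusedSimpArgs false
set_option linter.unusedVariables false
set_option linter.unusedSectionVars false

open MvPolynomial

noncomputable section

namespace Pool.Agent.Helper190_Can

variable {K : Type} [Field K]

lemma exists_V [CharZero K] : ∃ V : ValuationSubring K, (2 : K) ∈ V.nonunits := by
  let A : Subring K := (Int.castRingHom K).range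
  let t : A := ⟨2, ⟨2, by simp⟩⟩
  have hI : Ideal.span {t} ≠ ⊤ := by
    intro h
    rw [Ideal.eq_top_iff_one, Ideal.mem_span_singleton'] at h
    obtain ⟨⟨_, z, rfl⟩, hz⟩ := h
    have h1 := congrArg Subtype.val hz
    change (Int.castRingHom K) z * 2 = 1 at h1
    have h2 : ((z * 2 : ℤ) : K) = ((1 : ℤ) : K) := by push_cast; simpa using h1
    have h3 : z * 2 = 1 := Int.cast_injective h2
    omega
  obtain ⟨B, _, hB⟩ := Ideal.image_subset_nonunits_valuationSubring _ hI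
  exact ⟨B, hB ⟨t, Ideal.subset_span rfl, rfl⟩⟩

/-- the conditions in characteristic zero -/
structure Bad (u v : K) : Prop where
  hu : u ≠ 0
  hv : v ≠ 0
  e0 : 1 + u ^ 8 + v ^ 8 + u ^ 8 * v ^ 8 + u ^ 3 * v + u * v ^ 3 + u ^ 7 * v ^ 7 = 0
  ev : 8 * v ^ 8 + 8 * (u ^ 8 * v ^ 8) + u ^ 3 * v + 3 * (u * v ^ 3) + 7 * (u ^ 7 * v ^ 7) = 0
  eu : 8 * u ^ 8 + 8 * (u ^ 8 * v ^ 8) + 3 * (u ^ 3 * v) + u * v ^ 3 + 7 * (u ^ 7 * v ^ 7) = 0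
  eh : (16 * u ^ 8 + 16 * v ^ 8 + 64 * (u ^ 8 * v ^ 8) + 4 * (u ^ 3 * v) + 4 * (u * v ^ 3) +
      49 * (u ^ 7 * v ^ 7)) * (64 * v ^ 8 + 64 * (u ^ 8 * v ^ 8) + u ^ 3 * v + 9 * (u * v ^ 3) +
      49 * (u ^ 7 * v ^ 7)) = (32 * v ^ 8 + 64 * (u ^ 8 * v ^ 8) + 2 * (u ^ 3 * v) +
      6 * (u * v ^ 3) + 49 * (u ^ 7 * v ^ 7)) ^ 2

lemma Bad.swap {u v : K} (h : Bad u v) : Bad v u := by
  obtain ⟨hu, hv, e0, ev, eu, eh⟩ := h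
  refine ⟨hv, hu, ?_, ?_, ?_, ?_⟩
  · linear_combination e0
  · linear_combination eu
  · linear_combination ev
  · linear_combination eh

section residue
variable {F : Type} [Field F] (h2 : (2 : F) = 0) {x y : F}

include h2

lemma res00 (e0 : 1 + x ^ 8 + y ^ 8 + x ^ 8 * y ^ 8 + x ^ 3 * y + x * y ^ 3 + x ^ 7 * y ^ 7 = 0)
    (p1 : 8 * y ^ 7 + 8 * x ^ 8 * y ^ 7 + x ^ 3 + 3 * x * y ^ 2 + 7 * x ^ 7 * y ^ 6 = 0)
    (p2 : 8 * x ^ 7 + 8 * x ^ 7 * y ^ 8 + 3 * x ^ 2 * y + y ^ 3 + 7 * x ^ 6 * y ^ 7 = 0) :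
    x ≠ 0 ∧ y ≠ 0 := by
  constructor
  · rintro rfl
    have : y ^ 3 = 0 := by simpa using p2
    have : y = 0 := pow_eq_zero_iff (by norm_num) |>.mp this
    subst this
    simp at e0
  · rintro rfl
    have : x ^ 3 = 0 := by simpa using p1
    have : x = 0 := pow_eq_zero_iff (by norm_num) |>.mp this
    subst this
    simp at e0

lemma res10 (e0 : x ^ 8 + 1 + x ^ 8 * y ^ 8 + y ^ 8 + x ^ 5 * y + x ^ 7 * y ^ 3 + x * y ^ 7 = 0)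
    (p1 : 8 * x ^ 8 * y ^ 7 + 8 * y ^ 7 + x ^ 5 + 3 * x ^ 7 * y ^ 2 + 7 * x * y ^ 6 = 0)
    (p2 : 8 * x ^ 7 + 8 * x ^ 7 * y ^ 8 + 5 * x ^ 4 * y + 7 * x ^ 6 * y ^ 3 + y ^ 7 = 0) :
    x ≠ 0 ∧ y ≠ 0 := by
  constructor
  · rintro rfl
    have : y ^ 7 = 0 := by simpa using p2
    have : y = 0 := pow_eq_zero_iff (by norm_num) |>.mp this
    subst this
    simp at e0
  · rintro rfl
    have : x ^ 5 = 0 := by simpa using p1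
    have : x = 0 := pow_eq_zero_iff (by norm_num) |>.mp this
    subst this
    simp at e0

lemma res11 (e0 : x ^ 8 * y ^ 8 + y ^ 8 + x ^ 8 + 1 + x ^ 5 * y ^ 7 + x ^ 7 * y ^ 5 + x * y = 0)
    (p1 : 8 * x ^ 8 * y ^ 7 + 8 * y ^ 7 + 7 * x ^ 5 * y ^ 6 + 5 * x ^ 7 * y ^ 4 + x = 0)
    (p2 : 8 * x ^ 7 * y ^ 8 + 8 * x ^ 7 + 5 * x ^ 4 * y ^ 7 + 7 * x ^ 6 * y ^ 5 + y = 0) :
    x ≠ 0 ∧ y ≠ 0 := by
  constructor
  · rintro rfl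
    have : y = 0 := by simpa using p2
    subst this
    simp at e0
  · rintro rfl
    have : x = 0 := by simpa using p1
    subst this
    simp at e0

lemma resf (ev : 8 * y ^ 8 + 8 * (x ^ 8 * y ^ 8) + x ^ 3 * y + 3 * (x * y ^ 3) +
      7 * (x ^ 7 * y ^ 7) = 0)
    (eh : (16 * x ^ 8 + 16 * y ^ 8 + 64 * (x ^ 8 * y ^ 8) + 4 * (x ^ 3 * y) + 4 * (x * y ^ 3) +
      49 * (x ^ 7 * y ^ 7)) * (64 * y ^ 8 + 64 * (x ^ 8 * y ^ 8) + x ^ 3 * y + 9 * (x * y ^ 3) +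
      49 * (x ^ 7 * y ^ 7)) = (32 * y ^ 8 + 64 * (x ^ 8 * y ^ 8) + 2 * (x ^ 3 * y) +
      6 * (x * y ^ 3) + 49 * (x ^ 7 * y ^ 7)) ^ 2) : x = 0 ∨ y = 0 := by
  have e1 : (64 * y ^ 8 + 64 * (x ^ 8 * y ^ 8) + x ^ 3 * y + 9 * (x * y ^ 3) +
      49 * (x ^ 7 * y ^ 7)) = 0 := by
    linear_combination ev + (28 * y ^ 8 + 28 * (x ^ 8 * y ^ 8) + 3 * (x * y ^ 3) +
      21 * (x ^ 7 * y ^ 7)) * h2
  have e2 : (32 * y ^ 8 + 64 * (x ^ 8 * y ^ 8) + 2 * (x ^ 3 * y) +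
      6 * (x * y ^ 3) + 49 * (x ^ 7 * y ^ 7)) = x ^ 7 * y ^ 7 := by
    linear_combination (16 * y ^ 8 + 32 * (x ^ 8 * y ^ 8) + (x ^ 3 * y) +
      3 * (x * y ^ 3) + 24 * (x ^ 7 * y ^ 7)) * h2
  rw [e1, e2, mul_zero] at eh
  have e3 : x ^ 7 * y ^ 7 = 0 := pow_eq_zero_iff (two_ne_zero) |>.mp eh.symm
  rcases mul_eq_zero.mp e3 with h | h
  · exact Or.inl (pow_eq_zero_iff (by norm_num) |>.mp h)
  · exact Or.inr (pow_eq_zero_iff (by norm_num) |>.mp h)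

end residue

/-- a polynomial identity over `V` can be checked over `K` and used in the residue field -/
lemma toRes (V : ValuationSubring K) {e : V} (h : (e : K) = 0) :
    IsLocalRing.residue V e = 0 := by
  have : e = 0 := Subtype.ext h
  rw [this, map_zero]

theorem no_bad [CharZero K] {u v : K} (h : Bad u v) : False := by
  obtain ⟨V, hV⟩ := exists_V (K := K)
  have hu0 := h.hu
  have hv0 := h.hv
  have h2 : (2 : IsLocalRing.ResidueField V) = 0 := by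
    have h3 : IsLocalRing.residue V (2 : V) = 0 := by
      rw [IsLocalRing.residue_eq_zero_iff, IsLocalRing.mem_maximalIdeal, mem_nonunits_iff]
      intro hu
      rw [ValuationSubring.mem_nonunits_iff_exists_mem_maximalIdeal] at hV
      obtain ⟨ha, hb⟩ := hV
      rw [IsLocalRing.mem_maximalIdeal, mem_nonunits_iff] at hb
      exact hb hu
    rwa [map_ofNat] at h3
  have key : ∀ x : V, IsLocalRing.residue V x ≠ 0 → (x : K)⁻¹ ∈ V := by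
    intro x hx
    have hu : IsUnit x := by
      by_contra hn
      exact hx ((IsLocalRing.residue_eq_zero_iff _).mpr hn)
    obtain ⟨y, hy⟩ := hu.exists_right_inv
    have : (x : K) * y = 1 := congrArg Subtype.val hy
    rw [← eq_inv_of_mul_eq_one_right this]
    exact y.2
  have key' : ∀ (x : K) (h1 : x ∈ V) (h2 : x⁻¹ ∈ V), x ≠ 0 →
      IsLocalRing.residue V ⟨x, h1⟩ ≠ 0 := by
    intro x h1 h2 hx h3
    have h4 : (⟨x, h1⟩ : V) * ⟨x⁻¹, h2⟩ = 1 := Subtype.ext (mul_inv_cancel₀ hx)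
    have h5 := congrArg (IsLocalRing.residue V) h4
    rw [map_mul, h3, zero_mul, map_one] at h5
    exact zero_ne_one h5
  obtain ⟨_, _, e0, ev, eu, eh⟩ := h
  by_cases hall : (u ∈ V ∧ u⁻¹ ∈ V) ∧ (v ∈ V ∧ v⁻¹ ∈ V)
  · obtain ⟨⟨a1, a2⟩, ⟨a3, a4⟩⟩ := hall
    let x : V := ⟨u, a1⟩
    let y : V := ⟨v, a3⟩
    have q1 := toRes V (e := 8 * y ^ 8 + 8 * (x ^ 8 * y ^ 8) + x ^ 3 * y + 3 * (x * y ^ 3) +
      7 * (x ^ 7 * y ^ 7)) ev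
    have q2 := toRes V (e := (16 * x ^ 8 + 16 * y ^ 8 + 64 * (x ^ 8 * y ^ 8) + 4 * (x ^ 3 * y) +
      4 * (x * y ^ 3) +
      49 * (x ^ 7 * y ^ 7)) * (64 * y ^ 8 + 64 * (x ^ 8 * y ^ 8) + x ^ 3 * y + 9 * (x * y ^ 3) +
      49 * (x ^ 7 * y ^ 7)) - (32 * y ^ 8 + 64 * (x ^ 8 * y ^ 8) + 2 * (x ^ 3 * y) +
      6 * (x * y ^ 3) + 49 * (x ^ 7 * y ^ 7)) ^ 2) (sub_eq_zero.mpr eh)
    simp only [map_add, map_sub, map_mul, map_pow, map_ofNat, map_one] at q1 q2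
    rcases resf h2 q1 (sub_eq_zero.mp q2) with h6 | h6
    · exact key' u a1 a2 hu0 h6
    · exact key' v a3 a4 hv0 h6
  · apply hall
    rcases V.mem_or_inv_mem u with hu | hu <;> rcases V.mem_or_inv_mem v with hv | hv
    · let x : V := ⟨u, hu⟩
      let y : V := ⟨v, hv⟩
      have q0 := toRes V (e := 1 + x ^ 8 + y ^ 8 + x ^ 8 * y ^ 8 + x ^ 3 * y + x * y ^ 3 +
        x ^ 7 * y ^ 7) e0
      have q1 := toRes V (e := 8 * y ^ 7 + 8 * x ^ 8 * y ^ 7 + x ^ 3 + 3 * x * y ^ 2 +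
        7 * x ^ 7 * y ^ 6) (by
          change 8 * v ^ 7 + 8 * u ^ 8 * v ^ 7 + u ^ 3 + 3 * u * v ^ 2 + 7 * u ^ 7 * v ^ 6 = 0
          refine (mul_eq_zero.mp ?_).resolve_left hv0
          linear_combination ev)
      have q2 := toRes V (e := 8 * x ^ 7 + 8 * x ^ 7 * y ^ 8 + 3 * x ^ 2 * y + y ^ 3 +
        7 * x ^ 6 * y ^ 7) (by
          change 8 * u ^ 7 + 8 * u ^ 7 * v ^ 8 + 3 * u ^ 2 * v + v ^ 3 + 7 * u ^ 6 * v ^ 7 = 0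
          refine (mul_eq_zero.mp ?_).resolve_left hu0
          linear_combination eu)
      simp only [map_add, map_sub, map_mul, map_pow, map_ofNat, map_one] at q0 q1 q2
      obtain ⟨c1, c2⟩ := res00 h2 q0 q1 q2
      exact ⟨⟨hu, key x c1⟩, ⟨hv, key y c2⟩⟩
    · let x : V := ⟨v⁻¹, hv⟩
      let y : V := ⟨u, hu⟩
      have q0 := toRes V (e := x ^ 8 + 1 + x ^ 8 * y ^ 8 + y ^ 8 + x ^ 5 * y + x ^ 7 * y ^ 3 +
        x * y ^ 7) (by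
          change v⁻¹ ^ 8 + 1 + v⁻¹ ^ 8 * u ^ 8 + u ^ 8 + v⁻¹ ^ 5 * u + v⁻¹ ^ 7 * u ^ 3 +
            v⁻¹ * u ^ 7 = 0
          field_simp
          linear_combination e0)
      have q1 := toRes V (e := 8 * x ^ 8 * y ^ 7 + 8 * y ^ 7 + x ^ 5 + 3 * x ^ 7 * y ^ 2 +
        7 * x * y ^ 6) (by
          change 8 * v⁻¹ ^ 8 * u ^ 7 + 8 * u ^ 7 + v⁻¹ ^ 5 + 3 * v⁻¹ ^ 7 * u ^ 2 +
            7 * v⁻¹ * u ^ 6 = 0
          refine (mul_eq_zero.mp ?_).resolve_left hu0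
          field_simp
          linear_combination eu)
      have q2 := toRes V (e := 8 * x ^ 7 + 8 * x ^ 7 * y ^ 8 + 5 * x ^ 4 * y +
        7 * x ^ 6 * y ^ 3 + y ^ 7) (by
          change 8 * v⁻¹ ^ 7 + 8 * v⁻¹ ^ 7 * u ^ 8 + 5 * v⁻¹ ^ 4 * u + 7 * v⁻¹ ^ 6 * u ^ 3 +
            u ^ 7 = 0
          field_simp
          linear_combination 8 * e0 - ev)
      simp only [map_add, map_sub, map_mul, map_pow, map_ofNat, map_one] at q0 q1 q2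
      obtain ⟨c1, c2⟩ := res10 h2 q0 q1 q2
      have c3 := key x c1
      change (v⁻¹)⁻¹ ∈ V at c3
      rw [inv_inv] at c3
      exact ⟨⟨hu, key y c2⟩, ⟨c3, hv⟩⟩
    · let x : V := ⟨u⁻¹, hu⟩
      let y : V := ⟨v, hv⟩
      have q0 := toRes V (e := x ^ 8 + 1 + x ^ 8 * y ^ 8 + y ^ 8 + x ^ 5 * y + x ^ 7 * y ^ 3 +
        x * y ^ 7) (by
          change u⁻¹ ^ 8 + 1 + u⁻¹ ^ 8 * v ^ 8 + v ^ 8 + u⁻¹ ^ 5 * v + u⁻¹ ^ 7 * v ^ 3 +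
            u⁻¹ * v ^ 7 = 0
          field_simp
          linear_combination e0)
      have q1 := toRes V (e := 8 * x ^ 8 * y ^ 7 + 8 * y ^ 7 + x ^ 5 + 3 * x ^ 7 * y ^ 2 +
        7 * x * y ^ 6) (by
          change 8 * u⁻¹ ^ 8 * v ^ 7 + 8 * v ^ 7 + u⁻¹ ^ 5 + 3 * u⁻¹ ^ 7 * v ^ 2 +
            7 * u⁻¹ * v ^ 6 = 0
          refine (mul_eq_zero.mp ?_).resolve_left hv0
          field_simp
          linear_combination ev)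
      have q2 := toRes V (e := 8 * x ^ 7 + 8 * x ^ 7 * y ^ 8 + 5 * x ^ 4 * y +
        7 * x ^ 6 * y ^ 3 + y ^ 7) (by
          change 8 * u⁻¹ ^ 7 + 8 * u⁻¹ ^ 7 * v ^ 8 + 5 * u⁻¹ ^ 4 * v + 7 * u⁻¹ ^ 6 * v ^ 3 +
            v ^ 7 = 0
          field_simp
          linear_combination 8 * e0 - eu)
      simp only [map_add, map_sub, map_mul, map_pow, map_ofNat, map_one] at q0 q1 q2
      obtain ⟨c1, c2⟩ := res10 h2 q0 q1 q2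
      have c3 := key x c1
      change (u⁻¹)⁻¹ ∈ V at c3
      rw [inv_inv] at c3
      exact ⟨⟨c3, hu⟩, ⟨hv, key y c2⟩⟩
    · let x : V := ⟨u⁻¹, hu⟩
      let y : V := ⟨v⁻¹, hv⟩
      have q0 := toRes V (e := x ^ 8 * y ^ 8 + y ^ 8 + x ^ 8 + 1 + x ^ 5 * y ^ 7 +
        x ^ 7 * y ^ 5 + x * y) (by
          change u⁻¹ ^ 8 * v⁻¹ ^ 8 + v⁻¹ ^ 8 + u⁻¹ ^ 8 + 1 + u⁻¹ ^ 5 * v⁻¹ ^ 7 +
            u⁻¹ ^ 7 * v⁻¹ ^ 5 + u⁻¹ * v⁻¹ = 0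
          field_simp
          linear_combination e0)
      have q1 := toRes V (e := 8 * x ^ 8 * y ^ 7 + 8 * y ^ 7 + 7 * x ^ 5 * y ^ 6 +
        5 * x ^ 7 * y ^ 4 + x) (by
          change 8 * u⁻¹ ^ 8 * v⁻¹ ^ 7 + 8 * v⁻¹ ^ 7 + 7 * u⁻¹ ^ 5 * v⁻¹ ^ 6 +
            5 * u⁻¹ ^ 7 * v⁻¹ ^ 4 + u⁻¹ = 0
          field_simp
          linear_combination 8 * e0 - ev)
      have q2 := toRes V (e := 8 * x ^ 7 * y ^ 8 + 8 * x ^ 7 + 5 * x ^ 4 * y ^ 7 +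
        7 * x ^ 6 * y ^ 5 + y) (by
          change 8 * u⁻¹ ^ 7 * v⁻¹ ^ 8 + 8 * u⁻¹ ^ 7 + 5 * u⁻¹ ^ 4 * v⁻¹ ^ 7 +
            7 * u⁻¹ ^ 6 * v⁻¹ ^ 5 + v⁻¹ = 0
          field_simp
          linear_combination 8 * e0 - eu)
      simp only [map_add, map_sub, map_mul, map_pow, map_ofNat, map_one] at q0 q1 q2
      obtain ⟨c1, c2⟩ := res11 h2 q0 q1 q2
      have c3 := key x c1
      have c4 := key y c2
      change (u⁻¹)⁻¹ ∈ V at c3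
      change (v⁻¹)⁻¹ ∈ V at c4
      rw [inv_inv] at c3 c4
      exact ⟨⟨c3, hu⟩, ⟨c4, hv⟩⟩

/-! ### the two charts in characteristic zero -/

lemma node_FA_zero [IsAlgClosed K] [CharZero K] (c : Fin 3 → K) (hc : c 0 ≠ 0) :
    SmoothOrNode (FA K) c := by
  intro hF
  by_contra hcon
  rw [not_or, not_exists] at hcon
  obtain ⟨h1, h3⟩ := hcon
  obtain ⟨e0, e1, e2, e3, e4, e5, e6, e7, e8⟩ := tay_FA c
  have g0 := h1 0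
  have g1 := h1 1
  have g2 := h1 2
  rw [not_not] at g0 g1 g2 h3
  rw [e0] at g0
  rw [e1] at g1
  rw [e2] at g2
  rw [e3, e4, e5, e6, e7, e8] at h3
  have hz : c 2 = 0 := (mul_eq_zero.mp g2).resolve_left two_ne_zero
  simp only [FA, m3, map_add, map_mul, map_pow, eval_X, hz] at hF
  obtain ⟨u, hu⟩ := IsAlgClosed.exists_pow_nat_eq (c 0) (n := 2) (by norm_num)
  rw [← hu] at hF g0 g1 h3 hc
  set w := c 1
  have hu0 : u ≠ 0 := by rintro rfl; simp at hc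
  have hw0 : w ≠ 0 := by
    intro hw
    rw [hw] at g1
    have : u ^ 6 = 0 := by linear_combination g1
    exact hu0 (pow_eq_zero_iff (by norm_num) |>.mp this)
  have b0 : 1 + u ^ 8 + (w * u) ^ 8 + u ^ 8 * (w * u) ^ 8 + u ^ 3 * (w * u) + u * (w * u) ^ 3 +
      u ^ 7 * (w * u) ^ 7 = 0 := by
    refine (mul_eq_zero.mp ?_).resolve_left hc
    linear_combination hF
  have bv : 8 * (w * u) ^ 8 + 8 * (u ^ 8 * (w * u) ^ 8) + u ^ 3 * (w * u) +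
      3 * (u * (w * u) ^ 3) + 7 * (u ^ 7 * (w * u) ^ 7) = 0 := by
    refine (mul_eq_zero.mp ?_).resolve_left hc
    linear_combination w * g1
  refine no_bad (K := K) (u := u) (v := w * u) ⟨hu0, mul_ne_zero hw0 hu0, b0, bv, ?_, ?_⟩
  · linear_combination 2 * g0 - 2 * b0 - bv
  · refine mul_left_cancel₀ hc ?_
    linear_combination (u ^ 2 * w ^ 2) * h3 + (2 * u ^ 4 * (10 * (u ^ 2) ^ 3 + 10 * (u ^ 2) ^ 3 * w ^ 8 + 36 * (u ^ 2) ^ 7 * w ^ 8 + 3 * u ^ 2 * w +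
      3 * u ^ 2 * w ^ 3 + 28 * (u ^ 2) ^ 6 * w ^ 7) +
      2 * u ^ 2 * w * (40 * (u ^ 2) ^ 4 * w ^ 7 + 72 * (u ^ 2) ^ 8 * w ^ 7 + 3 * (u ^ 2) ^ 2 +
      9 * (u ^ 2) ^ 2 * w ^ 2 + 56 * (u ^ 2) ^ 7 * w ^ 6) - u ^ 2 * (8 * (w * u) ^ 8 + 8 * (u ^ 8 * (w * u) ^ 8) + u ^ 3 * (w * u) +
      3 * (u * (w * u) ^ 3) + 7 * (u ^ 7 * (w * u) ^ 7))) * bv -
      u ^ 2 * (64 * (w * u) ^ 8 + 64 * (u ^ 8 * (w * u) ^ 8) + u ^ 3 * (w * u) +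
      9 * (u * (w * u) ^ 3) + 49 * (u ^ 7 * (w * u) ^ 7)) * (g0 - b0)

lemma bad_inv {x y : K} (hx : x ≠ 0) (hy : y ≠ 0)
    (b0 : (1 + x ^ 8 + y ^ 8 + x ^ 8 * y ^ 8 + x ^ 5 * y ^ 7 + x ^ 7 * y ^ 5 + x * y) = 0)
    (h10 : (4 * x ^ 8 + 4 * y ^ 8 + 8 * (x ^ 8 * y ^ 8) + 6 * (x ^ 5 * y ^ 7) + 6 * (x ^ 7 * y ^ 5) + x * y) = 0)
    (h01 : (8 * y ^ 8 + 8 * (x ^ 8 * y ^ 8) + 7 * (x ^ 5 * y ^ 7) + 5 * (x ^ 7 * y ^ 5) + x * y) = 0)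
    (hh : (16 * x ^ 8 + 16 * y ^ 8 + 64 * (x ^ 8 * y ^ 8) + 36 * (x ^ 5 * y ^ 7) + 36 * (x ^ 7 * y ^ 5) +
      x * y) *
      (64 * y ^ 8 + 64 * (x ^ 8 * y ^ 8) + 49 * (x ^ 5 * y ^ 7) + 25 * (x ^ 7 * y ^ 5) + x * y) =
      (32 * y ^ 8 + 64 * (x ^ 8 * y ^ 8) + 42 * (x ^ 5 * y ^ 7) + 30 * (x ^ 7 * y ^ 5) + x * y) ^ 2) :
    Bad x⁻¹ y⁻¹ := by
  refine ⟨inv_ne_zero hx, inv_ne_zero hy, ?_, ?_, ?_, ?_⟩
  · field_simp
    linear_combination b0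
  · field_simp
    linear_combination 8 * b0 - h01
  · field_simp
    linear_combination 8 * b0 - 2 * h10 + h01
  · have s1 : 16 * x⁻¹ ^ 8 + 16 * y⁻¹ ^ 8 + 64 * (x⁻¹ ^ 8 * y⁻¹ ^ 8) + 4 * (x⁻¹ ^ 3 * y⁻¹) +
        4 * (x⁻¹ * y⁻¹ ^ 3) + 49 * (x⁻¹ ^ 7 * y⁻¹ ^ 7) = (16 * y ^ 8 + 16 * x ^ 8 + 64 + 4 * (x ^ 5 * y ^ 7) + 4 * (x ^ 7 * y ^ 5) + 49 * (x * y)) / (x ^ 8 * y ^ 8) := by
      field_simp
    have s2 : 64 * y⁻¹ ^ 8 + 64 * (x⁻¹ ^ 8 * y⁻¹ ^ 8) + x⁻¹ ^ 3 * y⁻¹ + 9 * (x⁻¹ * y⁻¹ ^ 3) +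
        49 * (x⁻¹ ^ 7 * y⁻¹ ^ 7) = (64 * x ^ 8 + 64 + x ^ 5 * y ^ 7 + 9 * (x ^ 7 * y ^ 5) + 49 * (x * y)) / (x ^ 8 * y ^ 8) := by
      field_simp
    have s3 : 32 * y⁻¹ ^ 8 + 64 * (x⁻¹ ^ 8 * y⁻¹ ^ 8) + 2 * (x⁻¹ ^ 3 * y⁻¹) +
        6 * (x⁻¹ * y⁻¹ ^ 3) + 49 * (x⁻¹ ^ 7 * y⁻¹ ^ 7) = (32 * x ^ 8 + 64 + 2 * (x ^ 5 * y ^ 7) + 6 * (x ^ 7 * y ^ 5) + 49 * (x * y)) / (x ^ 8 * y ^ 8) := by
      field_simp
    rw [s1, s2, s3, div_mul_div_comm, div_pow, pow_two (x ^ 8 * y ^ 8)]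
    congr 1
    linear_combination hh + (16 * x ^ 8 + 16 * y ^ 8 + 64 * (x ^ 8 * y ^ 8) + 36 * (x ^ 5 * y ^ 7) + 36 * (x ^ 7 * y ^ 5) +
      x * y) * (64 * b0 - 16 * h01) +
      (64 * x ^ 8 + 64 + x ^ 5 * y ^ 7 + 9 * (x ^ 7 * y ^ 5) + 49 * (x * y)) * (64 * b0 - 16 * h10) -
      (2 * (32 * y ^ 8 + 64 * (x ^ 8 * y ^ 8) + 42 * (x ^ 5 * y ^ 7) + 30 * (x ^ 7 * y ^ 5) + x * y) +
        (64 * (1 + x ^ 8 + y ^ 8 + x ^ 8 * y ^ 8 + x ^ 5 * y ^ 7 + x ^ 7 * y ^ 5 + x * y) -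
        8 * (4 * x ^ 8 + 4 * y ^ 8 + 8 * (x ^ 8 * y ^ 8) + 6 * (x ^ 5 * y ^ 7) + 6 * (x ^ 7 * y ^ 5) + x * y) -
        8 * (8 * y ^ 8 + 8 * (x ^ 8 * y ^ 8) + 7 * (x ^ 5 * y ^ 7) + 5 * (x ^ 7 * y ^ 5) + x * y))) * (64 * b0 - 8 * h10 - 8 * h01)

lemma node_FB_zero [IsAlgClosed K] [CharZero K] (c : Fin 3 → K) (hc : c 0 ≠ 0) :
    SmoothOrNode (FB K) c := by
  intro hF
  by_contra hcon
  rw [not_or, not_exists] at hcon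
  obtain ⟨h1, h3⟩ := hcon
  obtain ⟨e0, e1, e2, e3, e4, e5, e6, e7, e8⟩ := tay_FB c
  have g0 := h1 0
  have g1 := h1 1
  have g2 := h1 2
  rw [not_not] at g0 g1 g2 h3
  rw [e0] at g0
  rw [e1] at g1
  rw [e2] at g2
  rw [e3, e4, e5, e6, e7, e8] at h3
  have hz : c 2 = 0 := (mul_eq_zero.mp g2).resolve_left two_ne_zero
  simp only [FB, m3, map_add, map_mul, map_pow, eval_X, hz] at hF
  obtain ⟨u, hu⟩ := IsAlgClosed.exists_pow_nat_eq (c 0) (n := 2) (by norm_num)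
  rw [← hu] at hF g0 g1 h3 hc
  set w := c 1
  have hu0 : u ≠ 0 := by rintro rfl; simp at hc
  have hw0 : w ≠ 0 := by
    intro hw
    rw [hw] at g1
    have : u ^ 4 = 0 := by linear_combination g1
    exact hu0 (pow_eq_zero_iff (by norm_num) |>.mp this)
  have b0 : (1 + u ^ 8 + (w * u) ^ 8 + u ^ 8 * (w * u) ^ 8 + u ^ 5 * (w * u) ^ 7 + u ^ 7 * (w * u) ^ 5 + u * (w * u)) = 0 := by
    refine (mul_eq_zero.mp ?_).resolve_left hc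
    linear_combination hF
  have h01 : (8 * (w * u) ^ 8 + 8 * (u ^ 8 * (w * u) ^ 8) + 7 * (u ^ 5 * (w * u) ^ 7) + 5 * (u ^ 7 * (w * u) ^ 5) + u * (w * u)) = 0 := by
    refine (mul_eq_zero.mp ?_).resolve_left hc
    linear_combination w * g1
  have h10 : (4 * u ^ 8 + 4 * (w * u) ^ 8 + 8 * (u ^ 8 * (w * u) ^ 8) + 6 * (u ^ 5 * (w * u) ^ 7) + 6 * (u ^ 7 * (w * u) ^ 5) + u * (w * u)) = 0 := by
    linear_combination g0 - b0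
  refine no_bad (bad_inv (K := K) (x := u) (y := w * u) hu0 (mul_ne_zero hw0 hu0) b0 h10 h01 ?_)
  refine mul_left_cancel₀ hc ?_
  linear_combination (u ^ 2 * w ^ 2) * h3 + (2 * u ^ 4 * (10 * (u ^ 2) ^ 3 +
      10 * (u ^ 2) ^ 3 * w ^ 8 + 36 * (u ^ 2) ^ 7 * w ^ 8 + 21 * (u ^ 2) ^ 5 * w ^ 7 +
      21 * (u ^ 2) ^ 5 * w ^ 5 + w) +
      2 * u ^ 2 * w * (40 * (u ^ 2) ^ 4 * w ^ 7 + 72 * (u ^ 2) ^ 8 * w ^ 7 +
      49 * (u ^ 2) ^ 6 * w ^ 6 + 35 * (u ^ 2) ^ 6 * w ^ 4 + 2 * u ^ 2) - u ^ 2 *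
      (8 * (w * u) ^ 8 + 8 * (u ^ 8 * (w * u) ^ 8) + 7 * (u ^ 5 * (w * u) ^ 7) + 5 * (u ^ 7 * (w * u) ^ 5) + u * (w * u))) * h01 -
      u ^ 2 * (64 * (w * u) ^ 8 + 64 * (u ^ 8 * (w * u) ^ 8) + 49 * (u ^ 5 * (w * u) ^ 7) + 25 * (u ^ 7 * (w * u) ^ 5) + u * (w * u)) * h10

lemma node_FA [IsAlgClosed K] (h : CharZero K ∨ CharP K 2) (c : Fin 3 → K) (hc : c 0 ≠ 0) :
    SmoothOrNode (FA K) c := by
  rcases h with h | h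
  · exact node_FA_zero c hc
  · exact node_FA_two CharTwo.two_eq_zero c hc

lemma node_FB [IsAlgClosed K] (h : CharZero K ∨ CharP K 2) (c : Fin 3 → K) (hc : c 0 ≠ 0) :
    SmoothOrNode (FB K) c := by
  rcases h with h | h
  · exact node_FB_zero c hc
  · exact node_FB_two CharTwo.two_eq_zero c hc

/-- the surface `S_{0,bz}` has at worst nodes in characteristics zero and two -/
theorem isNodal_bz (K : Type) [Field K] [IsAlgClosed K] (h : CharZero K ∨ CharP K 2) :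
    IsNodal (0 : MvPolynomial (Fin 4) K) (Helper190_CoarseTwo.bz K 2) where
  ha := isWeightedHomogeneous_zero _ _ _
  hb := Helper190_CoarseTwo.bz_hom le_rfl
  h00 := by rw [bz_eq]; simp
  h10 := by rw [bz_eq]; simp
  h01 := by rw [bz_eq]; simp
  h11 := by rw [bz_eq]; simp
  node := by
    rintro g (rfl | rfl | rfl | rfl)
    · exact ⟨FA K, chart_A, node_FA h⟩
    · exact ⟨FA K, chart_A', node_FA h⟩
    · exact ⟨FB K, chart_B, node_FB h⟩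
    · exact ⟨FB K, chart_B', node_FB h⟩

end Pool.Agent.Helper190_Can
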