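import Pool.Agent.Helper190_Can.Iso
import Pool.Agent.Helper190_Can.Families
import Pool.Agent.Helper190_Can.D2loc
import Pool.Agent.Helper190_Can.NodeZero

set_option linter.unusedSimpArgs false
set_option linter.unusedSectionVars false
set_option linter.unusedVariables false

open Module MvPolynomial CategoryTheory
open Pool.Agent.Helper190_CoarseTwo (wt zdeg Cox piece nf D2 bz az az' fbar CharTwo
  ClosedDiagonal)

noncomputable section

namespace Pool.Agent.Helper190_Can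

variable {P : ∀ (k : Type) [Field k], GrAlg k → Prop}

/-! ### presentations -/

/-- a presentation with units at the corners -/
def Pres {R : Type} [CommRing R] (X : GrAlg R) (B : Basis Ix R X.A) (α : Bool → Lt → R) : Prop :=
  HomB X.gr B ∧ Tab B α ∧ Cu α

lemma cu_bz {R : Type} [CommRing R] (a : MvPolynomial (Fin 4) R) : Cu (coefs a (bz R 2)) := by
  have h : ∀ κ, coefs a (bz R 2) false κ = coeff (kexp false κ) (bz R 2) := fun _ => rfl
  refine ⟨?_, ?_, ?_, ?_⟩ <;> rw [h] <;>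
    simp [bz, kexp, Helper190_CoarseTwo.coeff_mono, coeff_add, Helper190_CoarseTwo.ex_eq_iff]

lemma pres_Can {R : Type} [CommRing R] {a : MvPolynomial (Fin 4) R} :
    ∃ B, Pres (Can (coefs a (bz R 2))) B (coefs a (bz R 2)) :=
  ⟨canBasis _, hom_ofTab (canTab _), canTab _, cu_bz a⟩

lemma Pres.image {R S : Type} [CommRing R] [CommRing S] {f : R →+* S} {X : GrAlg R}
    {Y : GrAlg S} (h : IsBC f X Y) {B : Basis Ix R X.A} {α : Bool → Lt → R} (hp : Pres X B α) :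
    ∃ B', Pres Y B' (fun d κ => f (α d κ)) := by
  obtain ⟨B', h1, h2⟩ := tab_image h hp.1 hp.2.1
  exact ⟨B', h1, h2, hp.2.2.map f⟩

lemma Pres.lift {R k : Type} [CommRing R] [Field k] {ε : R →+* k}
    (hs : Function.Surjective ε) (hnil : IsNilpotent (RingHom.ker ε)) {X : GrAlg R}
    {X₀ : GrAlg k} (h : IsBC ε X X₀) {B₀ : Basis Ix k X₀.A} {α₀ : Bool → Lt → k}
    (hp : Pres X₀ B₀ α₀) : ∃ B α, Pres X B α := by
  obtain ⟨B, α, h1, h2, h3⟩ := tab_lift hs hnil h hp.1 hp.2.1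
  refine ⟨B, α, h1, h2, ?_⟩
  have hu : ∀ κ, IsUnit (α₀ false κ) → IsUnit (α false κ) := by
    intro κ hκ
    apply isUnit_of_map_nil hs hnil
    rw [h3]; exact hκ
  exact ⟨hu _ hp.2.2.h00, hu _ hp.2.2.h80, hu _ hp.2.2.h08, hu _ hp.2.2.h88⟩

/-! ### the function on deformations -/

/-- the value of the function attached to a presentation -/
def val {R : Type} [CommRing R] (α : Bool → Lt → R) : R := fbar 2 (pol true α) (pol false α)

lemma val_map {R S : Type} [CommRing R] [CommRing S] (f : R →+* S) {α : Bool → Lt → R}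
    (h : Cu α) : val (fun d κ => f (α d κ)) = f (val α) := by
  rw [val, pol_map, pol_map]
  exact Helper190_CoarseTwo.Ok.fbar_map f (ok_pol h)

lemma val_unique {R : Type} [CommRing R] [IsLocalRing R] (h2 : (2 : R) = 0) {X : GrAlg R}
    {B B' : Basis Ix R X.A} {α α' : Bool → Lt → R} (h : Pres X B α) (h' : Pres X B' α') :
    val α = val α' :=
  fbar_unique h2 h'.1 h'.2.1 h'.2.2 h.1 h.2.1 h.2.2

lemma ker_nil {k A : Type} [Field k] [CommRing A] [IsLocalRing A] [IsArtinianRing A]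
    [Algebra k A] (ε : A →ₐ[k] k) : IsNilpotent (RingHom.ker (ε : A →+* k)) := by
  have h1 : (RingHom.ker (ε : A →+* k)).IsMaximal := by
    apply RingHom.ker_isMaximal_of_surjective
    intro r
    exact ⟨algebraMap k A r, by simp⟩
  have h2 := IsLocalRing.eq_maximalIdeal h1
  rw [h2, ← IsLocalRing.jacobson_eq_maximalIdeal ⊥ bot_ne_top]
  exact IsArtinianRing.isNilpotent_jacobson_bot

lemma exists_pres {k : Type} [Field k] {X₀ : Fam P k} (h₀ : ∃ B₀ α₀, Pres X₀.X B₀ α₀) {A : Type}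
    [CommRing A] [IsLocalRing A] [IsArtinianRing A] [Algebra k A] {X : Fam P A}
    (hX : IsDef X₀ X) : ∃ α B, Pres X.X B α := by
  obtain ⟨B₀, α₀, h₀⟩ := h₀
  obtain ⟨ε, hε⟩ := hX
  obtain ⟨B, α, h⟩ := h₀.lift (ε := (ε : A →+* k)) (fun r => ⟨algebraMap k A r, by simp⟩)
    (ker_nil ε) hε
  exact ⟨α, B, h⟩

lemma two_zero {k A : Type} [Field k] [CharP k 2] [CommRing A] [Algebra k A] : (2 : A) = 0 := by
  have h : (2 : k) = 0 := CharTwo.two_eq_zero
  have := congrArg (algebraMap k A) h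
  rwa [map_ofNat, map_zero] at this

/-- the function on the formal deformation space -/
def theFun {k : Type} [Field k] [CharP k 2] {X₀ : Fam P k}
    (h₀ : ∃ B₀ α₀, Pres X₀.X B₀ α₀) : FormalFun X₀ where
  f A X hX := val (exists_pres h₀ hX).choose
  nat A B g X Y hX hY hg := by
    obtain ⟨BX, hBX⟩ := (exists_pres h₀ hX).choose_spec
    obtain ⟨BY, hBY⟩ := (exists_pres h₀ hY).choose_spec
    obtain ⟨B', hB'⟩ := hBX.image hg
    rw [val_unique (two_zero (k := k)) hBY hB']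
    exact val_map (g : A.A →+* B.A) hBX.2.2

lemma theFun_eq {k : Type} [Field k] [CharP k 2] {X₀ : Fam P k}
    (h₀ : ∃ B₀ α₀, Pres X₀.X B₀ α₀) {A : Art k} {X : Fam P A.A} (hX : IsDef X₀ X)
    {B : Basis Ix A.A X.X.A} {α : Bool → Lt → A.A}
    (h : Pres X.X B α) : (theFun h₀).f A X hX = val α := by
  obtain ⟨BX, hBX⟩ := (exists_pres h₀ hX).choose_spec
  exact val_unique (two_zero (k := k)) hBX h

/-! ### the explicit families -/

/-- the family attached to `(a, bz)` -/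
def mkFam {R : Type} [CommRing R] (a : MvPolynomial (Fin 4) R)
    (ha : a.IsWeightedHomogeneous wt (zdeg 2))
    (h : ∀ (k : Type) [Field k] [IsAlgClosed k] (f : R →+* k), map f a = 0 ∧
      ∀ Y : GrAlg k, IsCan 0 (bz k 2) Y → P k Y) : Fam P R where
  X := Can (coefs a (bz R 2))
  ft := finiteType_of_tab (canTab (coefs a (bz R 2)))
  fib k _ _ f Y hY := by
    obtain ⟨h1, h2⟩ := h k f
    apply h2
    obtain ⟨B', h3, h4⟩ := tab_image hY (hom_ofTab (canTab (coefs a (bz R 2))))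
      (canTab (coefs a (bz R 2)))
    have h5 := isCan_of_tab Y h4 h3
    have hb : (bz R 2).IsWeightedHomogeneous wt (zdeg 2 + zdeg 2) :=
      Helper190_CoarseTwo.bz_hom le_rfl
    rw [pol_map, pol_map, pol_coefs ha hb, pol_coefs ha hb] at h5
    change IsCan (map f a) (map f (bz R 2)) Y at h5
    rw [h1, Helper190_CoarseTwo.map_bz] at h5
    exact h5

lemma coefs_map {R S : Type} [CommRing R] [CommRing S] (f : R →+* S)
    (a b : MvPolynomial (Fin 4) R) :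
    coefs (map f a) (map f b) = fun d κ => f (coefs a b d κ) := by
  funext d κ
  cases d <;> simp [coefs, coeff_map]

lemma isBC_mkFam {R S : Type} [CommRing R] [CommRing S] (f : R →+* S)
    {a : MvPolynomial (Fin 4) R} {a' : MvPolynomial (Fin 4) S} (haa : map f a = a') (ha hR)
    (ha' hS) : IsBC f (mkFam (P := P) a ha hR).X (mkFam (P := P) a' ha' hS).X := by
  subst haa
  refine isBC_ofTab f (canTab _) (canTab _) ?_
  intro d κ
  have h1 := congrFun (congrFun (coefs_map f a (bz R 2)) d) κ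
  rw [Helper190_CoarseTwo.map_bz] at h1
  exact h1

/-! ### the main argument -/

section

lemma az_zero {R k : Type} [CommRing R] [Field k] (f : D2 R →+* k) :
    map f (az 2 (D2.x R) (D2.y R)) = 0 := by
  rw [Helper190_CoarseTwo.map_az, Helper190_CoarseTwo.map_nil f (D2.x_sq R),
    Helper190_CoarseTwo.map_nil f (D2.y_sq R)]
  simp [az]

lemma az'_zero {R k : Type} [CommRing R] [Field k] (f : D2 R →+* k) :
    map f (az' 2 (D2.x R) (D2.y R)) = 0 := by
  rw [Helper190_CoarseTwo.map_az', Helper190_CoarseTwo.map_nil f (D2.x_sq R),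
    Helper190_CoarseTwo.map_nil f (D2.y_sq R)]
  simp [az']

theorem main (hPn : HasNodal P) (M : CommRingCat.{0} ⥤ Type) (hM : ClosedDiagonal M)
    (π : ∀ R : CommRingCat.{0}, Fam P R → M.obj R) (hπ : IsNat M π)
    (M' : CharTwo.FullSubcategory ⥤ Type)
    (π' : ∀ R : CharTwo.FullSubcategory, Fam P R.obj → M'.obj R) (hM' : FormalSep M' π')
    (φ : M' ⟶ CharTwo.ι ⋙ M)
    (hφ : ∀ (R : CharTwo.FullSubcategory) (X : Fam P R.obj), φ.app R (π' R X) = π R.obj X) :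
    ¬ Mono φ := by
  intro hmono
  have hP : ∀ (k : Type) [Field k] [IsAlgClosed k], (CharZero k ∨ CharP k 2) →
      ∀ Y : GrAlg k, IsCan 0 (bz k 2) Y → P k Y :=
    fun k _ _ h Y hY => hPn k 0 (bz k 2) (isNodal_bz k h) Y hY
  set k := AlgebraicClosure (ZMod 2) with hk
  have : CharP k 2 := charP_of_injective_algebraMap (algebraMap (ZMod 2) k).injective 2
  have hZ : ∀ (K : Type) [Field K] [IsAlgClosed K] (f : D2 ℤ_[2] →+* K),
      ∀ Y : GrAlg K, IsCan 0 (bz K 2) Y → P K Y :=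
    fun K _ _ f => hP K (Helper190_CoarseTwo.char_cases (f.comp (D2.C _)))
  have hQ : ∀ (K : Type) [Field K] [IsAlgClosed K] (f : D2 ℚ_[2] →+* K),
      ∀ Y : GrAlg K, IsCan 0 (bz K 2) Y → P K Y :=
    fun K _ _ f => hP K (Helper190_CoarseTwo.char_cases
      ((f.comp (D2.C _)).comp (algebraMap ℤ_[2] ℚ_[2])))
  let ζ : ℤ_[2] →+* k := (algebraMap (ZMod 2) k).comp PadicInt.toZMod
  have hF : ∀ (K : Type) [Field K] [IsAlgClosed K] (f : D2 k →+* K),
      ∀ Y : GrAlg K, IsCan 0 (bz K 2) Y → P K Y :=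
    fun K _ _ f => hP K (Helper190_CoarseTwo.char_cases ((f.comp (D2.C _)).comp ζ))
  have hk0 : ∀ (K : Type) [Field K] [IsAlgClosed K] (f : k →+* K),
      ∀ Y : GrAlg K, IsCan 0 (bz K 2) Y → P K Y :=
    fun K _ _ f => hP K (Helper190_CoarseTwo.char_cases (f.comp ζ))
  have azh : ∀ (R : Type) [CommRing R], (az 2 (D2.x R) (D2.y R)).IsWeightedHomogeneous wt
      (zdeg 2) := fun R _ => Helper190_CoarseTwo.az_hom le_rfl _ _
  have azh' : ∀ (R : Type) [CommRing R], (az' 2 (D2.x R) (D2.y R)).IsWeightedHomogeneous wt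
      (zdeg 2) := fun R _ => Helper190_CoarseTwo.az'_hom le_rfl _ _
  -- the families
  let X1 : Fam P (D2 ℤ_[2]) := mkFam _ (azh ℤ_[2]) (fun K _ _ f => ⟨az_zero f, hZ K f⟩)
  let X2 : Fam P (D2 ℤ_[2]) := mkFam _ (azh' ℤ_[2]) (fun K _ _ f => ⟨az'_zero f, hZ K f⟩)
  let Y1 : Fam P (D2 ℚ_[2]) := mkFam _ (azh ℚ_[2]) (fun K _ _ f => ⟨az_zero f, hQ K f⟩)
  let Y2 : Fam P (D2 ℚ_[2]) := mkFam _ (azh' ℚ_[2]) (fun K _ _ f => ⟨az'_zero f, hQ K f⟩)
  let Z1 : Fam P (D2 k) := mkFam _ (azh k) (fun K _ _ f => ⟨az_zero f, hF K f⟩)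
  let Z2 : Fam P (D2 k) := mkFam _ (azh' k) (fun K _ _ f => ⟨az'_zero f, hF K f⟩)
  let X₀ : Fam P k := mkFam 0 (isWeightedHomogeneous_zero _ _ _)
    (fun K _ _ f => ⟨map_zero _, hk0 K f⟩)
  let L := CommRingCat.of (D2 ℤ_[2])
  let LQ := CommRingCat.of (D2 ℚ_[2])
  let LF := CommRingCat.of (D2 k)
  let fQ : L ⟶ LQ := CommRingCat.ofHom (D2.map (algebraMap ℤ_[2] ℚ_[2]))
  let fF : L ⟶ LF := CommRingCat.ofHom (D2.map ζ)
  have hinj : Function.Injective (D2.map (algebraMap ℤ_[2] ℚ_[2])) :=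
    D2.map_injective (IsFractionRing.injective ℤ_[2] ℚ_[2])
  have bQ1 : IsBC (D2.map (algebraMap ℤ_[2] ℚ_[2])) X1.X Y1.X :=
    isBC_mkFam _ (by rw [Helper190_CoarseTwo.map_az, D2.map_x, D2.map_y]) _ _ _ _
  have bQ2 : IsBC (D2.map (algebraMap ℤ_[2] ℚ_[2])) X2.X Y2.X :=
    isBC_mkFam _ (by rw [Helper190_CoarseTwo.map_az', D2.map_x, D2.map_y]) _ _ _ _
  have bF1 : IsBC (D2.map ζ) X1.X Z1.X :=
    isBC_mkFam _ (by rw [Helper190_CoarseTwo.map_az, D2.map_x, D2.map_y]) _ _ _ _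
  have bF2 : IsBC (D2.map ζ) X2.X Z2.X :=
    isBC_mkFam _ (by rw [Helper190_CoarseTwo.map_az', D2.map_x, D2.map_y]) _ _ _ _
  have hbQ : (bz (D2 ℚ_[2]) 2).IsWeightedHomogeneous wt (zdeg 2 + zdeg 2) :=
    Helper190_CoarseTwo.bz_hom le_rfl
  have hiso : IsBC (RingHom.id (D2 ℚ_[2])) Y1.X Y2.X := by
    have h1 : IsCan (az 2 (D2.x ℚ_[2]) (D2.y ℚ_[2])) (bz (D2 ℚ_[2]) 2) Y1.X :=
      isCan_Can (azh _) hbQ
    have h2 : IsCan (az' 2 (D2.x ℚ_[2]) (D2.y ℚ_[2])) (bz (D2 ℚ_[2]) 2) Y2.X :=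
      isCan_Can (azh' _) hbQ
    have h3 := h1.of_sq (D2.two_unit Helper190_CoarseTwo.unit_two_Q) (azh _) (azh' _)
      (Helper190_CoarseTwo.az_sq le_rfl (D2.x_sq _) (D2.y_sq _))
    exact isBC_of_isCan h3 h2
  -- equality of the points of `M`
  have hQeq : M.map fQ (π L X1) = M.map fQ (π L X2) := by
    rw [hπ L LQ fQ X1 Y1 bQ1, hπ L LQ fQ X2 Y2 bQ2]
    have := hπ LQ LQ (𝟙 LQ) Y1 Y2 hiso
    rw [M.map_id] at this
    exact this
  obtain ⟨I, hI⟩ := hM L (π L X1) (π L X2)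
  have hI0 := (hI LQ fQ).mp hQeq
  have hI00 : ∀ r ∈ I, r = 0 := by
    intro r hr
    apply hinj
    rw [map_zero]
    exact hI0 r hr
  have hLeq : M.map fF (π L X1) = M.map fF (π L X2) := by
    rw [hI]
    intro r hr
    rw [hI00 r hr, map_zero]
  rw [hπ L LF fF X1 Z1 bF1, hπ L LF fF X2 Z2 bF2] at hLeq
  have h2F : CharTwo LF := D2.two_eq (CharTwo.two_eq_zero (R := k))
  let LF' : CharTwo.FullSubcategory := ⟨LF, h2F⟩
  have hmono' : Mono (φ.app LF') := inferInstance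
  have hinj' := (mono_iff_injective (φ.app LF')).mp hmono'
  have heq : π' LF' Z1 = π' LF' Z2 := by
    apply hinj'
    rw [hφ, hφ]
    exact hLeq
  -- the deformations
  have hD : ∀ (a : MvPolynomial (Fin 4) (D2 k)) (ha h), map (D2aug k : D2 k →+* k) a = 0 →
      IsDef X₀ (mkFam (P := P) a ha h) := by
    intro a ha h h0
    exact ⟨D2aug k, isBC_mkFam _ h0 _ _ _ _⟩
  have hZ1 : IsDef X₀ Z1 := hD _ _ _ (az_zero _)
  have hZ2 : IsDef X₀ Z2 := hD _ _ _ (az'_zero _)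
  have h₀ : ∃ B₀ α₀, Pres X₀.X B₀ α₀ := by
    obtain ⟨B, hB⟩ := pres_Can (R := k) (a := 0)
    exact ⟨B, _, hB⟩
  have hfin := hM' k X₀ (theFun h₀) ⟨D2 k⟩ h2F Z1 Z2 hZ1 hZ2 heq
  obtain ⟨B1, hB1⟩ := pres_Can (R := D2 k) (a := az 2 (D2.x k) (D2.y k))
  obtain ⟨B2, hB2⟩ := pres_Can (R := D2 k) (a := az' 2 (D2.x k) (D2.y k))
  have e1 := theFun_eq h₀ (A := ⟨D2 k⟩) hZ1 (B := B1) (α := coefs (az 2 (D2.x k) (D2.y k)) (bz (D2 k) 2)) hB1
  have e2 := theFun_eq h₀ (A := ⟨D2 k⟩) hZ2 (B := B2) (α := coefs (az' 2 (D2.x k) (D2.y k)) (bz (D2 k) 2)) hB2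
  rw [e1, e2] at hfin
  have hbF : (bz (D2 k) 2).IsWeightedHomogeneous wt (zdeg 2 + zdeg 2) :=
    Helper190_CoarseTwo.bz_hom le_rfl
  rw [val, val, pol_coefs (azh k) hbF, pol_coefs (azh k) hbF, pol_coefs (azh' k) hbF,
    pol_coefs (azh' k) hbF] at hfin
  simp only [cond_true, cond_false] at hfin
  rw [Helper190_CoarseTwo.fbar_az le_rfl, Helper190_CoarseTwo.fbar_az' le_rfl] at hfin
  exact D2.xy_ne k hfin

end

end Pool.Agent.Helper190_Can
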