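import Pool.Agent.Helper190_Can.CFin
import Pool.Agent.Helper190_Can.Main

set_option linter.unusedSimpArgs false
set_option linter.unusedVariables false
set_option linter.unusedSectionVars false
set_option linter.style.haveILetI false

open Module MvPolynomial
open Pool.Agent.Helper190_CoarseTwo (wt zdeg bz ex)

noncomputable section

namespace Pool.Agent.Helper190_Can

variable {k K : Type} [Field k] [Field K] [Algebra k K] {U w ζ : K}

/-- the monomial attached to an index -/
def mx (d : Bool) (v : Lt) : ℤ × ℤ × Bool := ((v.1 + v.2.1 + v.2.2 - cond d 1 0) / 2, v.2.2, d)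

lemma mx_valid {n : ℕ} {d : Bool} {v : Lt} (hv : inD d v) (hn : v.1 = n) : mx d v ∈ VSet n := by
  obtain ⟨n', i, j⟩ := v
  simp only at hn
  subst hn
  simp only [VSet, mx, Set.mem_ofPred_eq]
  cases d
  · simp only [inD, inS] at hv
    simp only [cond_false]
    constructor
    · omega
    · omega
    · push_cast; omega
    · push_cast; omega
    · push_cast; omega
  · simp only [inD, inM] at hv
    simp only [cond_true]
    constructor
    · omega
    · omega
    · push_cast; omega
    · push_cast; omega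
    · push_cast; omega

lemma valid_mx {n : ℕ} {x : ℤ × ℤ × Bool} (hx : x ∈ VSet n) :
    ∃ v : Lt, inD x.2.2 v ∧ v.1 = n ∧ mx x.2.2 v = x := by
  obtain ⟨a, m, d⟩ := x
  simp only [VSet, Set.mem_ofPred_eq] at hx
  obtain ⟨h1, h2, h3, h4, h5⟩ := hx
  cases d
  · simp only [cond_false] at *
    push_cast at *
    refine ⟨((n : ℤ), 2 * a - n - m, m), ?_, rfl, ?_⟩
    · simp only [inD, inS]; omega
    · simp only [mx, cond_false, Prod.mk.injEq, and_true]; omega
  · simp only [cond_true] at *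
    push_cast at *
    refine ⟨((n : ℤ), 2 * a - n - m + 1, m), ?_, rfl, ?_⟩
    · simp only [inD, inM]; omega
    · simp only [mx, cond_true, Prod.mk.injEq, and_true]; omega

lemma mx_inj {d d' : Bool} {v v' : Lt} (hv : inD d v) (hv' : inD d' v') (hn : v.1 = v'.1)
    (h : mx d v = mx d' v') : d = d' ∧ v = v' := by
  obtain ⟨n, i, j⟩ := v
  obtain ⟨n', i', j'⟩ := v'
  simp only [mx, Prod.mk.injEq] at h hn
  obtain ⟨h1, h2, h3⟩ := h
  subst hn h2 h3
  refine ⟨rfl, ?_⟩
  cases d
  · simp only [inD, inS, cond_false] at *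
    simp only [Prod.mk.injEq, and_true, true_and]
    omega
  · simp only [inD, inM, cond_true] at *
    simp only [Prod.mk.injEq, and_true, true_and]
    omega

lemma Bm_mulS (hU : U ≠ 0) (hw : w ≠ 0) {d : Bool} {σ μ : Lt} (hσ : inS σ) (hμ : inD d μ) :
    Bm U w ζ (mx false σ) * Bm U w ζ (mx d μ) = Bm U w ζ (mx d (σ + μ)) := by
  obtain ⟨n, i, j⟩ := σ
  obtain ⟨n', i', j'⟩ := μ
  have e : mx d ((n, i, j) + (n', i', j')) = ((n' + i' + j' - cond d 1 0) / 2 + (n + i + j) / 2,
      j' + j, d) := by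
    simp only [mx, Prod.mk_add_mk, Prod.mk.injEq, and_true]
    cases d
    · simp only [inD, inS, cond_false] at *
      omega
    · simp only [inD, inM, inS, cond_true] at *
      omega
  rw [e, Bm_mul hU hw]
  simp only [mx, cond_false, sub_zero, Bm]
  ring

/-- the linear form picking out the coefficients -/
def Lf (U w : K) : MvPolynomial (Fin 4) k →ₗ[k] K :=
  (basisMonomials (Fin 4) k).constr k fun e => U ^ ((e 1 + e 3) / 2 + 1) * w ^ (e 3)

lemma Lf_monomial (e : Fin 4 →₀ ℕ) (c : k) : Lf U w (monomial e c) =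
    c • (U ^ ((e 1 + e 3) / 2 + 1) * w ^ (e 3)) := by
  have h1 : (monomial e c : MvPolynomial (Fin 4) k) = c • basisMonomials (Fin 4) k e := by
    rw [coe_basisMonomials, smul_monomial, smul_eq_mul, mul_one]
  rw [h1, map_smul, Lf, Basis.constr_basis]

lemma Lf_bz : Lf U w (bz k 2) = aeval ![U, w] (GA k) := by
  rw [aGA]
  simp only [bz, map_add, Lf_monomial, Helper190_CoarseTwo.ex_one,
    Helper190_CoarseTwo.ex_three, one_smul]
  norm_num

lemma sumK {α : Bool → Lt → k} (hα : pol false α = bz k 2) :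
    ∑ κ ∈ KF false, α false κ • (U ^ ((κ.2.1 + κ.2.2) / 2 + 1) * w ^ κ.2.2) =
      aeval ![U, w] (GA k) := by
  rw [← Lf_bz, ← hα, pol, map_sum]
  refine Finset.sum_congr rfl fun κ hκ => ?_
  rw [Lf_monomial]
  have h1 := mem_KF.mp hκ
  obtain ⟨n, i, j⟩ := κ
  simp only [inK] at h1
  obtain ⟨h0, h2, h3, h4, h5, h6⟩ := h1
  obtain ⟨i, rfl⟩ := Int.eq_ofNat_of_zero_le h2
  obtain ⟨j, rfl⟩ := Int.eq_ofNat_of_zero_le h4
  simp only [kexp, Helper190_CoarseTwo.ex_one, Helper190_CoarseTwo.ex_three, Int.toNat_natCast,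
    zpow_natCast]
  congr 2
  have : ((i : ℤ) + j) / 2 + 1 = (((i + j) / 2 + 1 : ℕ) : ℤ) := by push_cast; rfl
  rw [this, zpow_natCast]

lemma Bm_mulM (hU : U ≠ 0) (hw : w ≠ 0) (hsq : ζ ^ 2 + aeval ![U, w] (GA k) = 0)
    {α : Bool → Lt → k} (hα : pol false α = bz k 2) {μ ν : Lt} (hμ : inM μ) (hν : inM ν) :
    Bm U w ζ (mx true μ) * Bm U w ζ (mx true ν) =
      -∑ κ ∈ KF false, α false κ • Bm U w ζ (mx false (μ + ν + κ)) := by
  obtain ⟨n, i, j⟩ := μ
  obtain ⟨n', i', j'⟩ := ν
  have e : ∀ κ ∈ KF false, α false κ • Bm U w ζ (mx false ((n, i, j) + (n', i', j') + κ)) =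
      (U ^ ((n + i + j - 1) / 2 + (n' + i' + j' - 1) / 2) * w ^ (j + j')) *
      (α false κ • (U ^ ((κ.2.1 + κ.2.2) / 2 + 1) * w ^ κ.2.2)) := by
    intro κ hκ
    have h1 := mem_KF.mp hκ
    obtain ⟨n0, i0, j0⟩ := κ
    simp only [inK] at h1
    have e1 : mx false ((n, i, j) + (n', i', j') + (n0, i0, j0)) =
        (((n + i + j - 1) / 2 + (n' + i' + j' - 1) / 2) + ((i0 + j0) / 2 + 1),
        (j + j') + j0, false) := by
      simp only [mx, Prod.mk_add_mk, Prod.mk.injEq, and_true, cond_false]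
      simp only [inM] at hμ hν
      omega
    rw [e1, Bm_mul hU hw, mul_smul_comm]
    simp only [Bm, cond_false, mul_one]
  rw [Finset.sum_congr rfl e, ← Finset.mul_sum, sumK hα]
  simp only [mx, Bm, cond_true]
  rw [zpow_add₀ hU, zpow_add₀ hw]
  linear_combination (U ^ ((n + i + j - 1) / 2) * U ^ ((n' + i' + j' - 1) / 2) *
    (w ^ j * w ^ j')) * hsq

section emb
variable {A : Type} [CommRing A] [Algebra k A] (B : Basis Ix k A)

/-- the embedding on basis elements -/
def emb (U w ζ : K) : A →ₗ[k] Polynomial K :=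
  B.constr k fun i => Polynomial.monomial i.1.2.1.toNat (Bm U w ζ (mx i.1.1 i.1.2))

lemma emb_EE {d : Bool} {v : Lt} (hv : inD d v) : emb B U w ζ (EE B d v) =
    Polynomial.monomial v.1.toNat (Bm U w ζ (mx d v)) := by
  rw [EE_of hv, emb, Basis.constr_basis]

variable {B} {α : Bool → Lt → k} (h : Tab B α) (hα : pol false α = bz k 2)
  (hα' : ∀ κ, α true κ = 0)

include h hα hα' in
lemma emb_mul (hU : U ≠ 0) (hw : w ≠ 0) (hsq : ζ ^ 2 + aeval ![U, w] (GA k) = 0) (x y : A) :
    emb B U w ζ (x * y) = emb B U w ζ x * emb B U w ζ y := by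
  have hS : ∀ (d : Bool) (σ μ : Lt), inS σ → inD d μ → emb B U w ζ (EE B false σ * EE B d μ) =
      emb B U w ζ (EE B false σ) * emb B U w ζ (EE B d μ) := by
    intro d σ μ hσ hμ
    have h1 := inD_nonneg (d := false) hσ
    have h2 := inD_nonneg hμ
    have h3 : (σ + μ).1.toNat = σ.1.toNat + μ.1.toNat := by rw [Prod.fst_add]; omega
    rw [h.mulS d σ μ hσ hμ, emb_EE B (inD_add hσ hμ), emb_EE B (d := false) hσ, emb_EE B hμ,
      Polynomial.monomial_mul_monomial, Bm_mulS hU hw hσ hμ, h3]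
  refine mem_span_EE (B := B) (P := fun x => emb B U w ζ (x * y) =
    emb B U w ζ x * emb B U w ζ y) ?_ ?_ ?_ ?_ x
  · simp
  · intro x x' h1 h2
    rw [add_mul, map_add, h1, h2, map_add, add_mul]
  · intro r x h1
    rw [smul_mul_assoc, map_smul, h1, map_smul, smul_mul_assoc]
  intro d v hv
  refine mem_span_EE (B := B) (P := fun y => emb B U w ζ (EE B d v * y) =
    emb B U w ζ (EE B d v) * emb B U w ζ y) ?_ ?_ ?_ ?_ y
  · simp
  · intro x x' h1 h2
    rw [mul_add, map_add, h1, h2, map_add, mul_add]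
  · intro r x h1
    rw [mul_smul_comm, map_smul, h1, map_smul, mul_smul_comm]
  intro d' v' hv'
  cases d
  · exact hS d' v v' hv hv'
  · cases d'
    · rw [mul_comm, hS true v' v hv' hv, mul_comm]
    · rw [h.mulM v v' hv hv', map_neg, Fintype.sum_bool]
      have h0 : ∑ κ ∈ KF true, α true κ • EE B true (v + v' + κ) = 0 :=
        Finset.sum_eq_zero fun κ _ => by rw [hα', zero_smul]
      rw [h0, zero_add, map_sum]
      have h1 := inD_nonneg hv
      have h2 := inD_nonneg hv'
      have h3 : ∀ κ ∈ KF false, emb B U w ζ (α false κ • EE B false (v + v' + κ)) =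
          Polynomial.monomial (v.1.toNat + v'.1.toNat)
            (α false κ • Bm U w ζ (mx false (v + v' + κ))) := by
        intro κ hκ
        have h4 := mem_KF.mp hκ
        have h5 : κ.1 = 0 := h4.1
        have h6 : (v + v' + κ).1.toNat = v.1.toNat + v'.1.toNat := by
          rw [Prod.fst_add, Prod.fst_add, h5]; omega
        rw [map_smul, emb_EE B (inD_mm hv hv' h4), Polynomial.smul_monomial, h6]
      rw [Finset.sum_congr rfl h3, ← map_sum, ← map_neg, ← Bm_mulM hU hw hsq hα hv hv',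
        emb_EE B hv, emb_EE B hv', Polynomial.monomial_mul_monomial]

include h in
lemma emb_one : emb B U w ζ 1 = 1 := by
  rw [← h.one, emb_EE B (d := false) inS_zero]
  simp [mx, Bm]

/-- the embedding as a homomorphism of algebras -/
def embHom (hU : U ≠ 0) (hw : w ≠ 0) (hsq : ζ ^ 2 + aeval ![U, w] (GA k) = 0) :
    A →ₐ[k] Polynomial K :=
  AlgHom.ofLinearMap (emb B U w ζ) (emb_one h) (emb_mul h hα hα' hU hw hsq)

lemma embHom_apply (hU : U ≠ 0) (hw : w ≠ 0) (hsq : ζ ^ 2 + aeval ![U, w] (GA k) = 0) (x : A) :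
    embHom h hα hα' hU hw hsq x = emb B U w ζ x := rfl

lemma emb_injective (hli : LinearIndependent k (Bm U w ζ)) :
    Function.Injective (emb B U w ζ) := by
  have h1 : LinearIndependent K (fun n : ℕ => (Polynomial.monomial n (1 : K))) := by
    have := (Polynomial.basisMonomials K).linearIndependent
    rwa [Polynomial.coe_basisMonomials] at this
  have h2 := linearIndependent_smul hli h1
  let φ : Ix → (ℤ × ℤ × Bool) × ℕ := fun i => (mx i.1.1 i.1.2, i.1.2.1.toNat)
  have hφ : Function.Injective φ := by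
    intro i j hij
    simp only [φ, Prod.mk.injEq] at hij
    have h3 := inD_nonneg i.2
    have h4 := inD_nonneg j.2
    obtain ⟨h5, h6⟩ := mx_inj i.2 j.2 (by omega) hij.1
    exact Subtype.ext (Prod.ext h5 h6)
  have h3 := h2.comp φ hφ
  rw [← LinearMap.ker_eq_bot, LinearMap.ker_eq_bot']
  intro x hx
  rw [emb, Basis.constr_apply] at hx
  have h4 : B.repr x = 0 := by
    rw [linearIndependent_iff] at h3
    apply h3
    rw [← hx, Finsupp.linearCombination_apply]
    refine Finsupp.sum_congr fun i _ => ?_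
    simp only [Function.comp_apply, φ]
    rw [Polynomial.smul_monomial, smul_eq_mul, mul_one]
  exact B.repr.map_eq_zero_iff.mp h4

end emb

end Pool.Agent.Helper190_Can
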