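import Pool.Agent.Helper190_Can.CConv2

set_option linter.unusedSimpArgs false
set_option linter.unusedVariables false
set_option linter.style.haveILetI false

open MvPolynomial

noncomputable section

namespace Pool.Agent.Helper190_Can

variable (k : Type) [Field k]

/-- the first chart polynomial -/
def GA : P2 k := X 0 + X 0 ^ 5 + X 0 ^ 5 * X 1 ^ 8 + X 0 ^ 9 * X 1 ^ 8 + X 0 ^ 3 * X 1 +
  X 0 ^ 3 * X 1 ^ 3 + X 0 ^ 8 * X 1 ^ 7

/-- the other chart polynomial -/
def GB : P2 k := X 0 + X 0 ^ 5 + X 0 ^ 5 * X 1 ^ 8 + X 0 ^ 9 * X 1 ^ 8 + X 0 ^ 7 * X 1 ^ 7 +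
  X 0 ^ 7 * X 1 ^ 5 + X 0 ^ 2 * X 1

/-- the quotient `GA / X 0` -/
def BA : P2 k := 1 + X 0 ^ 4 + X 0 ^ 4 * X 1 ^ 8 + X 0 ^ 8 * X 1 ^ 8 + X 0 ^ 2 * X 1 +
  X 0 ^ 2 * X 1 ^ 3 + X 0 ^ 7 * X 1 ^ 7

lemma GA_eq : GA k = X 0 * BA k := by rw [GA, BA]; ring

lemma not_dvd_BA : ¬ (X 0 : P2 k) ∣ BA k := by
  rintro ⟨q, hq⟩
  have h1 := congrArg (eval (0 : Fin 2 → k)) hq
  rw [BA] at h1
  simp at h1

/-- the defining equation of the function field -/
def polyA : Polynomial (FractionRing (P2 k)) :=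
  Polynomial.X ^ 2 + Polynomial.C (algebraMap (P2 k) _ (GA k))

lemma natDegree_polyA : (polyA k).natDegree = 2 := by
  rw [polyA]
  exact Polynomial.natDegree_X_pow_add_C

lemma monic_polyA : (polyA k).Monic := by
  rw [polyA]
  exact Polynomial.monic_X_pow_add_C _ two_ne_zero

instance irr_polyA : Fact (Irreducible (polyA k)) := ⟨by
  have hX : Prime (X 0 : P2 k) := MvPolynomial.X_prime
  refine Polynomial.irreducible_of_degree_le_three_of_not_isRoot
    (by rw [natDegree_polyA]; simp) ?_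
  intro r hr
  rw [Polynomial.IsRoot, polyA, Polynomial.eval_add, Polynomial.eval_pow, Polynomial.eval_X,
    Polynomial.eval_C] at hr
  obtain ⟨p, d, hpd, rfl⟩ := IsFractionRing.exists_reduced_fraction (A := P2 k) r
  have hd : (d : P2 k) ≠ 0 := nonZeroDivisors.coe_ne_zero d
  have h1 : p ^ 2 = -((d : P2 k) ^ 2 * GA k) := by
    apply IsFractionRing.injective (P2 k) (FractionRing (P2 k))
    have h2 := IsLocalization.mk'_spec (FractionRing (P2 k)) p d
    have h3 : algebraMap (P2 k) (FractionRing (P2 k)) p =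
      IsLocalization.mk' (FractionRing (P2 k)) p d * algebraMap _ _ (d : P2 k) := h2.symm
    rw [map_neg, map_mul, map_pow, map_pow, h3]
    linear_combination (algebraMap (P2 k) (FractionRing (P2 k)) (d : P2 k)) ^ 2 * hr
  rw [GA_eq] at h1
  have h4 : (X 0 : P2 k) ∣ p := by
    apply hX.dvd_of_dvd_pow (n := 2)
    exact ⟨-((d : P2 k) ^ 2 * BA k), by rw [h1]; ring⟩
  have h5 : (X 0 : P2 k) ∣ d := by
    obtain ⟨p', rfl⟩ := h4
    have h6 : (X 0 : P2 k) * (X 0 * p' ^ 2) = X 0 * (-((d : P2 k) ^ 2 * BA k)) := by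
      linear_combination h1
    have h7 := mul_left_cancel₀ hX.ne_zero h6
    have h8 : (X 0 : P2 k) ∣ (d : P2 k) ^ 2 * BA k := ⟨-p' ^ 2, by linear_combination h7⟩
    rcases hX.dvd_or_dvd h8 with h9 | h9
    · exact hX.dvd_of_dvd_pow h9
    · exact absurd h9 (not_dvd_BA k)
  exact hX.not_isUnit (hpd h4 h5)⟩

/-- the function field -/
abbrev KA : Type := AdjoinRoot (polyA k)

/-- coordinates -/
def cU : KA k := AdjoinRoot.of _ (algebraMap (P2 k) _ (X 0))
def cw : KA k := AdjoinRoot.of _ (algebraMap (P2 k) _ (X 1))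
def cz : KA k := AdjoinRoot.root _

lemma aeval_of (p : P2 k) : aeval ![cU k, cw k] p =
    AdjoinRoot.of (polyA k) (algebraMap (P2 k) _ p) := by
  let ψ : P2 k →ₐ[k] KA k := (AdjoinRoot.ofAlgHom k (polyA k)).comp
    (IsScalarTower.toAlgHom k (P2 k) (FractionRing (P2 k)))
  have h1 : (aeval ![cU k, cw k] : P2 k →ₐ[k] KA k) = ψ := by
    apply MvPolynomial.algHom_ext
    intro i
    fin_cases i
    · rw [aeval_X]; rfl
    · rw [aeval_X]; rfl
  rw [h1]; rfl

lemma cz_sq : cz k ^ 2 + aeval ![cU k, cw k] (GA k) = 0 := by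
  have h := AdjoinRoot.eval₂_root (polyA k)
  rw [aeval_of]
  rw [polyA, Polynomial.eval₂_add, Polynomial.eval₂_pow, Polynomial.eval₂_X,
    Polynomial.eval₂_C] at h
  exact h

lemma lin_inj (a b : FractionRing (P2 k)) (h : AdjoinRoot.of (polyA k) a +
    AdjoinRoot.of (polyA k) b * cz k = 0) : a = 0 ∧ b = 0 := by
  have h1 : AdjoinRoot.mk (polyA k) (Polynomial.C b * Polynomial.X + Polynomial.C a) = 0 := by
    rw [map_add, map_mul, AdjoinRoot.mk_C, AdjoinRoot.mk_C, AdjoinRoot.mk_X, add_comm]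
    exact h
  rw [AdjoinRoot.mk_eq_zero] at h1
  have h2 : Polynomial.C b * Polynomial.X + Polynomial.C a = 0 := by
    refine Polynomial.eq_zero_of_dvd_of_natDegree_lt h1 ?_
    rw [natDegree_polyA]
    exact lt_of_le_of_lt Polynomial.natDegree_linear_le (by norm_num)
  constructor
  · have := congrArg (fun p => Polynomial.coeff p 0) h2
    simpa using this
  · have := congrArg (fun p => Polynomial.coeff p 1) h2
    simpa using this

lemma lin_surj (x : KA k) : ∃ a b : FractionRing (P2 k), x = AdjoinRoot.of (polyA k) a +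
    AdjoinRoot.of (polyA k) b * cz k := by
  obtain ⟨g, rfl⟩ := AdjoinRoot.mk_surjective x
  have h1 : AdjoinRoot.mk (polyA k) g = AdjoinRoot.mk (polyA k) (g %ₘ polyA k) := by
    rw [AdjoinRoot.mk_eq_mk]
    refine ⟨g /ₘ polyA k, ?_⟩
    have := Polynomial.modByMonic_add_div g (polyA k)
    linear_combination -this
  have h2 : (g %ₘ polyA k).natDegree ≤ 1 := by
    have := Polynomial.natDegree_modByMonic_lt g (monic_polyA k) (by
      intro h
      have := natDegree_polyA k
      rw [h] at this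
      simp at this)
    rw [natDegree_polyA] at this
    omega
  obtain ⟨b, a, hab⟩ : ∃ b a, g %ₘ polyA k = Polynomial.C b * Polynomial.X + Polynomial.C a :=
    Polynomial.exists_eq_X_add_C_of_natDegree_le_one h2
  refine ⟨a, b, ?_⟩
  rw [h1, hab, map_add, map_mul, AdjoinRoot.mk_C, AdjoinRoot.mk_C, AdjoinRoot.mk_X, add_comm]
  rfl

theorem chartA_one : ChartA (GA k) (cU k) (cw k) (cz k) where
  inj p q h := by
    rw [aeval_of, aeval_of] at h
    obtain ⟨h1, h2⟩ := lin_inj k _ _ h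
    have hinj := IsFractionRing.injective (P2 k) (FractionRing (P2 k))
    exact ⟨hinj (h1.trans (map_zero _).symm), hinj (h2.trans (map_zero _).symm)⟩
  gen f := by
    obtain ⟨a, b, rfl⟩ := lin_surj k f
    obtain ⟨p, d, hd, rfl⟩ := IsFractionRing.div_surjective (A := P2 k) a
    obtain ⟨q, d', hd', rfl⟩ := IsFractionRing.div_surjective (A := P2 k) b
    have hd0 : d ≠ 0 := nonZeroDivisors.ne_zero hd
    have hd0' : d' ≠ 0 := nonZeroDivisors.ne_zero hd'
    refine ⟨d * d', p * d', q * d, mul_ne_zero hd0 hd0', ?_⟩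
    have e1 : algebraMap (P2 k) (FractionRing (P2 k)) d ≠ 0 := by
      rwa [Ne, IsFractionRing.to_map_eq_zero_iff]
    have e2 : algebraMap (P2 k) (FractionRing (P2 k)) d' ≠ 0 := by
      rwa [Ne, IsFractionRing.to_map_eq_zero_iff]
    simp only [aeval_of]
    rw [mul_add, ← mul_assoc, ← map_mul, ← map_mul]
    congr 2
    · rw [map_mul, map_mul]
      field_simp
    · congr 1
      rw [map_mul, map_mul]
      field_simp
  conj := by
    have h0 : Polynomial.eval₂ (AdjoinRoot.ofAlgHom k (polyA k) : FractionRing (P2 k) →+* KA k)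
        (-cz k) (polyA k) = 0 := by
      have h := cz_sq k
      rw [aeval_of] at h
      change Polynomial.eval₂ (AdjoinRoot.ofAlgHom k (polyA k) : FractionRing (P2 k) →+* KA k)
        (-cz k) (Polynomial.X ^ 2 + Polynomial.C (algebraMap (P2 k) _ (GA k))) = 0
      rw [Polynomial.eval₂_add, Polynomial.eval₂_pow, Polynomial.eval₂_X,
        Polynomial.eval₂_C, neg_sq]
      exact h
    refine ⟨AdjoinRoot.liftAlgHom (polyA k) (AdjoinRoot.ofAlgHom k (polyA k)) (-cz k) h0,
      ?_, ?_, ?_⟩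
    · exact AdjoinRoot.liftAlgHom_of _ _ _ _ _
    · exact AdjoinRoot.liftAlgHom_of _ _ _ _ _
    · exact AdjoinRoot.liftAlgHom_root _ _ _ _
  sq := cz_sq k

end Pool.Agent.Helper190_Can
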