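import Pool.Agent.Helper190_Can.CInt

set_option linter.unusedSimpArgs false
set_option linter.unusedVariables false
set_option linter.style.haveILetI false

open MvPolynomial

noncomputable section

namespace Pool.Agent.Helper190_Can

variable {k K : Type} [Field k] [Field K] [Algebra k K] {G : P2 k} {U w ζ : K}

lemma Bm_swap (hw : w ≠ 0) (x : ℤ × ℤ × Bool) : Bm (U * w ^ 2) w⁻¹ (w * ζ) x =
    Bm U w ζ (x.1, 2 * x.1 - x.2.1 + cond x.2.2 1 0, x.2.2) := by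
  obtain ⟨a, m, d⟩ := x
  simp only [Bm]
  have e2 : (U * w ^ 2) ^ a = U ^ a * w ^ (2 * a) := by
    rw [mul_zpow, ← zpow_natCast w 2, ← zpow_mul]; rfl
  have e3 : w⁻¹ ^ m = w ^ (-m) := by rw [inv_zpow, ← zpow_neg]
  rw [e2, e3, zpow_add₀ hw, sub_eq_add_neg, zpow_add₀ hw]
  cases d
  · simp; ring
  · simp; ring

lemma Bm_inv (hU : U ≠ 0) (hw : w ≠ 0) (x : ℤ × ℤ × Bool) :
    Bm U⁻¹ w⁻¹ (ζ * (U ^ 5 * w ^ 4)⁻¹) x =
      Bm U w ζ (-x.1 + cond x.2.2 (-5) 0, -x.2.1 + cond x.2.2 (-4) 0, x.2.2) := by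
  obtain ⟨a, m, d⟩ := x
  simp only [Bm]
  rw [inv_zpow, inv_zpow, ← zpow_neg, ← zpow_neg, zpow_add₀ hU, zpow_add₀ hw]
  cases d
  · simp
  · simp only [cond_true, zpow_neg]
    rw [mul_inv]
    norm_cast
    ring

lemma Bm_mul (hU : U ≠ 0) (hw : w ≠ 0) (a m : ℤ) (d : Bool) (a' m' : ℤ) :
    Bm U w ζ (a + a', m + m', d) = Bm U w ζ (a, m, d) * (U ^ a' * w ^ m') := by
  simp only [Bm]
  rw [zpow_add₀ hU, zpow_add₀ hw]
  ring

/-- from the chart ring to spans of Laurent monomials -/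
lemma span_of_conv (hU : U ≠ 0) {f : K} {N : ℕ} {p q : P2 k}
    (h : U ^ N * f = aeval ![U, w] p + aeval ![U, w] q * ζ) :
    f ∈ Submodule.span k (Bm U w ζ '' {x | 0 ≤ x.2.1}) := by
  have e0 : ∀ p : P2 k, aeval ![U, w] p = ∑ m ∈ p.support, coeff m p • (U ^ (m 0) * w ^ (m 1)) := by
    intro p
    conv_lhs => rw [p.as_sum]
    rw [map_sum]
    refine Finset.sum_congr rfl fun m _ => ?_
    conv_lhs => rw [eq_ex2 m]
    rw [aeval_monomial_ex2, ← eq_ex2]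
  have h1 : f = U ^ (-N : ℤ) * (aeval ![U, w] p + aeval ![U, w] q * ζ) := by
    rw [← h, ← mul_assoc, zpow_neg, zpow_natCast, inv_mul_cancel₀ (pow_ne_zero _ hU), one_mul]
  have key : ∀ (m : Fin 2 →₀ ℕ) (d : Bool), U ^ (-N : ℤ) * ((U ^ (m 0) * w ^ (m 1)) * cond d ζ 1) ∈
      Submodule.span k (Bm U w ζ '' {x | 0 ≤ x.2.1}) := by
    intro m d
    refine Submodule.subset_span ⟨((m 0 : ℤ) - N, (m 1 : ℤ), d), by simp, ?_⟩
    simp only [Bm, zpow_natCast]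
    rw [sub_eq_add_neg, zpow_add₀ hU, zpow_natCast]
    ring
  rw [h1, mul_add, e0 p, e0 q, Finset.mul_sum, Finset.sum_mul, Finset.mul_sum]
  refine Submodule.add_mem _ (Submodule.sum_mem _ fun m _ => ?_)
    (Submodule.sum_mem _ fun m _ => ?_)
  · rw [mul_smul_comm]
    refine Submodule.smul_mem _ _ ?_
    have := key m false
    rwa [cond_false, mul_one] at this
  · rw [smul_mul_assoc, mul_smul_comm]
    exact Submodule.smul_mem _ _ (key m true)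

lemma span_mul {ι : Type} {v v' : ι → K} {A S : Set ι} {f t : K}
    (hf : f ∈ Submodule.span k (v' '' A)) (h : ∀ x ∈ A, v' x * t ∈ Submodule.span k (v '' S)) :
    f * t ∈ Submodule.span k (v '' S) := by
  refine Submodule.span_induction (p := fun f _ => f * t ∈ Submodule.span k (v '' S)) ?_ ?_ ?_ ?_ hf
  · rintro _ ⟨x, hx, rfl⟩
    exact h x hx
  · rw [zero_mul]; exact Submodule.zero_mem _
  · intro x y _ _ hx hy
    rw [add_mul]; exact Submodule.add_mem _ hx hy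
  · intro r x _ hx
    rw [smul_mul_assoc]; exact Submodule.smul_mem _ _ hx

lemma span_inter {ι : Type} {v : ι → K} (hv : LinearIndependent k v) {S T : Set ι} {x : K}
    (hS : x ∈ Submodule.span k (v '' S)) (hT : x ∈ Submodule.span k (v '' T)) :
    x ∈ Submodule.span k (v '' (S ∩ T)) := by
  rw [Finsupp.mem_span_image_iff_linearCombination] at hS hT ⊢
  obtain ⟨l, hl, hlx⟩ := hS
  obtain ⟨l', hl', hlx'⟩ := hT
  have h1 : l = l' := hv (hlx.trans hlx'.symm)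
  subst h1
  refine ⟨l, ?_, hlx⟩
  rw [Finsupp.mem_supported] at hl hl' ⊢
  exact Set.subset_inter hl hl'

lemma isReg_scale {e : ⋀[K]^2 Ω[K⁄k]} {V : ValuationSubring K} {n : ℕ} {f c : K} (hc : c ≠ 0)
    (h : IsRegW e n f V) : IsRegW (c • e) n (f * c⁻¹ ^ n) V := by
  obtain ⟨u, hu, v, hv, j, hj, hf⟩ := h
  refine ⟨u, hu, v, hv, c * j, ?_, ?_⟩
  · rw [hj, smul_smul]
  · have : f * c⁻¹ ^ n * (c * j) ^ n = f * j ^ n := by
      rw [mul_pow, inv_pow]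
      field_simp
    rwa [this]

/-- the set of valid exponents -/
def VSet (n : ℕ) : Set (ℤ × ℤ × Bool) := {x | Valid n x.1 x.2.1 (cond x.2.2 1 0)}

/-- the hypotheses on the function field -/
structure Std (k : Type) {K : Type} [Field k] [Field K] [Algebra k K] (U w ζ : K)
    (e : ⋀[K]^2 Ω[K⁄k]) : Prop where
  A : ChartA (GA k) U w ζ
  B : ChartB (GA k) U w ζ e
  U0 : U ≠ 0
  w0 : w ≠ 0
  z0 : ζ ≠ 0
  Uk : ∀ c : k, U ≠ algebraMap k K c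
  Yk : ∀ c : k, U * w ^ 2 ≠ algebraMap k K c
  g0 : aeval ![U, w] (pderiv 0 (GA k)) ≠ 0
  g0' : aeval ![U⁻¹, w⁻¹] (pderiv 0 (GB k)) ≠ 0

theorem regular_subset [IsAlgClosed k] (hchar : CharZero k ∨ CharP k 2) {e : ⋀[K]^2 Ω[K⁄k]}
    (h : Std k U w ζ e) {n : ℕ} {f : K}
    (hf : ∀ V : ValuationSubring K, (∀ c : k, algebraMap k K c ∈ V) → IsRegW e n f V) :
    f ∈ Submodule.span k (Bm U w ζ '' VSet n) := by
  have hU := h.U0
  have hw := h.w0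
  have hz := h.z0
  have hli := h.A.li hU hw
  have hU3 : U⁻¹ ≠ 0 := inv_ne_zero hU
  have hw3 : w⁻¹ ≠ 0 := inv_ne_zero hw
  have hz3 : ζ * (U ^ 5 * w ^ 4)⁻¹ ≠ 0 :=
    mul_ne_zero hz (inv_ne_zero (mul_ne_zero (pow_ne_zero _ hU) (pow_ne_zero _ hw)))
  -- chart 1
  have s1 : f ∈ Submodule.span k (Bm U w ζ '' {x | 0 ≤ x.2.1}) := by
    obtain ⟨N, p, q, hpq⟩ := conv h.A (nodeG_GA hchar) h.B hf
    exact span_of_conv hU hpq
  -- chart 2
  have s2 : f ∈ Submodule.span k (Bm U w ζ '' {x | 0 ≤ 2 * x.1 - x.2.1 + cond x.2.2 1 0 - n}) := by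
    obtain ⟨i1, i2⟩ := swapA_id (k := k) (U := U) hw
    have hA2 := h.A.swap hU hw hli i1
    have hB2 := swapB h.B hU hw hz h.A.sq i1 i2 h.g0
    have hc : -w⁻¹ ≠ 0 := neg_ne_zero.mpr hw3
    obtain ⟨N, p, q, hpq⟩ := conv hA2 (nodeG_GA hchar) hB2 (n := n) (f := f * (-w⁻¹)⁻¹ ^ n)
      (fun V hV => isReg_scale hc (hf V hV))
    have h1 := span_of_conv (mul_ne_zero hU (pow_ne_zero _ hw)) hpq
    have h2 : f = f * (-w⁻¹)⁻¹ ^ n * (-w⁻¹) ^ n := by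
      rw [mul_assoc, ← mul_pow, inv_mul_cancel₀ hc, one_pow, mul_one]
    rw [h2]
    refine span_mul h1 ?_
    rintro ⟨a, m, d⟩ hx
    have h3 : Bm (U * w ^ 2) w⁻¹ (w * ζ) (a, m, d) * (-w⁻¹) ^ n =
        ((-1 : k) ^ n) • Bm U w ζ (a + 0, 2 * a - m + cond d 1 0 + (-n : ℤ), d) := by
      rw [Bm_swap hw, Bm_mul hU hw a _ d 0, Algebra.smul_def, map_pow, map_neg, map_one,
        neg_eq_neg_one_mul w⁻¹, mul_pow, zpow_zero, zpow_neg, zpow_natCast, inv_pow]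
      ring
    rw [h3]
    refine Submodule.smul_mem _ _ (Submodule.subset_span ⟨_, ?_, rfl⟩)
    simp only [Set.mem_ofPred_eq] at hx ⊢
    omega
  -- chart 3
  have hc3 : U ^ 3 * w ^ 2 ≠ 0 := mul_ne_zero (pow_ne_zero _ hU) (pow_ne_zero _ hw)
  have hA3 := h.A.inv hU hw hli
  have hB3 := invB h.B hU hw hz h.A.sq h.g0'
  have s3 : f ∈ Submodule.span k (Bm U w ζ '' {x | 0 ≤ 2 * n - cond x.2.2 4 0 - x.2.1}) := by
    obtain ⟨N, p, q, hpq⟩ := conv hA3 (nodeG_GB hchar) hB3 (n := n) (f := f * (U ^ 3 * w ^ 2)⁻¹ ^ n)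
      (fun V hV => isReg_scale hc3 (hf V hV))
    have h1 := span_of_conv hU3 hpq
    have h2 : f = f * (U ^ 3 * w ^ 2)⁻¹ ^ n * (U ^ 3 * w ^ 2) ^ n := by
      rw [mul_assoc, ← mul_pow, inv_mul_cancel₀ hc3, one_pow, mul_one]
    rw [h2]
    refine span_mul h1 ?_
    rintro ⟨a, m, d⟩ hx
    have h3 : Bm U⁻¹ w⁻¹ (ζ * (U ^ 5 * w ^ 4)⁻¹) (a, m, d) * (U ^ 3 * w ^ 2) ^ n =
        Bm U w ζ (-a + cond d (-5) 0 + (3 * n : ℤ), -m + cond d (-4) 0 + (2 * n : ℤ), d) := by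
      rw [Bm_inv hU hw, Bm_mul hU hw _ _ d (3 * n) (2 * n), mul_pow, ← pow_mul, ← pow_mul]
      norm_cast
    rw [h3]
    refine Submodule.subset_span ⟨_, ?_, rfl⟩
    simp only [Set.mem_ofPred_eq] at hx ⊢
    cases d <;> simp only [cond_true, cond_false] <;> omega
  -- chart 4
  have s4 : f ∈ Submodule.span k (Bm U w ζ ''
      {x | 0 ≤ x.2.1 + 3 * n - cond x.2.2 5 0 - 2 * x.1}) := by
    obtain ⟨i1, i2⟩ := swapB_id (k := k) (U := U⁻¹) hw3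
    have hA4 := hA3.swap hU3 hw3 (li_inv hli hU hw) i1
    have hB4 := swapB hB3 hU3 hw3 hz3 hA3.sq i1 i2 h.g0'
    have hc : -w⁻¹⁻¹ ≠ 0 := neg_ne_zero.mpr (inv_ne_zero hw3)
    obtain ⟨N, p, q, hpq⟩ := conv hA4 (nodeG_GB hchar) hB4 (n := n)
      (f := f * (U ^ 3 * w ^ 2)⁻¹ ^ n * (-w⁻¹⁻¹)⁻¹ ^ n)
      (fun V hV => isReg_scale hc (isReg_scale hc3 (hf V hV)))
    have h1 := span_of_conv (mul_ne_zero hU3 (pow_ne_zero _ hw3)) hpq
    have h2 : f = f * (U ^ 3 * w ^ 2)⁻¹ ^ n * (-w⁻¹⁻¹)⁻¹ ^ n * ((-w⁻¹⁻¹) ^ n *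
        (U ^ 3 * w ^ 2) ^ n) := by
      have e1 : (-w⁻¹⁻¹)⁻¹ ^ n * (-w⁻¹⁻¹) ^ n = 1 := by
        rw [← mul_pow, inv_mul_cancel₀ hc, one_pow]
      have e2 : (U ^ 3 * w ^ 2)⁻¹ ^ n * (U ^ 3 * w ^ 2) ^ n = 1 := by
        rw [← mul_pow, inv_mul_cancel₀ hc3, one_pow]
      calc f = f * ((U ^ 3 * w ^ 2)⁻¹ ^ n * (U ^ 3 * w ^ 2) ^ n) *
          ((-w⁻¹⁻¹)⁻¹ ^ n * (-w⁻¹⁻¹) ^ n) := by rw [e1, e2]; ring
        _ = _ := by ring
    rw [h2]
    refine span_mul h1 ?_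
    rintro ⟨a, m, d⟩ hx
    have h3 : Bm (U⁻¹ * w⁻¹ ^ 2) w⁻¹⁻¹ (w⁻¹ * (ζ * (U ^ 5 * w ^ 4)⁻¹)) (a, m, d) *
        ((-w⁻¹⁻¹) ^ n * (U ^ 3 * w ^ 2) ^ n) = ((-1 : k) ^ n) •
        Bm U w ζ (-a + cond d (-5) 0 + (3 * n : ℤ),
          -(2 * a - m + cond d 1 0) + cond d (-4) 0 + (3 * n : ℤ), d) := by
      rw [Bm_swap hw3, Bm_inv hU hw, Bm_mul hU hw _ _ d (3 * n) (3 * n), Algebra.smul_def,
        map_pow, map_neg, map_one,
        inv_inv, neg_eq_neg_one_mul w, mul_pow, mul_pow, ← pow_mul, ← pow_mul]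
      have e1 : w ^ (3 * n : ℤ) = w ^ n * w ^ (2 * n) := by
        rw [← pow_add]
        norm_cast
        congr 1
        omega
      have e2 : U ^ (3 * n : ℤ) = U ^ (3 * n) := by norm_cast
      rw [e1, e2]
      ring
    rw [h3]
    refine Submodule.smul_mem _ _ (Submodule.subset_span ⟨_, ?_, rfl⟩)
    simp only [Set.mem_ofPred_eq] at hx ⊢
    cases d <;> simp only [cond_true, cond_false] <;> omega
  have hall := span_inter hli (span_inter hli s1 s2) (span_inter hli s3 s4)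
  refine Submodule.span_mono (Set.image_mono ?_) hall
  rintro ⟨a, m, d⟩ ⟨⟨h1, h2⟩, h3, h4⟩
  simp only [Set.mem_ofPred_eq] at h1 h2 h3 h4
  simp only [VSet, Set.mem_ofPred_eq]
  cases d <;> simp only [cond_true, cond_false] at * <;>
    exact ⟨by omega, by omega, by push_cast; omega, by push_cast; omega, by push_cast; omega⟩

theorem regular_iff [IsAlgClosed k] (hchar : CharZero k ∨ CharP k 2) {e : ⋀[K]^2 Ω[K⁄k]}
    (h : Std k U w ζ e) (n : ℕ) (f : K) :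
    (∀ V : ValuationSubring K, (∀ c : k, algebraMap k K c ∈ V) → IsRegW e n f V) ↔
      f ∈ Submodule.span k (Bm U w ζ '' VSet n) := by
  refine ⟨regular_subset hchar h, ?_⟩
  intro hf V hV
  obtain ⟨u, hu, v, hv, j, hj, hm⟩ := goal_all hchar h.B h.A.sq h.U0 h.w0 h.z0 h.Uk h.Yk h.g0
    h.g0' V hV
  refine ⟨u, hu, v, hv, j, hj, ?_⟩
  refine Submodule.span_induction (p := fun f _ => f * j ^ n ∈ V) ?_ ?_ ?_ ?_ hf
  · rintro _ ⟨⟨a, m, d⟩, hx, rfl⟩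
    have := hm n a m _ hx
    simp only [Bm]
    cases d
    · simpa using this
    · simpa using this
  · rw [zero_mul]; exact V.zero_mem
  · intro x y _ _ hx hy
    rw [add_mul]; exact V.add_mem _ _ hx hy
  · intro r x _ hx
    rw [smul_mul_assoc, Algebra.smul_def]
    exact V.mul_mem _ _ (hV r) hx

end Pool.Agent.Helper190_Can
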