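import Pool.Agent.Helper190_Can.CDefs

open Module

noncomputable section

namespace Pool.Agent.Helper190_Can

/-- The differential form `du ∧ dv` of the field extension `K / k`. -/
def dd (k : Type) {K : Type} [Field k] [Field K] [Algebra k K] (u v : K) : ⋀[K]^2 Ω[K⁄k] :=
  exteriorPower.ιMulti K 2 ![KaehlerDifferential.D k K u, KaehlerDifferential.D k K v]

/-- The `n`-fold differential form `f ωⁿ` of `K / k` is regular at the valuation ring `V`: it is of
the form `g (du ∧ dv)ⁿ` with `g, u, v` in `V`. -/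
def IsRegW {k K : Type} [Field k] [Field K] [Algebra k K] (ω : ⋀[K]^2 Ω[K⁄k]) (n : ℕ) (f : K)
    (V : ValuationSubring K) : Prop :=
  ∃ u ∈ V, ∃ v ∈ V, ∃ j : K, ω = j • dd k u v ∧ f * j ^ n ∈ V

end Pool.Agent.Helper190_Can
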