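import Pool.Agent.Helper190_Can.CCan

set_option linter.unusedSimpArgs false
set_option linter.unusedVariables false
set_option linter.unusedSectionVars false

open Module
open Finset (range)

noncomputable section

namespace Pool.Agent.Helper190_Can

lemma sum_par (g : ℕ → ℕ) (N : ℕ) :
    ∑ i ∈ range (2 * N + 1), g (i % 2) = (N + 1) * g 0 + N * g 1 := by
  induction N with
  | zero => simp
  | succ N ih =>
    have e : 2 * (N + 1) + 1 = (2 * N + 1) + 1 + 1 := by ring
    rw [e, Finset.sum_range_succ, Finset.sum_range_succ, ih]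
    have e1 : (2 * N + 1) % 2 = 1 := by omega
    have e2 : (2 * N + 1 + 1) % 2 = 0 := by omega
    rw [e1, e2]
    ring

/-- pairs in a square with a given parity -/
def sq (N e : ℕ) : Finset (ℕ × ℕ) :=
  (range (2 * N + 1) ×ˢ range (2 * N + 1)).filter fun p => (p.1 + p.2) % 2 = e % 2

lemma card_sq (N e : ℕ) : (sq N e).card = (N + 1) * ((N + 1) * (if 0 = e % 2 then 1 else 0) +
    N * (if 1 = e % 2 then 1 else 0)) + N * ((N + 1) * (if 1 = e % 2 then 1 else 0) +
    N * (if 0 = e % 2 then 1 else 0)) := by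
  rw [sq, Finset.card_filter, Finset.sum_product]
  have h : ∀ i j : ℕ, (if (i + j) % 2 = e % 2 then 1 else 0) =
      (fun a b => if (a + b) % 2 = e % 2 then 1 else 0) (i % 2) (j % 2) := by
    intro i j
    change (if (i + j) % 2 = e % 2 then 1 else 0) =
      (if ((i % 2) + (j % 2)) % 2 = e % 2 then 1 else 0)
    rw [← Nat.add_mod]
  refine Eq.trans (Finset.sum_congr rfl fun i _ => Finset.sum_congr rfl fun j _ => h i j) ?_
  have h2 : ∀ i : ℕ, ∑ j ∈ range (2 * N + 1), (fun a b => if (a + b) % 2 = e % 2 then 1 else 0)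
      (i % 2) (j % 2) = (fun a => (N + 1) * (if (a + 0) % 2 = e % 2 then 1 else 0) +
        N * (if (a + 1) % 2 = e % 2 then 1 else 0)) (i % 2) := by
    intro i
    exact sum_par (fun b => if (i % 2 + b) % 2 = e % 2 then 1 else 0) N
  refine Eq.trans (Finset.sum_congr rfl fun i _ => h2 i) ?_
  exact sum_par (fun a => (N + 1) * (if (a + 0) % 2 = e % 2 then 1 else 0) +
        N * (if (a + 1) % 2 = e % 2 then 1 else 0)) N

instance (n a b : ℕ) : Finite {p : ℕ × ℕ // 2 ≤ n ∧ p ∈ sq a b} :=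
  Finite.of_injective (β := sq a b) (fun p => ⟨p.1, p.2.2⟩) fun p q h => by
    apply Subtype.ext
    exact congrArg (fun x => x.1) h

/-- the indices, as pairs of natural numbers -/
def toIx (n : ℕ) : (sq n n) ⊕ {p : ℕ × ℕ // 2 ≤ n ∧ p ∈ sq (n - 2) (n + 1)} → Ixn n
  | Sum.inl p => ⟨⟨(false, ((n : ℤ), (p.1.1 : ℤ), (p.1.2 : ℤ))), by
      obtain ⟨⟨i, j⟩, h⟩ := p
      rw [sq, Finset.mem_filter, Finset.mem_product, Finset.mem_range, Finset.mem_range] at h
      change inS _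
      simp only [inS]
      simp only at h
      omega⟩, by simp⟩
  | Sum.inr p => ⟨⟨(true, ((n : ℤ), (p.1.1 : ℤ), (p.1.2 : ℤ))), by
      obtain ⟨⟨i, j⟩, h0, h⟩ := p
      rw [sq, Finset.mem_filter, Finset.mem_product, Finset.mem_range, Finset.mem_range] at h
      change inM _
      simp only [inM]
      simp only at h
      omega⟩, by simp⟩

lemma toIx_bij (n : ℕ) : Function.Bijective (toIx n) := by
  constructor
  · rintro (⟨⟨i, j⟩, h⟩ | ⟨⟨i, j⟩, h⟩) (⟨⟨i', j'⟩, h'⟩ | ⟨⟨i', j'⟩, h'⟩) he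
    · simp [toIx] at he
      obtain ⟨rfl, rfl⟩ := he
      rfl
    · simp [toIx] at he
    · simp [toIx] at he
    · simp [toIx] at he
      obtain ⟨rfl, rfl⟩ := he
      rfl
  · rintro ⟨⟨⟨d, m, i, j⟩, h⟩, h1⟩
    simp only at h1
    cases d
    · change inS _ at h
      simp only [inS] at h
      obtain ⟨i', rfl⟩ : ∃ i' : ℕ, i = i' := ⟨i.toNat, by omega⟩
      obtain ⟨j', rfl⟩ : ∃ j' : ℕ, j = j' := ⟨j.toNat, by omega⟩
      obtain ⟨m', rfl⟩ : ∃ m' : ℕ, m = m' := ⟨m.toNat, by omega⟩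
      obtain rfl : m' = n := by simpa using h1
      refine ⟨Sum.inl ⟨(i', j'), ?_⟩, rfl⟩
      rw [sq, Finset.mem_filter, Finset.mem_product, Finset.mem_range, Finset.mem_range]
      simp only
      omega
    · change inM _ at h
      simp only [inM] at h
      obtain ⟨i', rfl⟩ : ∃ i' : ℕ, i = i' := ⟨i.toNat, by omega⟩
      obtain ⟨j', rfl⟩ : ∃ j' : ℕ, j = j' := ⟨j.toNat, by omega⟩
      obtain ⟨m', rfl⟩ : ∃ m' : ℕ, m = m' := ⟨m.toNat, by omega⟩
      obtain rfl : m' = n := by simpa using h1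
      refine ⟨Sum.inr ⟨(i', j'), by omega, ?_⟩, rfl⟩
      rw [sq, Finset.mem_filter, Finset.mem_product, Finset.mem_range, Finset.mem_range]
      simp only
      omega

lemma card_Ixn_one : Nat.card (Ixn 1) = 4 := by
  rw [← Nat.card_eq_of_bijective _ (toIx_bij 1), Nat.card_sum]
  have h1 : Nat.card {p : ℕ × ℕ // 2 ≤ 1 ∧ p ∈ sq (1 - 2) (1 + 1)} = 0 := by
    have : IsEmpty {p : ℕ × ℕ // 2 ≤ 1 ∧ p ∈ sq (1 - 2) (1 + 1)} := ⟨fun p => by
      have := p.2.1
      omega⟩
    exact Nat.card_of_isEmpty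
  rw [h1, Nat.card_eq_fintype_card, Fintype.card_coe, card_sq]
  rfl

lemma card_Ixn {n : ℕ} (hn : 2 ≤ n) : 2 * Nat.card (Ixn n) + 8 * n = 2 * 5 + 8 * n ^ 2 := by
  rw [← Nat.card_eq_of_bijective _ (toIx_bij n), Nat.card_sum]
  have h1 : Nat.card {p : ℕ × ℕ // 2 ≤ n ∧ p ∈ sq (n - 2) (n + 1)} =
      (sq (n - 2) (n + 1)).card := by
    rw [← Fintype.card_coe, ← Nat.card_eq_fintype_card]
    exact Nat.card_congr (Equiv.subtypeEquivRight fun p => and_iff_right hn)
  rw [h1, Nat.card_eq_fintype_card, Fintype.card_coe, card_sq, card_sq]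
  obtain ⟨m, rfl⟩ : ∃ m, n = m + 2 := ⟨n - 2, by omega⟩
  rw [Nat.add_sub_cancel]
  rcases Nat.even_or_odd' m with ⟨l, rfl | rfl⟩
  · have e1 : (2 * l + 2) % 2 = 0 := by omega
    have e2 : (2 * l + 2 + 1) % 2 = 1 := by omega
    rw [e1, e2]
    simp
    ring
  · have e1 : (2 * l + 1 + 2) % 2 = 1 := by omega
    have e2 : (2 * l + 1 + 2 + 1) % 2 = 0 := by omega
    rw [e1, e2]
    simp
    ring

section
variable {k : Type} [Field k]

lemma finrank_gr {A : Type} [CommRing A] [Algebra k A] {gr : ℕ → Submodule k A}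
    [GradedAlgebra gr] {B : Basis Ix k A} (hB : HomB gr B) (n : ℕ) :
    finrank k (gr n) = Nat.card (Ixn n) :=
  finrank_eq_nat_card_basis (resB hB n)

/-- the canonical ring of `S_{0,bz}` is one of the canonical rings considered -/
theorem canRing_of_tab [IsAlgClosed k] (hchar : CharZero k ∨ CharP k 2) {Y : GrAlg k}
    {B : Basis Ix k Y.A} {α : Bool → Lt → k} (hB : HomB Y.gr B) (h : Tab B α)
    (hα : pol false α = Helper190_CoarseTwo.bz k 2) (hα' : ∀ κ, α true κ = 0) :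
    CanRing 8 5 k Y := by
  refine ⟨isCanonicalRing_of_tab hchar hB h hα hα', ?_, fun n hn => ?_⟩
  · rw [finrank_gr hB, card_Ixn_one]
  · rw [finrank_gr hB, card_Ixn hn]

end

end Pool.Agent.Helper190_Can
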