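import Pool.Agent.Helper190_Can.CLaur

set_option linter.unusedSimpArgs false
set_option linter.unusedVariables false
set_option linter.style.haveILetI false

open MvPolynomial

noncomputable section

namespace Pool.Agent.Helper190_Can

section
variable {k : Type} [Field k]

lemma eval_vec (a : Fin 2 → k) (p : P2 k) : eval a p = aeval ![a 0, a 1] p := by
  have : a = ![a 0, a 1] := by
    funext i; fin_cases i <;> rfl
  conv_lhs => rw [this]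
  exact (DFunLike.congr_fun (coe_aeval_eq_eval (![a 0, a 1] : Fin 2 → k)) p).symm

lemma pd_num (i : Fin 2) : pderiv i (2 : P2 k) = 0 ∧ pderiv i (3 : P2 k) = 0 ∧
    pderiv i (5 : P2 k) = 0 ∧ pderiv i (7 : P2 k) = 0 ∧ pderiv i (8 : P2 k) = 0 ∧
    pderiv i (9 : P2 k) = 0 := by
  have key : ∀ n : ℕ, pderiv i ((n : ℕ) : P2 k) = 0 := fun n => Derivation.map_natCast _ n
  refine ⟨?_, ?_, ?_, ?_, ?_, ?_⟩
  · exact_mod_cast key 2
  · exact_mod_cast key 3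
  · exact_mod_cast key 5
  · exact_mod_cast key 7
  · exact_mod_cast key 8
  · exact_mod_cast key 9

lemma aGA00 (x y : k) : aeval ![x, y] (pderiv 0 (pderiv 0 (GA k))) =
    2 * (10 * x ^ 3 + 10 * x ^ 3 * y ^ 8 + 36 * x ^ 7 * y ^ 8 + 3 * x * y + 3 * x * y ^ 3 +
      28 * x ^ 6 * y ^ 7) := by
  obtain ⟨n2, n3, n5, n7, n8, n9⟩ := pd_num (k := k) 0
  obtain ⟨m2, m3, m5, m7, m8, m9⟩ := pd_num (k := k) 1
  simp [GA, pderiv_mul, pderiv_pow, pderiv_X, n2, n3, n5, n7, n8, n9, m2, m3, m5, m7, m8, m9]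
  ring

lemma aGA11 (x y : k) : aeval ![x, y] (pderiv 1 (pderiv 1 (GA k))) =
    2 * (28 * x ^ 5 * y ^ 6 + 28 * x ^ 9 * y ^ 6 + 3 * x ^ 3 * y + 21 * x ^ 8 * y ^ 5) := by
  obtain ⟨n2, n3, n5, n7, n8, n9⟩ := pd_num (k := k) 0
  obtain ⟨m2, m3, m5, m7, m8, m9⟩ := pd_num (k := k) 1
  simp [GA, pderiv_mul, pderiv_pow, pderiv_X, n2, n3, n5, n7, n8, n9, m2, m3, m5, m7, m8, m9]
  ring

lemma aGA01 (x y : k) : aeval ![x, y] (pderiv 0 (pderiv 1 (GA k))) =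
    40 * x ^ 4 * y ^ 7 + 72 * x ^ 8 * y ^ 7 + 3 * x ^ 2 + 9 * x ^ 2 * y ^ 2 +
      56 * x ^ 7 * y ^ 6 := by
  obtain ⟨n2, n3, n5, n7, n8, n9⟩ := pd_num (k := k) 0
  obtain ⟨m2, m3, m5, m7, m8, m9⟩ := pd_num (k := k) 1
  simp [GA, pderiv_mul, pderiv_pow, pderiv_X, n2, n3, n5, n7, n8, n9, m2, m3, m5, m7, m8, m9]
  ring

lemma aGB00 (x y : k) : aeval ![x, y] (pderiv 0 (pderiv 0 (GB k))) =
    2 * (10 * x ^ 3 + 10 * x ^ 3 * y ^ 8 + 36 * x ^ 7 * y ^ 8 + 21 * x ^ 5 * y ^ 7 +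
      21 * x ^ 5 * y ^ 5 + y) := by
  obtain ⟨n2, n3, n5, n7, n8, n9⟩ := pd_num (k := k) 0
  obtain ⟨m2, m3, m5, m7, m8, m9⟩ := pd_num (k := k) 1
  simp [GB, pderiv_mul, pderiv_pow, pderiv_X, n2, n3, n5, n7, n8, n9, m2, m3, m5, m7, m8, m9]
  ring

lemma aGB11 (x y : k) : aeval ![x, y] (pderiv 1 (pderiv 1 (GB k))) =
    2 * (28 * x ^ 5 * y ^ 6 + 28 * x ^ 9 * y ^ 6 + 21 * x ^ 7 * y ^ 5 + 10 * x ^ 7 * y ^ 3) := by
  obtain ⟨n2, n3, n5, n7, n8, n9⟩ := pd_num (k := k) 0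
  obtain ⟨m2, m3, m5, m7, m8, m9⟩ := pd_num (k := k) 1
  simp [GB, pderiv_mul, pderiv_pow, pderiv_X, n2, n3, n5, n7, n8, n9, m2, m3, m5, m7, m8, m9]
  ring

lemma aGB01 (x y : k) : aeval ![x, y] (pderiv 0 (pderiv 1 (GB k))) =
    40 * x ^ 4 * y ^ 7 + 72 * x ^ 8 * y ^ 7 + 49 * x ^ 6 * y ^ 6 + 35 * x ^ 6 * y ^ 4 +
      2 * x := by
  obtain ⟨n2, n3, n5, n7, n8, n9⟩ := pd_num (k := k) 0
  obtain ⟨m2, m3, m5, m7, m8, m9⟩ := pd_num (k := k) 1
  simp [GB, pderiv_mul, pderiv_pow, pderiv_X, n2, n3, n5, n7, n8, n9, m2, m3, m5, m7, m8, m9]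
  ring

lemma nodeG_GA [IsAlgClosed k] (h : CharZero k ∨ CharP k 2) : NodeG (GA k) := by
  intro a ha h2 h0 h1 hΔ
  rw [eval_vec, aGA0] at h0
  rw [eval_vec, aGA1] at h1
  rw [eval_vec, eval_vec, eval_vec, aGA00, aGA11, aGA01] at hΔ
  obtain ⟨z, hz⟩ := IsAlgClosed.exists_pow_nat_eq (-(eval a (GA k))) (n := 2) (by norm_num)
  have h2z : 2 * z = 0 := by
    rcases h2 with h2 | h2
    · rw [h2, zero_mul]
    · rw [h2, neg_zero] at hz
      rw [pow_eq_zero_iff two_ne_zero |>.mp hz, mul_zero]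
  have hF : eval ![a 0, a 1, z] (FA k) = 0 := by
    have := aFA (k := k) (a 0) (a 1) z
    rw [← coe_aeval_eq_eval]
    change aeval ![a 0, a 1, z] (FA k) = 0
    rw [this, ← eval_vec, hz]
    ring
  obtain ⟨e0, e1, e2, e3, e4, e5, e6, e7, e8⟩ := tay_FA (![a 0, a 1, z] : Fin 3 → k)
  simp only [Matrix.cons_val_zero, Matrix.cons_val_one, Matrix.cons_val_two, Matrix.tail_cons,
    Matrix.head_cons, Matrix.cons_val] at e0 e1 e2 e3 e4 e6
  rcases node_FA h ![a 0, a 1, z] (by simpa using ha) hF with ⟨i, hi⟩ | hne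
  · apply hi
    fin_cases i
    · change tay _ _ (Finsupp.single 0 1) = 0
      rw [e0]; linear_combination h0
    · change tay _ _ (Finsupp.single 1 1) = 0
      rw [e1]; linear_combination h1
    · change tay _ _ (Finsupp.single 2 1) = 0
      rw [e2]; exact h2z
  · apply hne
    rw [e3, e4, e5, e6, e7, e8]
    linear_combination hΔ

lemma nodeG_GB [IsAlgClosed k] (h : CharZero k ∨ CharP k 2) : NodeG (GB k) := by
  intro a ha h2 h0 h1 hΔ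
  rw [eval_vec, aGB0] at h0
  rw [eval_vec, aGB1] at h1
  rw [eval_vec, eval_vec, eval_vec, aGB00, aGB11, aGB01] at hΔ
  obtain ⟨z, hz⟩ := IsAlgClosed.exists_pow_nat_eq (-(eval a (GB k))) (n := 2) (by norm_num)
  have h2z : 2 * z = 0 := by
    rcases h2 with h2 | h2
    · rw [h2, zero_mul]
    · rw [h2, neg_zero] at hz
      rw [pow_eq_zero_iff two_ne_zero |>.mp hz, mul_zero]
  have hF : eval ![a 0, a 1, z] (FB k) = 0 := by
    have := aFB (k := k) (a 0) (a 1) z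
    rw [← coe_aeval_eq_eval]
    change aeval ![a 0, a 1, z] (FB k) = 0
    rw [this, ← eval_vec, hz]
    ring
  obtain ⟨e0, e1, e2, e3, e4, e5, e6, e7, e8⟩ := tay_FB (![a 0, a 1, z] : Fin 3 → k)
  simp only [Matrix.cons_val_zero, Matrix.cons_val_one, Matrix.cons_val_two, Matrix.tail_cons,
    Matrix.head_cons, Matrix.cons_val] at e0 e1 e2 e3 e4 e6
  rcases node_FB h ![a 0, a 1, z] (by simpa using ha) hF with ⟨i, hi⟩ | hne
  · apply hi
    fin_cases i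
    · change tay _ _ (Finsupp.single 0 1) = 0
      rw [e0]; linear_combination h0
    · change tay _ _ (Finsupp.single 1 1) = 0
      rw [e1]; linear_combination h1
    · change tay _ _ (Finsupp.single 2 1) = 0
      rw [e2]; exact h2z
  · apply hne
    rw [e3, e4, e5, e6, e7, e8]
    linear_combination hΔ

end

variable {k K : Type} [Field k] [Field K] [Algebra k K] {G : P2 k} {U w ζ : K}

lemma li_swap (h : LinearIndependent k (Bm U w ζ)) (hU : U ≠ 0) (hw : w ≠ 0) :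
    LinearIndependent k (Bm (U * w ^ 2) w⁻¹ (w * ζ)) := by
  let φ : ℤ × ℤ × Bool → ℤ × ℤ × Bool := fun x => (x.1, 2 * x.1 - x.2.1 + cond x.2.2 1 0, x.2.2)
  have hφ : Function.Injective φ := by
    rintro ⟨a, m, d⟩ ⟨a', m', d'⟩ h
    simp only [φ, Prod.mk.injEq] at h
    obtain ⟨rfl, h2, rfl⟩ := h
    simp only [Prod.mk.injEq, true_and, and_true]
    omega
  have e : Bm (U * w ^ 2) w⁻¹ (w * ζ) = Bm U w ζ ∘ φ := by
    funext ⟨a, m, d⟩
    simp only [Bm, Function.comp_apply, φ]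
    have e2 : (U * w ^ 2) ^ a = U ^ a * w ^ (2 * a) := by
      rw [mul_zpow, ← zpow_natCast w 2, ← zpow_mul]; rfl
    have e3 : w⁻¹ ^ m = w ^ (-m) := by rw [inv_zpow, ← zpow_neg]
    rw [e2, e3, zpow_add₀ hw, sub_eq_add_neg, zpow_add₀ hw]
    cases d
    · simp; ring
    · simp; ring
  rw [e]
  exact h.comp φ hφ

lemma li_inv (h : LinearIndependent k (Bm U w ζ)) (hU : U ≠ 0) (hw : w ≠ 0) :
    LinearIndependent k (Bm U⁻¹ w⁻¹ (ζ * (U ^ 5 * w ^ 4)⁻¹)) := by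
  let φ : ℤ × ℤ × Bool → ℤ × ℤ × Bool := fun x =>
    (-x.1 + cond x.2.2 (-5) 0, -x.2.1 + cond x.2.2 (-4) 0, x.2.2)
  have hφ : Function.Injective φ := by
    rintro ⟨a, m, d⟩ ⟨a', m', d'⟩ h
    simp only [φ, Prod.mk.injEq] at h
    obtain ⟨h1, h2, rfl⟩ := h
    simp only [Prod.mk.injEq, and_true]
    omega
  have e : Bm U⁻¹ w⁻¹ (ζ * (U ^ 5 * w ^ 4)⁻¹) = Bm U w ζ ∘ φ := by
    funext ⟨a, m, d⟩
    simp only [Bm, Function.comp_apply, φ]
    rw [inv_zpow, inv_zpow, ← zpow_neg, ← zpow_neg, zpow_add₀ hU, zpow_add₀ hw]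
    cases d
    · simp
    · simp only [cond_true, zpow_neg]
      rw [mul_inv]
      norm_cast
      ring
  rw [e]
  exact h.comp φ hφ

theorem ChartA.swap (h : ChartA G U w ζ) (hU : U ≠ 0) (hw : w ≠ 0)
    (hli : LinearIndependent k (Bm U w ζ))
    (hG : aeval ![U * w ^ 2, w⁻¹] G = w ^ 2 * aeval ![U, w] G) :
    ChartA G (U * w ^ 2) w⁻¹ (w * ζ) := by
  have hU' : U * w ^ 2 ≠ 0 := mul_ne_zero hU (pow_ne_zero _ hw)
  have hw' : w⁻¹ ≠ 0 := inv_ne_zero hw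
  refine h.trans (c := w⁻¹) hU' hw' ?_ ?_ LP.snd (by field_simp) (li_swap hli hU hw) ?_ ?_
  · have : U = (U * w ^ 2) * w⁻¹ ^ 2 := by field_simp
    conv => arg 4; rw [this]
    exact LP.fst.mul (LP.snd.pow 2)
  · have : w = w⁻¹⁻¹ := by rw [inv_inv]
    conv => arg 4; rw [this]
    exact LP.inv_snd hw'
  · intro σ h1 h2 h3
    refine ⟨?_, ?_, ?_⟩
    · rw [map_mul, map_pow, h1, h2]
    · rw [map_inv₀, h2]
    · rw [map_mul, h2, h3]; ring
  · rw [hG]; linear_combination w ^ 2 * h.sq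

theorem ChartA.inv (h : ChartA (GA k) U w ζ) (hU : U ≠ 0) (hw : w ≠ 0)
    (hli : LinearIndependent k (Bm U w ζ)) :
    ChartA (GB k) U⁻¹ w⁻¹ (ζ * (U ^ 5 * w ^ 4)⁻¹) := by
  have hU' : U⁻¹ ≠ 0 := inv_ne_zero hU
  have hw' : w⁻¹ ≠ 0 := inv_ne_zero hw
  have h1 : LP k U⁻¹ w⁻¹ U := by
    have : U = U⁻¹⁻¹ := by rw [inv_inv]
    conv => arg 4; rw [this]
    exact LP.inv_fst hU'
  have h2 : LP k U⁻¹ w⁻¹ w := by
    have : w = w⁻¹⁻¹ := by rw [inv_inv]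
    conv => arg 4; rw [this]
    exact LP.inv_snd hw'
  refine h.trans (c := U ^ 5 * w ^ 4) hU' hw' h1 h2 ((h1.pow 5).mul (h2.pow 4))
    (by field_simp) (li_inv hli hU hw) ?_ (sq_inv hU hw h.sq)
  intro σ h1 h2 h3
  refine ⟨?_, ?_, ?_⟩
  · rw [map_inv₀, h1]
  · rw [map_inv₀, h2]
  · rw [map_mul, map_inv₀, map_mul, map_pow, map_pow, h1, h2, h3]; ring

end Pool.Agent.Helper190_Can
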