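import Pool.Agent.Helper190_Can.CReg3

set_option linter.unusedSimpArgs false
set_option linter.unusedVariables false
set_option linter.style.haveILetI false

open MvPolynomial

noncomputable section

namespace Pool.Agent.Helper190_Can

variable {k K : Type} [Field k] [Field K] [Algebra k K] {G : P2 k} {U w ζ : K}

/-- Laurent monomials -/
def Bm (U w ζ : K) (x : ℤ × ℤ × Bool) : K := U ^ x.1 * w ^ x.2.1 * cond x.2.2 ζ 1

/-- exponents in two variables -/
def ex2 (a b : ℕ) : Fin 2 →₀ ℕ := Finsupp.single 0 a + Finsupp.single 1 b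

lemma ex2_0 (a b : ℕ) : ex2 a b 0 = a := by simp [ex2]
lemma ex2_1 (a b : ℕ) : ex2 a b 1 = b := by simp [ex2]

lemma eq_ex2 (u : Fin 2 →₀ ℕ) : u = ex2 (u 0) (u 1) := by
  ext i
  fin_cases i
  · exact (ex2_0 _ _).symm
  · exact (ex2_1 _ _).symm

lemma ex2_inj {a b a' b' : ℕ} : ex2 a b = ex2 a' b' ↔ a = a' ∧ b = b' := by
  constructor
  · intro h
    exact ⟨by rw [← ex2_0 a b, h, ex2_0], by rw [← ex2_1 a b, h, ex2_1]⟩
  · rintro ⟨rfl, rfl⟩; rfl

lemma aeval_monomial_ex2 (a b : ℕ) (c : k) : aeval ![U, w] (monomial (ex2 a b) c) =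
    c • (U ^ a * w ^ b) := by
  rw [aeval_monomial, Finsupp.prod_fintype _ _ (by simp), Fin.prod_univ_two, ex2_0, ex2_1,
    Algebra.smul_def]
  simp

lemma ChartA.li (h : ChartA G U w ζ) (hU : U ≠ 0) (hw : w ≠ 0) :
    LinearIndependent k (Bm U w ζ) := by
  classical
  rw [linearIndependent_iff']
  intro s g hg x0 hx0
  obtain ⟨N, hN⟩ : ∃ N : ℕ, ∀ x ∈ s, 0 ≤ x.1 + N ∧ 0 ≤ x.2.1 + N := by
    refine ⟨∑ x ∈ s, (x.1.natAbs + x.2.1.natAbs), ?_⟩
    intro x hx
    have := Finset.single_le_sum (f := fun x : ℤ × ℤ × Bool => x.1.natAbs + x.2.1.natAbs)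
      (fun _ _ => Nat.zero_le _) hx
    constructor <;> omega
  let M : ℤ × ℤ × Bool → P2 k := fun x =>
    monomial (ex2 (x.1 + N).toNat (x.2.1 + N).toNat) (g x)
  have hM : ∀ x ∈ s, (U ^ N * w ^ N) * (g x • Bm U w ζ x) =
      aeval ![U, w] (cond x.2.2 0 (M x)) + aeval ![U, w] (cond x.2.2 (M x) 0) * ζ := by
    intro x hx
    obtain ⟨h1, h2⟩ := hN x hx
    have e1 : U ^ (x.1 + N).toNat = U ^ N * U ^ x.1 := by
      rw [← zpow_natCast U (x.1 + N).toNat, Int.toNat_of_nonneg h1, zpow_add₀ hU, zpow_natCast,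
        mul_comm]
    have e2 : w ^ (x.2.1 + N).toNat = w ^ N * w ^ x.2.1 := by
      rw [← zpow_natCast w (x.2.1 + N).toNat, Int.toNat_of_nonneg h2, zpow_add₀ hw, zpow_natCast,
        mul_comm]
    have e3 : aeval ![U, w] (M x) = g x • ((U ^ N * w ^ N) * (U ^ x.1 * w ^ x.2.1)) := by
      rw [aeval_monomial_ex2, e1, e2]
      congr 1
      ring
    obtain ⟨a, m, d⟩ := x
    cases d
    · simp only [cond_false, map_zero, zero_mul, add_zero]
      rw [e3, Bm, mul_smul_comm]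
      simp
    · simp only [cond_true, map_zero, zero_add]
      rw [e3, Bm, mul_smul_comm, smul_mul_assoc]
      congr 1
      simp only [cond_true]
      ring
  have hsum : aeval ![U, w] (∑ x ∈ s, cond x.2.2 0 (M x)) +
      aeval ![U, w] (∑ x ∈ s, cond x.2.2 (M x) 0) * ζ = 0 := by
    rw [map_sum, map_sum, Finset.sum_mul, ← Finset.sum_add_distrib,
      ← Finset.sum_congr rfl hM, ← Finset.mul_sum, hg, mul_zero]
  obtain ⟨hp, hq⟩ := h.inj _ _ hsum
  have hne : ∀ x ∈ s, ex2 (x.1 + N).toNat (x.2.1 + N).toNat =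
      ex2 (x0.1 + N).toNat (x0.2.1 + N).toNat → x.2.2 = x0.2.2 → x = x0 := by
    intro x hx h1 h2
    rw [ex2_inj] at h1
    obtain ⟨h3, h4⟩ := hN x hx
    obtain ⟨h5, h6⟩ := hN x0 hx0
    refine Prod.ext (by omega) (Prod.ext (by omega) h2)
  cases hd : x0.2.2
  · have h1 := congrArg (coeff (ex2 (x0.1 + N).toNat (x0.2.1 + N).toNat)) hp
    rw [coeff_sum, coeff_zero, Finset.sum_eq_single x0] at h1
    · rw [hd, cond_false, coeff_monomial, if_pos rfl] at h1
      exact h1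
    · intro x hx hxx
      cases hd' : x.2.2
      · rw [cond_false, coeff_monomial, if_neg]
        intro h2
        exact hxx (hne x hx h2 (hd'.trans hd.symm))
      · rw [cond_true, coeff_zero]
    · intro h2; exact absurd hx0 h2
  · have h1 := congrArg (coeff (ex2 (x0.1 + N).toNat (x0.2.1 + N).toNat)) hq
    rw [coeff_sum, coeff_zero, Finset.sum_eq_single x0] at h1
    · rw [hd, cond_true, coeff_monomial, if_pos rfl] at h1
      exact h1
    · intro x hx hxx
      cases hd' : x.2.2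
      · rw [cond_false, coeff_zero]
      · rw [cond_true, coeff_monomial, if_neg]
        intro h2
        exact hxx (hne x hx h2 (hd'.trans hd.symm))
    · intro h2; exact absurd hx0 h2

/-- injectivity from linear independence -/
lemma inj_of_li (h : LinearIndependent k (Bm U w ζ)) (p q : P2 k)
    (hpq : aeval ![U, w] p + aeval ![U, w] q * ζ = 0) : p = 0 ∧ q = 0 := by
  classical
  let j : (Fin 2 →₀ ℕ) ⊕ (Fin 2 →₀ ℕ) → ℤ × ℤ × Bool :=
    Sum.elim (fun m => ((m 0 : ℤ), (m 1 : ℤ), false)) (fun m => ((m 0 : ℤ), (m 1 : ℤ), true))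
  have hj : Function.Injective j := by
    have key : ∀ m m' : Fin 2 →₀ ℕ, (m 0 : ℤ) = m' 0 → (m 1 : ℤ) = m' 1 → m = m' := by
      intro m m' h1 h2
      rw [eq_ex2 m, eq_ex2 m', ex2_inj]
      omega
    rintro (m | m) (m' | m') hmm <;> simp only [j, Sum.elim_inl, Sum.elim_inr, Prod.mk.injEq,
      and_true, and_false, reduceCtorEq] at hmm
    · rw [key m m' hmm.1 hmm.2]
    · rw [key m m' hmm.1 hmm.2]
  have hli := h.comp j hj
  have e0 : ∀ p : P2 k, aeval ![U, w] p = ∑ m ∈ p.support, coeff m p • (U ^ (m 0) * w ^ (m 1)) := by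
    intro p
    conv_lhs => rw [p.as_sum]
    rw [map_sum]
    refine Finset.sum_congr rfl fun m _ => ?_
    conv_lhs => rw [eq_ex2 m]
    rw [aeval_monomial_ex2, ← eq_ex2]
  rw [linearIndependent_iff'] at hli
  have h1 := hli (p.support.disjSum q.support) (Sum.elim (fun m => coeff m p) (fun m => coeff m q))
    (by
      rw [Finset.sum_disjSum]
      simp only [Function.comp_apply, Sum.elim_inl, Sum.elim_inr, j, Bm, cond_false, cond_true,
        zpow_natCast, mul_one]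
      rw [e0 p, e0 q, Finset.sum_mul] at hpq
      rw [← hpq]
      congr 1
      refine Finset.sum_congr rfl fun m _ => ?_
      rw [smul_mul_assoc])
  constructor
  · by_contra hp
    obtain ⟨m, hm⟩ := MvPolynomial.ne_zero_iff.mp hp
    exact hm (h1 (Sum.inl m) (by rw [Finset.inl_mem_disjSum, mem_support_iff]; exact hm))
  · by_contra hp
    obtain ⟨m, hm⟩ := MvPolynomial.ne_zero_iff.mp hp
    exact hm (h1 (Sum.inr m) (by rw [Finset.inr_mem_disjSum, mem_support_iff]; exact hm))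

/-- Laurent polynomials -/
def LP (k : Type) {K : Type} [Field k] [Field K] [Algebra k K] (U w x : K) : Prop :=
  ∃ (N : ℕ) (p : P2 k), (U * w) ^ N * x = aeval ![U, w] p

lemma LP.add {x y : K} (hx : LP k U w x) (hy : LP k U w y) : LP k U w (x + y) := by
  obtain ⟨N, p, hp⟩ := hx
  obtain ⟨M, q, hq⟩ := hy
  refine ⟨N + M, (X 0 * X 1) ^ M * p + (X 0 * X 1) ^ N * q, ?_⟩
  simp only [map_add, map_mul, map_pow, aeval_X, ← hp, ← hq]
  simp only [Matrix.cons_val_zero, Matrix.cons_val_one, Matrix.cons_val_fin_one]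
  ring

lemma LP.mul {x y : K} (hx : LP k U w x) (hy : LP k U w y) : LP k U w (x * y) := by
  obtain ⟨N, p, hp⟩ := hx
  obtain ⟨M, q, hq⟩ := hy
  refine ⟨N + M, p * q, ?_⟩
  rw [map_mul, ← hp, ← hq]
  ring

lemma LP.const (c : k) : LP k U w (algebraMap k K c) := ⟨0, C c, by simp⟩

lemma LP.poly (p : P2 k) : LP k U w (aeval ![U, w] p) := ⟨0, p, by simp⟩

lemma LP.fst : LP k U w U := ⟨0, X 0, by simp⟩

lemma LP.snd : LP k U w w := ⟨0, X 1, by simp⟩

lemma LP.inv_fst (hU : U ≠ 0) : LP k U w U⁻¹ := ⟨1, X 1, by simp; field_simp⟩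

lemma LP.inv_snd (hw : w ≠ 0) : LP k U w w⁻¹ := ⟨1, X 0, by simp; field_simp⟩

lemma LP.pow {x : K} (hx : LP k U w x) (n : ℕ) : LP k U w (x ^ n) := by
  induction n with
  | zero => rw [pow_zero, ← map_one (algebraMap k K)]; exact LP.const 1
  | succ n ih => rw [pow_succ]; exact ih.mul hx

lemma LP.aeval {x y : K} (hx : LP k U w x) (hy : LP k U w y) (p : P2 k) :
    LP k U w (MvPolynomial.aeval ![x, y] p) := by
  induction p using MvPolynomial.induction_on with
  | C a => rw [aeval_C]; exact LP.const a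
  | add p q hp hq => rw [map_add]; exact hp.add hq
  | mul_X p i hp =>
    rw [map_mul, aeval_X]
    refine hp.mul ?_
    fin_cases i
    · exact hx
    · exact hy

/-- change of charts -/
theorem ChartA.trans (h : ChartA G U w ζ) {G' : P2 k} {U' w' ζ' c : K} (hU' : U' ≠ 0)
    (hw' : w' ≠ 0) (h1 : LP k U' w' U) (h2 : LP k U' w' w) (hc : LP k U' w' c)
    (hcz : ζ = c * ζ') (hli : LinearIndependent k (Bm U' w' ζ'))
    (hσ : ∀ σ : K →ₐ[k] K, σ U = U → σ w = w → σ ζ = -ζ → σ U' = U' ∧ σ w' = w' ∧ σ ζ' = -ζ')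
    (hsq : ζ' ^ 2 + aeval ![U', w'] G' = 0) : ChartA G' U' w' ζ' where
  inj := inj_of_li hli
  gen f := by
    obtain ⟨d, p, q, hd, hdf⟩ := h.gen f
    obtain ⟨N1, d', hd'⟩ := LP.aeval h1 h2 d
    obtain ⟨N2, p', hp'⟩ := LP.aeval h1 h2 p
    obtain ⟨N3, q', hq'⟩ := (LP.aeval h1 h2 q).mul hc
    refine ⟨(X 0 * X 1) ^ (N2 + N3) * d', (X 0 * X 1) ^ (N1 + N3) * p',
      (X 0 * X 1) ^ (N1 + N2) * q', ?_, ?_⟩
    · refine mul_ne_zero (pow_ne_zero _ (mul_ne_zero (X_ne_zero 0) (X_ne_zero 1))) ?_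
      rintro rfl
      rw [map_zero] at hd'
      rcases mul_eq_zero.mp hd' with h3 | h3
      · exact pow_ne_zero _ (mul_ne_zero hU' hw') h3
      · exact h.ne_zero hd h3
    · simp only [map_mul, map_pow, aeval_X, ← hd', ← hp', ← hq']
      simp only [Matrix.cons_val_zero, Matrix.cons_val_one, Matrix.cons_val_fin_one]
      rw [hcz] at hdf
      linear_combination ((U' * w') ^ (N1 + N2 + N3)) * hdf
  conj := by
    obtain ⟨σ, h3, h4, h5⟩ := h.conj
    exact ⟨σ, hσ σ h3 h4 h5⟩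
  sq := hsq

end Pool.Agent.Helper190_Can
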