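import Pool.Agent.Helper190_Can.ZOpen

set_option linter.unusedSimpArgs false
set_option linter.unusedSectionVars false
set_option linter.unusedVariables false

open Module MvPolynomial CategoryTheory
open Pool.Agent.Helper190_CoarseTwo (wt zdeg Cox piece nf D2 bz az az' fbar CharTwo
  ClosedDiagonal)

noncomputable section

namespace Pool.Agent.Helper190_Can

variable {P : ∀ (k : Type) [Field k], GrAlg k → Prop}

lemma mkFam_in {R : Type} [CommRing R] {a : MvPolynomial (Fin 4) R} {ha hR} :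
    (mkFam (P := P) a ha hR).In Cls := by
  intro K _ _ f Y hbc
  obtain ⟨B, hB⟩ := pres_Can (R := R) (a := a)
  obtain ⟨B', hB'⟩ := Pres.image (X := (mkFam (P := P) a ha hR).X) hbc hB
  exact ⟨B', _, hB'⟩

/-- the version with the open hypothesis -/
theorem main2 (hP : ∀ (k : Type) [Field k] [IsAlgClosed k], (CharZero k ∨ CharP k 2) →
      ∀ Y : GrAlg k, IsCan 0 (bz k 2) Y → P k Y)
    (M : CommRingCat.{0} ⥤ Type) (hM : ClosedDiagonal M)
    (π : ∀ R : CommRingCat.{0}, Fam P R → M.obj R) (hπ : IsNat M π)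
    (M' : CharTwo.FullSubcategory ⥤ Type)
    (π' : ∀ R : CharTwo.FullSubcategory, Fam P R.obj → M'.obj R) (hM' : OpenSep M' π')
    (φ : M' ⟶ CharTwo.ι ⋙ M)
    (hφ : ∀ (R : CharTwo.FullSubcategory) (X : Fam P R.obj), φ.app R (π' R X) = π R.obj X) :
    ¬ Mono φ := by
  intro hmono
  set k := AlgebraicClosure (ZMod 2) with hk
  have : CharP k 2 := charP_of_injective_algebraMap (algebraMap (ZMod 2) k).injective 2
  have hZ : ∀ (K : Type) [Field K] [IsAlgClosed K] (f : D2 ℤ_[2] →+* K),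
      ∀ Y : GrAlg K, IsCan 0 (bz K 2) Y → P K Y :=
    fun K _ _ f => hP K (Helper190_CoarseTwo.char_cases (f.comp (D2.C _)))
  have hQ : ∀ (K : Type) [Field K] [IsAlgClosed K] (f : D2 ℚ_[2] →+* K),
      ∀ Y : GrAlg K, IsCan 0 (bz K 2) Y → P K Y :=
    fun K _ _ f => hP K (Helper190_CoarseTwo.char_cases
      ((f.comp (D2.C _)).comp (algebraMap ℤ_[2] ℚ_[2])))
  let ζ : ℤ_[2] →+* k := (algebraMap (ZMod 2) k).comp PadicInt.toZMod
  have hF : ∀ (K : Type) [Field K] [IsAlgClosed K] (f : D2 k →+* K),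
      ∀ Y : GrAlg K, IsCan 0 (bz K 2) Y → P K Y :=
    fun K _ _ f => hP K (Helper190_CoarseTwo.char_cases ((f.comp (D2.C _)).comp ζ))
  have hk0 : ∀ (K : Type) [Field K] [IsAlgClosed K] (f : k →+* K),
      ∀ Y : GrAlg K, IsCan 0 (bz K 2) Y → P K Y :=
    fun K _ _ f => hP K (Helper190_CoarseTwo.char_cases (f.comp ζ))
  have azh : ∀ (R : Type) [CommRing R], (az 2 (D2.x R) (D2.y R)).IsWeightedHomogeneous wt
      (zdeg 2) := fun R _ => Helper190_CoarseTwo.az_hom le_rfl _ _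
  have azh' : ∀ (R : Type) [CommRing R], (az' 2 (D2.x R) (D2.y R)).IsWeightedHomogeneous wt
      (zdeg 2) := fun R _ => Helper190_CoarseTwo.az'_hom le_rfl _ _
  -- the families
  let X1 : Fam P (D2 ℤ_[2]) := mkFam _ (azh ℤ_[2]) (fun K _ _ f => ⟨az_zero f, hZ K f⟩)
  let X2 : Fam P (D2 ℤ_[2]) := mkFam _ (azh' ℤ_[2]) (fun K _ _ f => ⟨az'_zero f, hZ K f⟩)
  let Y1 : Fam P (D2 ℚ_[2]) := mkFam _ (azh ℚ_[2]) (fun K _ _ f => ⟨az_zero f, hQ K f⟩)
  let Y2 : Fam P (D2 ℚ_[2]) := mkFam _ (azh' ℚ_[2]) (fun K _ _ f => ⟨az'_zero f, hQ K f⟩)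
  let Z1 : Fam P (D2 k) := mkFam _ (azh k) (fun K _ _ f => ⟨az_zero f, hF K f⟩)
  let Z2 : Fam P (D2 k) := mkFam _ (azh' k) (fun K _ _ f => ⟨az'_zero f, hF K f⟩)
  let X₀ : Fam P k := mkFam 0 (isWeightedHomogeneous_zero _ _ _)
    (fun K _ _ f => ⟨map_zero _, hk0 K f⟩)
  let L := CommRingCat.of (D2 ℤ_[2])
  let LQ := CommRingCat.of (D2 ℚ_[2])
  let LF := CommRingCat.of (D2 k)
  let fQ : L ⟶ LQ := CommRingCat.ofHom (D2.map (algebraMap ℤ_[2] ℚ_[2]))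
  let fF : L ⟶ LF := CommRingCat.ofHom (D2.map ζ)
  have hinj : Function.Injective (D2.map (algebraMap ℤ_[2] ℚ_[2])) :=
    D2.map_injective (IsFractionRing.injective ℤ_[2] ℚ_[2])
  have bQ1 : IsBC (D2.map (algebraMap ℤ_[2] ℚ_[2])) X1.X Y1.X :=
    isBC_mkFam _ (by rw [Helper190_CoarseTwo.map_az, D2.map_x, D2.map_y]) _ _ _ _
  have bQ2 : IsBC (D2.map (algebraMap ℤ_[2] ℚ_[2])) X2.X Y2.X :=
    isBC_mkFam _ (by rw [Helper190_CoarseTwo.map_az', D2.map_x, D2.map_y]) _ _ _ _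
  have bF1 : IsBC (D2.map ζ) X1.X Z1.X :=
    isBC_mkFam _ (by rw [Helper190_CoarseTwo.map_az, D2.map_x, D2.map_y]) _ _ _ _
  have bF2 : IsBC (D2.map ζ) X2.X Z2.X :=
    isBC_mkFam _ (by rw [Helper190_CoarseTwo.map_az', D2.map_x, D2.map_y]) _ _ _ _
  have hbQ : (bz (D2 ℚ_[2]) 2).IsWeightedHomogeneous wt (zdeg 2 + zdeg 2) :=
    Helper190_CoarseTwo.bz_hom le_rfl
  have hiso : IsBC (RingHom.id (D2 ℚ_[2])) Y1.X Y2.X := by
    have h1 : IsCan (az 2 (D2.x ℚ_[2]) (D2.y ℚ_[2])) (bz (D2 ℚ_[2]) 2) Y1.X :=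
      isCan_Can (azh _) hbQ
    have h2 : IsCan (az' 2 (D2.x ℚ_[2]) (D2.y ℚ_[2])) (bz (D2 ℚ_[2]) 2) Y2.X :=
      isCan_Can (azh' _) hbQ
    have h3 := h1.of_sq (D2.two_unit Helper190_CoarseTwo.unit_two_Q) (azh _) (azh' _)
      (Helper190_CoarseTwo.az_sq le_rfl (D2.x_sq _) (D2.y_sq _))
    exact isBC_of_isCan h3 h2
  -- equality of the points of `M`
  have hQeq : M.map fQ (π L X1) = M.map fQ (π L X2) := by
    rw [hπ L LQ fQ X1 Y1 bQ1, hπ L LQ fQ X2 Y2 bQ2]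
    have := hπ LQ LQ (𝟙 LQ) Y1 Y2 hiso
    rw [M.map_id] at this
    exact this
  obtain ⟨I, hI⟩ := hM L (π L X1) (π L X2)
  have hI0 := (hI LQ fQ).mp hQeq
  have hI00 : ∀ r ∈ I, r = 0 := by
    intro r hr
    apply hinj
    rw [map_zero]
    exact hI0 r hr
  have hLeq : M.map fF (π L X1) = M.map fF (π L X2) := by
    rw [hI]
    intro r hr
    rw [hI00 r hr, map_zero]
  rw [hπ L LF fF X1 Z1 bF1, hπ L LF fF X2 Z2 bF2] at hLeq
  have h2F : CharTwo LF := D2.two_eq (CharTwo.two_eq_zero (R := k))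
  let LF' : CharTwo.FullSubcategory := ⟨LF, h2F⟩
  have hmono' : Mono (φ.app LF') := inferInstance
  have hinj' := (mono_iff_injective (φ.app LF')).mp hmono'
  have heq : π' LF' Z1 = π' LF' Z2 := by
    apply hinj'
    rw [hφ, hφ]
    exact hLeq
  have hD : IsNoetherianRing LF'.obj := by
    change IsNoetherianRing (D2 k)
    infer_instance
  have hfin := hM' Cls isOpenIn_Cls openFun LF' Z1 Z2 mkFam_in mkFam_in heq
  obtain ⟨B1, hB1⟩ := pres_Can (R := D2 k) (a := az 2 (D2.x k) (D2.y k))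
  obtain ⟨B2, hB2⟩ := pres_Can (R := D2 k) (a := az' 2 (D2.x k) (D2.y k))
  have e1 := openFun_eq LF' Z1 mkFam_in (B := B1)
    (α := coefs (az 2 (D2.x k) (D2.y k)) (bz (D2 k) 2)) hB1
  have e2 := openFun_eq LF' Z2 mkFam_in (B := B2)
    (α := coefs (az' 2 (D2.x k) (D2.y k)) (bz (D2 k) 2)) hB2
  rw [e1, e2] at hfin
  have hbF : (bz (D2 k) 2).IsWeightedHomogeneous wt (zdeg 2 + zdeg 2) :=
    Helper190_CoarseTwo.bz_hom le_rfl
  change val (R := D2 k) _ = val (R := D2 k) _ at hfin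
  rw [val, val, pol_coefs (azh k) hbF, pol_coefs (azh k) hbF, pol_coefs (azh' k) hbF,
    pol_coefs (azh' k) hbF] at hfin
  simp only [cond_true, cond_false] at hfin
  rw [Helper190_CoarseTwo.fbar_az le_rfl, Helper190_CoarseTwo.fbar_az' le_rfl] at hfin
  exact D2.xy_ne k hfin

end Pool.Agent.Helper190_Can
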