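import Pool.Agent.Helper190_Can.CHilb
import Pool.Agent.Helper190_Can.ZMain

set_option linter.unusedSimpArgs false
set_option linter.unusedVariables false
set_option linter.unusedSectionVars false

open Module MvPolynomial CategoryTheory
open Pool.Agent.Helper190_CoarseTwo (wt zdeg Cox piece nf D2 bz az az' fbar CharTwo
  ClosedDiagonal)

noncomputable section

namespace Pool.Agent.Helper190_Can

lemma canRing_of_isCan {k : Type} [Field k] [IsAlgClosed k] (h : CharZero k ∨ CharP k 2)
    (Y : GrAlg k) (hY : IsCan 0 (bz k 2) Y) : CanRing 8 5 k Y := by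
  have hb : (bz k 2).IsWeightedHomogeneous wt (zdeg 2 + zdeg 2) :=
    Helper190_CoarseTwo.bz_hom le_rfl
  have ha : (0 : MvPolynomial (Fin 4) k).IsWeightedHomogeneous wt (zdeg 2) :=
    isWeightedHomogeneous_zero _ _ _
  have h1 := isCan_Can ha hb
  have h2 : IsBC (RingHom.id k) (Can (coefs 0 (bz k 2))) Y := isBC_of_isCan h1 hY
  obtain ⟨B', hB', hT'⟩ := tab_image h2 (hom_ofTab (canTab (coefs 0 (bz k 2))))
    (canTab (coefs 0 (bz k 2)))
  refine canRing_of_tab h hB' hT' ?_ ?_
  · exact pol_coefs ha hb (d := false)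
  · intro κ
    simp [coefs]

end Pool.Agent.Helper190_Can
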