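import Pool.Agent.Helper190_Can.Node

set_option linter.unusedSimpArgs false
set_option linter.unusedVariables false

open MvPolynomial

noncomputable section

namespace Pool.Agent.Helper190_Can

/-- exponents -/
def ex3 (a b d : ℕ) : Fin 3 →₀ ℕ :=
  Finsupp.single 0 a + Finsupp.single 1 b + Finsupp.single 2 d

lemma ex3_0 (a b d : ℕ) : ex3 a b d 0 = a := by simp [ex3]
lemma ex3_1 (a b d : ℕ) : ex3 a b d 1 = b := by simp [ex3]
lemma ex3_2 (a b d : ℕ) : ex3 a b d 2 = d := by simp [ex3]

lemma eq_ex3 (u : Fin 3 →₀ ℕ) : u = ex3 (u 0) (u 1) (u 2) := by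
  ext i
  fin_cases i
  · exact (ex3_0 _ _ _).symm
  · exact (ex3_1 _ _ _).symm
  · exact (ex3_2 _ _ _).symm

lemma ex3_inj {a b d a' b' d' : ℕ} : ex3 a b d = ex3 a' b' d' ↔ a = a' ∧ b = b' ∧ d = d' := by
  constructor
  · intro h
    refine ⟨?_, ?_, ?_⟩
    · rw [← ex3_0 a b d, h, ex3_0]
    · rw [← ex3_1 a b d, h, ex3_1]
    · rw [← ex3_2 a b d, h, ex3_2]
  · rintro ⟨rfl, rfl, rfl⟩; rfl

variable {k A : Type} [Field k] [CommRing A] [Algebra k A]

/-- the terms of degree at most two -/
def low (G : MvPolynomial (Fin 3) k) (x y z : A) : A :=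
  algebraMap k A (coeff (ex3 0 0 0) G) +
  (algebraMap k A (coeff (ex3 1 0 0) G) * x + algebraMap k A (coeff (ex3 0 1 0) G) * y +
    algebraMap k A (coeff (ex3 0 0 1) G) * z) +
  (algebraMap k A (coeff (ex3 2 0 0) G) * x ^ 2 + algebraMap k A (coeff (ex3 0 2 0) G) * y ^ 2 +
    algebraMap k A (coeff (ex3 0 0 2) G) * z ^ 2 + algebraMap k A (coeff (ex3 1 1 0) G) * (x * y) +
    algebraMap k A (coeff (ex3 1 0 1) G) * (x * z) +
    algebraMap k A (coeff (ex3 0 1 1) G) * (y * z))

lemma expand3 (G : MvPolynomial (Fin 3) k) (t x y z : A) :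
    ∃ r : A, aeval ![t * x, t * y, t * z] G = low G (t * x) (t * y) (t * z) + t ^ 3 * r := by
  classical
  induction G using MvPolynomial.induction_on' with
  | add p q hp hq =>
    obtain ⟨r, hr⟩ := hp
    obtain ⟨s, hs⟩ := hq
    refine ⟨r + s, ?_⟩
    rw [map_add, hr, hs]
    simp only [low, coeff_add, map_add]
    ring
  | monomial u c =>
    rw [eq_ex3 u]
    generalize u 0 = a
    generalize u 1 = b
    generalize u 2 = d
    have h1 : aeval ![t * x, t * y, t * z] (monomial (ex3 a b d) c) =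
        algebraMap k A c * ((t * x) ^ a * (t * y) ^ b * (t * z) ^ d) := by
      rw [aeval_monomial, Finsupp.prod_fintype _ _ (by simp), Fin.prod_univ_three, ex3_0, ex3_1,
        ex3_2]
      simp
    rw [h1]
    by_cases h : 3 ≤ a + b + d
    · obtain ⟨m, hm⟩ := Nat.exists_eq_add_of_le h
      refine ⟨t ^ m * (algebraMap k A c * (x ^ a * y ^ b * z ^ d)), ?_⟩
      have h2 : low (monomial (ex3 a b d) c) (t * x) (t * y) (t * z) = 0 := by
        simp only [low, coeff_monomial, ex3_inj]
        repeat rw [if_neg (by omega)]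
        simp
      rw [h2, zero_add]
      have h3 : t ^ 3 * (t ^ m * (algebraMap k A c * (x ^ a * y ^ b * z ^ d))) =
          algebraMap k A c * (t ^ (3 + m) * (x ^ a * y ^ b * z ^ d)) := by ring
      rw [h3, ← hm]
      ring
    · refine ⟨0, ?_⟩
      have ha : a ≤ 2 := by omega
      have hb : b ≤ 2 := by omega
      have hd : d ≤ 2 := by omega
      interval_cases a <;> interval_cases b <;> interval_cases d <;>
        first
        | (exfalso; omega)
        | (simp [low, coeff_monomial, ex3_inj]; try ring)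

lemma expand2 (G : MvPolynomial (Fin 3) k) (t x y z : A) :
    ∃ r : A, aeval ![t * x, t * y, t * z] G = algebraMap k A (coeff (ex3 0 0 0) G) +
      t * (algebraMap k A (coeff (ex3 1 0 0) G) * x + algebraMap k A (coeff (ex3 0 1 0) G) * y +
      algebraMap k A (coeff (ex3 0 0 1) G) * z) + t ^ 2 * r := by
  obtain ⟨r, hr⟩ := expand3 G t x y z
  refine ⟨(algebraMap k A (coeff (ex3 2 0 0) G) * x ^ 2 +
    algebraMap k A (coeff (ex3 0 2 0) G) * y ^ 2 +
    algebraMap k A (coeff (ex3 0 0 2) G) * z ^ 2 + algebraMap k A (coeff (ex3 1 1 0) G) * (x * y) +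
    algebraMap k A (coeff (ex3 1 0 1) G) * (x * z) +
    algebraMap k A (coeff (ex3 0 1 1) G) * (y * z)) + t * r, ?_⟩
  rw [hr, low]
  ring

lemma expand1 (G : MvPolynomial (Fin 3) k) (t x y z : A) :
    ∃ r : A, aeval ![t * x, t * y, t * z] G = algebraMap k A (coeff (ex3 0 0 0) G) + t * r := by
  obtain ⟨r, hr⟩ := expand2 G t x y z
  refine ⟨(algebraMap k A (coeff (ex3 1 0 0) G) * x + algebraMap k A (coeff (ex3 0 1 0) G) * y +
      algebraMap k A (coeff (ex3 0 0 1) G) * z) + t * r, ?_⟩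
  rw [hr]
  ring

/-- the translated polynomial -/
def tr (c : Fin 3 → k) (F : MvPolynomial (Fin 3) k) : MvPolynomial (Fin 3) k :=
  bind₁ (fun i => X i + C (c i)) F

lemma tay_tr (F : MvPolynomial (Fin 3) k) (c : Fin 3 → k) (e : Fin 3 →₀ ℕ) :
    tay F c e = coeff e (tr c F) := rfl

lemma aeval_tr (c : Fin 3 → k) (F : MvPolynomial (Fin 3) k) (h : Fin 3 → A) :
    aeval h (tr c F) = aeval (fun i => h i + algebraMap k A (c i)) F := by
  rw [tr, aeval_bind₁]
  simp

lemma pderiv_tr (c : Fin 3 → k) (F : MvPolynomial (Fin 3) k) (i : Fin 3) :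
    pderiv i (tr c F) = tr c (pderiv i F) := by
  classical
  induction F using MvPolynomial.induction_on with
  | C a => simp [tr]
  | add F G hF hG =>
    simp only [tr, map_add] at *
    rw [hF, hG]
  | mul_X F j hF =>
    simp only [tr, map_mul, bind₁_X_right] at *
    rw [pderiv_mul, hF, pderiv_mul (f := F)]
    simp only [map_add, map_mul, bind₁_X_right, pderiv_C, add_zero]
    congr 2
    by_cases hij : i = j
    · subst hij; simp
    · simp [pderiv_X, Pi.single_eq_of_ne (Ne.symm hij)]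

end Pool.Agent.Helper190_Can
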