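import Pool.Agent.Helper190_Can.Node

set_option linter.unusedSimpArgs false
set_option linter.unusedVariables false

open MvPolynomial

noncomputable section

namespace Pool.Agent.Helper190_Can

variable {k : Type} [Field k]

/-- a monomial in three variables -/
def m3 (a b d : ℕ) : MvPolynomial (Fin 3) k := X 0 ^ a * X 1 ^ b * X 2 ^ d

lemma pow_expand (i : Fin 3) (c : k) (n : ℕ) :
    ((X i : MvPolynomial (Fin 3) k) + C c) ^ n =
      ∑ m ∈ Finset.range (n + 1), monomial (Finsupp.single i m) (c ^ (n - m) * (n.choose m : k)) := by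
  rw [add_pow]
  refine Finset.sum_congr rfl fun m _ => ?_
  rw [X_pow_eq_monomial, ← C_pow, mul_assoc, ← map_natCast (C : k →+* MvPolynomial (Fin 3) k),
    ← C_mul, mul_comm, C_mul_monomial, mul_one]

lemma tay_m3 (a b d : ℕ) (c : Fin 3 → k) (i j l : ℕ) :
    tay (m3 a b d) c (Finsupp.single 0 i + Finsupp.single 1 j + Finsupp.single 2 l) =
      (a.choose i : k) * c 0 ^ (a - i) * ((b.choose j : k) * c 1 ^ (b - j)) *
        ((d.choose l : k) * c 2 ^ (d - l)) := by
  classical
  rw [tay, m3]
  simp only [map_mul, map_pow, bind₁_X_right]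
  rw [pow_expand, pow_expand, pow_expand, Finset.sum_mul_sum, Finset.sum_mul_sum]
  simp only [Finset.sum_mul]
  rw [coeff_sum, Finset.sum_eq_single i]
  · simp only [coeff_sum, monomial_mul, coeff_monomial]
    rw [Finset.sum_eq_single l]
    · rw [Finset.sum_eq_single j]
      · rw [if_pos rfl]; ring
      · intro y _ hy
        rw [if_neg]
        intro h
        apply hy
        have := DFunLike.congr_fun h 1
        simpa using this
      · intro hy
        rw [Finset.mem_range, not_lt] at hy
        rw [Nat.choose_eq_zero_of_lt (by omega : b < j)]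
        simp
    · intro x _ hx
      refine Finset.sum_eq_zero fun y _ => ?_
      rw [if_neg]
      intro h
      apply hx
      have := DFunLike.congr_fun h 2
      simpa using this
    · intro hx
      rw [Finset.mem_range, not_lt] at hx
      rw [Nat.choose_eq_zero_of_lt (by omega : d < l)]
      simp
  · intro x _ hx
    simp only [coeff_sum, monomial_mul, coeff_monomial]
    refine Finset.sum_eq_zero fun y _ => Finset.sum_eq_zero fun y' _ => ?_
    rw [if_neg]
    intro h
    apply hx
    have := DFunLike.congr_fun h 0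
    simpa using this
  · intro hx
    rw [Finset.mem_range, not_lt] at hx
    simp only [coeff_sum, monomial_mul, coeff_monomial]
    refine Finset.sum_eq_zero fun y _ => Finset.sum_eq_zero fun y' _ => ?_
    rw [Nat.choose_eq_zero_of_lt (by omega : a < i)]
    simp

lemma tay_add (F G : MvPolynomial (Fin 3) k) (c : Fin 3 → k) (e : Fin 3 →₀ ℕ) :
    tay (F + G) c e = tay F c e + tay G c e := by
  rw [tay, map_add, coeff_add]; rfl

lemma tay1_eq (F : MvPolynomial (Fin 3) k) (c : Fin 3 → k) :
    tay F c (Finsupp.single 0 1) = tay F c (Finsupp.single 0 1 + Finsupp.single 1 0 +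
      Finsupp.single 2 0) ∧
    tay F c (Finsupp.single 1 1) = tay F c (Finsupp.single 0 0 + Finsupp.single 1 1 +
      Finsupp.single 2 0) ∧
    tay F c (Finsupp.single 2 1) = tay F c (Finsupp.single 0 0 + Finsupp.single 1 0 +
      Finsupp.single 2 1) := by simp

lemma tay2_eq (F : MvPolynomial (Fin 3) k) (c : Fin 3 → k) :
    tay2 F c 0 0 = tay F c (Finsupp.single 0 2 + Finsupp.single 1 0 + Finsupp.single 2 0) ∧
    tay2 F c 1 1 = tay F c (Finsupp.single 0 0 + Finsupp.single 1 2 + Finsupp.single 2 0) ∧
    tay2 F c 2 2 = tay F c (Finsupp.single 0 0 + Finsupp.single 1 0 + Finsupp.single 2 2) ∧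
    tay2 F c 0 1 = tay F c (Finsupp.single 0 1 + Finsupp.single 1 1 + Finsupp.single 2 0) ∧
    tay2 F c 0 2 = tay F c (Finsupp.single 0 1 + Finsupp.single 1 0 + Finsupp.single 2 1) ∧
    tay2 F c 1 2 = tay F c (Finsupp.single 0 0 + Finsupp.single 1 1 + Finsupp.single 2 1) := by
  simp only [tay2, Finsupp.single_zero, add_zero, zero_add, ← Finsupp.single_add, and_self]

end Pool.Agent.Helper190_Can
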