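import Pool.Agent.Helper190_Can.CWedge
import Pool.Agent.Helper190_Can.CTay
import Pool.Agent.Helper190_Can.NodeTay

set_option linter.unusedSimpArgs false
set_option linter.unusedVariables false

open MvPolynomial IsLocalRing

noncomputable section

namespace Pool.Agent.Helper190_Can

variable {k K : Type} [Field k] [Field K] [Algebra k K] {V : ValuationSubring K}

lemma isUnit_of_residue {x : V} (h : residue V x ≠ 0) : IsUnit x := by
  by_contra hn
  exact h ((residue_eq_zero_iff _).mpr hn)

lemma inv_mem_of_residue {x : V} (h : residue V x ≠ 0) : ((x : K))⁻¹ ∈ V := by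
  obtain ⟨y, hy⟩ := (isUnit_of_residue h).exists_right_inv
  have : (x : K) * y = 1 := congrArg Subtype.val hy
  rw [← eq_inv_of_mul_eq_one_right this]
  exact y.2

lemma coe_ne_zero_of_residue {x : V} (h : residue V x ≠ 0) : (x : K) ≠ 0 := by
  intro h0
  apply h
  have : x = 0 := Subtype.ext h0
  rw [this, map_zero]

lemma reg_of_unit {e : ⋀[K]^2 Ω[K⁄k]} {g u v : V} (hg : residue V g ≠ 0)
    (he : (g : K) • e = dd k (u : K) (v : K)) :
    ∃ u ∈ V, ∃ v ∈ V, ∃ j ∈ V, e = j • dd k u v :=
  ⟨u, u.2, v, v.2, (g : K)⁻¹, inv_mem_of_residue hg, by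
    rw [← he, smul_smul, inv_mul_cancel₀ (coe_ne_zero_of_residue hg), one_smul]⟩

lemma node_core {e : ⋀[K]^2 Ω[K⁄k]} {t y z g1 g2 : V} {P0 P1 P2 : K} {c0 c1 c2 : k}
    (h0 : P0 = algebraMap k K c0 + t) (h1 : P1 = algebraMap k K c1 + t * y)
    (h2 : P2 = algebraMap k K c2 + t * z) (ht : (t : K) ≠ 0)
    (e1 : ((t * g1 : V) : K) • e = dd k P2 P0) (e2 : ((t * g2 : V) : K) • e = dd k P0 P1)
    {a b c d e' f : ResidueField V}
    (hΔ : 4 * a * b * c + d * e' * f - a * f ^ 2 - b * e' ^ 2 - c * d ^ 2 ≠ 0)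
    (r1 : residue V g1 = 2 * b * residue V y + d + f * residue V z)
    (r2 : residue V g2 = 2 * c * residue V z + e' + f * residue V y)
    (r0 : a + b * residue V y ^ 2 + c * residue V z ^ 2 + d * residue V y +
      e' * residue V z + f * (residue V y * residue V z) = 0) :
    ∃ u ∈ V, ∃ v ∈ V, ∃ j ∈ V, e = j • dd k u v := by
  have q1 : (g1 : K) • e = dd k (z : K) (t : K) := by
    have h3 : (t : K) • ((g1 : K) • e) = (t : K) • dd k (z : K) (t : K) := by
      rw [smul_smul]
      change ((t * g1 : V) : K) • e = _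
      rw [e1, h2, h0, dd_const_add_left, dd_const_add_right, dd_mul_left, dd_self, smul_zero,
        add_zero]
    exact smul_right_injective _ ht h3
  have q2 : (g2 : K) • e = dd k (t : K) (y : K) := by
    have h3 : (t : K) • ((g2 : K) • e) = (t : K) • dd k (t : K) (y : K) := by
      rw [smul_smul]
      change ((t * g2 : V) : K) • e = _
      rw [e2, h0, h1, dd_const_add_left, dd_const_add_right, dd_mul_right, dd_self, smul_zero,
        add_zero]
    exact smul_right_injective _ ht h3
  by_cases c1 : residue V g1 = 0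
  · by_cases c2 : residue V g2 = 0
    · exfalso
      apply hΔ
      rw [c1] at r1
      rw [c2] at r2
      set Y := residue V y
      set Z := residue V z
      have hd : d = -(2 * b * Y) - f * Z := by linear_combination -r1
      have he : e' = -(2 * c * Z) - f * Y := by linear_combination -r2
      have ha : a = -(b * Y ^ 2 + c * Z ^ 2 + d * Y + e' * Z + f * (Y * Z)) := by
        linear_combination r0
      rw [ha, hd, he]
      ring
    · exact reg_of_unit c2 q2
  · exact reg_of_unit c1 q1

variable [Algebra k V] [IsScalarTower k V K]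

lemma coe_algebraMap (c : k) : ((algebraMap k V c : V) : K) = algebraMap k K c :=
  (IsScalarTower.algebraMap_apply k V K c).symm

lemma coe_aeval {σ : Type} (p : σ → V) (F : MvPolynomial σ k) :
    ((aeval p F : V) : K) = aeval (fun i => (p i : K)) F := by
  have h := (Algebra.ofId V K).toRingHom
  have : aeval (fun i => (p i : K)) F = algebraMap V K (aeval p F) := by
    rw [← MvPolynomial.aeval_algebraMap_apply]; rfl
  rw [this]; rfl

/-- the Taylor coefficients in terms of `ex3` -/
lemma tay_ex3 (F : MvPolynomial (Fin 3) k) (c : Fin 3 → k) :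
    tay F c (Finsupp.single 0 1) = coeff (ex3 1 0 0) (tr c F) ∧
    tay F c (Finsupp.single 1 1) = coeff (ex3 0 1 0) (tr c F) ∧
    tay F c (Finsupp.single 2 1) = coeff (ex3 0 0 1) (tr c F) ∧
    tay2 F c 0 0 = coeff (ex3 2 0 0) (tr c F) ∧ tay2 F c 1 1 = coeff (ex3 0 2 0) (tr c F) ∧
    tay2 F c 2 2 = coeff (ex3 0 0 2) (tr c F) ∧ tay2 F c 0 1 = coeff (ex3 1 1 0) (tr c F) ∧
    tay2 F c 0 2 = coeff (ex3 1 0 1) (tr c F) ∧ tay2 F c 1 2 = coeff (ex3 0 1 1) (tr c F) := by
  obtain ⟨h0, h1, h2⟩ := tay1_eq F c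
  obtain ⟨h3, h4, h5, h6, h7, h8⟩ := tay2_eq F c
  exact ⟨h0, h1, h2, h3, h4, h5, h6, h7, h8⟩

/-- quadratic expansion at a singular point -/
lemma sing_expand {F : MvPolynomial (Fin 3) k} {c : Fin 3 → k} (hF : eval c F = 0)
    (h0 : ∀ i, tay F c (Finsupp.single i 1) = 0) {A : Type} [CommRing A] [Algebra k A]
    (t x y z : A) :
    (∃ r, aeval (fun i => ![t * x, t * y, t * z] i + algebraMap k A (c i)) F =
      t ^ 2 * (algebraMap k A (tay2 F c 0 0) * x ^ 2 + algebraMap k A (tay2 F c 1 1) * y ^ 2 +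
        algebraMap k A (tay2 F c 2 2) * z ^ 2 + algebraMap k A (tay2 F c 0 1) * (x * y) +
        algebraMap k A (tay2 F c 0 2) * (x * z) + algebraMap k A (tay2 F c 1 2) * (y * z) +
        t * r)) ∧
    (∃ r, aeval (fun i => ![t * x, t * y, t * z] i + algebraMap k A (c i)) (pderiv 0 F) =
      t * (2 * algebraMap k A (tay2 F c 0 0) * x + algebraMap k A (tay2 F c 0 1) * y +
        algebraMap k A (tay2 F c 0 2) * z + t * r)) ∧
    (∃ r, aeval (fun i => ![t * x, t * y, t * z] i + algebraMap k A (c i)) (pderiv 1 F) =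
      t * (algebraMap k A (tay2 F c 0 1) * x + 2 * algebraMap k A (tay2 F c 1 1) * y +
        algebraMap k A (tay2 F c 1 2) * z + t * r)) ∧
    (∃ r, aeval (fun i => ![t * x, t * y, t * z] i + algebraMap k A (c i)) (pderiv 2 F) =
      t * (algebraMap k A (tay2 F c 0 2) * x + algebraMap k A (tay2 F c 1 2) * y +
        2 * algebraMap k A (tay2 F c 2 2) * z + t * r)) := by
  obtain ⟨e0, e1, e2, e3, e4, e5, e6, e7, e8⟩ := tay_ex3 F c
  have g0 := h0 0
  have g1 := h0 1
  have g2 := h0 2
  rw [e0] at g0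
  rw [e1] at g1
  rw [e2] at g2
  rw [e3, e4, e5, e6, e7, e8]
  have gc : coeff (ex3 0 0 0) (tr c F) = 0 := by
    obtain ⟨r, hr⟩ := expand1 (A := k) (tr c F) 0 0 0 0
    rw [aeval_tr] at hr
    have h1 : (fun i => (![0 * 0, 0 * 0, 0 * 0] : Fin 3 → k) i + algebraMap k k (c i)) = c := by
      funext i
      fin_cases i <;> simp
    rw [h1, zero_mul, add_zero, Algebra.algebraMap_self_apply] at hr
    rw [← hr]
    exact hF
  have s1 : ∀ i j l : ℕ, ex3 i j l + Finsupp.single 0 1 = ex3 (i + 1) j l := by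
    intro i j l; rw [eq_ex3 (ex3 i j l + _), ex3_inj]; simp [ex3_0, ex3_1, ex3_2]
  have s2 : ∀ i j l : ℕ, ex3 i j l + Finsupp.single 1 1 = ex3 i (j + 1) l := by
    intro i j l; rw [eq_ex3 (ex3 i j l + _), ex3_inj]; simp [ex3_0, ex3_1, ex3_2]
  have s3 : ∀ i j l : ℕ, ex3 i j l + Finsupp.single 2 1 = ex3 i j (l + 1) := by
    intro i j l; rw [eq_ex3 (ex3 i j l + _), ex3_inj]; simp [ex3_0, ex3_1, ex3_2]
  refine ⟨?_, ?_, ?_, ?_⟩
  · obtain ⟨r, hr⟩ := expand3 (tr c F) t x y z
    refine ⟨r, ?_⟩
    rw [← aeval_tr, hr, low, gc, g0, g1, g2]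
    simp only [map_zero]
    ring
  · obtain ⟨r, hr⟩ := expand2 (pderiv 0 (tr c F)) t x y z
    refine ⟨r, ?_⟩
    rw [← aeval_tr, ← pderiv_tr, hr]
    simp only [coeff_pderiv, s1, ex3_0, zero_add, g0, map_mul, map_add, map_one, map_natCast]
    push_cast
    try simp only [map_zero, Nat.cast_zero, Nat.cast_one, Nat.reduceAdd]
    ring
  · obtain ⟨r, hr⟩ := expand2 (pderiv 1 (tr c F)) t x y z
    refine ⟨r, ?_⟩
    rw [← aeval_tr, ← pderiv_tr, hr]
    simp only [coeff_pderiv, s2, ex3_1, zero_add, g1, map_mul, map_add, map_one, map_natCast]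
    push_cast
    try simp only [map_zero, Nat.cast_zero, Nat.cast_one, Nat.reduceAdd]
    ring
  · obtain ⟨r, hr⟩ := expand2 (pderiv 2 (tr c F)) t x y z
    refine ⟨r, ?_⟩
    rw [← aeval_tr, ← pderiv_tr, hr]
    simp only [coeff_pderiv, s3, ex3_2, zero_add, g2, map_mul, map_add, map_one, map_natCast]
    push_cast
    try simp only [map_zero, Nat.cast_zero, Nat.cast_one, Nat.reduceAdd]
    ring

lemma tay_single (F : MvPolynomial (Fin 3) k) (c : Fin 3 → k) (i : Fin 3) :
    tay F c (Finsupp.single i 1) = eval c (pderiv i F) := by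
  have h1 : coeff 0 (pderiv i (tr c F)) = tay F c (Finsupp.single i 1) := by
    rw [coeff_pderiv, zero_add, Finsupp.zero_apply]
    simp [tay_tr]
  rw [← h1, pderiv_tr]
  obtain ⟨r, hr⟩ := expand1 (A := k) (tr c (pderiv i F)) 0 0 0 0
  rw [aeval_tr] at hr
  have h2 : (fun i => (![0 * 0, 0 * 0, 0 * 0] : Fin 3 → k) i + algebraMap k k (c i)) = c := by
    funext i
    fin_cases i <;> simp
  rw [h2, zero_mul, add_zero, Algebra.algebraMap_self_apply] at hr
  have h3 : ex3 0 0 0 = 0 := by simp [ex3]
  rw [h3] at hr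
  rw [← hr]
  rfl

lemma residue_aeval {p : Fin 3 → V} {c : Fin 3 → k}
    (hc : ∀ i, residue V (p i) = residue V (algebraMap k V (c i))) (F : MvPolynomial (Fin 3) k) :
    residue V (aeval p F) = residue V (algebraMap k V (eval c F)) := by
  induction F using MvPolynomial.induction_on with
  | C a => rw [aeval_C, eval_C]
  | add F G hF hG => simp only [map_add, hF, hG]
  | mul_X F i hF => simp only [map_mul, aeval_X, eval_X, hF, hc]

theorem reg_closed {F : MvPolynomial (Fin 3) k} {p : Fin 3 → V} {c : Fin 3 → k}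
    {e : ⋀[K]^2 Ω[K⁄k]} (hF : aeval (fun i => (p i : K)) F = 0)
    (hc : ∀ i, residue V (p i) = residue V (algebraMap k V (c i)))
    (hn : SmoothOrNode F c) (hne : ∃ i, p i ≠ algebraMap k V (c i))
    (e0 : aeval (fun i => (p i : K)) (pderiv 0 F) • e = dd k (p 1 : K) (p 2 : K))
    (e1 : aeval (fun i => (p i : K)) (pderiv 1 F) • e = dd k (p 2 : K) (p 0 : K))
    (e2 : aeval (fun i => (p i : K)) (pderiv 2 F) • e = dd k (p 0 : K) (p 1 : K)) :
    ∃ u ∈ V, ∃ v ∈ V, ∃ j ∈ V, e = j • dd k u v := by
  rw [← coe_aeval] at hF e0 e1 e2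
  have hF' : aeval p F = 0 := Subtype.ext hF
  have hFc : eval c F = 0 := by
    by_contra hne0
    have h1 := residue_aeval hc F
    rw [hF', map_zero] at h1
    have h2 : IsUnit (algebraMap k V (eval c F)) := (IsUnit.mk0 _ hne0).map _
    have h3 := h2.map (residue V)
    rw [← h1] at h3
    exact not_isUnit_zero h3
  have hconst : ∀ r : k, r ≠ 0 → residue V (algebraMap k V r) ≠ 0 := by
    intro r hr h1
    have h2 := ((IsUnit.mk0 _ hr).map (algebraMap k V)).map (residue V)
    rw [h1] at h2
    exact not_isUnit_zero h2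
  by_cases hs : ∃ i, tay F c (Finsupp.single i 1) ≠ 0
  · obtain ⟨i, hi⟩ := hs
    rw [tay_single] at hi
    have h1 := hconst _ hi
    rw [← residue_aeval hc] at h1
    fin_cases i
    · exact reg_of_unit h1 e0
    · exact reg_of_unit h1 e1
    · exact reg_of_unit h1 e2
  · have hΔ := (hn hFc).resolve_left hs
    rw [not_exists] at hs
    have hs' : ∀ i, tay F c (Finsupp.single i 1) = 0 := fun i => not_not.mp (hs i)
    have hΔ' := hconst _ hΔ
    simp only [map_add, map_sub, map_mul, map_pow, map_ofNat] at hΔ'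
    -- the differences
    have hres : ∀ i, residue V (p i - algebraMap k V (c i)) = 0 := by
      intro i; rw [map_sub, hc, sub_self]
    have hdom : (∃ t y z : V, p 0 - algebraMap k V (c 0) = t ∧
          p 1 - algebraMap k V (c 1) = t * y ∧ p 2 - algebraMap k V (c 2) = t * z) ∨
        (∃ t y z : V, p 1 - algebraMap k V (c 1) = t ∧
          p 2 - algebraMap k V (c 2) = t * y ∧ p 0 - algebraMap k V (c 0) = t * z) ∨
        (∃ t y z : V, p 2 - algebraMap k V (c 2) = t ∧
          p 0 - algebraMap k V (c 0) = t * y ∧ p 1 - algebraMap k V (c 1) = t * z) := by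
      generalize p 0 - algebraMap k V (c 0) = a0
      generalize p 1 - algebraMap k V (c 1) = a1
      generalize p 2 - algebraMap k V (c 2) = a2
      rcases ValuationRing.dvd_total a0 a1 with ⟨y, hy⟩ | ⟨y, hy⟩
      · rcases ValuationRing.dvd_total a0 a2 with ⟨z, hz⟩ | ⟨z, hz⟩
        · exact Or.inl ⟨a0, y, z, rfl, hy, hz⟩
        · exact Or.inr (Or.inr ⟨a2, z, z * y, rfl, hz, by rw [hy, hz]; ring⟩)
      · rcases ValuationRing.dvd_total a1 a2 with ⟨z, hz⟩ | ⟨z, hz⟩
        · exact Or.inr (Or.inl ⟨a1, z, y, rfl, hz, hy⟩)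
        · exact Or.inr (Or.inr ⟨a2, z * y, z, rfl, by rw [hy, hz]; ring, hz⟩)
    have ptt : ∀ i (h : V), p i - algebraMap k V (c i) = h →
        (p i : K) = algebraMap k K (c i) + h := by
      intro i h hi
      rw [← hi, ← coe_algebraMap (V := V)]
      push_cast
      ring
    rcases hdom with ⟨t, y, z, h0, h1, h2⟩ | ⟨t, y, z, h1, h2, h0⟩ | ⟨t, y, z, h2, h0, h1⟩
    · have ht : t ≠ 0 := by
        rintro rfl
        obtain ⟨i, hi⟩ := hne
        apply hi
        rw [zero_mul] at h1 h2
        fin_cases i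
        · exact sub_eq_zero.mp h0
        · exact sub_eq_zero.mp h1
        · exact sub_eq_zero.mp h2
      have htr : residue V t = 0 := by rw [← h0]; exact hres 0
      have hp : p = fun i => ![t * 1, t * y, t * z] i + algebraMap k V (c i) := by
        funext i
        fin_cases i
        · simp [← h0]
        · simp [← h1]
        · simp [← h2]
      obtain ⟨⟨r, hr⟩, ⟨r0, hr0⟩, ⟨r1, hr1⟩, ⟨r2, hr2⟩⟩ := sing_expand hFc hs' t 1 y z
      rw [← hp] at hr hr0 hr1 hr2
      rw [hF'] at hr
      have hQ := (mul_eq_zero.mp hr.symm).resolve_left (pow_ne_zero 2 ht)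
      rw [hr1] at e1
      rw [hr2] at e2
      refine node_core (ptt 0 _ h0) (ptt 1 _ h1) (ptt 2 _ h2) (fun h => ht (Subtype.ext h)) e1 e2
        hΔ' ?_ ?_ ?_
      · simp only [map_add, map_mul, map_ofNat, map_one, htr]; ring
      · simp only [map_add, map_mul, map_ofNat, map_one, htr]; ring
      · have := congrArg (residue V) hQ
        simp only [map_add, map_mul, map_pow, map_ofNat, map_one, map_zero, htr] at this
        linear_combination this
    · have ht : t ≠ 0 := by
        rintro rfl
        obtain ⟨i, hi⟩ := hne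
        apply hi
        rw [zero_mul] at h0 h2
        fin_cases i
        · exact sub_eq_zero.mp h0
        · exact sub_eq_zero.mp h1
        · exact sub_eq_zero.mp h2
      have htr : residue V t = 0 := by rw [← h1]; exact hres 1
      have hp : p = fun i => ![t * z, t * 1, t * y] i + algebraMap k V (c i) := by
        funext i
        fin_cases i
        · simp [← h0]
        · simp [← h1]
        · simp [← h2]
      obtain ⟨⟨r, hr⟩, ⟨r0, hr0⟩, ⟨r1, hr1⟩, ⟨r2, hr2⟩⟩ := sing_expand hFc hs' t z 1 y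
      rw [← hp] at hr hr0 hr1 hr2
      rw [hF'] at hr
      have hQ := (mul_eq_zero.mp hr.symm).resolve_left (pow_ne_zero 2 ht)
      rw [hr0] at e0
      rw [hr2] at e2
      refine node_core (a := residue V (algebraMap k V (tay2 F c 1 1)))
        (b := residue V (algebraMap k V (tay2 F c 2 2)))
        (c := residue V (algebraMap k V (tay2 F c 0 0)))
        (d := residue V (algebraMap k V (tay2 F c 1 2)))
        (e' := residue V (algebraMap k V (tay2 F c 0 1)))
        (f := residue V (algebraMap k V (tay2 F c 0 2)))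
        (ptt 1 _ h1) (ptt 2 _ h2) (ptt 0 _ h0) (fun h => ht (Subtype.ext h)) e2 e0
        ?_ ?_ ?_ ?_
      · intro h; apply hΔ'; linear_combination h
      · simp only [map_add, map_mul, map_ofNat, map_one, htr]; ring
      · simp only [map_add, map_mul, map_ofNat, map_one, htr]; ring
      · have := congrArg (residue V) hQ
        simp only [map_add, map_mul, map_pow, map_ofNat, map_one, map_zero, htr] at this
        linear_combination this
    · have ht : t ≠ 0 := by
        rintro rfl
        obtain ⟨i, hi⟩ := hne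
        apply hi
        rw [zero_mul] at h0 h1
        fin_cases i
        · exact sub_eq_zero.mp h0
        · exact sub_eq_zero.mp h1
        · exact sub_eq_zero.mp h2
      have htr : residue V t = 0 := by rw [← h2]; exact hres 2
      have hp : p = fun i => ![t * y, t * z, t * 1] i + algebraMap k V (c i) := by
        funext i
        fin_cases i
        · simp [← h0]
        · simp [← h1]
        · simp [← h2]
      obtain ⟨⟨r, hr⟩, ⟨r0, hr0⟩, ⟨r1, hr1⟩, ⟨r2, hr2⟩⟩ := sing_expand hFc hs' t y z 1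
      rw [← hp] at hr hr0 hr1 hr2
      rw [hF'] at hr
      have hQ := (mul_eq_zero.mp hr.symm).resolve_left (pow_ne_zero 2 ht)
      rw [hr0] at e0
      rw [hr1] at e1
      refine node_core (a := residue V (algebraMap k V (tay2 F c 2 2)))
        (b := residue V (algebraMap k V (tay2 F c 0 0)))
        (c := residue V (algebraMap k V (tay2 F c 1 1)))
        (d := residue V (algebraMap k V (tay2 F c 0 2)))
        (e' := residue V (algebraMap k V (tay2 F c 1 2)))
        (f := residue V (algebraMap k V (tay2 F c 0 1)))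
        (ptt 2 _ h2) (ptt 0 _ h0) (ptt 1 _ h1) (fun h => ht (Subtype.ext h)) e0 e1
        ?_ ?_ ?_ ?_
      · intro h; apply hΔ'; linear_combination h
      · simp only [map_add, map_mul, map_ofNat, map_one, htr]; ring
      · simp only [map_add, map_mul, map_ofNat, map_one, htr]; ring
      · have := congrArg (residue V) hQ
        simp only [map_add, map_mul, map_pow, map_ofNat, map_one, map_zero, htr] at this
        linear_combination this

end Pool.Agent.Helper190_Can
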