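import Pool.Agent.Helper190_Can.CTrans
import Pool.Agent.Helper190_Can.NodeZero

set_option linter.unusedSimpArgs false
set_option linter.unusedVariables false
set_option linter.style.haveILetI false

open MvPolynomial IsLocalRing

noncomputable section

namespace Pool.Agent.Helper190_Can

variable {k K : Type} [Field k] [Field K] [Algebra k K] {V : ValuationSubring K}

lemma mem_of_sq {x : K} (h : x ^ 2 ∈ V) : x ∈ V := by
  rcases V.mem_or_inv_mem x with h1 | h1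
  · exact h1
  · by_cases hx : x = 0
    · rw [hx]; exact V.zero_mem
    · have : x = x ^ 2 * x⁻¹ := by field_simp
      rw [this]
      exact V.mul_mem _ _ h h1

lemma mem_pow {x : K} (h : x ∈ V) (n : ℕ) : x ^ n ∈ V := V.toSubring.pow_mem h n

lemma mem_zpow {x : K} (h : x ∈ V) {n : ℤ} (hn : 0 ≤ n) : x ^ n ∈ V := by
  obtain ⟨m, rfl⟩ := Int.eq_ofNat_of_zero_le hn
  rw [zpow_natCast]
  exact mem_pow h m

lemma mem_zpow' {x : K} (h : x ∈ V) (h' : x⁻¹ ∈ V) (n : ℤ) : x ^ n ∈ V := by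
  rcases le_total 0 n with hn | hn
  · exact mem_zpow h hn
  · have : x ^ n = x⁻¹ ^ (-n) := by rw [inv_zpow, zpow_neg, inv_inv]
    rw [this]
    exact mem_zpow h' (by omega)

lemma mem_natCast (n : ℕ) : (n : K) ∈ V := natCast_mem V.toSubring n

lemma mem_poly {x y : K} (hV : ∀ c : k, algebraMap k K c ∈ V) (hx : x ∈ V) (hy : y ∈ V)
    (p : P2 k) : aeval ![x, y] p ∈ V := by
  induction p using MvPolynomial.induction_on with
  | C a => rw [aeval_C]; exact hV a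
  | add p q hp hq => rw [map_add]; exact V.add_mem _ _ hp hq
  | mul_X p i hp =>
    rw [map_mul, aeval_X]
    refine V.mul_mem _ _ hp ?_
    fin_cases i
    · exact hx
    · exact hy

/-- valid exponents -/
structure Valid (n : ℕ) (a m : ℤ) (d : ℕ) : Prop where
  d1 : d ≤ 1
  m0 : 0 ≤ m
  m1 : m ≤ 2 * n - 4 * d
  i0 : 0 ≤ 2 * a - n - m + d
  i1 : 2 * a - n - m + d ≤ 2 * n - 4 * d

/-- the conclusion: all monomials of the canonical ring are regular at `V` -/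
def Goal (V : ValuationSubring K) (e : ⋀[K]^2 Ω[K⁄k]) (U w ζ : K) : Prop :=
  ∃ u ∈ V, ∃ v ∈ V, ∃ j : K, e = j • dd k u v ∧ ∀ (n : ℕ) (a m : ℤ) (d : ℕ), Valid n a m d →
    U ^ a * w ^ m * ζ ^ d * j ^ n ∈ V

variable {U w ζ : K}

lemma goal_of {e e' : ⋀[K]^2 Ω[K⁄k]} {c : K} (hc : c ≠ 0) (he : e' = c • e) {u v j : K}
    (hu : u ∈ V) (hv : v ∈ V) (h : e' = j • dd k u v)
    (hm : ∀ (n : ℕ) (a m : ℤ) (d : ℕ), Valid n a m d →
      U ^ a * w ^ m * ζ ^ d * c⁻¹ ^ n * j ^ n ∈ V) : Goal V e U w ζ := by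
  refine ⟨u, hu, v, hv, c⁻¹ * j, ?_, ?_⟩
  · rw [mul_smul, ← h, he, smul_smul, inv_mul_cancel₀ hc, one_smul]
  · intro n a m d hv
    rw [mul_pow, ← mul_assoc]
    exact hm n a m d hv

/-- chart polynomials in three variables -/
lemma aFA (x y z : K) : aeval ![x, y, z] (FA k) = z ^ 2 + aeval ![x, y] (GA k) := by
  rw [aGA]
  simp [FA, m3]
  ring

lemma aFA' (x y z : K) : aeval ![x, y, z] (pderiv 0 (FA k)) = aeval ![x, y] (pderiv 0 (GA k)) ∧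
    aeval ![x, y, z] (pderiv 1 (FA k)) = aeval ![x, y] (pderiv 1 (GA k)) ∧
    aeval ![x, y, z] (pderiv 2 (FA k)) = 2 * z := by
  rw [aGA0, aGA1]
  refine ⟨?_, ?_, ?_⟩
  · simp [FA, m3, pderiv_mul, pderiv_pow, pderiv_X]; ring
  · simp [FA, m3, pderiv_mul, pderiv_pow, pderiv_X]; ring
  · simp [FA, m3, pderiv_mul, pderiv_pow, pderiv_X]

lemma aFB (x y z : K) : aeval ![x, y, z] (FB k) = z ^ 2 + aeval ![x, y] (GB k) := by
  rw [aGB]
  simp [FB, m3]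
  ring

lemma aFB' (x y z : K) : aeval ![x, y, z] (pderiv 0 (FB k)) = aeval ![x, y] (pderiv 0 (GB k)) ∧
    aeval ![x, y, z] (pderiv 1 (FB k)) = aeval ![x, y] (pderiv 1 (GB k)) ∧
    aeval ![x, y, z] (pderiv 2 (FB k)) = 2 * z := by
  rw [aGB0, aGB1]
  refine ⟨?_, ?_, ?_⟩
  · simp [FB, m3, pderiv_mul, pderiv_pow, pderiv_X]; ring
  · simp [FB, m3, pderiv_mul, pderiv_pow, pderiv_X]; ring
  · simp [FB, m3, pderiv_mul, pderiv_pow, pderiv_X]

/-- regularity over the torus charts -/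
lemma reg_torus [IsAlgClosed k] {F : MvPolynomial (Fin 3) k} {G : P2 k}
    (hF : ∀ x y z : K, aeval ![x, y, z] F = z ^ 2 + aeval ![x, y] G)
    (hF' : ∀ x y z : K, aeval ![x, y, z] (pderiv 0 F) = aeval ![x, y] (pderiv 0 G) ∧
      aeval ![x, y, z] (pderiv 1 F) = aeval ![x, y] (pderiv 1 G) ∧
      aeval ![x, y, z] (pderiv 2 F) = 2 * z)
    (hn : ∀ c : Fin 3 → k, c 0 ≠ 0 → SmoothOrNode F c) (hV : ∀ c : k, algebraMap k K c ∈ V)
    (hU : U ∈ V) (hU' : U⁻¹ ∈ V) (hw : w ∈ V) (hsq : ζ ^ 2 + aeval ![U, w] G = 0)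
    (hUk : ∀ c : k, U ≠ algebraMap k K c) {e : ⋀[K]^2 Ω[K⁄k]} (hB : ChartB G U w ζ e) :
    ζ ∈ V ∧ ∃ u ∈ V, ∃ v ∈ V, ∃ j ∈ V, e = j • dd k u v := by
  have hz : ζ ∈ V := by
    apply mem_of_sq
    rw [eq_neg_of_add_eq_zero_left hsq]
    exact V.neg_mem _ (mem_poly hV hU hw G)
  obtain ⟨f0, f1, f2⟩ := hF' U w ζ
  refine ⟨hz, reg_chart hn V hV (p := ![U, w, ζ]) ?_ hU' hUk ?_ ?_ ?_ ?_⟩
  · intro i
    fin_cases i
    · exact hU
    · exact hw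
    · exact hz
  · rw [hF]; exact hsq
  · rw [f0]; exact hB.E0
  · rw [f1]; exact hB.E1
  · rw [f2]; exact hB.E2

/-- regularity at the corners -/
lemma reg_corner {G : P2 k} (hsq : ζ ^ 2 + aeval ![U, w] G = 0) (hU0 : U ≠ 0) (hz0 : ζ ≠ 0)
    {e : ⋀[K]^2 Ω[K⁄k]} (E0 : aeval ![U, w] (pderiv 0 G) • e = dd k w ζ)
    {x y b g : V} (hx : (x : K) = U) (hy : (y : K) = U * w ^ 2)
    (hb : (b : K) * U = aeval ![U, w] G) (hb1 : residue V b = 1)
    (hg : (g : K) = aeval ![U, w] (pderiv 0 G)) (hg1 : residue V g = 1) :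
    ∃ u ∈ V, ∃ v ∈ V, ∃ j : K, e = j • dd k u v ∧ ∀ (n i m : ℕ) (a : ℤ) (d : ℕ),
      2 * a = n + i + m - d → U ^ a * w ^ (m : ℤ) * ζ ^ d * j ^ n ∈ V := by
  have hone : (1 : ResidueField V) ≠ 0 := one_ne_zero
  have hbi := inv_mem_of_residue (hb1 ▸ hone)
  have hgi := inv_mem_of_residue (hg1 ▸ hone)
  have hb0 := coe_ne_zero_of_residue (hb1 ▸ hone)
  have hg0 := coe_ne_zero_of_residue (hg1 ▸ hone)
  have hz2 : ζ ^ 2 = -((b : K) * U) := by rw [hb]; exact eq_neg_of_add_eq_zero_left hsq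
  have hz : ζ ∈ V := by
    apply mem_of_sq
    rw [hz2, ← hx]
    exact V.neg_mem _ (V.mul_mem _ _ b.2 x.2)
  have hwz : w * ζ ∈ V := by
    apply mem_of_sq
    have : (w * ζ) ^ 2 = -((b : K) * (y : K)) := by rw [hy, mul_pow, hz2]; ring
    rw [this]
    exact V.neg_mem _ (V.mul_mem _ _ b.2 y.2)
  refine ⟨ζ, hz, w * ζ, hwz, -(ζ * (g : K))⁻¹, ?_, ?_⟩
  · have h1 : dd k ζ (w * ζ) = (w * 0 + ζ * (-(g : K))) • e := by
      apply sc_mul_right (e := e)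
      · exact sc_swap (by rw [← E0, hg])
      · exact sc_self ζ
    rw [h1, smul_smul]
    have : -(ζ * (g : K))⁻¹ * (w * 0 + ζ * -(g : K)) = 1 := by field_simp; ring
    rw [this, one_smul]
  · intro n i m a d h2a
    have h3 : U ^ a * w ^ (m : ℤ) * ζ ^ d * (-(ζ * (g : K))⁻¹) ^ n =
        (U ^ a * w ^ (m : ℤ) * ζ ^ d * (ζ ^ n)⁻¹) * ((-1) ^ n * ((g : K)⁻¹) ^ n) := by
      rw [mul_inv, neg_eq_neg_one_mul, mul_pow, mul_pow, inv_pow]
      ring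
    rw [h3]
    have hm1 : (-1 : K) ∈ V := V.neg_mem _ V.one_mem
    refine V.mul_mem _ _ ?_ (V.mul_mem _ _ (mem_pow hm1 n) (mem_pow hgi n))
    apply mem_of_sq
    have h4 : (U ^ a * w ^ (m : ℤ) * ζ ^ d * (ζ ^ n)⁻¹) ^ 2 =
        (-1) ^ d * ((-1) ^ n) * ((b : K) ^ d * ((b : K)⁻¹) ^ n) * (U ^ i * (U * w ^ 2) ^ m) := by
      have e1 : (U ^ a) ^ 2 = U ^ n * U ^ i * U ^ m * (U ^ d)⁻¹ := by
        rw [← zpow_natCast (U ^ a) 2, ← zpow_mul, mul_comm a, Nat.cast_ofNat, h2a, zpow_sub₀ hU0,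
          zpow_add₀ hU0, zpow_add₀ hU0, zpow_natCast, zpow_natCast, zpow_natCast, zpow_natCast,
          div_eq_mul_inv]
      have e2 : (ζ ^ d) ^ 2 = (-1) ^ d * (b : K) ^ d * U ^ d := by
        rw [← pow_mul, mul_comm d, pow_mul, hz2, neg_eq_neg_one_mul, mul_pow, mul_pow]; ring
      have e3 : (ζ ^ n) ^ 2 = (-1) ^ n * (b : K) ^ n * U ^ n := by
        rw [← pow_mul, mul_comm n, pow_mul, hz2, neg_eq_neg_one_mul, mul_pow, mul_pow]; ring
      have e4 : ((-1 : K) ^ n)⁻¹ = (-1) ^ n := by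
        rw [← inv_pow, inv_neg_one]
      rw [mul_pow, mul_pow, mul_pow, inv_pow, e1, e2, e3, zpow_natCast, mul_inv, mul_inv, e4,
        inv_pow (b : K) n]
      have hUn : U ^ n ≠ 0 := pow_ne_zero _ hU0
      have hUd : U ^ d ≠ 0 := pow_ne_zero _ hU0
      have hbn : (b : K) ^ n ≠ 0 := pow_ne_zero _ hb0
      field_simp
      try ring
    rw [h4, ← hy, ← hx]
    refine V.mul_mem _ _ (V.mul_mem _ _ (V.mul_mem _ _ (mem_pow hm1 d) (mem_pow hm1 n))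
      (V.mul_mem _ _ (mem_pow b.2 d) (mem_pow hbi n))) (V.mul_mem _ _ (mem_pow x.2 i)
      (mem_pow y.2 m))

end Pool.Agent.Helper190_Can
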