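import Pool.Agent.Helper190_Can.CReg

set_option linter.unusedSimpArgs false
set_option linter.unusedVariables false
set_option linter.style.haveILetI false

open MvPolynomial IsLocalRing

noncomputable section

namespace Pool.Agent.Helper190_Can

variable {k K : Type} [Field k] [Field K] [Algebra k K] {V : ValuationSubring K} {U w ζ : K}

lemma torus_goal {e : ⋀[K]^2 Ω[K⁄k]} (hU : U ∈ V) (hU' : U⁻¹ ∈ V) (hw : w ∈ V)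
    (h : ζ ∈ V ∧ ∃ u ∈ V, ∃ v ∈ V, ∃ j ∈ V, e = j • dd k u v) : Goal V e U w ζ := by
  obtain ⟨hz, u, hu, v, hv, j, hj, h⟩ := h
  refine ⟨u, hu, v, hv, j, h, ?_⟩
  intro n a m d hval
  exact V.mul_mem _ _ (V.mul_mem _ _ (V.mul_mem _ _ (mem_zpow' hU hU' a)
    (mem_zpow hw hval.m0)) (mem_pow hz d)) (mem_pow hj n)

lemma corner_goal {e : ⋀[K]^2 Ω[K⁄k]} (h : ∃ u ∈ V, ∃ v ∈ V, ∃ j : K, e = j • dd k u v ∧
    ∀ (n i m : ℕ) (a : ℤ) (d : ℕ), 2 * a = n + i + m - d →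
      U ^ a * w ^ (m : ℤ) * ζ ^ d * j ^ n ∈ V) : Goal V e U w ζ := by
  obtain ⟨u, hu, v, hv, j, h, hm⟩ := h
  refine ⟨u, hu, v, hv, j, h, ?_⟩
  intro n a m d hval
  obtain ⟨m', rfl⟩ := Int.eq_ofNat_of_zero_le hval.m0
  obtain ⟨i, hi⟩ := Int.eq_ofNat_of_zero_le hval.i0
  exact hm n i m' a d (by omega)

lemma transfer {e e' : ⋀[K]^2 Ω[K⁄k]} {U' w' ζ' c s : K} (hc : c ≠ 0) (he : e' = c • e)
    (hs : s = 1 ∨ s = -1) (hg : Goal V e' U' w' ζ')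
    (hm : ∀ (n : ℕ) (a m : ℤ) (d : ℕ), Valid n a m d → ∃ a' m' : ℤ, Valid n a' m' d ∧
      U ^ a * w ^ m * ζ ^ d * c⁻¹ ^ n = s ^ n * (U' ^ a' * w' ^ m' * ζ' ^ d)) :
    Goal V e U w ζ := by
  obtain ⟨u, hu, v, hv, j, h, hmon⟩ := hg
  refine goal_of hc he hu hv h ?_
  intro n a m d hval
  obtain ⟨a', m', hval', heq⟩ := hm n a m d hval
  rw [heq, mul_assoc]
  refine V.mul_mem _ _ (mem_pow ?_ n) (hmon n a' m' d hval')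
  rcases hs with rfl | rfl
  · exact V.one_mem
  · exact V.neg_mem _ V.one_mem

lemma transfer_swap {e : ⋀[K]^2 Ω[K⁄k]} (hU : U ≠ 0) (hw : w ≠ 0)
    (hg : Goal V ((-w⁻¹) • e) (U * w ^ 2) w⁻¹ (w * ζ)) : Goal V e U w ζ := by
  refine transfer (c := -w⁻¹) (s := -1) (neg_ne_zero.mpr (inv_ne_zero hw)) rfl (Or.inr rfl) hg ?_
  intro n a m d hv
  obtain ⟨h1, h2, h3, h4, h5⟩ := hv
  refine ⟨a, 2 * a - m - n + d, ⟨h1, by omega, by omega, by omega, by omega⟩, ?_⟩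
  have e1 : (-w⁻¹)⁻¹ ^ n = (-1) ^ n * w ^ (n : ℤ) := by
    rw [inv_neg, inv_inv, neg_eq_neg_one_mul, mul_pow, zpow_natCast]
  have e2 : (U * w ^ 2) ^ a = U ^ a * w ^ (2 * a) := by
    rw [mul_zpow, ← zpow_natCast w 2, ← zpow_mul]; rfl
  have e3 : w⁻¹ ^ (2 * a - m - n + d) = w ^ (-(2 * a - m - n + d)) := by
    rw [inv_zpow, ← zpow_neg]
  have e4 : (w * ζ) ^ d = w ^ (d : ℤ) * ζ ^ d := by rw [mul_pow, zpow_natCast]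
  have e5 : w ^ (2 * a) * w ^ (-(2 * a - m - n + d)) * w ^ (d : ℤ) = w ^ m * w ^ (n : ℤ) := by
    rw [← zpow_add₀ hw, ← zpow_add₀ hw, ← zpow_add₀ hw]; congr 1; ring
  rw [e1, e2, e3, e4]
  linear_combination (-(-1) ^ n * U ^ a * ζ ^ d) * e5

lemma transfer_inv {e : ⋀[K]^2 Ω[K⁄k]} (hU : U ≠ 0) (hw : w ≠ 0)
    (hg : Goal V ((U ^ 3 * w ^ 2) • e) U⁻¹ w⁻¹ (ζ * (U ^ 5 * w ^ 4)⁻¹)) : Goal V e U w ζ := by
  refine transfer (c := U ^ 3 * w ^ 2) (s := 1) (mul_ne_zero (pow_ne_zero _ hU)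
    (pow_ne_zero _ hw)) rfl (Or.inl rfl) hg ?_
  intro n a m d hv
  obtain ⟨h1, h2, h3, h4, h5⟩ := hv
  refine ⟨-(a - 3 * n + 5 * d), 2 * n - 4 * d - m, ⟨h1, by omega, by omega, by omega, by omega⟩, ?_⟩
  have e1 : (U ^ 3 * w ^ 2)⁻¹ ^ n = U ^ (-(3 * n) : ℤ) * w ^ (-(2 * n) : ℤ) := by
    rw [inv_pow, mul_pow, mul_inv, ← pow_mul, ← pow_mul, zpow_neg, zpow_neg]
    norm_cast
  have e2 : U⁻¹ ^ (-(a - 3 * n + 5 * d)) = U ^ (a - 3 * n + 5 * d) := by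
    rw [inv_zpow, ← zpow_neg, neg_neg]
  have e3 : w⁻¹ ^ (2 * (n : ℤ) - 4 * d - m) = w ^ (-(2 * (n : ℤ) - 4 * d - m)) := by
    rw [inv_zpow, ← zpow_neg]
  have e4 : (ζ * (U ^ 5 * w ^ 4)⁻¹) ^ d = ζ ^ d * (U ^ (-(5 * d) : ℤ) * w ^ (-(4 * d) : ℤ)) := by
    rw [mul_pow, inv_pow, mul_pow, mul_inv, ← pow_mul, ← pow_mul, zpow_neg, zpow_neg]
    norm_cast
  have e5 : U ^ (a - 3 * n + 5 * d) * U ^ (-(5 * d) : ℤ) = U ^ a * U ^ (-(3 * n) : ℤ) := by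
    rw [← zpow_add₀ hU, ← zpow_add₀ hU]; congr 1; ring
  have e6 : w ^ (-(2 * (n : ℤ) - 4 * d - m)) * w ^ (-(4 * d) : ℤ) = w ^ m * w ^ (-(2 * n) : ℤ) := by
    rw [← zpow_add₀ hw, ← zpow_add₀ hw]; congr 1; ring
  rw [e1, e2, e3, e4, one_pow, one_mul]
  linear_combination (-w ^ (-(2 * (n : ℤ) - 4 * d - m)) * w ^ (-(4 * d) : ℤ) * ζ ^ d) * e5 -
    (U ^ a * U ^ (-(3 * n) : ℤ) * ζ ^ d) * e6

lemma transfer5 {e : ⋀[K]^2 Ω[K⁄k]} (hU : U ≠ 0) (hw : w ≠ 0)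
    (hg : Goal V ((-(U * w ^ 2)) • e) U (U * w)⁻¹ (ζ * (U ^ 2 * w ^ 4)⁻¹)) : Goal V e U w ζ := by
  refine transfer (c := -(U * w ^ 2)) (s := -1) (neg_ne_zero.mpr (mul_ne_zero hU
    (pow_ne_zero _ hw))) rfl (Or.inr rfl) hg ?_
  intro n a m d hv
  obtain ⟨h1, h2, h3, h4, h5⟩ := hv
  refine ⟨a + n - m - 2 * d, 2 * n - 4 * d - m, ⟨h1, by omega, by omega, by omega, by omega⟩, ?_⟩
  have e1 : (-(U * w ^ 2))⁻¹ ^ n = (-1) ^ n * (U ^ (-n : ℤ) * w ^ (-(2 * n) : ℤ)) := by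
    rw [inv_neg, neg_eq_neg_one_mul, mul_pow, inv_pow, mul_pow, mul_inv, ← pow_mul, zpow_neg,
      zpow_neg]
    norm_cast
  have e3 : (U * w)⁻¹ ^ (2 * (n : ℤ) - 4 * d - m) = U ^ (-(2 * (n : ℤ) - 4 * d - m)) *
      w ^ (-(2 * (n : ℤ) - 4 * d - m)) := by
    rw [inv_zpow, ← zpow_neg, mul_zpow]
  have e4 : (ζ * (U ^ 2 * w ^ 4)⁻¹) ^ d = ζ ^ d * (U ^ (-(2 * d) : ℤ) * w ^ (-(4 * d) : ℤ)) := by
    rw [mul_pow, inv_pow, mul_pow, mul_inv, ← pow_mul, ← pow_mul, zpow_neg, zpow_neg]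
    norm_cast
  have e5 : U ^ (a + n - m - 2 * d) * U ^ (-(2 * (n : ℤ) - 4 * d - m)) * U ^ (-(2 * d) : ℤ) =
      U ^ a * U ^ (-n : ℤ) := by
    rw [← zpow_add₀ hU, ← zpow_add₀ hU, ← zpow_add₀ hU]; congr 1; ring
  have e6 : w ^ (-(2 * (n : ℤ) - 4 * d - m)) * w ^ (-(4 * d) : ℤ) = w ^ m * w ^ (-(2 * n) : ℤ) := by
    rw [← zpow_add₀ hw, ← zpow_add₀ hw]; congr 1; ring
  rw [e1, e3, e4]
  linear_combination (-(-1) ^ n * w ^ (-(2 * (n : ℤ) - 4 * d - m)) * w ^ (-(4 * d) : ℤ) *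
    ζ ^ d) * e5 - ((-1) ^ n * U ^ a * U ^ (-n : ℤ) * ζ ^ d) * e6

lemma transfer6 {e : ⋀[K]^2 Ω[K⁄k]} (hU : U ≠ 0) (hw : w ≠ 0)
    (hg : Goal V ((-(U ^ 2)) • e) U⁻¹ (U * w) (ζ * (U ^ 3)⁻¹)) : Goal V e U w ζ := by
  refine transfer (c := -(U ^ 2)) (s := -1) (neg_ne_zero.mpr (pow_ne_zero _ hU)) rfl
    (Or.inr rfl) hg ?_
  intro n a m d hv
  obtain ⟨h1, h2, h3, h4, h5⟩ := hv
  refine ⟨-a + 2 * n + m - 3 * d, m, ⟨h1, by omega, by omega, by omega, by omega⟩, ?_⟩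
  have e1 : (-(U ^ 2))⁻¹ ^ n = (-1) ^ n * U ^ (-(2 * n) : ℤ) := by
    rw [inv_neg, neg_eq_neg_one_mul, mul_pow, inv_pow, ← pow_mul, zpow_neg]
    norm_cast
  have e2 : U⁻¹ ^ (-a + 2 * n + m - 3 * d) = U ^ (-(-a + 2 * n + m - 3 * d)) := by
    rw [inv_zpow, ← zpow_neg]
  have e3 : (U * w) ^ m = U ^ m * w ^ m := mul_zpow _ _ _
  have e4 : (ζ * (U ^ 3)⁻¹) ^ d = ζ ^ d * U ^ (-(3 * d) : ℤ) := by
    rw [mul_pow, inv_pow, ← pow_mul, zpow_neg]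
    norm_cast
  have e5 : U ^ (-(-a + 2 * n + m - 3 * d)) * U ^ m * U ^ (-(3 * d) : ℤ) =
      U ^ a * U ^ (-(2 * n) : ℤ) := by
    rw [← zpow_add₀ hU, ← zpow_add₀ hU, ← zpow_add₀ hU]; congr 1; ring
  rw [e1, e2, e3, e4]
  linear_combination (-(-1) ^ n * w ^ m * ζ ^ d) * e5

end Pool.Agent.Helper190_Can
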