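import Pool.Agent.Helper190_Can.CReg2

set_option linter.unusedSimpArgs false
set_option linter.unusedVariables false
set_option linter.style.haveILetI false

open MvPolynomial IsLocalRing

noncomputable section

namespace Pool.Agent.Helper190_Can

variable {k K : Type} [Field k] [Field K] [Algebra k K] {V : ValuationSubring K} {U w ζ : K}

lemma residue_zero {x : K} (hx : x ∈ V) (hx' : x⁻¹ ∉ V) : residue V ⟨x, hx⟩ = 0 := by
  by_contra h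
  exact hx' (inv_mem_of_residue h)

lemma res_T {x y t : V} (h : t ^ 2 = x * y) (hx : residue V x = 0) : residue V t = 0 := by
  have h1 := congrArg (residue V) h
  rw [map_pow, map_mul, hx, zero_mul] at h1
  exact pow_eq_zero_iff two_ne_zero |>.mp h1

/-- the three basic monomials at a corner -/
lemma basic (hX : U ∈ V) (hY : U * w ^ 2 ∈ V) : U * w ∈ V := by
  apply mem_of_sq
  have : (U * w) ^ 2 = U * (U * w ^ 2) := by ring
  rw [this]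
  exact V.mul_mem _ _ hX hY

lemma cornerA {e : ⋀[K]^2 Ω[K⁄k]} (hsq : ζ ^ 2 + aeval ![U, w] (GA k) = 0) (hU : U ≠ 0)
    (hz : ζ ≠ 0) (E0 : aeval ![U, w] (pderiv 0 (GA k)) • e = dd k w ζ) (hX : U ∈ V)
    (hX' : U⁻¹ ∉ V) (hY : U * w ^ 2 ∈ V) (hY' : (U * w ^ 2)⁻¹ ∉ V) : Goal V e U w ζ := by
  have hT := basic hX hY
  let x : V := ⟨U, hX⟩
  let y : V := ⟨U * w ^ 2, hY⟩
  let t : V := ⟨U * w, hT⟩
  have rx : residue V x = 0 := residue_zero hX hX'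
  have ry : residue V y = 0 := residue_zero hY hY'
  have rt : residue V t = 0 := res_T (x := x) (y := y) (Subtype.ext (by
    change (U * w) ^ 2 = U * (U * w ^ 2); ring)) rx
  refine corner_goal (reg_corner hsq hU hz E0 (x := x) (y := y)
    (b := 1 + x ^ 4 + y ^ 4 + x ^ 4 * y ^ 4 + x * t + t * y + t ^ 7)
    (g := 1 + 5 * x ^ 4 + 5 * y ^ 4 + 9 * x ^ 4 * y ^ 4 + 3 * x * t + 3 * t * y + 8 * t ^ 7)
    rfl rfl ?_ ?_ ?_ ?_)
  · rw [aGA]
    change (1 + U ^ 4 + (U * w ^ 2) ^ 4 + U ^ 4 * (U * w ^ 2) ^ 4 + U * (U * w) +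
      (U * w) * (U * w ^ 2) + (U * w) ^ 7) * U = _
    ring
  · simp only [map_add, map_mul, map_pow, map_one, rx, ry, rt]; ring
  · rw [aGA0]
    change 1 + 5 * U ^ 4 + 5 * (U * w ^ 2) ^ 4 + 9 * U ^ 4 * (U * w ^ 2) ^ 4 + 3 * U * (U * w) +
      3 * (U * w) * (U * w ^ 2) + 8 * (U * w) ^ 7 = _
    ring
  · simp only [map_add, map_mul, map_pow, map_one, map_ofNat, rx, ry, rt]; ring

lemma cornerB {e : ⋀[K]^2 Ω[K⁄k]} (hsq : ζ ^ 2 + aeval ![U, w] (GB k) = 0) (hU : U ≠ 0)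
    (hz : ζ ≠ 0) (E0 : aeval ![U, w] (pderiv 0 (GB k)) • e = dd k w ζ) (hX : U ∈ V)
    (hX' : U⁻¹ ∉ V) (hY : U * w ^ 2 ∈ V) (hY' : (U * w ^ 2)⁻¹ ∉ V) : Goal V e U w ζ := by
  have hT := basic hX hY
  let x : V := ⟨U, hX⟩
  let y : V := ⟨U * w ^ 2, hY⟩
  let t : V := ⟨U * w, hT⟩
  have rx : residue V x = 0 := residue_zero hX hX'
  have ry : residue V y = 0 := residue_zero hY hY'
  have rt : residue V t = 0 := res_T (x := x) (y := y) (Subtype.ext (by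
    change (U * w) ^ 2 = U * (U * w ^ 2); ring)) rx
  refine corner_goal (reg_corner hsq hU hz E0 (x := x) (y := y)
    (b := 1 + x ^ 4 + y ^ 4 + x ^ 4 * y ^ 4 + t ^ 5 * y + t ^ 5 * x + t)
    (g := 1 + 5 * x ^ 4 + 5 * y ^ 4 + 9 * x ^ 4 * y ^ 4 + 7 * t ^ 5 * y + 7 * t ^ 5 * x + 2 * t)
    rfl rfl ?_ ?_ ?_ ?_)
  · rw [aGB]
    change (1 + U ^ 4 + (U * w ^ 2) ^ 4 + U ^ 4 * (U * w ^ 2) ^ 4 + (U * w) ^ 5 * (U * w ^ 2) +
      (U * w) ^ 5 * U + U * w) * U = _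
    ring
  · simp only [map_add, map_mul, map_pow, map_one, rx, ry, rt]; ring
  · rw [aGB0]
    change 1 + 5 * U ^ 4 + 5 * (U * w ^ 2) ^ 4 + 9 * U ^ 4 * (U * w ^ 2) ^ 4 +
      7 * (U * w) ^ 5 * (U * w ^ 2) + 7 * (U * w) ^ 5 * U + 2 * (U * w) = _
    ring
  · simp only [map_add, map_mul, map_pow, map_one, map_ofNat, rx, ry, rt]; ring

lemma cornerC {e : ⋀[K]^2 Ω[K⁄k]} (hsq : ζ ^ 2 + aeval ![U, w] (G5 k) = 0) (hU : U ≠ 0)
    (hz : ζ ≠ 0) (E0 : aeval ![U, w] (pderiv 0 (G5 k)) • e = dd k w ζ) (hX : U ∈ V)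
    (hX' : U⁻¹ ∉ V) (hY : U * w ^ 2 ∈ V) (hY' : (U * w ^ 2)⁻¹ ∉ V) : Goal V e U w ζ := by
  have hT := basic hX hY
  let x : V := ⟨U, hX⟩
  let y : V := ⟨U * w ^ 2, hY⟩
  let t : V := ⟨U * w, hT⟩
  have rx : residue V x = 0 := residue_zero hX hX'
  have ry : residue V y = 0 := residue_zero hY hY'
  have rt : residue V t = 0 := res_T (x := x) (y := y) (Subtype.ext (by
    change (U * w) ^ 2 = U * (U * w ^ 2); ring)) rx
  refine corner_goal (reg_corner hsq hU hz E0 (x := x) (y := y)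
    (b := 1 + x ^ 4 + y ^ 4 + x ^ 4 * y ^ 4 + t ^ 3 * y ^ 2 + t * y ^ 2 + x ^ 3 * t)
    (g := 1 + 5 * x ^ 4 + 5 * y ^ 4 + 9 * x ^ 4 * y ^ 4 + 6 * t ^ 3 * y ^ 2 + 4 * t * y ^ 2 +
      5 * x ^ 3 * t) rfl rfl ?_ ?_ ?_ ?_)
  · rw [aG5]
    change (1 + U ^ 4 + (U * w ^ 2) ^ 4 + U ^ 4 * (U * w ^ 2) ^ 4 + (U * w) ^ 3 * (U * w ^ 2) ^ 2 +
      (U * w) * (U * w ^ 2) ^ 2 + U ^ 3 * (U * w)) * U = _
    ring
  · simp only [map_add, map_mul, map_pow, map_one, rx, ry, rt]; ring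
  · rw [aG50]
    change 1 + 5 * U ^ 4 + 5 * (U * w ^ 2) ^ 4 + 9 * U ^ 4 * (U * w ^ 2) ^ 4 +
      6 * (U * w) ^ 3 * (U * w ^ 2) ^ 2 + 4 * (U * w) * (U * w ^ 2) ^ 2 +
      5 * U ^ 3 * (U * w) = _
    ring
  · simp only [map_add, map_mul, map_pow, map_one, map_ofNat, rx, ry, rt]; ring

lemma cornerD {e : ⋀[K]^2 Ω[K⁄k]} (hsq : ζ ^ 2 + aeval ![U, w] (G6 k) = 0) (hU : U ≠ 0)
    (hz : ζ ≠ 0) (E0 : aeval ![U, w] (pderiv 0 (G6 k)) • e = dd k w ζ) (hX : U ∈ V)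
    (hX' : U⁻¹ ∉ V) (hY : U * w ^ 2 ∈ V) (hY' : (U * w ^ 2)⁻¹ ∉ V) : Goal V e U w ζ := by
  have hT := basic hX hY
  let x : V := ⟨U, hX⟩
  let y : V := ⟨U * w ^ 2, hY⟩
  let t : V := ⟨U * w, hT⟩
  have rx : residue V x = 0 := residue_zero hX hX'
  have ry : residue V y = 0 := residue_zero hY hY'
  have rt : residue V t = 0 := res_T (x := x) (y := y) (Subtype.ext (by
    change (U * w) ^ 2 = U * (U * w ^ 2); ring)) rx
  refine corner_goal (reg_corner hsq hU hz E0 (x := x) (y := y)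
    (b := 1 + x ^ 4 + y ^ 4 + x ^ 4 * y ^ 4 + x ^ 2 * t + x ^ 2 * t ^ 3 + t * y ^ 3)
    (g := 1 + 5 * x ^ 4 + 5 * y ^ 4 + 9 * x ^ 4 * y ^ 4 + 4 * x ^ 2 * t + 6 * x ^ 2 * t ^ 3 +
      5 * t * y ^ 3) rfl rfl ?_ ?_ ?_ ?_)
  · rw [aG6]
    change (1 + U ^ 4 + (U * w ^ 2) ^ 4 + U ^ 4 * (U * w ^ 2) ^ 4 + U ^ 2 * (U * w) +
      U ^ 2 * (U * w) ^ 3 + (U * w) * (U * w ^ 2) ^ 3) * U = _
    ring
  · simp only [map_add, map_mul, map_pow, map_one, rx, ry, rt]; ring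
  · rw [aG60]
    change 1 + 5 * U ^ 4 + 5 * (U * w ^ 2) ^ 4 + 9 * U ^ 4 * (U * w ^ 2) ^ 4 +
      4 * U ^ 2 * (U * w) + 6 * U ^ 2 * (U * w) ^ 3 + 5 * (U * w) * (U * w ^ 2) ^ 3 = _
    ring
  · simp only [map_add, map_mul, map_pow, map_one, map_ofNat, rx, ry, rt]; ring

/-- swap identities -/
lemma swapA_id (hw : w ≠ 0) : aeval ![U * w ^ 2, w⁻¹] (GA k) = w ^ 2 * aeval ![U, w] (GA k) ∧
    aeval ![U * w ^ 2, w⁻¹] (pderiv 0 (GA k)) = aeval ![U, w] (pderiv 0 (GA k)) := by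
  constructor
  · rw [aGA, aGA]; field_simp; ring
  · rw [aGA0, aGA0]; field_simp; ring

lemma swapB_id (hw : w ≠ 0) : aeval ![U * w ^ 2, w⁻¹] (GB k) = w ^ 2 * aeval ![U, w] (GB k) ∧
    aeval ![U * w ^ 2, w⁻¹] (pderiv 0 (GB k)) = aeval ![U, w] (pderiv 0 (GB k)) := by
  constructor
  · rw [aGB, aGB]; field_simp; ring
  · rw [aGB0, aGB0]; field_simp; ring

/-- regularity at all valuation rings -/
theorem goal_all [IsAlgClosed k] (hchar : CharZero k ∨ CharP k 2) {e : ⋀[K]^2 Ω[K⁄k]}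
    (hB : ChartB (GA k) U w ζ e) (hsq : ζ ^ 2 + aeval ![U, w] (GA k) = 0) (hU : U ≠ 0)
    (hw : w ≠ 0) (hz : ζ ≠ 0) (hUk : ∀ c : k, U ≠ algebraMap k K c)
    (hYk : ∀ c : k, U * w ^ 2 ≠ algebraMap k K c)
    (h0 : aeval ![U, w] (pderiv 0 (GA k)) ≠ 0) (h0' : aeval ![U⁻¹, w⁻¹] (pderiv 0 (GB k)) ≠ 0)
    (V : ValuationSubring K) (hV : ∀ c : k, algebraMap k K c ∈ V) : Goal V e U w ζ := by
  have hinvk : ∀ x : K, (∀ c : k, x ≠ algebraMap k K c) → ∀ c : k, x⁻¹ ≠ algebraMap k K c := by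
    intro x hx c h
    apply hx c⁻¹
    rw [map_inv₀, ← h, inv_inv]
  have hsq3 := sq_inv hU hw hsq
  have hB3 := invB hB hU hw hz hsq h0'
  have hU3 : U⁻¹ ≠ 0 := inv_ne_zero hU
  have hw3 : w⁻¹ ≠ 0 := inv_ne_zero hw
  have hz3 : ζ * (U ^ 5 * w ^ 4)⁻¹ ≠ 0 :=
    mul_ne_zero hz (inv_ne_zero (mul_ne_zero (pow_ne_zero _ hU) (pow_ne_zero _ hw)))
  have hYi : U⁻¹ * w⁻¹ ^ 2 = (U * w ^ 2)⁻¹ := by rw [mul_inv, inv_pow]
  by_cases hXu : U ∈ V ∧ U⁻¹ ∈ V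
  · obtain ⟨hX, hX'⟩ := hXu
    rcases V.mem_or_inv_mem (U * w ^ 2) with hY | hY
    · -- chart 1
      have hT := basic hX hY
      have hwV : w ∈ V := by
        have : w = U⁻¹ * (U * w) := by field_simp
        rw [this]; exact V.mul_mem _ _ hX' hT
      exact torus_goal hX hX' hwV (reg_torus aFA aFA' (node_FA hchar) hV hX hX' hwV hsq hUk hB)
    · -- chart 3
      apply transfer_inv hU hw
      have hY3 : U⁻¹ * w⁻¹ ^ 2 ∈ V := by rw [hYi]; exact hY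
      have hX3 : U⁻¹⁻¹ ∈ V := by rw [inv_inv]; exact hX
      have hT := basic hX' hY3
      have hwV : w⁻¹ ∈ V := by
        have : w⁻¹ = U * (U⁻¹ * w⁻¹) := by field_simp
        rw [this]; exact V.mul_mem _ _ hX hT
      exact torus_goal hX' hX3 hwV (reg_torus aFB aFB' (node_FB hchar) hV hX' hX3 hwV hsq3
        (hinvk _ hUk) hB3)
  · by_cases hYu : U * w ^ 2 ∈ V ∧ (U * w ^ 2)⁻¹ ∈ V
    · obtain ⟨hY, hY'⟩ := hYu
      rcases V.mem_or_inv_mem U with hX | hX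
      · -- chart 2
        obtain ⟨i1, i2⟩ := swapA_id (k := k) (U := U) hw
        apply transfer_swap hU hw
        have hsq2 : (w * ζ) ^ 2 + aeval ![U * w ^ 2, w⁻¹] (GA k) = 0 := by
          rw [i1]; linear_combination w ^ 2 * hsq
        have hB2 := swapB hB hU hw hz hsq i1 i2 h0
        have hT := basic hX hY
        have hwV : w⁻¹ ∈ V := by
          have : w⁻¹ = (U * w ^ 2)⁻¹ * (U * w) := by field_simp
          rw [this]; exact V.mul_mem _ _ hY' hT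
        exact torus_goal hY hY' hwV (reg_torus aFA aFA' (node_FA hchar) hV hY hY' hwV hsq2
          hYk hB2)
      · -- chart 4
        obtain ⟨i1, i2⟩ := swapB_id (k := k) (U := U⁻¹) hw3
        apply transfer_inv hU hw
        apply transfer_swap hU3 hw3
        have hsq4 : (w⁻¹ * (ζ * (U ^ 5 * w ^ 4)⁻¹)) ^ 2 +
            aeval ![U⁻¹ * w⁻¹ ^ 2, w⁻¹⁻¹] (GB k) = 0 := by
          rw [i1]; linear_combination w⁻¹ ^ 2 * hsq3
        have hB4 := swapB hB3 hU3 hw3 hz3 hsq3 i1 i2 h0'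
        have hY4 : U⁻¹ * w⁻¹ ^ 2 ∈ V := by rw [hYi]; exact hY'
        have hY4' : (U⁻¹ * w⁻¹ ^ 2)⁻¹ ∈ V := by rw [hYi, inv_inv]; exact hY
        have hT := basic hX hY4
        have hwV : w⁻¹⁻¹ ∈ V := by
          have : w⁻¹⁻¹ = (U * w ^ 2) * (U⁻¹ * w⁻¹) := by field_simp
          rw [this]; exact V.mul_mem _ _ hY hT
        have hYk4 : ∀ c : k, U⁻¹ * w⁻¹ ^ 2 ≠ algebraMap k K c := by
          rw [hYi]; exact hinvk _ hYk
        exact torus_goal hY4 hY4' hwV (reg_torus aFB aFB' (node_FB hchar) hV hY4 hY4' hwV hsq4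
          hYk4 hB4)
    · -- corners
      rcases V.mem_or_inv_mem U with hX | hX
      · have hX' : U⁻¹ ∉ V := fun h => hXu ⟨hX, h⟩
        rcases V.mem_or_inv_mem (U * w ^ 2) with hY | hY
        · have hY' : (U * w ^ 2)⁻¹ ∉ V := fun h => hYu ⟨hY, h⟩
          exact cornerA hsq hU hz hB.E0 hX hX' hY hY'
        · have hY' : U * w ^ 2 ∉ V := fun h => hYu ⟨h, hY⟩
          apply transfer5 hU hw
          obtain ⟨c1, c2⟩ := corner5 hB hU hw hz hsq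
          have hz5 : ζ * (U ^ 2 * w ^ 4)⁻¹ ≠ 0 :=
            mul_ne_zero hz (inv_ne_zero (mul_ne_zero (pow_ne_zero _ hU) (pow_ne_zero _ hw)))
          have hY5 : U * (U * w)⁻¹ ^ 2 = (U * w ^ 2)⁻¹ := by field_simp
          refine cornerC c1 hU hz5 c2 hX hX' ?_ ?_
          · rw [hY5]; exact hY
          · rw [hY5, inv_inv]; exact hY'
      · have hX' : U ∉ V := fun h => hXu ⟨h, hX⟩
        rcases V.mem_or_inv_mem (U * w ^ 2) with hY | hY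
        · have hY' : (U * w ^ 2)⁻¹ ∉ V := fun h => hYu ⟨hY, h⟩
          apply transfer6 hU hw
          obtain ⟨c1, c2⟩ := corner6 hB hU hw hz hsq
          have hz6 : ζ * (U ^ 3)⁻¹ ≠ 0 := mul_ne_zero hz (inv_ne_zero (pow_ne_zero _ hU))
          have hY6 : U⁻¹ * (U * w) ^ 2 = U * w ^ 2 := by field_simp
          refine cornerD c1 hU3 hz6 c2 hX ?_ ?_ ?_
          · rw [inv_inv]; exact hX'
          · rw [hY6]; exact hY
          · rw [hY6]; exact hY'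
        · have hY' : U * w ^ 2 ∉ V := fun h => hYu ⟨h, hY⟩
          apply transfer_inv hU hw
          refine cornerB hsq3 hU3 hz3 hB3.E0 hX ?_ ?_ ?_
          · rw [inv_inv]; exact hX'
          · rw [hYi]; exact hY
          · rw [hYi, inv_inv]; exact hY'

end Pool.Agent.Helper190_Can
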