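import Pool.Agent.Helper190_Can.CDer

set_option linter.unusedSimpArgs false
set_option linter.unusedVariables false
set_option linter.style.haveILetI false

open MvPolynomial

noncomputable section

namespace Pool.Agent.Helper190_Can

/-! ### explicit polynomials -/

section
variable {k A : Type} [Field k] [CommRing A] [Algebra k A] (x y : A)

lemma aGA : aeval ![x, y] (GA k) = x + x ^ 5 + x ^ 5 * y ^ 8 + x ^ 9 * y ^ 8 + x ^ 3 * y +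
    x ^ 3 * y ^ 3 + x ^ 8 * y ^ 7 := by
  simp [GA]

lemma aGA0 : aeval ![x, y] (pderiv 0 (GA k)) = 1 + 5 * x ^ 4 + 5 * x ^ 4 * y ^ 8 +
    9 * x ^ 8 * y ^ 8 + 3 * x ^ 2 * y + 3 * x ^ 2 * y ^ 3 + 8 * x ^ 7 * y ^ 7 := by
  simp [GA, pderiv_mul, pderiv_pow, pderiv_X]
  ring

lemma aGA1 : aeval ![x, y] (pderiv 1 (GA k)) = 8 * x ^ 5 * y ^ 7 + 8 * x ^ 9 * y ^ 7 + x ^ 3 +
    3 * x ^ 3 * y ^ 2 + 7 * x ^ 8 * y ^ 6 := by
  simp [GA, pderiv_mul, pderiv_pow, pderiv_X]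
  ring

lemma aGB : aeval ![x, y] (GB k) = x + x ^ 5 + x ^ 5 * y ^ 8 + x ^ 9 * y ^ 8 +
    x ^ 7 * y ^ 7 + x ^ 7 * y ^ 5 + x ^ 2 * y := by
  simp [GB]

lemma aGB0 : aeval ![x, y] (pderiv 0 (GB k)) = 1 + 5 * x ^ 4 + 5 * x ^ 4 * y ^ 8 +
    9 * x ^ 8 * y ^ 8 + 7 * x ^ 6 * y ^ 7 + 7 * x ^ 6 * y ^ 5 + 2 * x * y := by
  simp [GB, pderiv_mul, pderiv_pow, pderiv_X]
  ring

lemma aGB1 : aeval ![x, y] (pderiv 1 (GB k)) = 8 * x ^ 5 * y ^ 7 + 8 * x ^ 9 * y ^ 7 +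
    7 * x ^ 7 * y ^ 6 + 5 * x ^ 7 * y ^ 4 + x ^ 2 := by
  simp [GB, pderiv_mul, pderiv_pow, pderiv_X]
  ring

end

variable {k K : Type} [Field k] [Field K] [Algebra k K] {G : P2 k} {U w ζ : K}

/-- the remaining relations follow from the first one -/
lemma mkB {e : ⋀[K]^2 Ω[K⁄k]} (hsq : ζ ^ 2 + aeval ![U, w] G = 0)
    (h0 : aeval ![U, w] (pderiv 0 G) ≠ 0) (ne : e ≠ 0)
    (E0 : aeval ![U, w] (pderiv 0 G) • e = dd k w ζ) : ChartB G U w ζ e := by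
  have hD : (2 * ζ) • KaehlerDifferential.D k K ζ +
      aeval ![U, w] (pderiv 0 G) • KaehlerDifferential.D k K U +
      aeval ![U, w] (pderiv 1 G) • KaehlerDifferential.D k K w = 0 := by
    have h1 := congrArg (KaehlerDifferential.D k K) hsq
    rw [map_zero, map_add, D_aeval, Fin.sum_univ_two, pow_two, Derivation.leibniz] at h1
    simp only [Matrix.cons_val_zero, Matrix.cons_val_one, Matrix.cons_val_fin_one] at h1
    rw [← h1]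
    module
  have e12 : dd k w ζ = aeval ![U, w] (pderiv 0 G) • e := E0.symm
  have e21 := sc_swap e12
  have h1 : wd ((2 * ζ) • KaehlerDifferential.D k K ζ +
      aeval ![U, w] (pderiv 0 G) • KaehlerDifferential.D k K U +
      aeval ![U, w] (pderiv 1 G) • KaehlerDifferential.D k K w) (KaehlerDifferential.D k K w) =
      0 := by rw [hD, wd_zero_left]
  have h2 : wd ((2 * ζ) • KaehlerDifferential.D k K ζ +
      aeval ![U, w] (pderiv 0 G) • KaehlerDifferential.D k K U +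
      aeval ![U, w] (pderiv 1 G) • KaehlerDifferential.D k K w) (KaehlerDifferential.D k K ζ) =
      0 := by rw [hD, wd_zero_left]
  rw [wd_add_left, wd_add_left, wd_smul_left, wd_smul_left, wd_smul_left, ← dd_eq, ← dd_eq,
    ← dd_eq, dd_self, smul_zero, add_zero] at h1
  rw [wd_add_left, wd_add_left, wd_smul_left, wd_smul_left, wd_smul_left, ← dd_eq, ← dd_eq,
    ← dd_eq, dd_self, smul_zero, zero_add] at h2
  set g0 := aeval ![U, w] (pderiv 0 G)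
  set g1 := aeval ![U, w] (pderiv 1 G)
  refine ⟨ne, E0, ?_, ?_⟩
  · rw [e12, smul_smul] at h2
    have h3 : dd k U ζ = (-g1) • e := by
      have h4 : g0 • dd k U ζ = g0 • ((-g1) • e) := by
        rw [smul_smul, eq_neg_of_add_eq_zero_left h2]
        apply neg_eq_of_add_eq_zero_left
        rw [← add_smul]
        have : g0 * -g1 + g1 * g0 = 0 := by ring
        rw [this, zero_smul]
      exact smul_right_injective _ h0 h4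
    have h5 := sc_swap h3
    rw [neg_neg] at h5
    exact h5.symm
  · rw [e21, smul_smul] at h1
    have h4 : g0 • dd k U w = g0 • ((2 * ζ) • e) := by
      rw [smul_smul]
      have h5 := eq_neg_of_add_eq_zero_right h1
      rw [h5]
      apply neg_eq_of_add_eq_zero_left
      rw [← add_smul]
      have : g0 * (2 * ζ) + 2 * ζ * -g0 = 0 := by ring
      rw [this, zero_smul]
    exact (smul_right_injective _ h0 h4).symm

/-- differentials of monomials -/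
lemma D_mono (hU : U ≠ 0) (hw : w ≠ 0) (hz : ζ ≠ 0) (a b c : ℤ) :
    KaehlerDifferential.D k K (U ^ a * w ^ b * ζ ^ c) = (U ^ a * w ^ b * ζ ^ c) •
      (((a : K) * U⁻¹) • KaehlerDifferential.D k K U +
      ((b : K) * w⁻¹) • KaehlerDifferential.D k K w +
      ((c : K) * ζ⁻¹) • KaehlerDifferential.D k K ζ) := by
  have hzp : ∀ (x : K) (hx : x ≠ 0) (n : ℤ), KaehlerDifferential.D k K (x ^ n) =
      ((n : K) * x ^ n * x⁻¹) • KaehlerDifferential.D k K x := by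
    intro x hx n
    rw [Derivation.leibniz_zpow, zpow_sub_one₀ hx, ← Int.cast_smul_eq_zsmul K n, smul_smul,
      mul_assoc]
  rw [Derivation.leibniz, Derivation.leibniz, hzp U hU, hzp w hw, hzp ζ hz]
  module

lemma dd_mono {e : ⋀[K]^2 Ω[K⁄k]} (hB : ChartB G U w ζ e) (hU : U ≠ 0) (hw : w ≠ 0) (hz : ζ ≠ 0)
    (a b c a' b' c' : ℤ) : dd k (U ^ a * w ^ b * ζ ^ c) (U ^ a' * w ^ b' * ζ ^ c') =
      ((U ^ a * w ^ b * ζ ^ c) * (U ^ a' * w ^ b' * ζ ^ c') *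
        (((a * b' - a' * b : ℤ) : K) * (2 * ζ) * (U⁻¹ * w⁻¹) +
        ((b * c' - b' * c : ℤ) : K) * aeval ![U, w] (pderiv 0 G) * (w⁻¹ * ζ⁻¹) +
        ((c * a' - c' * a : ℤ) : K) * aeval ![U, w] (pderiv 1 G) * (ζ⁻¹ * U⁻¹))) • e := by
  have e01 : dd k U w = (2 * ζ) • e := hB.E2.symm
  have e12 : dd k w ζ = aeval ![U, w] (pderiv 0 G) • e := hB.E0.symm
  have e20 : dd k ζ U = aeval ![U, w] (pderiv 1 G) • e := hB.E1.symm
  have e10 := sc_swap e01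
  have e21 := sc_swap e12
  have e02 := sc_swap e20
  have e00 := sc_self (e := e) U
  have e11 := sc_self (e := e) w
  have e22 := sc_self (e := e) ζ
  rw [dd_eq] at e00 e01 e02 e10 e11 e12 e20 e21 e22
  rw [dd_eq, D_mono hU hw hz, D_mono hU hw hz]
  simp only [wd_add_left, wd_add_right, wd_smul_left, wd_smul_right, e00, e01, e02, e10, e11,
    e12, e20, e21, e22, smul_smul, ← add_smul]
  congr 1
  push_cast
  ring

/-- the chart with `s` and `t` exchanged -/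
lemma swapB {e : ⋀[K]^2 Ω[K⁄k]} (hB : ChartB G U w ζ e) (hU : U ≠ 0) (hw : w ≠ 0) (hz : ζ ≠ 0)
    (hsq : ζ ^ 2 + aeval ![U, w] G = 0)
    (hG : aeval ![U * w ^ 2, w⁻¹] G = w ^ 2 * aeval ![U, w] G)
    (hG0 : aeval ![U * w ^ 2, w⁻¹] (pderiv 0 G) = aeval ![U, w] (pderiv 0 G))
    (h0 : aeval ![U, w] (pderiv 0 G) ≠ 0) :
    ChartB G (U * w ^ 2) w⁻¹ (w * ζ) ((-w⁻¹) • e) := by
  refine mkB ?_ ?_ ?_ ?_
  · rw [hG]; linear_combination w ^ 2 * hsq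
  · rw [hG0]; exact h0
  · exact smul_ne_zero (neg_ne_zero.mpr (inv_ne_zero hw)) hB.ne
  · have h1 := dd_mono hB hU hw hz 0 (-1) 0 0 1 1
    have e1 : U ^ (0 : ℤ) * w ^ (-1 : ℤ) * ζ ^ (0 : ℤ) = w⁻¹ := by simp
    have e2 : U ^ (0 : ℤ) * w ^ (1 : ℤ) * ζ ^ (1 : ℤ) = w * ζ := by simp
    rw [e1, e2] at h1
    rw [h1, hG0, smul_smul]
    congr 1
    push_cast
    field_simp
    ring

lemma sq_inv (hU : U ≠ 0) (hw : w ≠ 0) (hsq : ζ ^ 2 + aeval ![U, w] (GA k) = 0) :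
    (ζ * (U ^ 5 * w ^ 4)⁻¹) ^ 2 + aeval ![U⁻¹, w⁻¹] (GB k) = 0 := by
  rw [aGA] at hsq
  rw [aGB]
  field_simp
  linear_combination hsq

/-- the opposite chart -/
lemma invB {e : ⋀[K]^2 Ω[K⁄k]} (hB : ChartB (GA k) U w ζ e) (hU : U ≠ 0) (hw : w ≠ 0)
    (hz : ζ ≠ 0) (hsq : ζ ^ 2 + aeval ![U, w] (GA k) = 0)
    (h0 : aeval ![U⁻¹, w⁻¹] (pderiv 0 (GB k)) ≠ 0) :
    ChartB (GB k) U⁻¹ w⁻¹ (ζ * (U ^ 5 * w ^ 4)⁻¹) ((U ^ 3 * w ^ 2) • e) := by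
  refine mkB (sq_inv hU hw hsq) h0 ?_ ?_
  · exact smul_ne_zero (mul_ne_zero (pow_ne_zero _ hU) (pow_ne_zero _ hw)) hB.ne
  · have h1 := dd_mono hB hU hw hz 0 (-1) 0 (-5) (-4) 1
    have e1 : U ^ (0 : ℤ) * w ^ (-1 : ℤ) * ζ ^ (0 : ℤ) = w⁻¹ := by simp
    have e2 : U ^ (-5 : ℤ) * w ^ (-4 : ℤ) * ζ ^ (1 : ℤ) = ζ * (U ^ 5 * w ^ 4)⁻¹ := by
      rw [zpow_neg, zpow_neg, zpow_one, mul_inv]
      norm_cast
      ring
    rw [e1, e2] at h1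
    rw [h1, aGB0, aGA0, aGA1, smul_smul]
    rw [aGA] at hsq
    congr 1
    push_cast
    field_simp
    linear_combination (10 : K) * hsq

/-- the corner polynomials -/
def G5 (k : Type) [Field k] : P2 k := X 0 * (1 + X 0 ^ 4 + X 0 ^ 4 * X 1 ^ 8 + X 0 ^ 8 * X 1 ^ 8 +
  X 0 ^ 5 * X 1 ^ 7 + X 0 ^ 3 * X 1 ^ 5 + X 0 ^ 4 * X 1)

def G6 (k : Type) [Field k] : P2 k := X 0 * (1 + X 0 ^ 4 + X 0 ^ 4 * X 1 ^ 8 + X 0 ^ 8 * X 1 ^ 8 +
  X 0 ^ 3 * X 1 + X 0 ^ 5 * X 1 ^ 3 + X 0 ^ 4 * X 1 ^ 7)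

lemma aG5 (x y : K) : aeval ![x, y] (G5 k) = x * (1 + x ^ 4 + x ^ 4 * y ^ 8 + x ^ 8 * y ^ 8 +
    x ^ 5 * y ^ 7 + x ^ 3 * y ^ 5 + x ^ 4 * y) := by
  simp [G5]

lemma aG50 (x y : K) : aeval ![x, y] (pderiv 0 (G5 k)) = 1 + 5 * x ^ 4 + 5 * x ^ 4 * y ^ 8 +
    9 * x ^ 8 * y ^ 8 + 6 * x ^ 5 * y ^ 7 + 4 * x ^ 3 * y ^ 5 + 5 * x ^ 4 * y := by
  simp [G5, pderiv_mul, pderiv_pow, pderiv_X]
  ring

lemma aG6 (x y : K) : aeval ![x, y] (G6 k) = x * (1 + x ^ 4 + x ^ 4 * y ^ 8 + x ^ 8 * y ^ 8 +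
    x ^ 3 * y + x ^ 5 * y ^ 3 + x ^ 4 * y ^ 7) := by
  simp [G6]

lemma aG60 (x y : K) : aeval ![x, y] (pderiv 0 (G6 k)) = 1 + 5 * x ^ 4 + 5 * x ^ 4 * y ^ 8 +
    9 * x ^ 8 * y ^ 8 + 4 * x ^ 3 * y + 6 * x ^ 5 * y ^ 3 + 5 * x ^ 4 * y ^ 7 := by
  simp [G6, pderiv_mul, pderiv_pow, pderiv_X]
  ring

lemma corner5 {e : ⋀[K]^2 Ω[K⁄k]} (hB : ChartB (GA k) U w ζ e) (hU : U ≠ 0) (hw : w ≠ 0)
    (hz : ζ ≠ 0) (hsq : ζ ^ 2 + aeval ![U, w] (GA k) = 0) :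
    (ζ * (U ^ 2 * w ^ 4)⁻¹) ^ 2 + aeval ![U, (U * w)⁻¹] (G5 k) = 0 ∧
    aeval ![U, (U * w)⁻¹] (pderiv 0 (G5 k)) • ((-(U * w ^ 2)) • e) =
      dd k (U * w)⁻¹ (ζ * (U ^ 2 * w ^ 4)⁻¹) := by
  constructor
  · rw [aGA] at hsq
    rw [aG5]
    field_simp
    linear_combination hsq
  · have h1 := dd_mono hB hU hw hz (-1) (-1) 0 (-2) (-4) 1
    have e1 : U ^ (-1 : ℤ) * w ^ (-1 : ℤ) * ζ ^ (0 : ℤ) = (U * w)⁻¹ := by
      rw [zpow_neg_one, zpow_neg_one, zpow_zero, mul_one, mul_inv]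
    have e2 : U ^ (-2 : ℤ) * w ^ (-4 : ℤ) * ζ ^ (1 : ℤ) = ζ * (U ^ 2 * w ^ 4)⁻¹ := by
      rw [zpow_neg, zpow_neg, zpow_one, mul_inv]
      norm_cast
      ring
    rw [e1, e2] at h1
    rw [h1, aG50, aGA0, aGA1, smul_smul]
    rw [aGA] at hsq
    congr 1
    push_cast
    field_simp
    linear_combination (-4 : K) * hsq

lemma corner6 {e : ⋀[K]^2 Ω[K⁄k]} (hB : ChartB (GA k) U w ζ e) (hU : U ≠ 0) (hw : w ≠ 0)
    (hz : ζ ≠ 0) (hsq : ζ ^ 2 + aeval ![U, w] (GA k) = 0) :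
    (ζ * (U ^ 3)⁻¹) ^ 2 + aeval ![U⁻¹, U * w] (G6 k) = 0 ∧
    aeval ![U⁻¹, U * w] (pderiv 0 (G6 k)) • ((-(U ^ 2)) • e) =
      dd k (U * w) (ζ * (U ^ 3)⁻¹) := by
  constructor
  · rw [aGA] at hsq
    rw [aG6]
    field_simp
    linear_combination hsq
  · have h1 := dd_mono hB hU hw hz 1 1 0 (-3) 0 1
    have e1 : U ^ (1 : ℤ) * w ^ (1 : ℤ) * ζ ^ (0 : ℤ) = U * w := by
      rw [zpow_one, zpow_one, zpow_zero, mul_one]
    have e2 : U ^ (-3 : ℤ) * w ^ (0 : ℤ) * ζ ^ (1 : ℤ) = ζ * (U ^ 3)⁻¹ := by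
      rw [zpow_neg, zpow_zero, mul_one, zpow_one]
      norm_cast
      ring
    rw [e1, e2] at h1
    rw [h1, aG60, aGA0, aGA1, smul_smul]
    rw [aGA] at hsq
    congr 1
    push_cast
    field_simp
    linear_combination (-6 : K) * hsq

end Pool.Agent.Helper190_Can
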