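import Pool.Agent.Helper190_Can.CNode

set_option linter.unusedSimpArgs false
set_option linter.unusedVariables false
set_option linter.style.haveILetI false

open MvPolynomial IsLocalRing

noncomputable section

namespace Pool.Agent.Helper190_Can

variable {k K : Type} [Field k] [Field K] [Algebra k K]

/-- the algebra structure on a valuation ring -/
@[reducible] def algV (V : ValuationSubring K) (h : ∀ c : k, algebraMap k K c ∈ V) : Algebra k V :=
  ((algebraMap k K).codRestrict V h).toAlgebra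

lemma towV (V : ValuationSubring K) (h : ∀ c : k, algebraMap k K c ∈ V) :
    letI := algV V h
    IsScalarTower k V K := by
  letI := algV V h
  exact IsScalarTower.of_algebraMap_eq (fun _ => rfl)

/-- the composite valuation ring -/
lemma exists_composite (V : ValuationSubring K) (O : ValuationSubring (ResidueField V)) :
    ∃ V' : ValuationSubring K, ∀ x : K, x ∈ V' ↔ ∃ h : x ∈ V, residue V ⟨x, h⟩ ∈ O := by
  let R : Subring K := (O.toSubring.comap (residue V)).map V.subtype
  have hR : ∀ x : K, x ∈ R ↔ ∃ h : x ∈ V, residue V ⟨x, h⟩ ∈ O := by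
    intro x
    rw [Subring.mem_map]
    constructor
    · rintro ⟨y, hy, rfl⟩
      exact ⟨y.2, hy⟩
    · rintro ⟨h, h1⟩
      exact ⟨⟨x, h⟩, h1, rfl⟩
  have key : ∀ x ∈ V, x ∈ R ∨ x⁻¹ ∈ R := by
    intro x hx
    rcases O.mem_or_inv_mem (residue V ⟨x, hx⟩) with h | h
    · exact Or.inl ((hR x).mpr ⟨hx, h⟩)
    · by_cases h0 : residue V ⟨x, hx⟩ = 0
      · left
        rw [hR]
        refine ⟨hx, ?_⟩
        rw [h0]
        exact O.zero_mem
      · right
        have h1 := inv_mem_of_residue h0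
        change x⁻¹ ∈ V at h1
        rw [hR]
        refine ⟨h1, ?_⟩
        have h2 : (⟨x, hx⟩ : V) * ⟨x⁻¹, h1⟩ = 1 :=
          Subtype.ext (mul_inv_cancel₀ (coe_ne_zero_of_residue h0))
        have h3 := congrArg (residue V) h2
        rw [map_mul, map_one] at h3
        rwa [← eq_inv_of_mul_eq_one_right h3] at h
  refine ⟨ValuationSubring.ofSubring R ?_, ?_⟩
  · intro x
    rcases V.mem_or_inv_mem x with h | h
    · exact key x h
    · have := key _ h
      rw [inv_inv] at this
      exact this.symm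
  · intro x
    rw [ValuationSubring.mem_ofSubring]
    exact hR x

/-- every valuation ring dominating a chart has a specialisation with a closed centre -/
theorem exists_closed [IsAlgClosed k] (V : ValuationSubring K)
    (hV : ∀ c : k, algebraMap k K c ∈ V) {p : Fin 3 → K} (hp : ∀ i, p i ∈ V) (hp0 : p 0 ≠ 0)
    (hp1 : (p 0)⁻¹ ∈ V) : ∃ (V' : ValuationSubring K) (hV' : ∀ c : k, algebraMap k K c ∈ V')
    (hp' : ∀ i, p i ∈ V') (c : Fin 3 → k), V' ≤ V ∧ c 0 ≠ 0 ∧
    (letI := algV V' hV'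
    ∀ i, residue V' ⟨p i, hp' i⟩ = residue V' (algebraMap k V' (c i))) := by
  letI := algV V hV
  haveI := towV V hV
  letI : Algebra k (ResidueField V) := ((residue V).comp (algebraMap k V)).toAlgebra
  let r : Fin 3 → ResidueField V := fun i => residue V ⟨p i, hp i⟩
  let r' : ResidueField V := residue V ⟨(p 0)⁻¹, hp1⟩
  have hrr : r 0 * r' = 1 := by
    rw [← map_mul, ← map_one (residue V)]
    congr 1
    exact Subtype.ext (mul_inv_cancel₀ hp0)
  let A : Subalgebra k (ResidueField V) := Algebra.adjoin k (Set.range (Fin.cons r' r :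
    Fin 4 → ResidueField V))
  have hAfg : A.FG := ⟨(Set.finite_range (Fin.cons r' r : Fin 4 → ResidueField V)).toFinset, by
    rw [Set.Finite.coe_toFinset]⟩
  have hAft : Algebra.FiniteType k A := (Subalgebra.fg_iff_finiteType A).mp hAfg
  have hrA : ∀ i, r i ∈ A := fun i => Algebra.subset_adjoin ⟨i.succ, by simp⟩
  have hr'A : r' ∈ A := Algebra.subset_adjoin ⟨0, by simp⟩
  obtain ⟨n, hn⟩ := Ideal.exists_maximal A
  have hfin : Module.Finite k (A ⧸ n) := by
    letI := Ideal.Quotient.field n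
    exact finite_of_finite_type_of_isJacobsonRing k (A ⧸ n)
  have hsurj : ∀ a : A, ∃ c : k, a - algebraMap k A c ∈ n := by
    letI := Ideal.Quotient.field n
    intro a
    have : Algebra.IsIntegral k (A ⧸ n) := Algebra.IsIntegral.of_finite k (A ⧸ n)
    have h1 := (IsAlgClosed.algebraMap_bijective_of_isIntegral (k := k) (K := A ⧸ n)).2
    obtain ⟨c, hc⟩ := h1 (Ideal.Quotient.mk n a)
    refine ⟨c, ?_⟩
    rw [← Ideal.Quotient.eq_zero_iff_mem, map_sub, sub_eq_zero, ← hc]
    rfl
  choose c hc using fun i => hsurj ⟨r i, hrA i⟩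
  obtain ⟨O, hO1, hO2⟩ := Ideal.image_subset_nonunits_valuationSubring (A := A.toSubring) n
    (Ideal.IsMaximal.ne_top hn)
  obtain ⟨V', hV'⟩ := exists_composite V O
  have hkV' : ∀ c : k, algebraMap k K c ∈ V' := by
    intro c
    rw [hV']
    exact ⟨hV c, hO1 (A.algebraMap_mem c)⟩
  have hpV' : ∀ i, p i ∈ V' := by
    intro i
    rw [hV']
    exact ⟨hp i, hO1 (hrA i)⟩
  refine ⟨V', hkV', hpV', c, ?_, ?_, ?_⟩
  · intro x hx
    exact ((hV' x).mp hx).1
  · intro h0
    have h1 := hc 0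
    rw [h0, map_zero, sub_zero] at h1
    apply Ideal.IsMaximal.ne_top hn
    rw [Ideal.eq_top_iff_one]
    have h2 : (1 : A) = ⟨r 0, hrA 0⟩ * ⟨r', hr'A⟩ := Subtype.ext hrr.symm
    rw [h2]
    exact n.mul_mem_right _ h1
  · intro i
    rw [← sub_eq_zero, ← map_sub, residue_eq_zero_iff, mem_maximalIdeal, mem_nonunits_iff]
    intro hu
    obtain ⟨q, hq⟩ := hu.exists_right_inv
    obtain ⟨hqV, hqO⟩ := (hV' (q : K)).mp q.2
    have h1 : (⟨p i, hp i⟩ - algebraMap k V (c i) : V) * ⟨(q : K), hqV⟩ = 1 := by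
      apply Subtype.ext
      have h0 := congrArg Subtype.val hq
      change (p i - algebraMap k K (c i)) * (q : K) = 1 at h0
      change (p i - algebraMap k K (c i)) * (q : K) = 1
      exact h0
    have h2 := congrArg (residue V) h1
    rw [map_mul, map_one, map_sub] at h2
    have h3 : r i - algebraMap k (ResidueField V) (c i) ∈ O.nonunits := hO2 ⟨_, hc i, rfl⟩
    rw [ValuationSubring.mem_nonunits_iff_exists_mem_maximalIdeal] at h3
    obtain ⟨h4, h5⟩ := h3
    rw [mem_maximalIdeal, mem_nonunits_iff] at h5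
    apply h5
    refine IsUnit.of_mul_eq_one ⟨_, hqO⟩ ?_
    apply Subtype.ext
    exact h2

/-- the canonical form is regular at all valuation rings dominating a chart -/
theorem reg_chart [IsAlgClosed k] {F : MvPolynomial (Fin 3) k}
    (hn : ∀ c : Fin 3 → k, c 0 ≠ 0 → SmoothOrNode F c) (V : ValuationSubring K)
    (hV : ∀ c : k, algebraMap k K c ∈ V) {p : Fin 3 → K} (hp : ∀ i, p i ∈ V)
    (hp1 : (p 0)⁻¹ ∈ V) (hpk : ∀ c : k, p 0 ≠ algebraMap k K c) (hF : aeval p F = 0)
    {e : ⋀[K]^2 Ω[K⁄k]} (e0 : aeval p (pderiv 0 F) • e = dd k (p 1) (p 2))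
    (e1 : aeval p (pderiv 1 F) • e = dd k (p 2) (p 0))
    (e2 : aeval p (pderiv 2 F) • e = dd k (p 0) (p 1)) :
    ∃ u ∈ V, ∃ v ∈ V, ∃ j ∈ V, e = j • dd k u v := by
  have hp0 : p 0 ≠ 0 := by
    have := hpk 0
    rwa [map_zero] at this
  obtain ⟨V', hV', hp', c, hle, hc0, hc⟩ := exists_closed V hV hp hp0 hp1
  letI := algV V' hV'
  haveI := towV V' hV'
  have hpe : (fun i => ((⟨p i, hp' i⟩ : V') : K)) = p := rfl
  obtain ⟨u, hu, v, hv, j, hj, h⟩ := reg_closed (V := V') (F := F) (p := fun i => ⟨p i, hp' i⟩)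
    (c := c) (e := e) hF hc (hn c hc0) ⟨0, fun h => hpk (c 0) (congrArg Subtype.val h)⟩ e0 e1 e2
  exact ⟨u, hle hu, v, hle hv, j, hle hj, h⟩

end Pool.Agent.Helper190_Can
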