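import Pool.Agent.Helper190_Can.CForm

open Module

noncomputable section

namespace Pool.Agent.Helper190_Can

variable {k K : Type} [Field k] [Field K] [Algebra k K]

/-- the bilinear wedge product -/
def wd (α β : Ω[K⁄k]) : ⋀[K]^2 Ω[K⁄k] := exteriorPower.ιMulti K 2 ![α, β]

lemma wd_add_left (α α' β : Ω[K⁄k]) : wd (α + α') β = wd α β + wd α' β := by
  have h := (exteriorPower.ιMulti K 2 (M := Ω[K⁄k])).map_update_add ![α, β] 0 α α'
  have e : ∀ γ : Ω[K⁄k], Function.update ![α, β] 0 γ = ![γ, β] := by
    intro γ
    ext i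
    fin_cases i <;> simp
  rw [e, e, e] at h
  exact h

lemma wd_add_right (α β β' : Ω[K⁄k]) : wd α (β + β') = wd α β + wd α β' := by
  have h := (exteriorPower.ιMulti K 2 (M := Ω[K⁄k])).map_update_add ![α, β] 1 β β'
  have e : ∀ γ : Ω[K⁄k], Function.update ![α, β] 1 γ = ![α, γ] := by
    intro γ
    ext i
    fin_cases i <;> simp
  rw [e, e, e] at h
  exact h

lemma wd_smul_left (r : K) (α β : Ω[K⁄k]) : wd (r • α) β = r • wd α β := by
  have h := (exteriorPower.ιMulti K 2 (M := Ω[K⁄k])).map_update_smul ![α, β] 0 r α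
  have e : ∀ γ : Ω[K⁄k], Function.update ![α, β] 0 γ = ![γ, β] := by
    intro γ
    ext i
    fin_cases i <;> simp
  rw [e, e] at h
  exact h

lemma wd_smul_right (r : K) (α β : Ω[K⁄k]) : wd α (r • β) = r • wd α β := by
  have h := (exteriorPower.ιMulti K 2 (M := Ω[K⁄k])).map_update_smul ![α, β] 1 r β
  have e : ∀ γ : Ω[K⁄k], Function.update ![α, β] 1 γ = ![α, γ] := by
    intro γ
    ext i
    fin_cases i <;> simp
  rw [e, e] at h
  exact h

lemma wd_self (α : Ω[K⁄k]) : wd α α = 0 := by
  refine (exteriorPower.ιMulti K 2 (M := Ω[K⁄k])).map_eq_zero_of_eq ![α, α] (i := 0) (j := 1) ?_ ?_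
  · simp
  · simp

lemma wd_zero_left (β : Ω[K⁄k]) : wd 0 β = 0 := by
  have := wd_smul_left 0 (0 : Ω[K⁄k]) β
  rwa [zero_smul, zero_smul] at this

lemma wd_zero_right (β : Ω[K⁄k]) : wd β 0 = 0 := by
  have := wd_smul_right 0 β (0 : Ω[K⁄k])
  rwa [zero_smul, zero_smul] at this

lemma wd_neg_left (α β : Ω[K⁄k]) : wd (-α) β = -wd α β := by
  apply eq_neg_of_add_eq_zero_left
  rw [← wd_add_left, neg_add_cancel, wd_zero_left]

lemma wd_neg_right (α β : Ω[K⁄k]) : wd α (-β) = -wd α β := by
  apply eq_neg_of_add_eq_zero_left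
  rw [← wd_add_right, neg_add_cancel, wd_zero_right]

lemma wd_comm (α β : Ω[K⁄k]) : wd β α = -wd α β := by
  have h := wd_self (α + β)
  rw [wd_add_left, wd_add_right, wd_add_right, wd_self, wd_self, zero_add, add_zero] at h
  exact eq_neg_of_add_eq_zero_right h

lemma wd_sum_left {ι : Type*} (s : Finset ι) (f : ι → Ω[K⁄k]) (β : Ω[K⁄k]) :
    wd (∑ i ∈ s, f i) β = ∑ i ∈ s, wd (f i) β := by
  classical
  induction s using Finset.induction_on with
  | empty => simp [wd_zero_left]
  | insert i s hi ih => rw [Finset.sum_insert hi, Finset.sum_insert hi, wd_add_left, ih]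

lemma dd_eq (u v : K) : dd k u v = wd (KaehlerDifferential.D k K u) (KaehlerDifferential.D k K v) :=
  rfl

lemma dd_self (u : K) : dd k u u = 0 := wd_self _

lemma dd_comm (u v : K) : dd k v u = -dd k u v := wd_comm _ _

lemma dd_add_left (u u' v : K) : dd k (u + u') v = dd k u v + dd k u' v := by
  rw [dd_eq, map_add, wd_add_left]; rfl

lemma dd_add_right (u v v' : K) : dd k u (v + v') = dd k u v + dd k u v' := by
  rw [dd_eq, map_add, wd_add_right]; rfl

lemma dd_mul_left (u u' v : K) : dd k (u * u') v = u • dd k u' v + u' • dd k u v := by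
  rw [dd_eq, Derivation.leibniz, wd_add_left, wd_smul_left, wd_smul_left]; rfl

lemma dd_mul_right (u v v' : K) : dd k u (v * v') = v • dd k u v' + v' • dd k u v := by
  rw [dd_eq, Derivation.leibniz, wd_add_right, wd_smul_right, wd_smul_right]; rfl

lemma dd_const_left (c : k) (v : K) : dd k (algebraMap k K c) v = 0 := by
  rw [dd_eq, Derivation.map_algebraMap, wd_zero_left]

lemma dd_const_right (c : k) (v : K) : dd k v (algebraMap k K c) = 0 := by
  rw [dd_eq, Derivation.map_algebraMap, wd_zero_right]

lemma dd_const_add_left (c : k) (u v : K) : dd k (algebraMap k K c + u) v = dd k u v := by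
  rw [dd_add_left, dd_const_left, zero_add]

lemma dd_const_add_right (c : k) (u v : K) : dd k u (algebraMap k K c + v) = dd k u v := by
  rw [dd_add_right, dd_const_right, zero_add]

lemma aux_one {W : Type*} [AddCommGroup W] [Module K W] {c : K} (v : W) (hv : v ≠ 0)
    (h : v = c • v) : c = 1 := by
  have h1 : (1 - c) • v = 0 := by rw [sub_smul, one_smul, ← h, sub_self]
  rcases smul_eq_zero.mp h1 with h2 | h2
  · exact (sub_eq_zero.mp h2).symm
  · exact absurd h2 hv

/-- comparison of the two notions of regular forms -/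
lemma isReg_iff {x : Fin 2 → K} (hx : dd k (x 0) (x 1) ≠ 0)
    (hs : ∀ f : K, ∃ a b : K, KaehlerDifferential.D k K f =
      a • KaehlerDifferential.D k K (x 0) + b • KaehlerDifferential.D k K (x 1))
    {n : ℕ} {f : K} {V : ValuationSubring K} :
    IsReg k x n f V ↔ IsRegW (dd k (x 0) (x 1)) n f V := by
  have key : ∀ (α β : Ω[K⁄k]) (a b c e : K), wd (a • α + b • β) (c • α + e • β) =
      (a * e - b * c) • wd α β := by
    intro α β a b c e
    rw [wd_add_left, wd_smul_left, wd_smul_left, wd_add_right, wd_add_right, wd_smul_right,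
      wd_smul_right, wd_smul_right, wd_smul_right, wd_self, wd_self, wd_comm α β]
    module
  constructor
  · rintro ⟨u, A, hu, hA, hf⟩
    refine ⟨u 0, hu 0, u 1, hu 1, A.det, ?_, hf⟩
    rw [dd_eq, dd_eq, hA 0, hA 1, Fin.sum_univ_two, Fin.sum_univ_two, key, Matrix.det_fin_two]
  · rintro ⟨u, hu, v, hv, j, hj, hf⟩
    obtain ⟨a, b, hab⟩ := hs u
    obtain ⟨c, e, hce⟩ := hs v
    have h1 : dd k u v = (a * e - b * c) • dd k (x 0) (x 1) := by
      rw [dd_eq, hab, hce, key]; rfl
    have h2 : j * (a * e - b * c) = 1 := by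
      rw [h1, smul_smul] at hj
      exact aux_one _ hx hj
    refine ⟨![u, v], !![j * e, -(j * b); -(j * c), j * a], ?_, ?_, ?_⟩
    · intro i
      fin_cases i
      · exact hu
      · exact hv
    · intro i
      fin_cases i
      · simp only [Fin.sum_univ_two]
        simp
        rw [hab, hce]
        have h5 : KaehlerDifferential.D k K (x 0) = (j * (a * e - b * c)) •
            KaehlerDifferential.D k K (x 0) := by rw [h2, one_smul]
        conv_lhs => rw [h5]
        module
      · simp only [Fin.sum_univ_two]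
        simp
        rw [hab, hce]
        have h5 : KaehlerDifferential.D k K (x 1) = (j * (a * e - b * c)) •
            KaehlerDifferential.D k K (x 1) := by rw [h2, one_smul]
        conv_lhs => rw [h5]
        module
    · rw [Matrix.det_fin_two_of]
      have h6 : j * e * (j * a) - -(j * b) * -(j * c) = j := by
        linear_combination j * h2
      rw [h6]
      exact hf

/-- linear independence of the differentials -/
lemma li_of_dd {x : Fin 2 → K} (hx : dd k (x 0) (x 1) ≠ 0) :
    LinearIndependent K (fun i => KaehlerDifferential.D k K (x i)) := by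
  have e : (fun i => KaehlerDifferential.D k K (x i)) =
      ![KaehlerDifferential.D k K (x 0), KaehlerDifferential.D k K (x 1)] := by
    funext i
    fin_cases i <;> rfl
  rw [e, LinearIndependent.pair_iff]
  intro s t h
  have h1 := congrArg (fun γ => wd γ (KaehlerDifferential.D k K (x 1))) h
  have h2 := congrArg (fun γ => wd (KaehlerDifferential.D k K (x 0)) γ) h
  simp only [wd_add_left, wd_smul_left, wd_self, smul_zero, add_zero, wd_zero_left] at h1
  simp only [wd_add_right, wd_smul_right, wd_self, smul_zero, zero_add, wd_zero_right] at h2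
  exact ⟨(smul_eq_zero.mp h1).resolve_right hx, (smul_eq_zero.mp h2).resolve_right hx⟩

/-- the chain rule -/
lemma D_aeval {σ : Type} [Fintype σ] (p : σ → K) (F : MvPolynomial σ k) :
    KaehlerDifferential.D k K (MvPolynomial.aeval p F) =
      ∑ i, MvPolynomial.aeval p (MvPolynomial.pderiv i F) • KaehlerDifferential.D k K (p i) := by
  classical
  induction F using MvPolynomial.induction_on with
  | C a =>
    rw [MvPolynomial.aeval_C, Derivation.map_algebraMap]
    simp
  | add F G hF hG =>
    simp only [map_add, hF, hG, add_smul, Finset.sum_add_distrib]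
  | mul_X F j hF =>
    rw [map_mul, MvPolynomial.aeval_X, Derivation.leibniz, hF]
    have : ∀ i, MvPolynomial.aeval p (MvPolynomial.pderiv i (F * MvPolynomial.X j)) •
        KaehlerDifferential.D k K (p i) = (if i = j then
          MvPolynomial.aeval p F • KaehlerDifferential.D k K (p j) else 0) +
        p j • (MvPolynomial.aeval p (MvPolynomial.pderiv i F) •
          KaehlerDifferential.D k K (p i)) := by
      intro i
      rw [MvPolynomial.pderiv_mul, MvPolynomial.pderiv_X]
      by_cases hij : i = j
      · subst hij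
        simp only [Pi.single_eq_same, mul_one, map_add, map_mul, MvPolynomial.aeval_X, if_true,
          add_smul, mul_smul]
        rw [smul_comm, add_comm]
      · rw [Pi.single_eq_of_ne (Ne.symm hij) , if_neg hij, mul_zero, add_zero, zero_add, map_mul,
          MvPolynomial.aeval_X, mul_smul, smul_comm]
    rw [Finset.sum_congr rfl fun i _ => this i, Finset.sum_add_distrib, Finset.sum_ite_eq'
      Finset.univ j, if_pos (Finset.mem_univ _), Finset.smul_sum]

end Pool.Agent.Helper190_Can
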