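import Pool.Agent.Helper190_Can.Gr

set_option linter.unusedSimpArgs false
set_option linter.unusedSectionVars false
set_option linter.unusedVariables false

open Module MvPolynomial DirectSum
open Pool.Agent.Helper190_CoarseTwo (wt zdeg Cox piece ex nf nf_surj nf_inj root_sq qd)

noncomputable section

namespace Pool.Agent.Helper190_Can

variable {R : Type} [CommRing R] (α : Bool → Lt → R)

/-- shorthand -/
abbrev el (i : Ix) : Cox (pol true α) (pol false α) :=
  elt (pol true α) (pol false α) i.1.1 i.1.2

lemma el_linearIndependent : LinearIndependent R (el α) := by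
  rw [linearIndependent_iff]
  intro l hl
  ext j
  have h1 := congrArg (pc (pol true α) (pol false α) j.1.1 (mexp j.1.1 j.1.2)) hl
  rw [map_zero, Finsupp.linearCombination_apply, Finsupp.sum, map_sum,
    Finset.sum_eq_single j] at h1
  · rw [map_smul, pc_elt _ _ j.2 j.2, if_pos ⟨rfl, rfl⟩, smul_eq_mul, mul_one] at h1
    simpa using h1
  · intro i _ hi
    rw [map_smul, pc_elt _ _ i.2 j.2, if_neg, smul_zero]
    rintro ⟨h2, h3⟩
    exact hi (Subtype.ext (Prod.ext h2 h3))
  · intro h
    rw [Finsupp.notMem_support_iff.mp h, zero_smul, map_zero]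

/-- the span of the basis elements -/
def canSpan : Submodule R (Cox (pol true α) (pol false α)) := Submodule.span R (Set.range (el α))

lemma elt_mem_span {d : Bool} {v : Lt} (hv : inD d v) :
    elt (pol true α) (pol false α) d v ∈ canSpan α :=
  Submodule.subset_span ⟨⟨(d, v), hv⟩, rfl⟩

lemma canSpan_one : (1 : Cox (pol true α) (pol false α)) ∈ canSpan α := by
  rw [← elt_one]
  exact elt_mem_span α (d := false) inS_zero

lemma canSpan_mul (x y : Cox (pol true α) (pol false α)) (hx : x ∈ canSpan α)
    (hy : y ∈ canSpan α) : x * y ∈ canSpan α := by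
  refine Submodule.span_induction (p := fun x _ => x * y ∈ canSpan α) ?_ ?_ ?_ ?_ hx
  swap
  · rw [zero_mul]; exact Submodule.zero_mem _
  swap
  · intro x x' _ _ h1 h2
    rw [add_mul]; exact Submodule.add_mem _ h1 h2
  swap
  · intro r x _ h1
    rw [smul_mul_assoc]; exact Submodule.smul_mem _ _ h1
  rintro _ ⟨⟨⟨d, v⟩, hv⟩, rfl⟩
  refine Submodule.span_induction (p := fun y _ => el α ⟨(d, v), hv⟩ * y ∈ canSpan α)
    ?_ ?_ ?_ ?_ hy
  swap
  · rw [mul_zero]; exact Submodule.zero_mem _
  swap
  · intro x x' _ _ h1 h2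
    rw [mul_add]; exact Submodule.add_mem _ h1 h2
  swap
  · intro r x _ h1
    rw [mul_smul_comm]; exact Submodule.smul_mem _ _ h1
  rintro _ ⟨⟨⟨d', v'⟩, hv'⟩, rfl⟩
  change inD d v at hv
  change inD d' v' at hv'
  change elt _ _ d v * elt _ _ d' v' ∈ _
  cases d
  · rw [elt_mulS _ _ hv hv']
    exact elt_mem_span α (inD_add hv hv')
  · cases d'
    · rw [mul_comm (elt _ _ true v), elt_mulS _ _ hv' hv]
      exact elt_mem_span α (inD_add hv' hv)
    · rw [eq_neg_of_add_eq_zero_left (elt_mulM α hv hv')]
      exact Submodule.neg_mem _ (Submodule.sum_mem _ fun d _ => Submodule.sum_mem _ fun κ hκ =>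
        Submodule.smul_mem _ _ (elt_mem_span α (inD_mm hv hv' (mem_KF.mp hκ))))

/-- the canonical ring as a subalgebra of the Cox ring -/
def canSub : Subalgebra R (Cox (pol true α) (pol false α)) :=
  (canSpan α).toSubalgebra (canSpan_one α) (canSpan_mul α)

/-- the basis of the canonical ring -/
def canBasis : Basis Ix R (canSub α) :=
  Basis.mk (v := fun i => (⟨el α i, elt_mem_span α i.2⟩ : canSub α))
    (LinearIndependent.of_comp (canSub α).val.toLinearMap (el_linearIndependent α)) (by
      rintro ⟨x, hx⟩ _
      change x ∈ canSpan α at hx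
      have h1 : ∀ y (hy : y ∈ canSpan α), (⟨y, hy⟩ : canSub α) ∈ Submodule.span R
          (Set.range fun i => (⟨el α i, elt_mem_span α i.2⟩ : canSub α)) := by
        intro y hy
        refine Submodule.span_induction (p := fun y hy => (⟨y, hy⟩ : canSub α) ∈ Submodule.span R
          (Set.range fun i => (⟨el α i, elt_mem_span α i.2⟩ : canSub α))) ?_ ?_ ?_ ?_ hy
        · rintro _ ⟨i, rfl⟩
          exact Submodule.subset_span ⟨i, rfl⟩
        · exact Submodule.zero_mem _
        · intro a b ha hb h1 h2
          exact Submodule.add_mem _ h1 h2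
        · intro r a ha h1
          exact Submodule.smul_mem _ r h1
      exact h1 x hx)

lemma canBasis_coe (i : Ix) : ((canBasis α i : canSub α) : Cox (pol true α) (pol false α)) =
    el α i := by
  rw [canBasis, Basis.mk_apply]

lemma EE_can_coe {d : Bool} {v : Lt} (hv : inD d v) :
    ((EE (canBasis α) d v : canSub α) : Cox (pol true α) (pol false α)) =
      elt (pol true α) (pol false α) d v := by
  rw [EE_of hv, canBasis_coe]

lemma canTab : Tab (canBasis α) α := by
  constructor
  · apply Subtype.ext
    rw [EE_can_coe α (show inD false 0 from inS_zero), elt_one]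
    rfl
  · intro d σ μ hσ hμ
    apply Subtype.ext
    rw [MulMemClass.coe_mul, EE_can_coe α (show inD false σ from hσ), EE_can_coe α hμ,
      EE_can_coe α (inD_add hσ hμ), elt_mulS _ _ hσ hμ]
  · intro μ ν hμ hν
    apply Subtype.ext
    rw [MulMemClass.coe_mul, EE_can_coe α (show inD true μ from hμ),
      EE_can_coe α (show inD true ν from hν), eq_neg_of_add_eq_zero_left (elt_mulM α hμ hν),
      NegMemClass.coe_neg, AddSubmonoidClass.coe_finsetSum]
    congr 1
    refine Finset.sum_congr rfl fun d _ => ?_
    rw [AddSubmonoidClass.coe_finsetSum]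
    refine Finset.sum_congr rfl fun κ hκ => ?_
    rw [SetLike.val_smul, EE_can_coe α (inD_mm hμ hν (mem_KF.mp hκ))]

/-- the canonical ring of `S_{a,b}` -/
def Can : GrAlg R := GrAlg.ofTab (canTab α)

lemma hom_ofTab {A : Type} [CommRing A] [Algebra R A] {B : Basis Ix R A} {α : Bool → Lt → R}
    (h : Tab B α) : HomB (grB B) B := fun _ _ hv => mem_grB B hv

/-! ### finite generation -/

/-- the generators of the module part -/
def m11 : Lt := (3, 1, 1)

lemma genM_aux {v : Lt} (h : inM v) :
    ∃ m, (m = m00 ∨ m = m20 ∨ m = m02 ∨ m = m22 ∨ m = m11) ∧ inM m ∧ inS (v - m) := by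
  obtain ⟨n, i, j⟩ := v
  simp only [inM] at h
  by_cases h1 : i ≤ 2 * n - 6
  · by_cases h2 : j ≤ 2 * n - 6
    · exact ⟨m00, by simp, by decide, by simp only [inS, m00, Prod.mk_sub_mk]; omega⟩
    · by_cases h3 : 2 ≤ j
      · exact ⟨m02, by simp, by decide, by simp only [inS, m02, Prod.mk_sub_mk]; omega⟩
      · exfalso; omega
  · by_cases h2 : j ≤ 2 * n - 6
    · by_cases h3 : 2 ≤ i
      · exact ⟨m20, by simp, by decide, by simp only [inS, m20, Prod.mk_sub_mk]; omega⟩
      · exfalso; omega
    · by_cases h3 : 2 ≤ i ∧ 2 ≤ j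
      · exact ⟨m22, by simp, by decide, by simp only [inS, m22, Prod.mk_sub_mk]; omega⟩
      · obtain ⟨g1, g2, g3, g4, g5⟩ := h
        have hn : n ≤ 3 := by omega
        have hn2 : 2 ≤ n := by omega
        have hn3 : n = 3 := by
          rcases (by omega : n = 2 ∨ n = 3) with rfl | rfl
          · exfalso; omega
          · rfl
        subst hn3
        have hi : i = 1 := by omega
        have hj : j = 1 := by omega
        subst hi hj
        exact ⟨m11, by simp, by decide, by decide⟩

theorem finiteType_of_tab {A : Type} [CommRing A] [Algebra R A] {B : Basis Ix R A}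
    {α : Bool → Lt → R} (h : Tab B α) : Algebra.FiniteType R A := by
  classical
  let G : Finset A := {EE B false e10, EE B false e01, EE B false e12, EE B false e21,
    EE B false c00, EE B false c40, EE B false c04, EE B false c44, EE B true m00,
    EE B true m20, EE B true m02, EE B true m22, EE B true m11}
  refine ⟨⟨G, ?_⟩⟩
  rw [eq_top_iff]
  rintro x -
  have hS : ∀ σ, inS σ → EE B false σ ∈ Algebra.adjoin R (G : Set A) := by
    intro σ hσ
    refine gen_ind (P := fun σ => EE B false σ ∈ Algebra.adjoin R (G : Set A)) ?_ ?_ σ hσ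
    · rw [h.one]; exact Subalgebra.one_mem _
    · intro g σ hg hσ hh
      rw [← h.mulS false g σ hg.inS hσ]
      refine Subalgebra.mul_mem _ (Algebra.subset_adjoin ?_) hh
      rcases hg with rfl | rfl | rfl | rfl | rfl | rfl | rfl | rfl <;> simp [G]
  refine mem_span_EE (B := B) (P := fun x => x ∈ Algebra.adjoin R (G : Set A)) ?_ ?_ ?_ ?_ x
  · exact Subalgebra.zero_mem _
  · intro x y hx hy; exact Subalgebra.add_mem _ hx hy
  · intro r x hx; exact Subalgebra.smul_mem _ hx r
  · intro d v hv
    cases d
    · exact hS v hv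
    · obtain ⟨m, hm, hmM, hmS⟩ := genM_aux hv
      have e1 : (v - m) + m = v := by abel
      rw [← e1, ← h.mulS true (v - m) m hmS hmM]
      refine Subalgebra.mul_mem _ (hS _ hmS) (Algebra.subset_adjoin ?_)
      rcases hm with rfl | rfl | rfl | rfl | rfl <;> simp [G]

end Pool.Agent.Helper190_Can
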