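import Pool.Agent.Helper190_Can.Lift2
import Pool.Agent.Helper190_CoarseTwo.Main

set_option linter.unusedSimpArgs false
set_option linter.unusedSectionVars false

open Module MvPolynomial
open Pool.Agent.Helper190_CoarseTwo (wt zdeg Cox piece ex nf nf_surj nf_inj root_sq qd)

noncomputable section

namespace Pool.Agent.Helper190_Can

variable {R : Type} [CommRing R]

/-- exponents of the basis monomials -/
def mexp (d : Bool) (v : Lt) : Fin 4 →₀ ℕ :=
  ex (2 * v.1 - (cond d 4 0) - v.2.1).toNat v.2.1.toNat (2 * v.1 - (cond d 4 0) - v.2.2).toNat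
    v.2.2.toNat

/-- exponents of the coefficient monomials of `b` (`false`) and `a` (`true`) -/
def kexp (d : Bool) (κ : Lt) : Fin 4 →₀ ℕ :=
  ex ((cond d 4 8) - κ.2.1).toNat κ.2.1.toNat ((cond d 4 8) - κ.2.2).toNat κ.2.2.toNat

/-- the polynomials `b` (`false`) and `a` (`true`) with given coefficients -/
def pol (d : Bool) (α : Bool → Lt → R) : MvPolynomial (Fin 4) R :=
  ∑ κ ∈ KF d, monomial (kexp d κ) (α d κ)

/-- the root -/
abbrev zz (a b : MvPolynomial (Fin 4) R) : Cox a b := AdjoinRoot.root _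

/-- the basis elements in the Cox ring -/
def elt (a b : MvPolynomial (Fin 4) R) (d : Bool) (v : Lt) : Cox a b :=
  AdjoinRoot.of _ (monomial (mexp d v) 1) * cond d (zz a b) 1

lemma mexp_add {d : Bool} {σ μ : Lt} (hσ : inS σ) (hμ : inD d μ) :
    mexp false σ + mexp d μ = mexp d (σ + μ) := by
  obtain ⟨n, i, j⟩ := σ
  obtain ⟨n', i', j'⟩ := μ
  apply Helper190_CoarseTwo.ext4 <;> cases d <;>
    simp only [mexp, inD, inS, inM, Finsupp.add_apply, Helper190_CoarseTwo.ex_zero,
      Helper190_CoarseTwo.ex_one, Helper190_CoarseTwo.ex_two, Helper190_CoarseTwo.ex_three,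
      Prod.mk_add_mk, cond_true, cond_false] at * <;> omega

lemma mexp_mm {d : Bool} {μ ν κ : Lt} (hμ : inM μ) (hν : inM ν) (hκ : inK d κ) :
    mexp true μ + mexp true ν + kexp d κ = mexp d (μ + ν + κ) := by
  obtain ⟨n, i, j⟩ := μ
  obtain ⟨n', i', j'⟩ := ν
  obtain ⟨n'', i'', j''⟩ := κ
  apply Helper190_CoarseTwo.ext4 <;> cases d <;>
    simp only [mexp, kexp, inK, inM, Finsupp.add_apply, Helper190_CoarseTwo.ex_zero,
      Helper190_CoarseTwo.ex_one, Helper190_CoarseTwo.ex_two, Helper190_CoarseTwo.ex_three,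
      Prod.mk_add_mk, cond_true, cond_false] at * <;> omega

lemma elt_mulS (a b : MvPolynomial (Fin 4) R) {d : Bool} {σ μ : Lt} (hσ : inS σ)
    (hμ : inD d μ) : elt a b false σ * elt a b d μ = elt a b d (σ + μ) := by
  simp only [elt, cond_false, mul_one]
  rw [← mul_assoc, ← map_mul, monomial_mul, mul_one, mexp_add hσ hμ]

lemma elt_one (a b : MvPolynomial (Fin 4) R) : elt a b false 0 = 1 := by
  have : mexp false 0 = 0 := by
    apply Helper190_CoarseTwo.ext4 <;> simp [mexp]
  simp only [elt, this, cond_false, mul_one]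
  have h1 : (monomial (0 : Fin 4 →₀ ℕ)) (1 : R) = 1 := rfl
  rw [h1, map_one]

lemma smul_eq_of (a b : MvPolynomial (Fin 4) R) (r : R) (x : Cox a b) :
    r • x = AdjoinRoot.of _ (C r) * x := by
  rw [Algebra.smul_def]; rfl

lemma elt_mulM (α : Bool → Lt → R) {μ ν : Lt} (hμ : inM μ) (hν : inM ν) :
    elt (pol true α) (pol false α) true μ * elt (pol true α) (pol false α) true ν +
      ∑ d, ∑ κ ∈ KF d, α d κ • elt (pol true α) (pol false α) d (μ + ν + κ) = 0 := by
  set a := pol true α with ha
  set b := pol false α with hb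
  have key : ∀ d, ∑ κ ∈ KF d, α d κ • elt a b d (μ + ν + κ) =
      AdjoinRoot.of _ (monomial (mexp true μ + mexp true ν) 1 * pol d α) * cond d (zz a b) 1 := by
    intro d
    rw [pol, Finset.mul_sum, map_sum, Finset.sum_mul]
    refine Finset.sum_congr rfl fun κ hκ => ?_
    rw [monomial_mul, one_mul, smul_eq_of, elt, ← mul_assoc, ← map_mul, C_mul_monomial, mul_one,
      mexp_mm hμ hν (mem_KF.mp hκ)]
  have hr := root_sq a b
  simp only [nf, map_neg] at hr
  rw [Fintype.sum_bool, key, key]
  simp only [elt, cond_true, cond_false, ← ha, ← hb, map_mul]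
  have e : (AdjoinRoot.of (qd a b)) (monomial (mexp true μ + mexp true ν) 1) =
      AdjoinRoot.of (qd a b) (monomial (mexp true μ) 1) *
      AdjoinRoot.of (qd a b) (monomial (mexp true ν) 1) := by
    rw [← map_mul, monomial_mul, mul_one]
  rw [e]
  linear_combination (AdjoinRoot.of (qd a b) (monomial (mexp true μ) 1) *
      AdjoinRoot.of (qd a b) (monomial (mexp true ν) 1)) * hr

/-! ### coordinates on the Cox ring -/

/-- the normal form as a linear equivalence -/
def nfE (a b : MvPolynomial (Fin 4) R) :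
    (MvPolynomial (Fin 4) R × MvPolynomial (Fin 4) R) ≃ₗ[R] Cox a b :=
  LinearEquiv.ofBijective
    { toFun := fun x => nf a b x.1 x.2
      map_add' := fun x y => by
        simp only [nf, Prod.fst_add, Prod.snd_add, map_add]; ring
      map_smul' := fun r x => by
        simp only [nf, Prod.smul_fst, Prod.smul_snd, MvPolynomial.smul_eq_C_mul, map_mul,
          RingHom.id_apply, smul_eq_of]
        ring }
    ⟨fun x y h => Prod.ext (nf_inj h).1 (nf_inj h).2, fun y => by
      obtain ⟨p, q, h⟩ := nf_surj a b y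
      exact ⟨(p, q), h.symm⟩⟩

lemma nfE_apply (a b : MvPolynomial (Fin 4) R) (p q : MvPolynomial (Fin 4) R) :
    nfE a b (p, q) = nf a b p q := rfl

/-- the coordinate functional -/
def pc (a b : MvPolynomial (Fin 4) R) (d : Bool) (e : Fin 4 →₀ ℕ) : Cox a b →ₗ[R] R :=
  ((lcoeff R e).comp (cond d (LinearMap.snd R _ _) (LinearMap.fst R _ _))).comp
    (nfE a b).symm.toLinearMap

lemma pc_nf (a b p q : MvPolynomial (Fin 4) R) (d : Bool) (e : Fin 4 →₀ ℕ) :
    pc a b d e (nf a b p q) = coeff e (cond d q p) := by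
  have : (nfE a b).symm (nf a b p q) = (p, q) := by
    rw [LinearEquiv.symm_apply_eq]; rfl
  simp only [pc, LinearMap.comp_apply, LinearEquiv.coe_coe, this]
  cases d <;> rfl

lemma elt_eq_nf (a b : MvPolynomial (Fin 4) R) (d : Bool) (v : Lt) :
    elt a b d v = nf a b (cond d 0 (monomial (mexp d v) 1)) (cond d (monomial (mexp d v) 1) 0) := by
  cases d <;> simp [elt, nf]

lemma mexp_inj {d : Bool} {v w : Lt} (hv : inD d v) (hw : inD d w) :
    mexp d v = mexp d w ↔ v = w := by
  constructor
  · intro h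
    have h0 := DFunLike.congr_fun h 0
    have h1 := DFunLike.congr_fun h 1
    have h3 := DFunLike.congr_fun h 3
    obtain ⟨n, i, j⟩ := v
    obtain ⟨n', i', j'⟩ := w
    simp only [mexp, Helper190_CoarseTwo.ex_zero, Helper190_CoarseTwo.ex_one,
      Helper190_CoarseTwo.ex_three] at h0 h1 h3
    simp only [Prod.mk.injEq]
    cases d <;> simp only [inD, inS, inM, cond_true, cond_false] at * <;> omega
  · rintro rfl; rfl

lemma pc_elt (a b : MvPolynomial (Fin 4) R) {d d' : Bool} {v w : Lt} (hv : inD d v)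
    (hw : inD d' w) : pc a b d' (mexp d' w) (elt a b d v) = if d = d' ∧ v = w then 1 else 0 := by
  rw [elt_eq_nf, pc_nf]
  cases d <;> cases d' <;> simp only [cond_true, cond_false, coeff_zero, coeff_monomial]
  · simp [mexp_inj hv hw]
  · simp
  · simp
  · simp [mexp_inj hv hw]

end Pool.Agent.Helper190_Can
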