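import Pool.Agent.Helper190_CoarseTwo.Defs

open Module MvPolynomial
open Pool.Agent.Helper190_CoarseTwo (wt zdeg Cox piece)

noncomputable section

namespace Pool.Agent.Helper190_Can

/-- A commutative `ℕ`-graded `R`-algebra, all of whose graded pieces are free of finite rank. -/
structure GrAlg (R : Type) [CommRing R] where
  A : Type
  [cr : CommRing A]
  [alg : Algebra R A]
  gr : ℕ → Submodule R A
  [graded : GradedAlgebra gr]
  free : ∀ n, Module.Free R (gr n)
  finite : ∀ n, Module.Finite R (gr n)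

attribute [instance] GrAlg.cr GrAlg.alg GrAlg.graded

/-- The elements `v i` form an `R`-basis of the graded piece of degree `n` of `X`. -/
def GrAlg.IsBasis {R : Type} [CommRing R] (X : GrAlg R) (n : ℕ) {k : ℕ} (v : Fin k → X.A) :
    Prop :=
  LinearIndependent R v ∧ Submodule.span R (Set.range v) = X.gr n

/-- `Y` is the base change of `X` along `f : R →+* S`: there is a ring homomorphism `X.A →+* Y.A`
over `f` which, in each degree, maps some `R`-basis of the graded piece of `X` onto an `S`-basis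
of the graded piece of `Y`. For `f` the identity this says that `X` and `Y` are isomorphic. -/
def IsBC {R S : Type} [CommRing R] [CommRing S] (f : R →+* S) (X : GrAlg R) (Y : GrAlg S) :
    Prop :=
  ∃ Φ : X.A →+* Y.A, (∀ r, Φ (algebraMap R X.A r) = algebraMap S Y.A (f r)) ∧
    ∀ n, ∃ (k : ℕ) (v : Fin k → X.A), X.IsBasis n v ∧ Y.IsBasis n fun i => Φ (v i)

/-- `Y` is isomorphic to the graded algebra `⨁ₙ Cox(a,b)_{nκ}` with `κ = (2,2,1)`, the canonical
ring of the surface `S_{a,b} = {z² + a z + b = 0} / μ₂`. -/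
def IsCan {R : Type} [CommRing R] (a b : MvPolynomial (Fin 4) R) (Y : GrAlg R) : Prop :=
  ∃ Φ : Y.A →ₐ[R] Cox a b, Function.Injective Φ ∧
    ∀ n : ℕ, (Φ '' (Y.gr n : Set Y.A)) = piece 2 a b (n • ((2, 2, 1) : ℤ × ℤ × ZMod 2))

section
variable {R : Type} [CommRing R] {X : GrAlg R} {n : ℕ} {k : ℕ}

lemma GrAlg.IsBasis.of_basis (v : Basis (Fin k) R (X.gr n)) : X.IsBasis n fun i => (v i : X.A) := by
  constructor
  · exact v.linearIndependent.map' (X.gr n).subtype (Submodule.ker_subtype _)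
  · have h1 : (Set.range fun i => (v i : X.A)) = (X.gr n).subtype '' Set.range v := by
      rw [← Set.range_comp]; rfl
    rw [h1, ← Submodule.map_span, v.span_eq, Submodule.map_top, Submodule.range_subtype]

lemma GrAlg.IsBasis.exists_basis {v : Fin k → X.A} (h : X.IsBasis n v) :
    ∃ w : Basis (Fin k) R (X.gr n), ∀ i, (w i : X.A) = v i := by
  refine ⟨(Basis.span h.1).map (LinearEquiv.ofEq _ _ h.2), fun i => ?_⟩
  rw [Basis.map_apply]
  change ((Basis.span h.1 i : _) : X.A) = v i
  exact congrArg Subtype.val (Basis.span_apply h.1 i)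

end

lemma isBC_iff {R S : Type} [CommRing R] [CommRing S] {f : R →+* S} {X : GrAlg R}
    {Y : GrAlg S} : IsBC f X Y ↔
    ∃ Φ : X.A →+* Y.A, (∀ r, Φ (algebraMap R X.A r) = algebraMap S Y.A (f r)) ∧
    ∀ n, ∃ (k : ℕ) (v : Basis (Fin k) R (X.gr n)) (w : Basis (Fin k) S (Y.gr n)),
      ∀ i, Φ (v i) = w i := by
  constructor
  · rintro ⟨Φ, h1, h2⟩
    refine ⟨Φ, h1, fun n => ?_⟩
    obtain ⟨k, v, hv, hw⟩ := h2 n
    obtain ⟨v', hv'⟩ := hv.exists_basis
    obtain ⟨w', hw'⟩ := hw.exists_basis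
    exact ⟨k, v', w', fun i => by rw [hv', hw']⟩
  · rintro ⟨Φ, h1, h2⟩
    refine ⟨Φ, h1, fun n => ?_⟩
    obtain ⟨k, v, w, hvw⟩ := h2 n
    refine ⟨k, fun i => v i, .of_basis v, ?_⟩
    have : (fun i => Φ (v i)) = fun i => (w i : Y.A) := funext hvw
    rw [this]
    exact .of_basis w

end Pool.Agent.Helper190_Can
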