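import Pool.Agent.Helper190_Can.IsCanOf

set_option linter.unusedSimpArgs false
set_option linter.unusedSectionVars false

open Module MvPolynomial DirectSum
open Pool.Agent.Helper190_CoarseTwo (wt zdeg Cox piece ex nf nf_surj nf_inj root_sq qd)

noncomputable section

namespace Pool.Agent.Helper190_Can

variable {R A : Type} [CommRing R] [CommRing A] [Algebra R A]

/-- indices of degree `n` -/
abbrev Ixn (n : ℕ) : Type := {i : Ix // i.1.2.1.toNat = n}

instance (n : ℕ) : Finite (Ixn n) := by
  let f : Ixn n → Bool × (box (n : ℤ)) := fun i => (i.1.1.1, ⟨i.1.1.2, by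
    rw [mem_box i.1.2]
    have h0 := inD_nonneg i.1.2
    have h1 := i.2
    omega⟩)
  refine Finite.of_injective f ?_
  rintro ⟨⟨⟨d, v⟩, h⟩, h1⟩ ⟨⟨⟨d', v'⟩, h'⟩, h1'⟩ he
  simp only [f, Prod.mk.injEq, Subtype.mk.injEq] at he
  obtain ⟨rfl, rfl⟩ := he
  rfl

/-- the graded pieces of an algebra with a basis -/
def grB (B : Basis Ix R A) (n : ℕ) : Submodule R A :=
  Submodule.span R (Set.range fun i : Ixn n => B i.1)

/-- the induced basis of a graded piece -/
def basB (B : Basis Ix R A) (n : ℕ) : Basis (Ixn n) R (grB B n) :=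
  Basis.span (v := fun i : Ixn n => B i.1) (B.linearIndependent.comp _ Subtype.val_injective)

lemma basB_coe (B : Basis Ix R A) (n : ℕ) (i : Ixn n) : (basB B n i : A) = B i.1 := by
  exact congrArg Subtype.val (Basis.span_apply (v := fun i : Ixn n => B i.1)
    (B.linearIndependent.comp _ Subtype.val_injective) i)

lemma mem_grB (B : Basis Ix R A) {d : Bool} {v : Lt} (hv : inD d v) :
    EE B d v ∈ grB B v.1.toNat := by
  rw [EE_of hv]
  exact Submodule.subset_span ⟨⟨⟨(d, v), hv⟩, rfl⟩, rfl⟩

lemma mem_grB' (B : Basis Ix R A) {d : Bool} {v : Lt} {n : ℕ} (hv : inD d v) (hn : v.1 = n) :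
    EE B d v ∈ grB B n := by
  have := mem_grB B hv
  rwa [hn, Int.toNat_natCast] at this

lemma grB_ind {B : Basis Ix R A} {n : ℕ} {P : A → Prop} (h0 : P 0)
    (hadd : ∀ x y, P x → P y → P (x + y)) (hs : ∀ (r : R) x, P x → P (r • x))
    (hE : ∀ d v, inD d v → v.1 = n → P (EE B d v)) {x : A} (hx : x ∈ grB B n) : P x := by
  refine Submodule.span_induction (p := fun x _ => P x) ?_ h0 (fun x y _ _ hx hy => hadd x y hx hy)
    (fun r x _ hx => hs r x hx) hx
  rintro _ ⟨⟨i, hi⟩, rfl⟩
  change P (B i)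
  rw [EE_ix]
  refine hE _ _ i.2 ?_
  have := inD_nonneg i.2
  omega

lemma grB_one {B : Basis Ix R A} {α : Bool → Lt → R} (h : Tab B α) : (1 : A) ∈ grB B 0 := by
  rw [← h.one]
  exact mem_grB B (d := false) (v := 0) inS_zero

lemma grB_mul {B : Basis Ix R A} {α : Bool → Lt → R} (h : Tab B α) {m n : ℕ} {x y : A}
    (hx : x ∈ grB B m) (hy : y ∈ grB B n) : x * y ∈ grB B (m + n) := by
  refine grB_ind (P := fun x => x * y ∈ grB B (m + n)) ?_ ?_ ?_ ?_ hx
  · rw [zero_mul]; exact Submodule.zero_mem _
  · intro x x' h1 h2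
    rw [add_mul]; exact Submodule.add_mem _ h1 h2
  · intro r x h1
    rw [smul_mul_assoc]; exact Submodule.smul_mem _ _ h1
  intro d v hv hvm
  refine grB_ind (P := fun y => EE B d v * y ∈ grB B (m + n)) ?_ ?_ ?_ ?_ hy
  · rw [mul_zero]; exact Submodule.zero_mem _
  · intro x x' h1 h2
    rw [mul_add]; exact Submodule.add_mem _ h1 h2
  · intro r x h1
    rw [mul_smul_comm]; exact Submodule.smul_mem _ _ h1
  intro d' v' hv' hvn
  cases d
  · rw [h.mulS d' v v' hv hv']
    exact mem_grB' B (inD_add hv hv') (by rw [Prod.fst_add, hvm, hvn]; push_cast; rfl)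
  · cases d'
    · rw [mul_comm, h.mulS true v' v hv' hv]
      exact mem_grB' B (inD_add hv' hv) (by rw [Prod.fst_add, hvm, hvn]; push_cast; ring)
    · rw [h.mulM v v' hv hv']
      refine Submodule.neg_mem _ (Submodule.sum_mem _ fun d _ => Submodule.sum_mem _ fun κ hκ =>
        Submodule.smul_mem _ _ ?_)
      have hκ' := mem_KF.mp hκ
      refine mem_grB' B (inD_mm hv hv' hκ') ?_
      have h0 : κ.1 = 0 := by cases d <;> exact hκ'.1
      rw [Prod.fst_add, Prod.fst_add, hvm, hvn, h0]; push_cast; ring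

/-- the decomposition map -/
def decB (B : Basis Ix R A) : A →ₗ[R] ⨁ n, grB B n :=
  B.constr R fun i => DirectSum.lof R ℕ (fun n => grB B n) i.1.2.1.toNat
    ⟨B i, Submodule.subset_span ⟨⟨i, rfl⟩, rfl⟩⟩

/-- the grading -/
@[reducible] def gradedB {B : Basis Ix R A} {α : Bool → Lt → R} (h : Tab B α) :
    GradedAlgebra (grB B) :=
  { one_mem := grB_one h
    mul_mem := fun _ _ _ _ => grB_mul h
    toDecomposition := Decomposition.ofLinearMap _ (decB B) (by
      apply B.ext
      intro i
      simp [decB]) (by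
      apply DirectSum.linearMap_ext
      intro n
      apply (basB B n).ext
      intro i
      obtain ⟨i, hi⟩ := i
      subst hi
      rw [LinearMap.comp_apply, LinearMap.comp_apply, DirectSum.coeLinearMap_lof]
      rw [basB_coe]
      change decB B (B i) = _
      rw [decB, Basis.constr_basis, LinearMap.id_comp]
      congr 1
      apply Subtype.ext
      rw [basB_coe]) }

/-- the graded algebra with a basis -/
def GrAlg.ofTab {B : Basis Ix R A} {α : Bool → Lt → R} (h : Tab B α) : GrAlg R :=
  letI := gradedB h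
  { A := A
    gr := grB B
    free := fun n => Module.Free.of_basis (basB B n)
    finite := fun n => Module.Finite.of_basis (basB B n) }

end Pool.Agent.Helper190_Can
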