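import Pool.Agent.Helper190_Can.ToCox

set_option linter.unusedSimpArgs false
set_option linter.unusedSectionVars false

open Module MvPolynomial
open Pool.Agent.Helper190_CoarseTwo (wt zdeg Cox piece ex nf nf_surj nf_inj root_sq qd)

noncomputable section

namespace Pool.Agent.Helper190_Can

variable {R : Type} [CommRing R]

/-- the polynomial with given coefficients in degree `n` -/
def polF (n : ℕ) (d : Bool) (φ : Lt → R) : MvPolynomial (Fin 4) R :=
  ∑ v ∈ box n, if inD d v then monomial (mexp d v) (φ v) else 0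

lemma polF_hom (n : ℕ) (d : Bool) (φ : Lt → R) : (polF n d φ).IsWeightedHomogeneous wt
    (n • ((2, 2, 1) : ℤ × ℤ × ZMod 2) - cond d (zdeg 2) 0) := by
  rw [polF]
  refine (weightedHomogeneousSubmodule R wt _).sum_mem fun v hv => ?_
  split_ifs with h
  · rw [mem_weightedHomogeneousSubmodule]
    apply isWeightedHomogeneous_monomial
    rw [weight_mexp h, box_fst hv]
    simp
  · exact Submodule.zero_mem _

lemma exps_of_hom {n : ℕ} {d : Bool} {e : Fin 4 →₀ ℕ}
    (he : Finsupp.weight wt e = n • ((2, 2, 1) : ℤ × ℤ × ZMod 2) - cond d (zdeg 2) 0) :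
    inD d ((n : ℤ), (e 1 : ℤ), (e 3 : ℤ)) ∧ mexp d ((n : ℤ), (e 1 : ℤ), (e 3 : ℤ)) = e := by
  rw [Helper190_CoarseTwo.weight_wt, nsmul_kappa] at he
  have hpar : ∀ (x y : ℕ) (ε : ℕ), (x : ZMod 2) + y = ε → (x + y) % 2 = ε % 2 := by
    intro x y ε hxy
    rw [← Nat.cast_add] at hxy
    exact (ZMod.natCast_eq_natCast_iff' _ _ _).mp hxy
  cases d
  · simp only [cond_false, sub_zero, Prod.mk.injEq] at he
    obtain ⟨h1, h2, h3⟩ := he
    have h4 := hpar _ _ _ h3
    constructor
    · simp only [inD, inS]; omega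
    · apply Helper190_CoarseTwo.ext4 <;> simp only [mexp, Helper190_CoarseTwo.ex_zero,
        Helper190_CoarseTwo.ex_one, Helper190_CoarseTwo.ex_two, Helper190_CoarseTwo.ex_three,
        cond_false] <;> omega
  · simp only [cond_true, zdeg, Prod.mk_sub_mk, Prod.mk.injEq] at he
    obtain ⟨h1, h2, h3⟩ := he
    rw [eq_sub_iff_add_eq] at h3
    have h4 := hpar (e 1 + e 3) 1 n (by push_cast; exact h3)
    push_cast at h1 h2
    constructor
    · simp only [inD, inM]; omega
    · apply Helper190_CoarseTwo.ext4 <;> simp only [mexp, Helper190_CoarseTwo.ex_zero,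
        Helper190_CoarseTwo.ex_one, Helper190_CoarseTwo.ex_two, Helper190_CoarseTwo.ex_three,
        cond_true] <;> omega

lemma eq_polF {n : ℕ} {d : Bool} {p : MvPolynomial (Fin 4) R}
    (hp : p.IsWeightedHomogeneous wt
      (n • ((2, 2, 1) : ℤ × ℤ × ZMod 2) - cond d (zdeg 2) 0)) :
    polF n d (fun v => coeff (mexp d v) p) = p := by
  ext e
  rw [polF, coeff_sum]
  by_cases he : coeff e p = 0
  · rw [he]
    refine Finset.sum_eq_zero fun v _ => ?_
    split_ifs with h
    · rw [coeff_monomial]
      split_ifs with h2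
      · rw [h2, he]
      · rfl
    · rw [coeff_zero]
  · obtain ⟨h1, h2⟩ := exps_of_hom (hp he)
    rw [Finset.sum_eq_single ((n : ℤ), (e 1 : ℤ), (e 3 : ℤ))]
    · rw [if_pos h1, coeff_monomial, if_pos h2, h2]
    · intro v hv hne
      split_ifs with h
      · rw [coeff_monomial, if_neg]
        intro h3
        apply hne
        rw [← mexp_inj h h1, h3, h2]
      · rw [coeff_zero]
    · intro h
      exact absurd ((mem_box h1).mpr rfl) h

variable {A : Type} [CommRing A] [Algebra R A] {gr : ℕ → Submodule R A} [GradedAlgebra gr]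

lemma eq_bsum {B : Basis Ix R A} (hB : HomB gr B) {n : ℕ} {x : A} (hx : x ∈ gr n) :
    bsum B n (fun d v => cf B d v x) = x := by
  have h1 : ∀ d w, cf B d w (bsum B n (fun d v => cf B d v x) - x) = 0 := by
    intro d w
    rw [map_sub]
    by_cases hw : w.1 = n
    · rw [cf_bsum B _ hw]
      split_ifs with h
      · rw [sub_self]
      · rw [cf_out h, sub_zero]
    · have := bsum_gr hB (n : ℤ) (fun d v => cf B d v x)
      rw [Int.toNat_natCast] at this
      rw [cf_degree hB this d hw, cf_degree hB hx d hw, sub_zero]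
  rw [← sub_eq_zero]
  apply B.ext_elem
  intro i
  have := h1 i.1.1 i.1.2
  rw [cf, dif_pos i.2] at this
  rw [map_zero, Finsupp.zero_apply]
  exact this

variable {B : Basis Ix R A} {α : Bool → Lt → R} (h : Tab B α)

lemma toCox_bsum (n : ℕ) (φ : Bool → Lt → R) : toCox h (bsum B n φ) =
    nf _ _ (polF n false (φ false)) (polF n true (φ true)) := by
  have h1 : ∀ d v, toCox h (EE B d v) =
      if inD d v then elt (pol true α) (pol false α) d v else 0 := by
    intro d v
    split_ifs with hv
    · exact toCox_EE h hv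
    · rw [EE_out hv, map_zero]
  have h2 : ∀ d, ∑ v ∈ box (n : ℤ), φ d v • toCox h (EE B d v) =
      AdjoinRoot.of _ (polF n d (φ d)) * cond d (zz (pol true α) (pol false α)) 1 := by
    intro d
    rw [polF, map_sum, Finset.sum_mul]
    refine Finset.sum_congr rfl fun v _ => ?_
    rw [h1]
    split_ifs with hv
    · rw [smul_eq_of, elt, ← mul_assoc, ← map_mul, C_mul_monomial, mul_one]
    · simp
  rw [bsum, map_sum, Fintype.sum_bool]
  simp only [map_sum, map_smul]
  rw [h2, h2, nf, cond_true, cond_false, mul_one, add_comm]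

include h in
theorem image_gr (hB : HomB gr B) (n : ℕ) : (toCox h '' (gr n : Set A)) =
    piece 2 (pol true α) (pol false α) (n • ((2, 2, 1) : ℤ × ℤ × ZMod 2)) := by
  ext y
  constructor
  · rintro ⟨x, hx, rfl⟩
    rw [← eq_bsum hB hx, toCox_bsum]
    refine ⟨_, _, ?_, ?_, rfl⟩
    · have := polF_hom n false (fun v => cf B false v x)
      rwa [cond_false, sub_zero] at this
    · exact polF_hom n true (fun v => cf B true v x)
  · rintro ⟨p, q, hp, hq, hy⟩
    refine ⟨bsum B n (fun d v => coeff (mexp d v) (cond d q p)), ?_, ?_⟩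
    · have := bsum_gr hB (n : ℤ) (fun d v => coeff (mexp d v) (cond d q p))
      rwa [Int.toNat_natCast] at this
    · rw [toCox_bsum]
      simp only [cond_true, cond_false]
      rw [eq_polF (d := false) (by rwa [cond_false, sub_zero]), eq_polF (d := true) hq]
      exact hy.symm

theorem isCan_of_tab (Y : GrAlg R) {B : Basis Ix R Y.A} {α : Bool → Lt → R} (h : Tab B α)
    (hB : HomB Y.gr B) : IsCan (pol true α) (pol false α) Y :=
  ⟨toCox h, toCox_injective h, image_gr h hB⟩

end Pool.Agent.Helper190_Can
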