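import Pool.Agent.Helper190_Can.Uniq3

set_option linter.unusedSimpArgs false
set_option linter.unusedSectionVars false
set_option linter.unusedVariables false

open Module MvPolynomial
open Pool.Agent.Helper190_CoarseTwo (wt zdeg Cox piece ex nf nf_surj nf_inj root_sq qd good cc sc
  cc_eq Expl Ok fbar)

noncomputable section

namespace Pool.Agent.Helper190_Can

variable {R : Type} [CommRing R]

/-! ### isomorphisms of graded algebras -/

lemma exists_fin_basis (Y : GrAlg R) (n : ℕ) : ∃ k, Nonempty (Basis (Fin k) R (Y.gr n)) := by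
  have := Y.free n
  have := Y.finite n
  let b := Module.Free.chooseBasis R (Y.gr n)
  obtain ⟨k, ⟨e⟩⟩ := Finite.exists_equiv_fin (Module.Free.ChooseBasisIndex R (Y.gr n))
  exact ⟨k, ⟨b.reindex e⟩⟩

theorem isBC_of_equiv {Y Z : GrAlg R} (E : Y.A ≃ₐ[R] Z.A)
    (hE : ∀ n x, x ∈ Y.gr n ↔ E x ∈ Z.gr n) : IsBC (RingHom.id R) Y Z := by
  rw [isBC_iff]
  refine ⟨(E : Y.A →+* Z.A), ?_, ?_⟩
  · intro r
    exact E.commutes r
  · intro n
    obtain ⟨k, ⟨v⟩⟩ := exists_fin_basis Y n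
    let F : Y.gr n →ₗ[R] Z.gr n :=
      { toFun := fun (x : Y.gr n) => (⟨E x, (hE n x).mp x.2⟩ : Z.gr n)
        map_add' := fun (x y : Y.gr n) => by apply Subtype.ext; simp
        map_smul' := fun (r : R) (x : Y.gr n) => by apply Subtype.ext; simp }
    have hF : Function.Bijective F := by
      constructor
      · intro x y hxy
        have := congrArg Subtype.val hxy
        exact Subtype.ext (E.injective this)
      · intro z
        refine ⟨⟨E.symm z, ?_⟩, ?_⟩
        · rw [hE, AlgEquiv.apply_symm_apply]; exact z.2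
        · apply Subtype.ext
          exact E.apply_symm_apply _
    let e : Y.gr n ≃ₗ[R] Z.gr n := LinearEquiv.ofBijective F hF
    refine ⟨k, v, v.map e, fun i => ?_⟩
    rw [Basis.map_apply]
    rfl

lemma mem_of_gr (Y : GrAlg R) {p : Submodule R Y.A} (h : ∀ n, Y.gr n ≤ p) (x : Y.A) : x ∈ p := by
  classical
  rw [← DirectSum.sum_support_decompose Y.gr x]
  exact Submodule.sum_mem _ fun n _ => h n (SetLike.coe_mem _)

theorem isBC_of_isCan {a b : MvPolynomial (Fin 4) R} {Y Z : GrAlg R} (hY : IsCan a b Y)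
    (hZ : IsCan a b Z) : IsBC (RingHom.id R) Y Z := by
  obtain ⟨Φ, hΦ, hΦ'⟩ := hY
  obtain ⟨Ψ, hΨ, hΨ'⟩ := hZ
  have hle : ∀ {Y Z : GrAlg R} (Φ : Y.A →ₐ[R] Cox a b) (Ψ : Z.A →ₐ[R] Cox a b),
      (∀ n : ℕ, (Φ '' (Y.gr n : Set Y.A)) = piece 2 a b (n • ((2, 2, 1) : ℤ × ℤ × ZMod 2))) →
      (∀ n : ℕ, (Ψ '' (Z.gr n : Set Z.A)) = piece 2 a b (n • ((2, 2, 1) : ℤ × ℤ × ZMod 2))) →
      Φ.range ≤ Ψ.range := by
    intro Y Z Φ Ψ h1 h2
    rintro _ ⟨x, rfl⟩
    have : x ∈ Submodule.comap Φ.toLinearMap (Subalgebra.toSubmodule Ψ.range) := by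
      apply mem_of_gr
      intro n x hx
      have h3 : Φ x ∈ Φ '' (Y.gr n : Set Y.A) := Set.mem_image_of_mem _ hx
      rw [h1, ← h2] at h3
      obtain ⟨z, _, hz⟩ := h3
      exact ⟨z, hz⟩
    exact this
  have hr : Φ.range = Ψ.range := le_antisymm (hle Φ Ψ hΦ' hΨ') (hle Ψ Φ hΨ' hΦ')
  let E : Y.A ≃ₐ[R] Z.A := (AlgEquiv.ofInjective Φ hΦ).trans
    ((Subalgebra.equivOfEq _ _ hr).trans (AlgEquiv.ofInjective Ψ hΨ).symm)
  have hE : ∀ x, Ψ (E x) = Φ x := by
    intro x
    have h1 : (AlgEquiv.ofInjective Ψ hΨ) (E x) =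
        (Subalgebra.equivOfEq _ _ hr) (AlgEquiv.ofInjective Φ hΦ x) := by
      simp [E]
    have h2 := congrArg Subtype.val h1
    exact h2
  refine isBC_of_equiv E ?_
  intro n x
  constructor
  · intro hx
    have h3 : Φ x ∈ Φ '' (Y.gr n : Set Y.A) := Set.mem_image_of_mem _ hx
    rw [hΦ', ← hΨ'] at h3
    obtain ⟨z, hz, hz'⟩ := h3
    rw [← hE] at hz'
    rw [← hΨ hz']
    exact hz
  · intro hx
    have h3 : Ψ (E x) ∈ Ψ '' (Z.gr n : Set Z.A) := Set.mem_image_of_mem _ hx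
    rw [hΨ', ← hΦ', hE] at h3
    obtain ⟨z, hz, hz'⟩ := h3
    rw [← hΦ hz']
    exact hz

/-! ### translation -/

lemma tr_piece {m : ℕ} {a b g a' b' : MvPolynomial (Fin 4) R}
    (hg : g.IsWeightedHomogeneous wt (zdeg m))
    (ha : a' = a + 2 * g) (hb : b' = b + a * g + g ^ 2) {γ : ℤ × ℤ × ZMod 2} {x : Cox a b}
    (hx : x ∈ piece m a b γ) : Helper190_CoarseTwo.tr ha hb x ∈ piece m a' b' γ := by
  obtain ⟨p, q, hp, hq, hx'⟩ := hx
  have hx2 : x = nf a b p q := hx'
  refine ⟨p + q * g, q, hp.add ?_, hq, ?_⟩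
  · have := hq.mul hg
    rwa [sub_add_cancel] at this
  · rw [hx2]
    exact Helper190_CoarseTwo.tr_nf ha hb p q

theorem IsCan.translate {a b g a' b' : MvPolynomial (Fin 4) R}
    (hg : g.IsWeightedHomogeneous wt (zdeg 2))
    (ha : a' = a + 2 * g) (hb : b' = b + a * g + g ^ 2) {Y : GrAlg R} (hY : IsCan a b Y) :
    IsCan a' b' Y := by
  obtain ⟨Φ, hΦ, hΦ'⟩ := hY
  have ha' : a = a' + 2 * (-g) := by rw [ha]; ring
  have hb' : b = b' + a' * (-g) + (-g) ^ 2 := by rw [ha, hb]; ring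
  have hng : (-g).IsWeightedHomogeneous wt (zdeg 2) := by
    intro d hd
    apply hg
    rw [coeff_neg] at hd
    exact neg_ne_zero.mp hd
  let E := Helper190_CoarseTwo.trE ha hb ha' hb'
  refine ⟨(E : Cox a b →ₐ[R] Cox a' b').comp Φ, ?_, ?_⟩
  · exact E.injective.comp hΦ
  · intro n
    have h1 : (((E : Cox a b →ₐ[R] Cox a' b').comp Φ) '' (Y.gr n : Set Y.A)) =
        E '' (Φ '' (Y.gr n : Set Y.A)) := by
      rw [Set.image_image]; rfl
    rw [h1, hΦ']
    ext y
    constructor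
    · rintro ⟨x, hx, rfl⟩
      exact tr_piece hg ha hb hx
    · intro hy
      exact ⟨_, tr_piece hng ha' hb' hy, E.apply_symm_apply y⟩

theorem IsCan.of_sq {a b a' : MvPolynomial (Fin 4) R} (h2 : IsUnit (2 : R))
    (ha : a.IsWeightedHomogeneous wt (zdeg 2)) (ha' : a'.IsWeightedHomogeneous wt (zdeg 2))
    (hsq : a ^ 2 = a' ^ 2) {Y : GrAlg R} (hY : IsCan a b Y) : IsCan a' b Y := by
  obtain ⟨u, hu⟩ := h2.exists_right_inv
  have hu' : (2 : MvPolynomial (Fin 4) R) * C u = 1 := by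
    have := congrArg (C (σ := Fin 4)) hu
    rwa [map_mul, map_ofNat, map_one] at this
  refine hY.translate (g := C u * (a' - a)) ?_ ?_ ?_
  · intro d hd
    rw [coeff_C_mul, coeff_sub] at hd
    have h1 := right_ne_zero_of_mul hd
    by_cases h : coeff d a = 0
    · rw [h, sub_zero] at h1
      exact ha' h1
    · exact ha h
  · linear_combination (-(a' - a)) * hu'
  · linear_combination (C u ^ 2) * hsq + (C u * a * (a' - a)) * hu'

/-! ### the canonical ring attached to polynomials -/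

/-- the coefficients of the pair `(a, b)` -/
def coefs (a b : MvPolynomial (Fin 4) R) : Bool → Lt → R :=
  fun d κ => coeff (kexp d κ) (cond d a b)

lemma exps_kexp {d : Bool} {e : Fin 4 →₀ ℕ}
    (he : Finsupp.weight wt e = cond d (zdeg 2) (zdeg 2 + zdeg 2)) :
    inK d (0, (e 1 : ℤ), (e 3 : ℤ)) ∧ kexp d (0, (e 1 : ℤ), (e 3 : ℤ)) = e := by
  rw [Helper190_CoarseTwo.weight_wt] at he
  have hpar : ∀ (x y : ℕ) (ε : ℕ), (x : ZMod 2) + y = ε → (x + y) % 2 = ε % 2 := by
    intro x y ε hxy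
    rw [← Nat.cast_add] at hxy
    exact (ZMod.natCast_eq_natCast_iff' _ _ _).mp hxy
  cases d
  · have hz : cond false (zdeg 2) (zdeg 2 + zdeg 2) = (8, 8, 0) := by decide
    rw [hz] at he
    simp only [Prod.mk.injEq] at he
    obtain ⟨h1, h2, h3⟩ := he
    have h4 := hpar _ _ 0 (by simpa using h3)
    constructor
    · simp only [inK, true_and]; omega
    · apply Helper190_CoarseTwo.ext4 <;> simp only [kexp, Helper190_CoarseTwo.ex_zero,
        Helper190_CoarseTwo.ex_one, Helper190_CoarseTwo.ex_two, Helper190_CoarseTwo.ex_three,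
        cond_false] <;> omega
  · have hz : cond true (zdeg 2) (zdeg 2 + zdeg 2) = (4, 4, 1) := by decide
    rw [hz] at he
    simp only [Prod.mk.injEq] at he
    obtain ⟨h1, h2, h3⟩ := he
    have h4 := hpar _ _ 1 (by simpa using h3)
    constructor
    · simp only [inK, true_and]; omega
    · apply Helper190_CoarseTwo.ext4 <;> simp only [kexp, Helper190_CoarseTwo.ex_zero,
        Helper190_CoarseTwo.ex_one, Helper190_CoarseTwo.ex_two, Helper190_CoarseTwo.ex_three,
        cond_true] <;> omega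

lemma pol_coefs {a b : MvPolynomial (Fin 4) R} (ha : a.IsWeightedHomogeneous wt (zdeg 2))
    (hb : b.IsWeightedHomogeneous wt (zdeg 2 + zdeg 2)) (d : Bool) :
    pol d (coefs a b) = cond d a b := by
  have hh : (cond d a b).IsWeightedHomogeneous wt (cond d (zdeg 2) (zdeg 2 + zdeg 2)) := by
    cases d
    · exact hb
    · exact ha
  ext e
  by_cases he : Finsupp.weight wt e = cond d (zdeg 2) (zdeg 2 + zdeg 2)
  · obtain ⟨h1, h2⟩ := exps_kexp he
    rw [← h2, coeff_pol h1]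
    rfl
  · have h1 : coeff e (cond d a b) = 0 := by
      by_contra h; exact he (hh h)
    have h3 : coeff e (pol d (coefs a b)) = 0 := by
      by_contra h; exact he (pol_hom d _ h)
    rw [h1, h3]

theorem isCan_Can {a b : MvPolynomial (Fin 4) R} (ha : a.IsWeightedHomogeneous wt (zdeg 2))
    (hb : b.IsWeightedHomogeneous wt (zdeg 2 + zdeg 2)) : IsCan a b (Can (coefs a b)) := by
  have h := isCan_of_tab (Can (coefs a b)) (canTab (coefs a b)) (hom_ofTab (canTab (coefs a b)))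
  rw [pol_coefs ha hb, pol_coefs ha hb] at h
  exact h

end Pool.Agent.Helper190_Can
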