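import Mathlib

/-! Lattice combinatorics of the canonical ring. -/

namespace Pool.Agent.Helper190_Can

/-- The ambient lattice; `(n, i, j)` is the monomial of degree `n` with exponents `i` of `s₁`
and `j` of `t₁`. -/
abbrev Lt : Type := ℤ × ℤ × ℤ

/-- the monomials not involving `z` -/
def inS (v : Lt) : Prop :=
  0 ≤ v.2.1 ∧ v.2.1 ≤ 2 * v.1 ∧ 0 ≤ v.2.2 ∧ v.2.2 ≤ 2 * v.1 ∧ 2 ∣ v.2.1 + v.2.2 - v.1

/-- the monomials involving `z` -/
def inM (v : Lt) : Prop :=
  0 ≤ v.2.1 ∧ v.2.1 ≤ 2 * v.1 - 4 ∧ 0 ≤ v.2.2 ∧ v.2.2 ≤ 2 * v.1 - 4 ∧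
    2 ∣ v.2.1 + v.2.2 - v.1 - 1

instance (v : Lt) : Decidable (inS v) := by unfold inS; infer_instance
instance (v : Lt) : Decidable (inM v) := by unfold inM; infer_instance

lemma inS_add {σ τ : Lt} (h : inS σ) (h' : inS τ) : inS (σ + τ) := by
  simp only [inS, Prod.fst_add, Prod.snd_add] at *; omega

lemma inM_add {σ μ : Lt} (h : inS σ) (h' : inM μ) : inM (σ + μ) := by
  simp only [inS, inM, Prod.fst_add, Prod.snd_add] at *; omega

lemma inS_zero : inS 0 := by simp [inS]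

/-- the eight generators -/
def e10 : Lt := (1, 1, 0)
def e01 : Lt := (1, 0, 1)
def e12 : Lt := (1, 1, 2)
def e21 : Lt := (1, 2, 1)
def c00 : Lt := (2, 0, 0)
def c40 : Lt := (2, 4, 0)
def c04 : Lt := (2, 0, 4)
def c44 : Lt := (2, 4, 4)

/-- the set of generators -/
def isGen (g : Lt) : Prop :=
  g = e10 ∨ g = e01 ∨ g = e12 ∨ g = e21 ∨ g = c00 ∨ g = c40 ∨ g = c04 ∨ g = c44

lemma isGen.inS {g : Lt} (h : isGen g) : inS g := by
  rcases h with rfl | rfl | rfl | rfl | rfl | rfl | rfl | rfl <;> decide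

lemma gen_aux {n i j : ℤ} (h : inS (n, i, j)) (hn : 1 ≤ n) :
    ∃ g, isGen g ∧ inS ((n, i, j) - g) := by
  simp only [inS] at h
  have key : ∀ g : Lt, isGen g → inS ((n, i, j) - g) → ∃ g, isGen g ∧ inS ((n, i, j) - g) :=
    fun g h1 h2 => ⟨g, h1, h2⟩
  by_cases hj0 : j = 0
  · by_cases hi0 : i = 0
    · exact key c00 (by simp [isGen]) (by simp only [inS, c00, Prod.fst_sub, Prod.snd_sub]; omega)
    · by_cases hi1 : i = 2 * n
      · exact key c40 (by simp [isGen]) (by simp only [inS, c40, Prod.fst_sub, Prod.snd_sub]; omega)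
      · exact key e10 (by simp [isGen]) (by simp only [inS, e10, Prod.fst_sub, Prod.snd_sub]; omega)
  · by_cases hj1 : j = 2 * n
    · by_cases hi0 : i = 0
      · exact key c04 (by simp [isGen]) (by simp only [inS, c04, Prod.fst_sub, Prod.snd_sub]; omega)
      · by_cases hi1 : i = 2 * n
        · exact key c44 (by simp [isGen]) (by simp only [inS, c44, Prod.fst_sub, Prod.snd_sub]; omega)
        · exact key e12 (by simp [isGen]) (by simp only [inS, e12, Prod.fst_sub, Prod.snd_sub]; omega)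
    · by_cases hi0 : i = 0
      · exact key e01 (by simp [isGen]) (by simp only [inS, e01, Prod.fst_sub, Prod.snd_sub]; omega)
      · by_cases hi1 : i = 2 * n
        · exact key e21 (by simp [isGen]) (by simp only [inS, e21, Prod.fst_sub, Prod.snd_sub]; omega)
        · by_cases hj2 : j = 2 * n - 1
          · exact key e12 (by simp [isGen])
              (by simp only [inS, e12, Prod.fst_sub, Prod.snd_sub]; omega)
          · exact key e10 (by simp [isGen])
              (by simp only [inS, e10, Prod.fst_sub, Prod.snd_sub]; omega)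

lemma gen_ind {P : Lt → Prop} (h0 : P 0)
    (hg : ∀ g σ, isGen g → inS σ → P σ → P (g + σ)) (σ : Lt) (hσ : inS σ) : P σ := by
  obtain ⟨n, i, j⟩ := σ
  have hn : 0 ≤ n := by simp only [inS] at hσ; omega
  obtain ⟨N, hN⟩ : ∃ N : ℕ, n = N := ⟨n.toNat, by omega⟩
  induction N using Nat.strong_induction_on generalizing n i j with
  | _ N ih =>
    by_cases h1 : 1 ≤ n
    · obtain ⟨g, hgg, hgS⟩ := gen_aux hσ h1
      have e : ((n, i, j) : Lt) = g + ((n, i, j) - g) := by abel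
      rw [e]
      refine hg g _ hgg hgS ?_
      have hgdeg : 1 ≤ g.1 := by
        rcases hgg with rfl | rfl | rfl | rfl | rfl | rfl | rfl | rfl <;> decide
      have hS' := hgS
      simp only [inS, Prod.fst_sub, Prod.snd_sub] at hS'
      refine ih ((n - g.1).toNat) (by omega) (n - g.1) (i - g.2.1) (j - g.2.2) hgS (by omega)
        (by omega)
    · have hn0 : n = 0 := by omega
      subst hn0
      simp only [inS] at hσ
      have hi : i = 0 := by omega
      have hj : j = 0 := by omega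
      subst hi hj
      exact h0

/-! ### the symmetric cocycle lemma -/

section A0
variable {V : Type*} [AddCommGroup V]

/-- the extension monoid -/
structure ExtM (c : Lt → Lt → V) : Type _ where
  s : {σ : Lt // inS σ}
  v : V

@[ext] lemma ExtM.ext' {c : Lt → Lt → V} {x y : ExtM c} (h1 : x.s.1 = y.s.1) (h2 : x.v = y.v) :
    x = y := by
  cases x; cases y
  simp only [ExtM.mk.injEq]
  exact ⟨Subtype.ext h1, h2⟩

/-- cocycle conditions -/
structure Coc (c : Lt → Lt → V) : Prop where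
  symm : ∀ σ τ, inS σ → inS τ → c σ τ = c τ σ
  coc : ∀ σ τ υ, inS σ → inS τ → inS υ → c σ τ + c (σ + τ) υ = c τ υ + c σ (τ + υ)
  zero : ∀ σ, inS σ → c 0 σ = 0

/-- the monoid structure -/
@[reducible] def extMonoid {c : Lt → Lt → V} (hc : Coc c) : AddCommMonoid (ExtM c) :=
  letI : Add (ExtM c) :=
    ⟨fun x y => ⟨⟨x.s.1 + y.s.1, inS_add x.s.2 y.s.2⟩, x.v + y.v - c x.s.1 y.s.1⟩⟩
  letI : Zero (ExtM c) := ⟨⟨⟨0, inS_zero⟩, 0⟩⟩
  { add_assoc := fun x y z => by
      apply ExtM.ext'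
      · exact add_assoc _ _ _
      change x.v + y.v - c x.s.1 y.s.1 + z.v - c (x.s.1 + y.s.1) z.s.1 =
        x.v + (y.v + z.v - c y.s.1 z.s.1) - c x.s.1 (y.s.1 + z.s.1)
      have := hc.coc x.s.1 y.s.1 z.s.1 x.s.2 y.s.2 z.s.2
      grind
    zero_add := fun x => by
      apply ExtM.ext'
      · exact zero_add _
      · change 0 + x.v - c 0 x.s.1 = x.v
        rw [hc.zero _ x.s.2]; abel
    add_zero := fun x => by
      apply ExtM.ext'
      · exact add_zero _
      · change x.v + 0 - c x.s.1 0 = x.v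
        rw [hc.symm _ _ x.s.2 inS_zero, hc.zero _ x.s.2]; abel
    add_comm := fun x y => by
      apply ExtM.ext'
      · exact add_comm _ _
      · change x.v + y.v - c x.s.1 y.s.1 = y.v + x.v - c y.s.1 x.s.1
        rw [hc.symm _ _ x.s.2 y.s.2]; abel
    nsmul := nsmulRec }

theorem exists_potential {c : Lt → Lt → V} (hc : Coc c) :
    ∃ h : Lt → V, ∀ σ τ, inS σ → inS τ → c σ τ = h σ + h τ - h (σ + τ) := by
  letI := extMonoid hc
  have add_s : ∀ x y : ExtM c, (x + y).s.1 = x.s.1 + y.s.1 := fun _ _ => rfl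
  have add_v : ∀ x y : ExtM c, (x + y).v = x.v + y.v - c x.s.1 y.s.1 := fun _ _ => rfl
  have zero_s : (0 : ExtM c).s.1 = 0 := rfl
  have nsmul_s : ∀ (k : ℕ) (x : ExtM c), (k • x).s.1 = k • x.s.1 := by
    intro k x
    induction k with
    | zero => rw [zero_smul, zero_smul]; rfl
    | succ k ih => rw [succ_nsmul, add_s, ih, succ_nsmul]
  let E10 : ExtM c := ⟨⟨e10, by decide⟩, 0⟩
  let E01 : ExtM c := ⟨⟨e01, by decide⟩, 0⟩
  let C00 : ExtM c := ⟨⟨c00, by decide⟩, 0⟩
  let s : ℕ → ℕ → ℕ → ExtM c := fun a b q => a • E10 + b • E01 + q • C00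
  have hs : ∀ a b q a' b' q', s a b q + s a' b' q' = s (a + a') (b + b') (q + q') := by
    intro a b q a' b' q'
    simp only [s, add_nsmul]
    abel
  -- the exponent vector
  let Q : Lt → ℕ := fun σ => (σ.2.1 + σ.2.2).toNat
  let sect : Lt → ExtM c := fun σ => s σ.2.1.toNat σ.2.2.toNat
    ((σ.1 - σ.2.1 - σ.2.2) / 2 + (σ.2.1 + σ.2.2)).toNat
  have hsect_s : ∀ σ, inS σ → (sect σ).s.1 = σ + Q σ • c00 := by
    intro σ hσ
    obtain ⟨n, i, j⟩ := σ
    simp only [inS] at hσ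
    simp only [sect, s, add_s, nsmul_s, E10, E01, C00, e10, e01, c00, Q]
    obtain ⟨q, hq⟩ : ∃ q : ℤ, n - i - j = 2 * q := ⟨(n - i - j) / 2, by omega⟩
    have hq' : (n - i - j) / 2 = q := by omega
    rw [hq']
    simp only [Prod.smul_mk, Prod.mk_add_mk]
    simp only [nsmul_eq_mul]
    refine Prod.ext ?_ (Prod.ext ?_ ?_)
    · show _ = _
      dsimp only
      omega
    · dsimp only
      omega
    · dsimp only
      omega
  have hsect_add : ∀ σ τ, inS σ → inS τ → sect σ + sect τ = sect (σ + τ) := by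
    intro σ τ hσ hτ
    obtain ⟨n, i, j⟩ := σ
    obtain ⟨n', i', j'⟩ := τ
    simp only [inS] at hσ hτ
    simp only [sect, hs, Prod.fst_add, Prod.snd_add, Prod.mk_add_mk]
    congr 1 <;> omega
  have hQ_add : ∀ σ τ, inS σ → inS τ → Q (σ + τ) = Q σ + Q τ := by
    intro σ τ hσ hτ
    simp only [inS] at hσ hτ
    simp only [Q, Prod.fst_add, Prod.snd_add]
    omega
  let h : Lt → V := fun σ => (sect σ).v - (Q σ • C00).v + c σ (Q σ • c00)
  have hsS : ∀ k : ℕ, inS (k • c00) := by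
    intro k
    have := (k • C00).s.2
    rwa [nsmul_s] at this
  have hmk : ∀ σ (hσ : inS σ), (⟨⟨σ, hσ⟩, h σ⟩ : ExtM c) + Q σ • C00 = sect σ := by
    intro σ hσ
    apply ExtM.ext'
    · rw [add_s, nsmul_s, hsect_s σ hσ]
    · rw [add_v, nsmul_s]
      simp only [h, C00]
      abel
  refine ⟨h, fun σ τ hσ hτ => ?_⟩
  have e1 : (⟨⟨σ, hσ⟩, h σ⟩ : ExtM c) + ⟨⟨τ, hτ⟩, h τ⟩ + (Q σ + Q τ) • C00 =
      (⟨⟨σ + τ, inS_add hσ hτ⟩, h (σ + τ)⟩ : ExtM c) + (Q σ + Q τ) • C00 := by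
    rw [← hQ_add σ τ hσ hτ, hmk (σ + τ) (inS_add hσ hτ), hQ_add σ τ hσ hτ, add_nsmul,
      ← hsect_add σ τ hσ hτ, ← hmk σ hσ, ← hmk τ hτ]
    abel
  have e2 := congrArg ExtM.v e1
  rw [add_v, add_v, add_v] at e2
  change h σ + h τ - c σ τ + _ - c (σ + τ) _ = h (σ + τ) + _ - c (σ + τ) _ at e2
  grind

end A0

end Pool.Agent.Helper190_Can
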