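import Pool.Agent.Helper190_Can.Lat

set_option linter.unusedSimpArgs false

namespace Pool.Agent.Helper190_Can

variable {V : Type*} [AddCommGroup V]

/-! ### functions additive on a lower set -/

/-- `h` is additive on the set `K` -/
structure AddOn (K : Lt → Prop) (h : Lt → V) : Prop where
  add : ∀ σ τ, inS σ → inS τ → K (σ + τ) → h (σ + τ) = h σ + h τ
  low : ∀ σ τ, inS σ → inS τ → K (σ + τ) → K σ

lemma inS_nsmul {g : Lt} (hg : inS g) (k : ℕ) : inS (k • g) := by
  induction k with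
  | zero => rw [zero_smul]; exact inS_zero
  | succ k ih => rw [succ_nsmul]; exact inS_add ih hg

lemma AddOn.nsmul {K : Lt → Prop} {h : Lt → V} (H : AddOn K h) {g : Lt} (hg : inS g) (k : ℕ)
    (hK : K (k • g)) : h (k • g) = k • h g := by
  induction k with
  | zero =>
    rw [zero_smul] at hK ⊢
    have := H.add 0 0 inS_zero inS_zero (by rwa [add_zero])
    rw [add_zero] at this
    rw [zero_smul]
    simpa using this
  | succ k ih =>
    rw [succ_nsmul] at hK ⊢
    rw [H.add _ _ (inS_nsmul hg k) hg hK, ih (H.low _ _ (inS_nsmul hg k) hg hK), succ_nsmul]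

lemma AddOn.corner {K : Lt → Prop} {h : Lt → V} (H : AddOn K h) {σ c e f : Lt} (hσ : inS σ)
    (hc : inS c) (he : inS e) (hf : inS f) {Q u v q : ℕ}
    (heq : σ + Q • c = u • e + v • f + q • c) (hK : K (σ + Q • c)) :
    h σ + Q • h c = u • h e + v • h f + q • h c := by
  have hK1 : K (Q • c) := by
    rw [add_comm] at hK
    exact H.low _ _ (inS_nsmul hc Q) hσ hK
  have hK' : K (u • e + v • f + q • c) := heq ▸ hK
  have hK2 : K (u • e + v • f) :=
    H.low _ _ (inS_add (inS_nsmul he u) (inS_nsmul hf v)) (inS_nsmul hc q) hK'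
  have hK3 : K (q • c) := by
    rw [add_comm] at hK'
    exact H.low _ _ (inS_nsmul hc q) (inS_add (inS_nsmul he u) (inS_nsmul hf v)) hK'
  have hK4 : K (u • e) := H.low _ _ (inS_nsmul he u) (inS_nsmul hf v) hK2
  have hK5 : K (v • f) := by
    rw [add_comm] at hK2
    exact H.low _ _ (inS_nsmul hf v) (inS_nsmul he u) hK2
  have e1 := H.add _ _ hσ (inS_nsmul hc Q) hK
  have e2 := H.add _ _ (inS_add (inS_nsmul he u) (inS_nsmul hf v)) (inS_nsmul hc q) hK'
  have e3 := H.add _ _ (inS_nsmul he u) (inS_nsmul hf v) hK2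
  rw [H.nsmul hc Q hK1] at e1
  rw [H.nsmul hc q hK3, e3, H.nsmul he u hK4, H.nsmul hf v hK5] at e2
  rw [← e1, heq, e2]

/-- the out-of-range condition -/
def KK (κ ρ₁ ρ₂ : ℤ) (v : Lt) : Prop :=
  v.2.1 + ρ₁ < 0 ∨ 2 * v.1 - κ < v.2.1 + ρ₁ ∨ v.2.2 + ρ₂ < 0 ∨ 2 * v.1 - κ < v.2.2 + ρ₂

lemma KK_low {κ ρ₁ ρ₂ : ℤ} {σ τ : Lt} (hτ : inS τ) (h : KK κ ρ₁ ρ₂ (σ + τ)) :
    KK κ ρ₁ ρ₂ σ := by
  simp only [KK, inS, Prod.fst_add, Prod.snd_add] at *
  omega

/-- the linear function -/
def ell (x y w : V) (v : Lt) : V := v.2.1 • x + v.2.2 • y + ((v.1 - v.2.1 - v.2.2) / 2) • w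

section corners
variable {κ ρ₁ ρ₂ : ℤ} {h : Lt → V} (H : AddOn (KK κ ρ₁ ρ₂) h)
include H

lemma corner00 {n i j : ℤ} (hS : inS (n, i, j)) (hK : i + ρ₁ < 0 ∨ j + ρ₂ < 0) :
    h (n, i, j) = i • h e10 + j • h e01 + ((n - i - j) / 2) • h c00 := by
  have hS' := hS
  simp only [inS] at hS'
  obtain ⟨t, ht⟩ : ∃ t : ℤ, n - i - j = 2 * t := ⟨(n - i - j) / 2, by omega⟩
  have ht' : (n - i - j) / 2 = t := by omega
  obtain ⟨u, hu⟩ : ∃ u : ℕ, i = u := ⟨i.toNat, by omega⟩
  obtain ⟨v, hv⟩ : ∃ v : ℕ, j = v := ⟨j.toNat, by omega⟩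
  obtain ⟨q, hq⟩ : ∃ q : ℕ, t + (u + v : ℕ) = q := ⟨(t + (u + v : ℕ)).toNat, by omega⟩
  have key := H.corner (Q := u + v) (u := u) (v := v) (q := q) (c := c00) (e := e10) (f := e01)
    hS (by decide) (by decide) (by decide) (by
      simp only [e10, e01, c00, Prod.smul_mk, Prod.mk_add_mk]
      simp only [nsmul_eq_mul]
      refine Prod.ext ?_ (Prod.ext ?_ ?_) <;> dsimp only <;> push_cast <;> omega) (by
      simp only [KK, c00, Prod.smul_mk, Prod.mk_add_mk, Prod.fst_add, Prod.snd_add]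
      simp only [nsmul_eq_mul]
      push_cast
      omega)
  rw [ht', hu, hv]
  have e1 : t = (q : ℤ) - u - v := by push_cast at hq; omega
  rw [e1]
  simp only [← natCast_zsmul] at key
  push_cast at key
  rw [← sub_eq_zero] at key ⊢
  rw [← key]
  rw [← hu, ← hv]
  module

lemma corner40 {n i j : ℤ} (hS : inS (n, i, j)) (hK : 2 * n - κ < i + ρ₁ ∨ j + ρ₂ < 0) :
    h (n, i, j) = (2 * n - i) • h e10 + j • h e21 + ((i - n - j) / 2) • h c40 := by
  have hS' := hS
  simp only [inS] at hS'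
  obtain ⟨t, ht⟩ : ∃ t : ℤ, i - n - j = 2 * t := ⟨(i - n - j) / 2, by omega⟩
  have ht' : (i - n - j) / 2 = t := by omega
  obtain ⟨u, hu⟩ : ∃ u : ℕ, 2 * n - i = u := ⟨(2 * n - i).toNat, by omega⟩
  obtain ⟨v, hv⟩ : ∃ v : ℕ, j = v := ⟨j.toNat, by omega⟩
  obtain ⟨q, hq⟩ : ∃ q : ℕ, t + (u + v : ℕ) = q := ⟨(t + (u + v : ℕ)).toNat, by omega⟩
  have key := H.corner (Q := u + v) (u := u) (v := v) (q := q) (c := c40) (e := e10) (f := e21)
    hS (by decide) (by decide) (by decide) (by
      simp only [e10, e21, c40, Prod.smul_mk, Prod.mk_add_mk]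
      simp only [nsmul_eq_mul]
      refine Prod.ext ?_ (Prod.ext ?_ ?_) <;> dsimp only <;> push_cast <;> omega) (by
      simp only [KK, c40, Prod.smul_mk, Prod.mk_add_mk, Prod.fst_add, Prod.snd_add]
      simp only [nsmul_eq_mul]
      push_cast
      omega)
  rw [ht', hu, hv]
  have e1 : t = (q : ℤ) - u - v := by push_cast at hq; omega
  rw [e1]
  simp only [← natCast_zsmul] at key
  push_cast at key
  rw [← sub_eq_zero] at key ⊢
  rw [← key]
  rw [← hv]
  module

lemma corner04 {n i j : ℤ} (hS : inS (n, i, j)) (hK : i + ρ₁ < 0 ∨ 2 * n - κ < j + ρ₂) :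
    h (n, i, j) = i • h e12 + (2 * n - j) • h e01 + ((j - n - i) / 2) • h c04 := by
  have hS' := hS
  simp only [inS] at hS'
  obtain ⟨t, ht⟩ : ∃ t : ℤ, j - n - i = 2 * t := ⟨(j - n - i) / 2, by omega⟩
  have ht' : (j - n - i) / 2 = t := by omega
  obtain ⟨u, hu⟩ : ∃ u : ℕ, i = u := ⟨i.toNat, by omega⟩
  obtain ⟨v, hv⟩ : ∃ v : ℕ, 2 * n - j = v := ⟨(2 * n - j).toNat, by omega⟩
  obtain ⟨q, hq⟩ : ∃ q : ℕ, t + (u + v : ℕ) = q := ⟨(t + (u + v : ℕ)).toNat, by omega⟩
  have key := H.corner (Q := u + v) (u := u) (v := v) (q := q) (c := c04) (e := e12) (f := e01)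
    hS (by decide) (by decide) (by decide) (by
      simp only [e12, e01, c04, Prod.smul_mk, Prod.mk_add_mk]
      simp only [nsmul_eq_mul]
      refine Prod.ext ?_ (Prod.ext ?_ ?_) <;> dsimp only <;> push_cast <;> omega) (by
      simp only [KK, c04, Prod.smul_mk, Prod.mk_add_mk, Prod.fst_add, Prod.snd_add]
      simp only [nsmul_eq_mul]
      push_cast
      omega)
  rw [ht', hu, hv]
  have e1 : t = (q : ℤ) - u - v := by push_cast at hq; omega
  rw [e1]
  simp only [← natCast_zsmul] at key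
  push_cast at key
  rw [← sub_eq_zero] at key ⊢
  rw [← key]
  rw [← hu]
  module

lemma corner44 {n i j : ℤ} (hS : inS (n, i, j)) (hK : 2 * n - κ < i + ρ₁ ∨ 2 * n - κ < j + ρ₂) :
    h (n, i, j) = (2 * n - i) • h e12 + (2 * n - j) • h e21 + ((i + j - 3 * n) / 2) • h c44 := by
  have hS' := hS
  simp only [inS] at hS'
  obtain ⟨t, ht⟩ : ∃ t : ℤ, i + j - 3 * n = 2 * t := ⟨(i + j - 3 * n) / 2, by omega⟩
  have ht' : (i + j - 3 * n) / 2 = t := by omega
  obtain ⟨u, hu⟩ : ∃ u : ℕ, 2 * n - i = u := ⟨(2 * n - i).toNat, by omega⟩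
  obtain ⟨v, hv⟩ : ∃ v : ℕ, 2 * n - j = v := ⟨(2 * n - j).toNat, by omega⟩
  obtain ⟨q, hq⟩ : ∃ q : ℕ, t + (u + v : ℕ) = q := ⟨(t + (u + v : ℕ)).toNat, by omega⟩
  have key := H.corner (Q := u + v) (u := u) (v := v) (q := q) (c := c44) (e := e12) (f := e21)
    hS (by decide) (by decide) (by decide) (by
      simp only [e12, e21, c44, Prod.smul_mk, Prod.mk_add_mk]
      simp only [nsmul_eq_mul]
      refine Prod.ext ?_ (Prod.ext ?_ ?_) <;> dsimp only <;> push_cast <;> omega) (by
      simp only [KK, c44, Prod.smul_mk, Prod.mk_add_mk, Prod.fst_add, Prod.snd_add]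
      simp only [nsmul_eq_mul]
      push_cast
      omega)
  rw [ht', hu, hv]
  have e1 : t = (q : ℤ) - u - v := by push_cast at hq; omega
  rw [e1]
  simp only [← natCast_zsmul] at key
  push_cast at key
  rw [← sub_eq_zero] at key ⊢
  rw [← key]
  module

end corners

lemma ell_add (x y w : V) {σ τ : Lt} (hσ : inS σ) (hτ : inS τ) :
    ell x y w (σ + τ) = ell x y w σ + ell x y w τ := by
  obtain ⟨n, i, j⟩ := σ
  obtain ⟨n', i', j'⟩ := τ
  simp only [inS] at hσ hτ
  simp only [ell, Prod.mk_add_mk]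
  have e : (n + n' - (i + i') - (j + j')) / 2 = (n - i - j) / 2 + (n' - i' - j') / 2 := by omega
  rw [e]
  module

/-- existence of a linear function agreeing with `h` on `K` -/
theorem exists_fit {κ ρ₁ ρ₂ : ℤ} (hκ : κ = 0 ∨ κ = 4) {h : Lt → V}
    (H : AddOn (KK κ ρ₁ ρ₂) h) :
    ∃ x y w : V, ∀ v, inS v → KK κ ρ₁ ρ₂ v → h v = ell x y w v := by
  have c00 := fun (n i j : ℤ) => corner00 H (n := n) (i := i) (j := j)
  have c40 := fun (n i j : ℤ) => corner40 H (n := n) (i := i) (j := j)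
  have c04 := fun (n i j : ℤ) => corner04 H (n := n) (i := i) (j := j)
  have c44 := fun (n i j : ℤ) => corner44 H (n := n) (i := i) (j := j)
  -- the four basic corner functions
  by_cases hA : (κ + ρ₁ ≤ 0 ∧ κ + ρ₂ ≤ 0)
  · -- only corner 00
    refine ⟨h e10, h e01, h Helper190_Can.c00, ?_⟩
    rintro ⟨n, i, j⟩ hS hK
    have hS' := hS
    simp only [inS] at hS'
    simp only [KK] at hK
    exact c00 n i j hS (by omega)
  by_cases hB : (-ρ₁ ≤ 0 ∧ κ + ρ₂ ≤ 0)
  · -- only corner 40
    refine ⟨h e10, h e21 - 2 • h e10 + (4 • h e10 - h Helper190_Can.c40),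
      4 • h e10 - h Helper190_Can.c40, ?_⟩
    rintro ⟨n, i, j⟩ hS hK
    have hS' := hS
    simp only [inS] at hS'
    simp only [KK] at hK
    rw [c40 n i j hS (by omega)]
    simp only [ell]
    obtain ⟨t, ht⟩ : ∃ t : ℤ, i - n - j = 2 * t := ⟨(i - n - j) / 2, by omega⟩
    have ht' : (i - n - j) / 2 = t := by omega
    have ht'' : (n - i - j) / 2 = - t - j := by omega
    have hn : n = i - j - 2 * t := by omega
    rw [ht', ht'', hn]
    module
  by_cases hC : (κ + ρ₁ ≤ 0 ∧ -ρ₂ ≤ 0)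
  · -- only corner 04
    refine ⟨h e12 - 2 • h e01 + (4 • h e01 - h Helper190_Can.c04), h e01,
      4 • h e01 - h Helper190_Can.c04, ?_⟩
    rintro ⟨n, i, j⟩ hS hK
    have hS' := hS
    simp only [inS] at hS'
    simp only [KK] at hK
    rw [c04 n i j hS (by omega)]
    simp only [ell]
    obtain ⟨t, ht⟩ : ∃ t : ℤ, j - n - i = 2 * t := ⟨(j - n - i) / 2, by omega⟩
    have ht' : (j - n - i) / 2 = t := by omega
    have ht'' : (n - i - j) / 2 = - t - i := by omega
    have hn : n = j - i - 2 * t := by omega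
    rw [ht', ht'', hn]
    module
  by_cases hD : (-ρ₁ ≤ 0 ∧ -ρ₂ ≤ 0)
  · -- only corner 44
    refine ⟨h e12 + 2 • h e21 - h Helper190_Can.c44, 2 • h e12 + h e21 - h Helper190_Can.c44,
      4 • h e12 + 4 • h e21 - 3 • h Helper190_Can.c44, ?_⟩
    rintro ⟨n, i, j⟩ hS hK
    have hS' := hS
    simp only [inS] at hS'
    simp only [KK] at hK
    by_cases hD' : 2 * n - κ < i + ρ₁ ∨ 2 * n - κ < j + ρ₂
    · rw [c44 n i j hS hD']
      simp only [ell]
      obtain ⟨t, ht⟩ : ∃ t : ℤ, n - i - j = 2 * t := ⟨(n - i - j) / 2, by omega⟩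
      have ht' : (n - i - j) / 2 = t := by omega
      have ht'' : (i + j - 3 * n) / 2 = - i - j - 3 * t := by omega
      have hn : n = i + j + 2 * t := by omega
      rw [ht', ht'', hn]
      module
    · exfalso; omega
  -- the mixed cases
  have hκ4 : κ = 4 := by omega
  subst hκ4
  -- conversion lemmas
  have k40 : ∀ (x y w : V) (n i j : ℤ), inS (n, i, j) → h e10 = x → h e21 = 2 • x + y - w →
      h Helper190_Can.c40 = 4 • x - w → (2 * n - 4 < i + ρ₁ ∨ j + ρ₂ < 0) →
      h (n, i, j) = ell x y w (n, i, j) := by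
    intro x y w n i j hS e1 e2 e3 hK
    rw [c40 n i j hS hK, e1, e2, e3]
    simp only [inS] at hS
    simp only [ell]
    obtain ⟨t, ht⟩ : ∃ t : ℤ, i - n - j = 2 * t := ⟨(i - n - j) / 2, by omega⟩
    have ht' : (i - n - j) / 2 = t := by omega
    have ht'' : (n - i - j) / 2 = - t - j := by omega
    have hn : n = i - j - 2 * t := by omega
    rw [ht', ht'', hn]
    module
  have k04 : ∀ (x y w : V) (n i j : ℤ), inS (n, i, j) → h e01 = y → h e12 = x + 2 • y - w →
      h Helper190_Can.c04 = 4 • y - w → (i + ρ₁ < 0 ∨ 2 * n - 4 < j + ρ₂) →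
      h (n, i, j) = ell x y w (n, i, j) := by
    intro x y w n i j hS e1 e2 e3 hK
    rw [c04 n i j hS hK, e1, e2, e3]
    simp only [inS] at hS
    simp only [ell]
    obtain ⟨t, ht⟩ : ∃ t : ℤ, j - n - i = 2 * t := ⟨(j - n - i) / 2, by omega⟩
    have ht' : (j - n - i) / 2 = t := by omega
    have ht'' : (n - i - j) / 2 = - t - i := by omega
    have hn : n = j - i - 2 * t := by omega
    rw [ht', ht'', hn]
    module
  have k44 : ∀ (x y w : V) (n i j : ℤ), inS (n, i, j) → h e12 = x + 2 • y - w →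
      h e21 = 2 • x + y - w →
      h Helper190_Can.c44 = 4 • x + 4 • y - 3 • w →
      (2 * n - 4 < i + ρ₁ ∨ 2 * n - 4 < j + ρ₂) →
      h (n, i, j) = ell x y w (n, i, j) := by
    intro x y w n i j hS e1 e2 e3 hK
    rw [c44 n i j hS hK, e1, e2, e3]
    simp only [inS] at hS
    simp only [ell]
    obtain ⟨t, ht⟩ : ∃ t : ℤ, n - i - j = 2 * t := ⟨(n - i - j) / 2, by omega⟩
    have ht' : (n - i - j) / 2 = t := by omega
    have ht'' : (i + j - 3 * n) / 2 = - i - j - 3 * t := by omega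
    have hn : n = i + j + 2 * t := by omega
    rw [ht', ht'', hn]
    module
  have k00 : ∀ (x y w : V) (n i j : ℤ), inS (n, i, j) → h e10 = x → h e01 = y →
      h Helper190_Can.c00 = w → (i + ρ₁ < 0 ∨ j + ρ₂ < 0) →
      h (n, i, j) = ell x y w (n, i, j) := by
    intro x y w n i j hS e1 e2 e3 hK
    rw [c00 n i j hS hK, e1, e2, e3]
    simp only [ell]
  have v10 : ∀ x y w : V, ell x y w (1, 1, 0) = x := by
    intro x y w
    simp only [ell, show ((1 : ℤ) - 1 - 0) / 2 = 0 from by norm_num]; module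
  have v01 : ∀ x y w : V, ell x y w (1, 0, 1) = y := by
    intro x y w
    simp only [ell, show ((1 : ℤ) - 0 - 1) / 2 = 0 from by norm_num]; module
  have v12 : ∀ x y w : V, ell x y w (1, 1, 2) = x + 2 • y - w := by
    intro x y w
    simp only [ell, show ((1 : ℤ) - 1 - 2) / 2 = -1 from by norm_num]; module
  have v21 : ∀ x y w : V, ell x y w (1, 2, 1) = 2 • x + y - w := by
    intro x y w
    simp only [ell, show ((1 : ℤ) - 2 - 1) / 2 = -1 from by norm_num]; module
  have v00 : ∀ x y w : V, ell x y w (2, 0, 0) = w := by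
    intro x y w
    simp only [ell, show ((2 : ℤ) - 0 - 0) / 2 = 1 from by norm_num]; module
  have v40 : ∀ x y w : V, ell x y w (2, 4, 0) = 4 • x - w := by
    intro x y w
    simp only [ell, show ((2 : ℤ) - 4 - 0) / 2 = -1 from by norm_num]; module
  have v04 : ∀ x y w : V, ell x y w (2, 0, 4) = 4 • y - w := by
    intro x y w
    simp only [ell, show ((2 : ℤ) - 0 - 4) / 2 = -1 from by norm_num]; module
  have v44 : ∀ x y w : V, ell x y w (2, 4, 4) = 4 • x + 4 • y - 3 • w := by
    intro x y w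
    simp only [ell, show ((2 : ℤ) - 4 - 4) / 2 = -3 from by norm_num]; module
  by_cases hI : ρ₁ ≤ -1 ∧ -3 ≤ ρ₁
  · by_cases hr : ρ₂ ≤ -2
    · -- base 00
      refine ⟨h e10, h e01, h Helper190_Can.c00, ?_⟩
      have g00 := fun n i j hS => k00 (h e10) (h e01) (h Helper190_Can.c00) n i j hS rfl rfl rfl
      have h21 := g00 1 2 1 (by decide) (by omega)
      have h40 := g00 2 4 0 (by decide) (by omega)
      have h04 := g00 2 0 4 (by decide) (by omega)
      rw [v21] at h21
      rw [v40] at h40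
      rw [v04] at h04
      have g40 := fun n i j hS => k40 (h e10) (h e01) (h Helper190_Can.c00) n i j hS rfl h21 h40
      have h12 : h (1, 1, 2) = ell (h e10) (h e01) (h Helper190_Can.c00) (1, 1, 2) := by
        by_cases hp : ρ₁ ≤ -2
        · exact g00 1 1 2 (by decide) (by omega)
        · exact g40 1 1 2 (by decide) (by omega)
      rw [v12] at h12
      have g04 := fun n i j hS => k04 (h e10) (h e01) (h Helper190_Can.c00) n i j hS rfl h12 h04
      rintro ⟨n, i, j⟩ hS hK
      have hS' := hS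
      simp only [inS] at hS'
      simp only [KK] at hK
      rcases hK with hK | hK | hK | hK
      · exact g00 n i j hS (Or.inl hK)
      · exact g40 n i j hS (Or.inl hK)
      · exact g00 n i j hS (Or.inr hK)
      · exact g04 n i j hS (Or.inr hK)
    · -- base 04
      have b12 : h e12 = (h e12 - 2 • h e01 + (4 • h e01 - h Helper190_Can.c04)) + 2 • h e01 -
        (4 • h e01 - h Helper190_Can.c04) := by module
      have b04 : h Helper190_Can.c04 = 4 • h e01 - (4 • h e01 - h Helper190_Can.c04) := by module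
      refine ⟨h e12 - 2 • h e01 + (4 • h e01 - h Helper190_Can.c04), h e01,
        4 • h e01 - h Helper190_Can.c04, ?_⟩
      generalize h e12 - 2 • h e01 + (4 • h e01 - h Helper190_Can.c04) = x at *
      generalize 4 • h e01 - h Helper190_Can.c04 = w at *
      have g04 := fun n i j hS => k04 x (h e01) w n i j hS rfl b12 b04
      have h21 := g04 1 2 1 (by decide) (by omega)
      have h44 := g04 2 4 4 (by decide) (by omega)
      have h00 := g04 2 0 0 (by decide) (by omega)
      have h10 := g04 1 1 0 (by decide) (by omega)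
      rw [v21] at h21
      rw [v44] at h44
      rw [v00] at h00
      rw [v10] at h10
      have g44 := fun n i j hS => k44 x (h e01) w n i j hS b12 h21 h44
      have g00 := fun n i j hS => k00 x (h e01) w n i j hS h10 rfl h00
      rintro ⟨n, i, j⟩ hS hK
      have hS' := hS
      simp only [inS] at hS'
      simp only [KK] at hK
      rcases hK with hK | hK | hK | hK
      · exact g00 n i j hS (Or.inl hK)
      · exact g44 n i j hS (Or.inl hK)
      · exact g00 n i j hS (Or.inr hK)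
      · exact g44 n i j hS (Or.inr hK)
  · by_cases hq : 4 + ρ₁ ≤ 0
    · refine ⟨h e10, h e01, h Helper190_Can.c00, ?_⟩
      have g00 := fun n i j hS => k00 (h e10) (h e01) (h Helper190_Can.c00) n i j hS rfl rfl rfl
      have h12 := g00 1 1 2 (by decide) (by omega)
      have h04 := g00 2 0 4 (by decide) (by omega)
      rw [v12] at h12
      rw [v04] at h04
      have g04 := fun n i j hS => k04 (h e10) (h e01) (h Helper190_Can.c00) n i j hS rfl h12 h04
      rintro ⟨n, i, j⟩ hS hK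
      have hS' := hS
      simp only [inS] at hS'
      simp only [KK] at hK
      rcases hK with hK | hK | hK | hK
      · exact g00 n i j hS (Or.inl hK)
      · exfalso; omega
      · exact g00 n i j hS (Or.inr hK)
      · exact g04 n i j hS (Or.inr hK)
    · have b21 : h e21 = 2 • h e10 + (h e21 - 2 • h e10 + (4 • h e10 - h Helper190_Can.c40)) -
        (4 • h e10 - h Helper190_Can.c40) := by module
      have b40 : h Helper190_Can.c40 = 4 • h e10 - (4 • h e10 - h Helper190_Can.c40) := by module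
      refine ⟨h e10, h e21 - 2 • h e10 + (4 • h e10 - h Helper190_Can.c40),
        4 • h e10 - h Helper190_Can.c40, ?_⟩
      generalize h e21 - 2 • h e10 + (4 • h e10 - h Helper190_Can.c40) = y at *
      generalize 4 • h e10 - h Helper190_Can.c40 = w at *
      have g40 := fun n i j hS => k40 (h e10) y w n i j hS rfl b21 b40
      have h12 := g40 1 1 2 (by decide) (by omega)
      have h44 := g40 2 4 4 (by decide) (by omega)
      rw [v12] at h12
      rw [v44] at h44
      have g44 := fun n i j hS => k44 (h e10) y w n i j hS h12 b21 h44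
      rintro ⟨n, i, j⟩ hS hK
      have hS' := hS
      simp only [inS] at hS'
      simp only [KK] at hK
      rcases hK with hK | hK | hK | hK
      · exfalso; omega
      · exact g40 n i j hS (Or.inl hK)
      · exact g40 n i j hS (Or.inr hK)
      · exact g44 n i j hS (Or.inr hK)

end Pool.Agent.Helper190_Can
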