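import Pool.Agent.Helper190_Can.Lat2

set_option linter.unusedSimpArgs false

namespace Pool.Agent.Helper190_Can

variable {V : Type*} [AddCommGroup V]

/-- the two sets of monomials, `false` for those without `z`, `true` for those with `z` -/
def inD : Bool → Lt → Prop
  | false => inS
  | true => inM

instance (d : Bool) (v : Lt) : Decidable (inD d v) := by
  cases d <;> (simp only [inD]; infer_instance)

@[simp] lemma inD_false : inD false = inS := rfl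
@[simp] lemma inD_true : inD true = inM := rfl

lemma inD_add {d : Bool} {σ μ : Lt} (h : inS σ) (h' : inD d μ) : inD d (σ + μ) := by
  cases d
  · exact inS_add h h'
  · exact inM_add h h'

/-- the possible exponents of the coefficients of `b` (`false`) and of `a` (`true`) -/
def inK : Bool → Lt → Prop
  | false => fun ρ => ρ.1 = 0 ∧ 0 ≤ ρ.2.1 ∧ ρ.2.1 ≤ 8 ∧ 0 ≤ ρ.2.2 ∧ ρ.2.2 ≤ 8 ∧
      2 ∣ ρ.2.1 + ρ.2.2
  | true => fun ρ => ρ.1 = 0 ∧ 0 ≤ ρ.2.1 ∧ ρ.2.1 ≤ 4 ∧ 0 ≤ ρ.2.2 ∧ ρ.2.2 ≤ 4 ∧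
      ¬ 2 ∣ ρ.2.1 + ρ.2.2

instance (d : Bool) (v : Lt) : Decidable (inK d v) := by
  cases d <;> (simp only [inK]; infer_instance)

theorem potential_aux {κ ρ₁ ρ₂ : ℤ} (hκ : κ = 0 ∨ κ = 4) {c : Lt → Lt → V} (hc : Coc c)
    (h0 : ∀ σ τ, inS σ → inS τ → KK κ ρ₁ ρ₂ (σ + τ) → c σ τ = 0) :
    ∃ h : Lt → V, (∀ σ τ, inS σ → inS τ → c σ τ = h σ + h τ - h (σ + τ)) ∧
      ∀ σ, inS σ → KK κ ρ₁ ρ₂ σ → h σ = 0 := by
  obtain ⟨h, hh⟩ := exists_potential hc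
  have H : AddOn (KK κ ρ₁ ρ₂) h := by
    refine ⟨fun σ τ hσ hτ hK => ?_, fun σ τ _ hτ hK => KK_low hτ hK⟩
    have := hh σ τ hσ hτ
    rw [h0 σ τ hσ hτ hK] at this
    exact (sub_eq_zero.mp this.symm).symm
  obtain ⟨x, y, w, hl⟩ := exists_fit hκ H
  refine ⟨fun σ => h σ - ell x y w σ, fun σ τ hσ hτ => ?_, fun σ hσ hK => ?_⟩
  · dsimp only
    rw [ell_add x y w hσ hτ, hh σ τ hσ hτ]
    abel
  · dsimp only
    rw [hl σ hσ hK, sub_self]

lemma out_iff {d : Bool} {ρ σ : Lt} (hρ : ρ.1 = 0)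
    (hd : cond d (¬ 2 ∣ ρ.2.1 + ρ.2.2) (2 ∣ ρ.2.1 + ρ.2.2)) (hσ : inS σ) :
    ¬ inD d (σ + ρ) ↔ KK (cond d 4 0) ρ.2.1 ρ.2.2 σ := by
  obtain ⟨n, i, j⟩ := σ
  obtain ⟨n', i', j'⟩ := ρ
  cases d <;> simp only [cond_true, cond_false, inD, inS, inM, KK, Prod.mk_add_mk] at * <;> omega

theorem potential (d : Bool) {ρ : Lt} (hρ : ρ.1 = 0) {c : Lt → Lt → V} (hc : Coc c)
    (h0 : ∀ σ τ, inS σ → inS τ → ¬ inD d (σ + τ + ρ) → c σ τ = 0) :
    ∃ h : Lt → V, (∀ σ τ, inS σ → inS τ → c σ τ = h σ + h τ - h (σ + τ)) ∧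
      ∀ σ, inS σ → ¬ inD d (σ + ρ) → h σ = 0 := by
  by_cases hd : cond d (¬ 2 ∣ ρ.2.1 + ρ.2.2) (2 ∣ ρ.2.1 + ρ.2.2)
  · obtain ⟨h, h1, h2⟩ := potential_aux (κ := cond d 4 0) (ρ₁ := ρ.2.1) (ρ₂ := ρ.2.2)
      (by cases d <;> simp) hc (fun σ τ hσ hτ hK => h0 σ τ hσ hτ
        ((out_iff hρ hd (inS_add hσ hτ)).mpr hK))
    exact ⟨h, h1, fun σ hσ hK => h2 σ hσ ((out_iff hρ hd hσ).mp hK)⟩
  · refine ⟨fun _ => 0, fun σ τ hσ hτ => ?_, fun _ _ _ => rfl⟩
    rw [h0 σ τ hσ hτ]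
    · abel
    · have := inS_add hσ hτ
      obtain ⟨n, i, j⟩ := σ
      obtain ⟨n', i', j'⟩ := τ
      obtain ⟨n'', i'', j''⟩ := ρ
      cases d <;> simp only [cond_true, cond_false, inD, inS, inM, Prod.mk_add_mk] at * <;> omega

/-! ### the module case -/

/-- generators of the module part -/
def m00 : Lt := (3, 0, 0)
def m20 : Lt := (3, 2, 0)
def m02 : Lt := (3, 0, 2)
def m22 : Lt := (3, 2, 2)

theorem potential_module (d : Bool) {ρ : Lt} (hρ : ρ.1 = 0) {e : Lt → Lt → V}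
    (he : ∀ σ τ μ, inS σ → inS τ → inM μ → e (σ + τ) μ = e τ μ + e σ (τ + μ))
    (h0 : ∀ σ μ, inS σ → inM μ → ¬ inD d (σ + μ + ρ) → e σ μ = 0) :
    ∃ g : Lt → V, (∀ σ μ, inS σ → inM μ → e σ μ = g μ - g (σ + μ)) ∧
      ∀ μ, inM μ → ¬ inD d (μ + ρ) → g μ = 0 := by
  have hφ : ∀ μ, inM μ → inS (μ - m00 + c00) := by
    rintro ⟨n, i, j⟩ hμ
    simp only [inM] at hμ
    simp only [m00, c00, Prod.mk_sub_mk, Prod.mk_add_mk, inS]
    omega
  have hc : inS c00 := by decide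
  have hm00 : inM m00 := by decide
  let g0 : Lt → V := fun μ => e c00 μ - e (μ - m00 + c00) m00
  have hg0 : ∀ σ μ, inS σ → inM μ → e σ μ = g0 μ - g0 (σ + μ) := by
    intro σ μ hσ hμ
    have e1 := he σ (μ - m00 + c00) m00 hσ (hφ μ hμ) hm00
    have e2 := he σ c00 μ hσ hc hμ
    have e3 := he c00 σ μ hc hσ hμ
    have e4 : μ - m00 + c00 + m00 = c00 + μ := by abel
    have e5 : σ + μ - m00 + c00 = σ + (μ - m00 + c00) := by abel
    rw [e4] at e1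
    rw [add_comm c00 σ] at e3
    simp only [g0, e5]
    rw [e1]
    rw [e2] at e3
    grind
  -- constancy on the out-of-range set
  have hK : ∃ C : V, ∀ μ, inM μ → ¬ inD d (μ + ρ) → g0 μ = C := by
    have hstep : ∀ σ μ, inS σ → inM μ → ¬ inD d (σ + μ + ρ) → g0 μ = g0 (σ + μ) := by
      intro σ μ hσ hμ hK
      have := hg0 σ μ hσ hμ
      rw [h0 σ μ hσ hμ hK] at this
      exact sub_eq_zero.mp this.symm
    have hgen : ∀ m c : Lt, inM m → inS c → ∀ μ, inM μ → inS (μ - m + c) →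
        ¬ inD d (c + μ + ρ) → g0 μ = g0 m := by
      intro m c hm hc μ hμ hS hK
      rw [hstep c μ hc hμ hK]
      have e1 : c + μ = (μ - m + c) + m := by abel
      rw [e1] at hK ⊢
      exact (hstep _ _ hS hm hK).symm
    obtain ⟨n', ρ₁, ρ₂⟩ := ρ
    simp only at hρ
    subst hρ
    by_cases h1 : ρ₁ ≤ 0
    · by_cases h2 : ρ₂ ≤ 0
      · refine ⟨g0 m00, ?_⟩
        rintro ⟨n, i, j⟩ hμ hK
        refine hgen m00 c00 (by decide) (by decide) _ hμ (hφ _ hμ) ?_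
        cases d <;> simp only [inD, inS, inM, Prod.mk_add_mk, c00] at * <;> omega
      · refine ⟨g0 m02, ?_⟩
        rintro ⟨n, i, j⟩ hμ hK
        refine hgen m02 c04 (by decide) (by decide) _ hμ ?_ ?_
        · simp only [inM] at hμ
          simp only [m02, c04, Prod.mk_sub_mk, Prod.mk_add_mk, inS]
          omega
        · cases d <;> simp only [inD, inS, inM, Prod.mk_add_mk, c04] at * <;> omega
    · by_cases h2 : ρ₂ ≤ 0
      · refine ⟨g0 m20, ?_⟩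
        rintro ⟨n, i, j⟩ hμ hK
        refine hgen m20 c40 (by decide) (by decide) _ hμ ?_ ?_
        · simp only [inM] at hμ
          simp only [m20, c40, Prod.mk_sub_mk, Prod.mk_add_mk, inS]
          omega
        · cases d <;> simp only [inD, inS, inM, Prod.mk_add_mk, c40] at * <;> omega
      · refine ⟨g0 m22, ?_⟩
        rintro ⟨n, i, j⟩ hμ hK
        refine hgen m22 c44 (by decide) (by decide) _ hμ ?_ ?_
        · simp only [inM] at hμ
          simp only [m22, c44, Prod.mk_sub_mk, Prod.mk_add_mk, inS]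
          omega
        · cases d <;> simp only [inD, inS, inM, Prod.mk_add_mk, c44] at * <;> omega
  obtain ⟨C, hC⟩ := hK
  refine ⟨fun μ => g0 μ - C, fun σ μ hσ hμ => ?_, fun μ hμ hK => ?_⟩
  · dsimp only
    rw [hg0 σ μ hσ hμ]
    abel
  · dsimp only
    rw [hC μ hμ hK, sub_self]

theorem const_module (d : Bool) {ρ : Lt} {w : Lt → Lt → V}
    (h1 : ∀ σ μ ν, inS σ → inM μ → inM ν → w (σ + μ) ν = w μ ν)
    (h2 : ∀ μ ν, inM μ → inM ν → w μ ν = w ν μ)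
    (h0 : ∀ μ ν, inM μ → inM ν → ¬ inD d (μ + ν + ρ) → w μ ν = 0) (hρ : ρ.1 = 0) :
    ∃ c : V, (∀ μ ν, inM μ → inM ν → w μ ν = c) ∧ (¬ inK d ρ → c = 0) := by
  have hφ : ∀ μ, inM μ → inS (μ - m00 + c00) := by
    rintro ⟨n, i, j⟩ hμ
    simp only [inM] at hμ
    simp only [m00, c00, Prod.mk_sub_mk, Prod.mk_add_mk, inS]
    omega
  have hc : inS c00 := by decide
  have hm00 : inM m00 := by decide
  have k1 : ∀ μ ν, inM μ → inM ν → w μ ν = w m00 ν := by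
    intro μ ν hμ hν
    rw [← h1 c00 μ ν hc hμ hν, ← h1 (μ - m00 + c00) m00 ν (hφ μ hμ) hm00 hν]
    congr 1
    abel
  have k2 : ∀ μ ν, inM μ → inM ν → w μ ν = w m00 m00 := by
    intro μ ν hμ hν
    rw [k1 μ ν hμ hν, h2 _ _ hm00 hν, k1 ν m00 hν hm00]
  refine ⟨w m00 m00, k2, fun hK => ?_⟩
  by_cases a1 : inD d (m00 + m00 + ρ)
  · by_cases a2 : inD d (m22 + m22 + ρ)
    · exfalso
      apply hK
      obtain ⟨n', ρ₁, ρ₂⟩ := ρ
      simp only at hρ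
      subst hρ
      cases d <;> simp only [inD, inS, inM, inK, Prod.mk_add_mk, m00, m22, true_and] at * <;>
        omega
    · rw [← k2 m22 m22 (by decide) (by decide)]
      exact h0 _ _ (by decide) (by decide) a2
  · exact h0 _ _ hm00 hm00 a1

end Pool.Agent.Helper190_Can
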