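import Pool.Agent.Helper190_Can.Modify

set_option linter.unusedSimpArgs false
set_option linter.unusedSectionVars false

open Module

noncomputable section

namespace Pool.Agent.Helper190_Can

variable {R A : Type} [CommRing R] [CommRing A] [Algebra R A]

/-- the finite sets of exponents -/
def KF (d : Bool) : Finset Lt := (Finset.Icc ((0, 0, 0) : Lt) (0, 8, 8)).filter (inK d)

lemma mem_KF {d : Bool} {κ : Lt} : κ ∈ KF d ↔ inK d κ := by
  obtain ⟨n, i, j⟩ := κ
  simp only [KF, Finset.mem_filter, Finset.mem_Icc, Prod.mk_le_mk, and_iff_right_iff_imp]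
  intro h
  cases d <;> simp only [inK] at h <;> omega

/-- the multiplication table modulo ideals -/
structure Rel (B : Basis Ix R A) (J : Bool → Ideal R) (J' : Ideal R) (α : Bool → Lt → R) :
    Prop where
  one : EE B false 0 = 1
  mulS : ∀ d σ μ, inS σ → inD d μ →
    EE B false σ * EE B d μ - EE B d (σ + μ) ∈ J d • (⊤ : Submodule R A)
  mulM : ∀ μ ν, inM μ → inM ν →
    EE B true μ * EE B true ν + ∑ d, ∑ κ ∈ KF d, α d κ • EE B d (μ + ν + κ) ∈
      J' • (⊤ : Submodule R A)

lemma shift {B : Basis Ix R A} {J : Ideal R}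
    (hS : ∀ d σ μ, inS σ → inD d μ →
      EE B false σ * EE B d μ - EE B d (σ + μ) ∈ J • (⊤ : Submodule R A))
    {σ : Lt} (hσ : inS σ) {x : A} (hx : x ∈ J • (⊤ : Submodule R A)) (d : Bool) (w : Lt) :
    cf B d w (EE B false σ * x) - cf B d (w - σ) x ∈ J ^ 2 := by
  let f : A →ₗ[R] R := (cf B d w).comp (LinearMap.mulLeft R (EE B false σ)) - cf B d (w - σ)
  have h1 : f x ∈ J * J := by
    refine map_mem_of_basis B f ?_ hx
    intro d' v hv
    have h2 := (mem_smul_top_iff B J _).mp (hS d' σ v hσ hv) d w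
    rw [map_sub] at h2
    have h3 : cf B d w (EE B d' (σ + v)) = cf B d (w - σ) (EE B d' v) := by
      rw [cf_EE, cf_EE]
      by_cases hdv : d = d' ∧ w = σ + v
      · obtain ⟨rfl, rfl⟩ := hdv
        rw [if_pos ⟨⟨rfl, rfl⟩, inD_add hσ hv⟩, if_pos]
        rw [add_sub_cancel_left]
        exact ⟨⟨rfl, rfl⟩, hv⟩
      · rw [if_neg, if_neg]
        · rintro ⟨⟨rfl, h4⟩, _⟩
          apply hdv
          refine ⟨rfl, ?_⟩
          rw [← h4]; abel
        · exact fun h => hdv h.1
    rw [h3] at h2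
    exact h2
  rw [pow_two]
  exact h1

lemma qt_shift {B : Basis Ix R A} {J : Ideal R}
    (hS : ∀ d σ μ, inS σ → inD d μ →
      EE B false σ * EE B d μ - EE B d (σ + μ) ∈ J • (⊤ : Submodule R A))
    {σ : Lt} (hσ : inS σ) {x : A} (hx : x ∈ J • (⊤ : Submodule R A)) (d : Bool) (w : Lt) :
    qt J (cf B d w (EE B false σ * x)) = qt J (cf B d (w - σ) x) := by
  rw [qt_eq]
  · exact shift hS hσ hx d w
  · exact (mem_smul_top_iff B J _).mp (mul_left_mem _ hx) d w
  · exact (mem_smul_top_iff B J _).mp hx _ _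

/-! ### finite sums over a degree -/

/-- the box of exponents of degree `n` -/
def box (n : ℤ) : Finset Lt := Finset.Icc ((n, 0, 0) : Lt) (n, 2 * n, 2 * n)

lemma mem_box {n : ℤ} {d : Bool} {w : Lt} (h : inD d w) : w ∈ box n ↔ w.1 = n := by
  obtain ⟨m, i, j⟩ := w
  simp only [box, Finset.mem_Icc, Prod.mk_le_mk]
  cases d <;> simp only [inD, inS, inM] at h <;> omega

/-- the element with given coordinates -/
def bsum (B : Basis Ix R A) (n : ℤ) (φ : Bool → Lt → R) : A :=
  ∑ d, ∑ v ∈ box n, φ d v • EE B d v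

lemma cf_bsum (B : Basis Ix R A) {n : ℤ} (φ : Bool → Lt → R) {d : Bool} {w : Lt}
    (hw : w.1 = n) : cf B d w (bsum B n φ) = if inD d w then φ d w else 0 := by
  by_cases hd : inD d w
  swap
  · rw [cf_out hd, if_neg hd]
  rw [if_pos hd, bsum, map_sum]
  have h1 : ∀ d', cf B d w (∑ v ∈ box n, φ d' v • EE B d' v) = if d = d' then φ d w else 0 := by
    intro d'
    rw [map_sum]
    simp_rw [map_smul, cf_EE, smul_eq_mul]
    by_cases hdd : d = d'
    · subst hdd
      rw [if_pos rfl, Finset.sum_eq_single w]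
      · rw [if_pos ⟨⟨rfl, rfl⟩, hd⟩, mul_one]
      · intro v _ hv
        rw [if_neg, mul_zero]
        exact fun h => hv h.1.2.symm
      · intro h
        exact absurd ((mem_box hd).mpr hw) h
    · rw [if_neg hdd]
      refine Finset.sum_eq_zero fun v _ => ?_
      rw [if_neg, mul_zero]
      exact fun h => hdd h.1.1
  simp_rw [h1]
  simp

lemma bsum_mem (B : Basis Ix R A) {n : ℤ} {φ : Bool → Lt → R} {J : Ideal R}
    (h : ∀ d v, φ d v ∈ J) : bsum B n φ ∈ J • (⊤ : Submodule R A) := by
  refine Submodule.sum_mem _ fun d _ => Submodule.sum_mem _ fun v _ => ?_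
  exact Submodule.smul_mem_smul (h d v) trivial

section graded
variable {gr : ℕ → Submodule R A} [GradedAlgebra gr]

lemma EE_mem {B : Basis Ix R A} (hB : HomB gr B) (d : Bool) {v : Lt} {n : ℤ} (hv : v.1 = n) :
    EE B d v ∈ gr n.toNat := by
  by_cases h : inD d v
  · rw [← hv]; exact hB d v h
  · rw [EE_out h]; exact Submodule.zero_mem _

lemma box_fst {n : ℤ} {v : Lt} (h : v ∈ box n) : v.1 = n := by
  obtain ⟨m, i, j⟩ := v
  simp only [box, Finset.mem_Icc, Prod.mk_le_mk] at h
  change m = n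
  omega

lemma bsum_gr {B : Basis Ix R A} (hB : HomB gr B) (n : ℤ) (φ : Bool → Lt → R) :
    bsum B n φ ∈ gr n.toNat := by
  refine Submodule.sum_mem _ fun d _ => Submodule.sum_mem _ fun v hv => ?_
  exact Submodule.smul_mem _ _ (EE_mem hB d (box_fst hv))

lemma mem_of_cf {B : Basis Ix R A} (hB : HomB gr B) {K : Ideal R} {x : A} {n : ℤ} (hn : 0 ≤ n)
    (hx : x ∈ gr n.toNat) (h : ∀ d w, w.1 = n → cf B d w x ∈ K) :
    x ∈ K • (⊤ : Submodule R A) := by
  rw [mem_smul_top_iff B]
  intro d w
  by_cases hw : w.1 = n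
  · exact h d w hw
  · rw [cf_degree hB hx d]
    · exact K.zero_mem
    · rw [Int.toNat_of_nonneg hn]
      exact hw

lemma gr_mul {m n : ℤ} {x y : A} (hm : 0 ≤ m) (hn : 0 ≤ n) (hx : x ∈ gr m.toNat)
    (hy : y ∈ gr n.toNat) : x * y ∈ gr (m + n).toNat := by
  have : (m + n).toNat = m.toNat + n.toNat := by omega
  rw [this]
  exact SetLike.mul_mem_graded hx hy

/-! ### step 1 -/

theorem step1 {B : Basis Ix R A} (hB : HomB gr B) {J : Ideal R} (hJ : IsNilpotent J)
    {α : Bool → Lt → R} (h : Rel B (fun _ => J) J α) :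
    ∃ B' : Basis Ix R A, HomB gr B' ∧ Rel B' (fun d => cond d J (J ^ 2)) J α ∧
      ∀ d v, EE B' d v - EE B d v ∈ J • (⊤ : Submodule R A) := by
  classical
  set E := EE B with hE
  set err : Lt → Lt → A := fun σ τ => E false σ * E false τ - E false (σ + τ) with herr
  have herrJ : ∀ σ τ, inS σ → inS τ → err σ τ ∈ J • (⊤ : Submodule R A) :=
    fun σ τ hσ hτ => h.mulS false σ τ hσ hτ
  have hcJ : ∀ {x : A}, x ∈ J • (⊤ : Submodule R A) → ∀ d w, cf B d w x ∈ J :=
    fun hx => (mem_smul_top_iff B J _).mp hx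
  have hpot : ∀ (d : Bool) (ρ : Lt), ∃ g : Lt → J.Cotangent, ρ.1 = 0 →
      ((∀ σ τ, inS σ → inS τ → qt J (cf B d (σ + τ + ρ) (err σ τ)) = g σ + g τ - g (σ + τ)) ∧
        ∀ σ, inS σ → ¬ inD d (σ + ρ) → g σ = 0) := by
    intro d ρ
    by_cases hρ : ρ.1 = 0
    · suffices hs : ∃ g : Lt → J.Cotangent, (∀ σ τ, inS σ → inS τ →
          qt J (cf B d (σ + τ + ρ) (err σ τ)) = g σ + g τ - g (σ + τ)) ∧
          ∀ σ, inS σ → ¬ inD d (σ + ρ) → g σ = 0 by
        obtain ⟨g, hg⟩ := hs
        exact ⟨g, fun _ => hg⟩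
      refine potential d hρ (c := fun σ τ => qt J (cf B d (σ + τ + ρ) (err σ τ)))
        ⟨?_, ?_, ?_⟩ ?_
      · intro σ τ hσ hτ
        have e1 : err σ τ = err τ σ := by
          simp only [herr]
          rw [add_comm σ τ, mul_comm (E false σ)]
        rw [e1, add_comm σ τ]
      · intro σ τ υ hσ hτ hυ
        have e1 : err σ τ * E false υ + err (σ + τ) υ = err τ υ * E false σ + err σ (τ + υ) := by
          simp only [herr]
          rw [add_assoc σ τ υ]
          ring
        have e2 : qt J (cf B d (σ + τ + υ + ρ) (E false υ * err σ τ)) =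
            qt J (cf B d (σ + τ + ρ) (err σ τ)) := by
          rw [qt_shift h.mulS hυ (herrJ σ τ hσ hτ)]
          have e : σ + τ + υ + ρ - υ = σ + τ + ρ := by abel
          rw [e]
        have e3 : qt J (cf B d (σ + τ + υ + ρ) (E false σ * err τ υ)) =
            qt J (cf B d (τ + υ + ρ) (err τ υ)) := by
          rw [qt_shift h.mulS hσ (herrJ τ υ hτ hυ)]
          have e : σ + τ + υ + ρ - σ = τ + υ + ρ := by abel
          rw [e]
        rw [← e2, ← e3, ← add_assoc σ τ υ]
        rw [← qt_add (hcJ (mul_left_mem _ (herrJ σ τ hσ hτ)) _ _)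
          (hcJ (herrJ _ _ (inS_add hσ hτ) hυ) _ _),
          ← qt_add (hcJ (mul_left_mem _ (herrJ τ υ hτ hυ)) _ _)
          (hcJ (herrJ _ _ hσ (inS_add hτ hυ)) _ _), ← map_add, ← map_add]
        congr 2
        linear_combination e1
      · intro σ hσ
        have : err 0 σ = 0 := by
          simp only [herr, hE, zero_add]
          rw [h.one, one_mul, sub_self]
        rw [this, map_zero, qt_zero]
      · intro σ τ hσ hτ hout
        rw [cf_out hout, qt_zero]
    · exact ⟨fun _ => 0, fun h => absurd h hρ⟩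
  choose g hg using hpot
  obtain ⟨l, hl1, hl2, hl3⟩ := exists_lift J
  let H : Lt → A := fun σ => bsum B σ.1 (fun d v => l (g d (v - σ) σ))
  have hHJ : ∀ σ, H σ ∈ J • (⊤ : Submodule R A) := fun σ => bsum_mem B fun d v => hl1 _
  have hHgr : ∀ σ, H σ ∈ gr σ.1.toNat := fun σ => bsum_gr hB _ _
  have hHq : ∀ σ, inS σ → ∀ d w, w.1 = σ.1 → qt J (cf B d w (H σ)) = g d (w - σ) σ := by
    intro σ hσ d w hw
    rw [cf_bsum B _ hw]
    split_ifs with hd
    · exact hl2 _
    · rw [qt_zero]
      have h0 : (w - σ).1 = 0 := by rw [Prod.fst_sub, hw, sub_self]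
      refine ((hg d (w - σ) h0).2 σ hσ ?_).symm
      rw [add_sub_cancel]
      exact hd
  have hH0 : H 0 = 0 := by
    have : ∀ d v, v ∈ box (0 : Lt).1 → g d (v - 0) 0 = 0 := by
      intro d v hv
      have hv0 : (v - 0 : Lt).1 = 0 := by rw [sub_zero]; exact box_fst hv
      have h1 := (hg d (v - 0) hv0).1 0 0 inS_zero inS_zero
      have h2 : err 0 0 = 0 := by
        simp only [herr, hE, zero_add]
        rw [h.one, one_mul, sub_self]
      rw [h2, map_zero, qt_zero, add_zero, add_sub_cancel_right] at h1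
      exact h1.symm
    change bsum B (0 : Lt).1 _ = 0
    rw [bsum]
    refine Finset.sum_eq_zero fun d _ => Finset.sum_eq_zero fun v hv => ?_
    rw [this d v hv, hl3, zero_smul]
  obtain ⟨B', hB'⟩ := modify B hJ (fun i => if i.1.1 = false then H i.1.2 else 0) (by
    intro i
    split_ifs
    · exact hHJ _
    · exact Submodule.zero_mem _)
  have hE'S : ∀ σ, inS σ → EE B' false σ = E false σ - H σ := by
    intro σ hσ
    rw [EE_of (show inD false σ from hσ), hB', hE, EE_of (show inD false σ from hσ)]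
    simp
  have hE'M : ∀ v, EE B' true v = E true v := by
    intro v
    by_cases hv : inD true v
    · rw [EE_of hv, hB', hE, EE_of hv]
      simp
    · rw [EE_out hv, hE, EE_out hv]
  have hE'd : ∀ d v, EE B' d v - E d v ∈ J • (⊤ : Submodule R A) := by
    intro d v
    cases d
    · by_cases hv : inS v
      · rw [hE'S v hv, sub_sub_cancel_left]
        exact Submodule.neg_mem _ (hHJ v)
      · rw [EE_out (show ¬ inD false v from hv), hE, EE_out (show ¬ inD false v from hv), sub_zero]
        exact Submodule.zero_mem _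
    · rw [hE'M, sub_self]
      exact Submodule.zero_mem _
  refine ⟨B', ?_, ⟨?_, ?_, ?_⟩, hE'd⟩
  · intro d v hv
    cases d
    · rw [hE'S v hv]
      exact Submodule.sub_mem _ (hB false v hv) (hHgr v)
    · rw [hE'M]
      exact hB true v hv
  · rw [hE'S 0 inS_zero, hH0, sub_zero]
    exact h.one
  · intro d σ μ hσ hμ
    cases d
    · change inS μ at hμ
      simp only [cond_false]
      rw [hE'S σ hσ, hE'S μ hμ, hE'S (σ + μ) (inS_add hσ hμ)]
      have hσ0 : 0 ≤ σ.1 := inD_nonneg (d := false) hσ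
      have hμ0 : 0 ≤ μ.1 := inD_nonneg (d := false) hμ
      refine mem_of_cf hB (n := σ.1 + μ.1) (by omega) ?_ ?_
      · refine Submodule.sub_mem _ (gr_mul hσ0 hμ0 ?_ ?_) ?_
        · exact Submodule.sub_mem _ (hB false σ hσ) (hHgr σ)
        · exact Submodule.sub_mem _ (hB false μ hμ) (hHgr μ)
        · exact Submodule.sub_mem _ (hB false (σ + μ) (inS_add hσ hμ)) (hHgr (σ + μ))
      · intro d w hw
        have e1 : (E false σ - H σ) * (E false μ - H μ) - (E false (σ + μ) - H (σ + μ)) =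
            (err σ μ - E false μ * H σ - E false σ * H μ + H (σ + μ)) + H σ * H μ := by
          simp only [herr]; ring
        rw [e1, map_add]
        refine Ideal.add_mem _ ?_ ?_
        · have m1 := hcJ (herrJ σ μ hσ hμ) d w
          have m2 := hcJ (mul_left_mem (E false μ) (hHJ σ)) d w
          have m3 := hcJ (mul_left_mem (E false σ) (hHJ μ)) d w
          have m4 := hcJ (hHJ (σ + μ)) d w
          rw [← qt_eq_zero (hcJ (Submodule.add_mem _ (Submodule.sub_mem _ (Submodule.sub_mem _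
            (herrJ σ μ hσ hμ) (mul_left_mem _ (hHJ σ))) (mul_left_mem _ (hHJ μ)))
            (hHJ (σ + μ))) d w), map_add, map_sub, map_sub,
            qt_add (J.sub_mem (J.sub_mem m1 m2) m3) m4, qt_sub (J.sub_mem m1 m2) m3,
            qt_sub m1 m2, qt_shift h.mulS hμ (hHJ σ), qt_shift h.mulS hσ (hHJ μ)]
          have hρ : (w - σ - μ : Lt).1 = 0 := by
            rw [Prod.fst_sub, Prod.fst_sub, hw]; ring
          have q1 := (hg d (w - σ - μ) hρ).1 σ μ hσ hμ
          have q1' : σ + μ + (w - σ - μ) = w := by abel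
          rw [q1'] at q1
          have q2 := hHq σ hσ d (w - μ) (by rw [Prod.fst_sub, hw]; ring)
          have q3 := hHq μ hμ d (w - σ) (by rw [Prod.fst_sub, hw]; ring)
          have q4 := hHq (σ + μ) (inS_add hσ hμ) d w (by rw [Prod.fst_add, hw])
          have q2' : w - μ - σ = w - σ - μ := by abel
          have q4' : w - (σ + μ) = w - σ - μ := by abel
          rw [q2'] at q2
          rw [q4'] at q4
          rw [q1, q2, q3, q4]
          abel
        · have := (mem_smul_top_iff B (J * J) _).mp (mul_mem_smul_top (hHJ σ) (hHJ μ)) d w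
          rwa [← pow_two] at this
    · simp only [cond_true]
      rw [hE'S σ hσ, hE'M, hE'M]
      have e1 : (E false σ - H σ) * E true μ - E true (σ + μ) =
          (E false σ * E true μ - E true (σ + μ)) - E true μ * H σ := by ring
      rw [e1]
      exact Submodule.sub_mem _ (h.mulS true σ μ hσ hμ) (mul_left_mem _ (hHJ σ))
  · intro μ ν hμ hν
    rw [hE'M, hE'M]
    have e1 : E true μ * E true ν + ∑ d, ∑ κ ∈ KF d, α d κ • EE B' d (μ + ν + κ) =
        (E true μ * E true ν + ∑ d, ∑ κ ∈ KF d, α d κ • E d (μ + ν + κ)) +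
        ∑ d, ∑ κ ∈ KF d, α d κ • (EE B' d (μ + ν + κ) - E d (μ + ν + κ)) := by
      simp only [smul_sub, Finset.sum_sub_distrib]
      ring
    rw [e1]
    refine Submodule.add_mem _ (h.mulM μ ν hμ hν) ?_
    exact Submodule.sum_mem _ fun d _ => Submodule.sum_mem _ fun κ _ =>
      Submodule.smul_mem _ _ (hE'd d _)

end graded

end Pool.Agent.Helper190_Can
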