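import Pool.Agent.Helper190_Can.Lift

set_option linter.unusedSimpArgs false
set_option linter.unusedSectionVars false

open Module

noncomputable section

namespace Pool.Agent.Helper190_Can

variable {R A : Type} [CommRing R] [CommRing A] [Algebra R A]
variable {gr : ℕ → Submodule R A} [GradedAlgebra gr]

lemma smul_top_mono {J K : Ideal R} (h : J ≤ K) {x : A} (hx : x ∈ J • (⊤ : Submodule R A)) :
    x ∈ K • (⊤ : Submodule R A) := Submodule.smul_mono_left h hx

lemma sq_le (J : Ideal R) : J ^ 2 ≤ J := Ideal.pow_le_self two_ne_zero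

/-! ### step 2 -/

theorem step2 {B : Basis Ix R A} (hB : HomB gr B) {J : Ideal R} (hJ : IsNilpotent J)
    {α : Bool → Lt → R} (h : Rel B (fun d => cond d J (J ^ 2)) J α) :
    ∃ B' : Basis Ix R A, HomB gr B' ∧ Rel B' (fun _ => J ^ 2) J α ∧
      ∀ d v, EE B' d v - EE B d v ∈ J • (⊤ : Submodule R A) := by
  classical
  have hS : ∀ d σ μ, inS σ → inD d μ →
      EE B false σ * EE B d μ - EE B d (σ + μ) ∈ J • (⊤ : Submodule R A) := by
    intro d σ μ hσ hμ
    have := h.mulS d σ μ hσ hμ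
    cases d
    · exact smul_top_mono (sq_le J) this
    · exact this
  set E := EE B with hE
  set err : Lt → Lt → A := fun σ μ => E false σ * E true μ - E true (σ + μ) with herr
  have herrJ : ∀ σ μ, inS σ → inM μ → err σ μ ∈ J • (⊤ : Submodule R A) :=
    fun σ μ hσ hμ => hS true σ μ hσ hμ
  have hcJ : ∀ {x : A}, x ∈ J • (⊤ : Submodule R A) → ∀ d w, cf B d w x ∈ J :=
    fun hx => (mem_smul_top_iff B J _).mp hx
  have hpot : ∀ (d : Bool) (ρ : Lt), ∃ g : Lt → J.Cotangent, ρ.1 = 0 →
      ((∀ σ μ, inS σ → inM μ → qt J (cf B d (σ + μ + ρ) (err σ μ)) = g μ - g (σ + μ)) ∧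
        ∀ μ, inM μ → ¬ inD d (μ + ρ) → g μ = 0) := by
    intro d ρ
    by_cases hρ : ρ.1 = 0
    · suffices hs : ∃ g : Lt → J.Cotangent, (∀ σ μ, inS σ → inM μ →
          qt J (cf B d (σ + μ + ρ) (err σ μ)) = g μ - g (σ + μ)) ∧
          ∀ μ, inM μ → ¬ inD d (μ + ρ) → g μ = 0 by
        obtain ⟨g, hg⟩ := hs
        exact ⟨g, fun _ => hg⟩
      refine potential_module d hρ (e := fun σ μ => qt J (cf B d (σ + μ + ρ) (err σ μ))) ?_ ?_
      · intro σ τ μ hσ hτ hμ
        have e1 : (E false σ * E false τ - E false (σ + τ)) * E true μ =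
            E false σ * err τ μ + err σ (τ + μ) - err (σ + τ) μ := by
          simp only [herr]
          rw [add_assoc σ τ μ]
          ring
        have e0 : (E false σ * E false τ - E false (σ + τ)) * E true μ ∈
            (J ^ 2) • (⊤ : Submodule R A) := by
          rw [mul_comm]
          exact mul_left_mem _ (h.mulS false σ τ hσ hτ)
        have e3 : qt J (cf B d (σ + τ + μ + ρ) (E false σ * err τ μ)) =
            qt J (cf B d (τ + μ + ρ) (err τ μ)) := by
          rw [qt_shift hS hσ (herrJ τ μ hτ hμ)]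
          have e : σ + τ + μ + ρ - σ = τ + μ + ρ := by abel
          rw [e]
        rw [← e3, ← add_assoc σ τ μ,
          ← qt_add (hcJ (mul_left_mem _ (herrJ τ μ hτ hμ)) _ _)
          (hcJ (herrJ _ _ hσ (inM_add hτ hμ)) _ _), ← map_add, eq_comm,
          qt_eq (hcJ (Submodule.add_mem _ (mul_left_mem _ (herrJ τ μ hτ hμ))
            (herrJ _ _ hσ (inM_add hτ hμ))) _ _) (hcJ (herrJ _ _ (inS_add hσ hτ) hμ) _ _),
          ← map_sub, ← e1]
        exact (mem_smul_top_iff B (J ^ 2) _).mp e0 _ _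
      · intro σ μ hσ hμ hout
        rw [cf_out hout, qt_zero]
    · exact ⟨fun _ => 0, fun h => absurd h hρ⟩
  choose g hg using hpot
  obtain ⟨l, hl1, hl2, hl3⟩ := exists_lift J
  let H : Lt → A := fun μ => bsum B μ.1 (fun d v => l (g d (v - μ) μ))
  have hHJ : ∀ μ, H μ ∈ J • (⊤ : Submodule R A) := fun μ => bsum_mem B fun d v => hl1 _
  have hHgr : ∀ μ, H μ ∈ gr μ.1.toNat := fun μ => bsum_gr hB _ _
  have hHq : ∀ μ, inM μ → ∀ d w, w.1 = μ.1 → qt J (cf B d w (H μ)) = g d (w - μ) μ := by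
    intro μ hμ d w hw
    rw [cf_bsum B _ hw]
    split_ifs with hd
    · exact hl2 _
    · rw [qt_zero]
      have h0 : (w - μ).1 = 0 := by rw [Prod.fst_sub, hw, sub_self]
      refine ((hg d (w - μ) h0).2 μ hμ ?_).symm
      rw [add_sub_cancel]
      exact hd
  obtain ⟨B', hB'⟩ := modify B hJ (fun i => if i.1.1 = true then H i.1.2 else 0) (by
    intro i
    split_ifs
    · exact hHJ _
    · exact Submodule.zero_mem _)
  have hE'M : ∀ μ, inM μ → EE B' true μ = E true μ - H μ := by
    intro μ hμ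
    rw [EE_of (show inD true μ from hμ), hB', hE, EE_of (show inD true μ from hμ)]
    simp
  have hE'S : ∀ v, EE B' false v = E false v := by
    intro v
    by_cases hv : inD false v
    · rw [EE_of hv, hB', hE, EE_of hv]
      simp
    · rw [EE_out hv, hE, EE_out hv]
  have hE'd : ∀ d v, EE B' d v - E d v ∈ J • (⊤ : Submodule R A) := by
    intro d v
    cases d
    · rw [hE'S, sub_self]
      exact Submodule.zero_mem _
    · by_cases hv : inM v
      · rw [hE'M v hv, sub_sub_cancel_left]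
        exact Submodule.neg_mem _ (hHJ v)
      · rw [EE_out (show ¬ inD true v from hv), hE, EE_out (show ¬ inD true v from hv), sub_zero]
        exact Submodule.zero_mem _
  refine ⟨B', ?_, ⟨?_, ?_, ?_⟩, hE'd⟩
  · intro d v hv
    cases d
    · rw [hE'S]
      exact hB false v hv
    · rw [hE'M v hv]
      exact Submodule.sub_mem _ (hB true v hv) (hHgr v)
  · rw [hE'S]
    exact h.one
  · intro d σ μ hσ hμ
    cases d
    · rw [hE'S, hE'S, hE'S]
      exact h.mulS false σ μ hσ hμ
    · change inM μ at hμ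
      rw [hE'S, hE'M μ hμ, hE'M (σ + μ) (inM_add hσ hμ)]
      have hσ0 : 0 ≤ σ.1 := inD_nonneg (d := false) hσ
      have hμ0 : 0 ≤ μ.1 := inD_nonneg (d := true) hμ
      refine mem_of_cf hB (n := σ.1 + μ.1) (by omega) ?_ ?_
      · refine Submodule.sub_mem _ (gr_mul hσ0 hμ0 (hB false σ hσ) ?_) ?_
        · exact Submodule.sub_mem _ (hB true μ hμ) (hHgr μ)
        · exact Submodule.sub_mem _ (hB true (σ + μ) (inM_add hσ hμ)) (hHgr (σ + μ))
      · intro d w hw
        have e1 : E false σ * (E true μ - H μ) - (E true (σ + μ) - H (σ + μ)) =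
            (err σ μ - E false σ * H μ + H (σ + μ)) := by
          simp only [herr]; ring
        rw [e1]
        have m1 := hcJ (herrJ σ μ hσ hμ) d w
        have m3 := hcJ (mul_left_mem (E false σ) (hHJ μ)) d w
        have m4 := hcJ (hHJ (σ + μ)) d w
        rw [← qt_eq_zero (hcJ (Submodule.add_mem _ (Submodule.sub_mem _
          (herrJ σ μ hσ hμ) (mul_left_mem _ (hHJ μ)))
          (hHJ (σ + μ))) d w), map_add, map_sub,
          qt_add (J.sub_mem m1 m3) m4, qt_sub m1 m3, qt_shift hS hσ (hHJ μ)]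
        have hρ : (w - σ - μ : Lt).1 = 0 := by
          rw [Prod.fst_sub, Prod.fst_sub, hw]; ring
        have q1 := (hg d (w - σ - μ) hρ).1 σ μ hσ hμ
        have q1' : σ + μ + (w - σ - μ) = w := by abel
        rw [q1'] at q1
        have q3 := hHq μ hμ d (w - σ) (by rw [Prod.fst_sub, hw]; ring)
        have q4 := hHq (σ + μ) (inM_add hσ hμ) d w (by rw [Prod.fst_add, hw])
        have q4' : w - (σ + μ) = w - σ - μ := by abel
        rw [q4'] at q4
        rw [q1, q3, q4]
        abel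
  · intro μ ν hμ hν
    have e1 : EE B' true μ * EE B' true ν + ∑ d, ∑ κ ∈ KF d, α d κ • EE B' d (μ + ν + κ) =
        (E true μ * E true ν + ∑ d, ∑ κ ∈ KF d, α d κ • E d (μ + ν + κ)) +
        (EE B' true μ * (EE B' true ν - E true ν) + E true ν * (EE B' true μ - E true μ)) +
        ∑ d, ∑ κ ∈ KF d, α d κ • (EE B' d (μ + ν + κ) - E d (μ + ν + κ)) := by
      simp only [smul_sub, Finset.sum_sub_distrib]
      ring
    rw [e1]
    refine Submodule.add_mem _ (Submodule.add_mem _ (h.mulM μ ν hμ hν) (Submodule.add_mem _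
      (mul_left_mem _ (hE'd _ _)) (mul_left_mem _ (hE'd _ _)))) ?_
    exact Submodule.sum_mem _ fun d _ => Submodule.sum_mem _ fun κ _ =>
      Submodule.smul_mem _ _ (hE'd d _)

/-! ### step 3 -/

lemma inD_mm {d : Bool} {μ ν κ : Lt} (hμ : inM μ) (hν : inM ν) (hκ : inK d κ) :
    inD d (μ + ν + κ) := by
  obtain ⟨n, i, j⟩ := μ
  obtain ⟨n', i', j'⟩ := ν
  obtain ⟨n'', i'', j''⟩ := κ
  cases d <;> simp only [inD, inS, inM, inK, Prod.mk_add_mk] at * <;> omega

theorem step3 {B : Basis Ix R A} (hB : HomB gr B) {J : Ideal R}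
    {α : Bool → Lt → R} (h : Rel B (fun _ => J ^ 2) J α) :
    ∃ α' : Bool → Lt → R, Rel B (fun _ => J ^ 2) (J ^ 2) α' ∧ ∀ d κ, α' d κ - α d κ ∈ J := by
  classical
  have hS : ∀ d σ μ, inS σ → inD d μ →
      EE B false σ * EE B d μ - EE B d (σ + μ) ∈ J • (⊤ : Submodule R A) :=
    fun d σ μ hσ hμ => smul_top_mono (sq_le J) (h.mulS d σ μ hσ hμ)
  set E := EE B with hE
  set W : Lt → Lt → A := fun μ ν => E true μ * E true ν +
    ∑ d, ∑ κ ∈ KF d, α d κ • E d (μ + ν + κ) with hW
  have hWJ : ∀ μ ν, inM μ → inM ν → W μ ν ∈ J • (⊤ : Submodule R A) := h.mulM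
  have hcJ : ∀ {x : A}, x ∈ J • (⊤ : Submodule R A) → ∀ d w, cf B d w x ∈ J :=
    fun hx => (mem_smul_top_iff B J _).mp hx
  have hconst : ∀ (d : Bool) (ρ : Lt), ∃ c : J.Cotangent, ρ.1 = 0 →
      ((∀ μ ν, inM μ → inM ν → qt J (cf B d (μ + ν + ρ) (W μ ν)) = c) ∧
        (¬ inK d ρ → c = 0)) := by
    intro d ρ
    by_cases hρ : ρ.1 = 0
    · suffices hs : ∃ c : J.Cotangent, (∀ μ ν, inM μ → inM ν →
          qt J (cf B d (μ + ν + ρ) (W μ ν)) = c) ∧ (¬ inK d ρ → c = 0) by
        obtain ⟨c, hc⟩ := hs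
        exact ⟨c, fun _ => hc⟩
      refine const_module d (w := fun μ ν => qt J (cf B d (μ + ν + ρ) (W μ ν))) ?_ ?_ ?_ hρ
      · intro σ μ ν hσ hμ hν
        have e1 : W (σ + μ) ν = E false σ * W μ ν -
            ((E false σ * E true μ - E true (σ + μ)) * E true ν +
            ∑ d, ∑ κ ∈ KF d, α d κ •
              (E false σ * E d (μ + ν + κ) - E d (σ + (μ + ν + κ)))) := by
          have ea : ∀ κ, σ + μ + ν + κ = σ + (μ + ν + κ) := fun κ => by abel
          simp only [hW, smul_sub, Finset.sum_sub_distrib, mul_add, Finset.mul_sum,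
            mul_smul_comm, ea]
          ring
        have e2 : (E false σ * E true μ - E true (σ + μ)) * E true ν +
            ∑ d, ∑ κ ∈ KF d, α d κ •
              (E false σ * E d (μ + ν + κ) - E d (σ + (μ + ν + κ))) ∈
              (J ^ 2) • (⊤ : Submodule R A) := by
          refine Submodule.add_mem _ ?_ ?_
          · rw [mul_comm]
            exact mul_left_mem _ (h.mulS true σ μ hσ hμ)
          · refine Submodule.sum_mem _ fun d _ => Submodule.sum_mem _ fun κ hκ => ?_
            exact Submodule.smul_mem _ _ (h.mulS d σ _ hσ (inD_mm hμ hν (mem_KF.mp hκ)))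
        have e3 : qt J (cf B d (σ + μ + ν + ρ) (E false σ * W μ ν)) =
            qt J (cf B d (μ + ν + ρ) (W μ ν)) := by
          rw [qt_shift hS hσ (hWJ μ ν hμ hν)]
          have e : σ + μ + ν + ρ - σ = μ + ν + ρ := by abel
          rw [e]
        rw [← e3, qt_eq (hcJ (hWJ _ _ (inM_add hσ hμ) hν) _ _)
          (hcJ (mul_left_mem _ (hWJ μ ν hμ hν)) _ _), ← map_sub, e1, sub_sub_cancel_left,
          map_neg]
        exact Ideal.neg_mem_iff _ |>.mpr ((mem_smul_top_iff B (J ^ 2) _).mp e2 _ _)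
      · intro μ ν hμ hν
        have e1 : W μ ν = W ν μ := by
          simp only [hW]
          rw [mul_comm, add_comm μ ν]
        rw [e1, add_comm μ ν]
      · intro μ ν hμ hν hout
        rw [cf_out hout, qt_zero]
    · exact ⟨0, fun h => absurd h hρ⟩
  choose c hc using hconst
  obtain ⟨l, hl1, hl2, hl3⟩ := exists_lift J
  refine ⟨fun d κ => α d κ - l (c d κ), ⟨h.one, h.mulS, ?_⟩, ?_⟩
  · intro μ ν hμ hν
    have e1 : E true μ * E true ν + ∑ d, ∑ κ ∈ KF d, (α d κ - l (c d κ)) • E d (μ + ν + κ) =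
        W μ ν - ∑ d, ∑ κ ∈ KF d, l (c d κ) • E d (μ + ν + κ) := by
      simp only [hW, sub_smul, Finset.sum_sub_distrib]
      ring
    change E true μ * E true ν + ∑ d, ∑ κ ∈ KF d, (α d κ - l (c d κ)) • E d (μ + ν + κ) ∈ _
    rw [e1]
    have hμ0 : 0 ≤ μ.1 := inD_nonneg (d := true) hμ
    have hν0 : 0 ≤ ν.1 := inD_nonneg (d := true) hν
    have hκ0 : ∀ d κ, κ ∈ KF d → (μ + ν + κ).1 = μ.1 + ν.1 := by
      intro d κ hκ
      have := mem_KF.mp hκ
      have h0 : κ.1 = 0 := by cases d <;> exact this.1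
      rw [Prod.fst_add, Prod.fst_add, h0, add_zero]
    refine mem_of_cf hB (n := μ.1 + ν.1) (by omega) ?_ ?_
    · refine Submodule.sub_mem _ (Submodule.add_mem _ (gr_mul hμ0 hν0 (hB true μ hμ)
        (hB true ν hν)) ?_) ?_
      · exact Submodule.sum_mem _ fun d _ => Submodule.sum_mem _ fun κ hκ =>
          Submodule.smul_mem _ _ (EE_mem hB d (hκ0 d κ hκ))
      · exact Submodule.sum_mem _ fun d _ => Submodule.sum_mem _ fun κ hκ =>
          Submodule.smul_mem _ _ (EE_mem hB d (hκ0 d κ hκ))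
    · intro d w hw
      have hρ : (w - μ - ν : Lt).1 = 0 := by
        rw [Prod.fst_sub, Prod.fst_sub, hw]; ring
      have q1 := (hc d (w - μ - ν) hρ).1 μ ν hμ hν
      have q1' : μ + ν + (w - μ - ν) = w := by abel
      rw [q1'] at q1
      have s1 : cf B d w (∑ d', ∑ κ ∈ KF d', l (c d' κ) • E d' (μ + ν + κ)) =
          l (c d (w - μ - ν)) := by
        rw [map_sum]
        have t1 : ∀ d', cf B d w (∑ κ ∈ KF d', l (c d' κ) • E d' (μ + ν + κ)) =
            if d = d' then l (c d (w - μ - ν)) else 0 := by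
          intro d'
          rw [map_sum]
          simp_rw [map_smul, hE, cf_EE, smul_eq_mul]
          by_cases hdd : d = d'
          · subst hdd
            rw [if_pos rfl]
            by_cases hk : inK d (w - μ - ν)
            · rw [Finset.sum_eq_single (w - μ - ν)]
              · rw [if_pos, mul_one]
                refine ⟨⟨rfl, q1'.symm⟩, ?_⟩
                have := inD_mm hμ hν hk
                rwa [q1'] at this
              · intro κ _ hne
                rw [if_neg, mul_zero]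
                rintro ⟨⟨_, h2⟩, _⟩
                apply hne
                rw [h2]; abel
              · intro hn
                exact absurd (mem_KF.mpr hk) hn
            · rw [(hc d (w - μ - ν) hρ).2 hk, hl3]
              refine Finset.sum_eq_zero fun κ hκ => ?_
              rw [if_neg, mul_zero]
              rintro ⟨⟨_, h2⟩, _⟩
              apply hk
              have : w - μ - ν = κ := by rw [h2]; abel
              rw [this]
              exact mem_KF.mp hκ
          · rw [if_neg hdd]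
            refine Finset.sum_eq_zero fun κ _ => ?_
            rw [if_neg, mul_zero]
            exact fun h => hdd h.1.1
        simp_rw [t1]
        simp
      rw [map_sub, s1, ← qt_eq (hcJ (hWJ μ ν hμ hν) _ _) (hl1 _), q1, hl2]
  · intro d κ
    dsimp only
    rw [sub_sub_cancel_left]
    exact J.neg_mem (hl1 _)

/-- one full step -/
theorem step {B : Basis Ix R A} (hB : HomB gr B) {J : Ideal R} (hJ : IsNilpotent J)
    {α : Bool → Lt → R} (h : Rel B (fun _ => J) J α) :
    ∃ (B' : Basis Ix R A) (α' : Bool → Lt → R), HomB gr B' ∧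
      Rel B' (fun _ => J ^ 2) (J ^ 2) α' ∧ (∀ d κ, α' d κ - α d κ ∈ J) ∧
      ∀ d v, EE B' d v - EE B d v ∈ J • (⊤ : Submodule R A) := by
  obtain ⟨B1, hB1, h1, g1⟩ := step1 hB hJ h
  obtain ⟨B2, hB2, h2, g2⟩ := step2 hB1 hJ h1
  obtain ⟨α', h3, h4⟩ := step3 hB2 h2
  refine ⟨B2, α', hB2, h3, h4, fun d v => ?_⟩
  have : EE B2 d v - EE B d v = (EE B2 d v - EE B1 d v) + (EE B1 d v - EE B d v) := by abel
  rw [this]
  exact Submodule.add_mem _ (g2 d v) (g1 d v)

/-- lifting to an exact presentation -/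
theorem lift_all {B : Basis Ix R A} (hB : HomB gr B) {J : Ideal R} (hJ : IsNilpotent J)
    {α : Bool → Lt → R} (h : Rel B (fun _ => J) J α) :
    ∃ (B' : Basis Ix R A) (α' : Bool → Lt → R), HomB gr B' ∧
      Rel B' (fun _ => ⊥) ⊥ α' ∧ (∀ d κ, α' d κ - α d κ ∈ J) ∧
      ∀ d v, EE B' d v - EE B d v ∈ J • (⊤ : Submodule R A) := by
  have key : ∀ k : ℕ, ∃ (B' : Basis Ix R A) (α' : Bool → Lt → R), HomB gr B' ∧
      Rel B' (fun _ => J ^ (2 ^ k)) (J ^ (2 ^ k)) α' ∧ (∀ d κ, α' d κ - α d κ ∈ J) ∧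
      ∀ d v, EE B' d v - EE B d v ∈ J • (⊤ : Submodule R A) := by
    intro k
    induction k with
    | zero => exact ⟨B, α, hB, by simpa using h, fun d κ => by simp, fun d v => by simp⟩
    | succ k ih =>
      obtain ⟨B1, α1, h1, h2, h3, h4⟩ := ih
      have hn : IsNilpotent (J ^ (2 ^ k)) := by
        obtain ⟨n, hn⟩ := hJ
        refine ⟨n, ?_⟩
        rw [← pow_mul, mul_comm, pow_mul, hn]
        exact zero_pow (by positivity)
      obtain ⟨B2, α2, g1, g2, g3, g4⟩ := step h1 hn h2
      refine ⟨B2, α2, g1, ?_, fun d κ => ?_, fun d v => ?_⟩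
      · rw [pow_succ 2 k, pow_mul]
        exact g2
      · have : α2 d κ - α d κ = (α2 d κ - α1 d κ) + (α1 d κ - α d κ) := by ring
        rw [this]
        refine J.add_mem ?_ (h3 d κ)
        exact Ideal.pow_le_self (by positivity) (g3 d κ)
      · have : EE B2 d v - EE B d v = (EE B2 d v - EE B1 d v) + (EE B1 d v - EE B d v) := by abel
        rw [this]
        exact Submodule.add_mem _ (smul_top_mono (Ideal.pow_le_self (by positivity)) (g4 d v))
          (h4 d v)
  obtain ⟨n, hn⟩ := hJ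
  obtain ⟨B', α', h1, h2, h3, h4⟩ := key n
  have h0 : J ^ (2 ^ n) = ⊥ := by
    have : n ≤ 2 ^ n := Nat.lt_two_pow_self.le
    have h5 := Ideal.pow_le_pow_right (I := J) this
    rw [hn] at h5
    exact le_bot_iff.mp h5
  rw [h0] at h2
  exact ⟨B', α', h1, h2, h3, h4⟩

end Pool.Agent.Helper190_Can
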