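import Pool.Agent.Helper190_Can.Alg

set_option linter.unusedSimpArgs false

open Module

noncomputable section

namespace Pool.Agent.Helper190_Can

variable {R A : Type} [CommRing R] [CommRing A] [Algebra R A]

/-- modification of a basis by a nilpotent amount -/
theorem modify (B : Basis Ix R A) {J : Ideal R} (hJ : IsNilpotent J) (H : Ix → A)
    (hH : ∀ i, H i ∈ J • (⊤ : Submodule R A)) :
    ∃ B' : Basis Ix R A, ∀ i, B' i = B i - H i := by
  let N : Module.End R A := B.constr R H
  have hN : ∀ i, N (B i) = H i := fun i => B.constr_basis R H i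
  have hN1 : ∀ y, N y ∈ J • (⊤ : Submodule R A) := by
    intro y
    refine mem_span_EE (B := B) (P := fun y => N y ∈ J • (⊤ : Submodule R A)) ?_ ?_ ?_ ?_ y
    · simp
    · intro x y hx hy; rw [map_add]; exact Submodule.add_mem _ hx hy
    · intro r x hx; rw [map_smul]; exact Submodule.smul_mem _ _ hx
    · intro d v h
      rw [EE_of h, hN]
      exact hH _
  have hN2 : ∀ (K : Ideal R) (y : A), y ∈ K • (⊤ : Submodule R A) →
      N y ∈ (K * J) • (⊤ : Submodule R A) := by
    intro K y hy
    refine Submodule.smul_induction_on hy ?_ ?_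
    · intro r hr n _
      rw [map_smul, Submodule.mul_smul]
      exact Submodule.smul_mem_smul hr (hN1 n)
    · intro x y hx hy
      rw [map_add]; exact Submodule.add_mem _ hx hy
  have hN3 : ∀ (k : ℕ) (y : A), (N ^ k) y ∈ (J ^ k) • (⊤ : Submodule R A) := by
    intro k
    induction k with
    | zero =>
      intro y
      rw [pow_zero, pow_zero, Ideal.one_eq_top, Submodule.top_smul]
      trivial
    | succ k ih =>
      intro y
      rw [pow_succ' N k, pow_succ J k]
      exact hN2 _ _ (ih y)
  obtain ⟨k, hk⟩ := hJ
  have hnil : IsNilpotent N := by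
    refine ⟨k, ?_⟩
    refine LinearMap.ext fun y => ?_
    have := hN3 k y
    rw [hk, Ideal.zero_eq_bot, Submodule.bot_smul, Submodule.mem_bot] at this
    exact this
  have hunit : IsUnit (1 - N) := by
    have := hnil.isUnit_sub_one
    have h2 := this.neg
    rwa [neg_sub] at h2
  have hbij := (Module.End.isUnit_iff _).mp hunit
  let e : A ≃ₗ[R] A := LinearEquiv.ofBijective (1 - N) hbij
  refine ⟨B.map e, fun i => ?_⟩
  rw [Basis.map_apply]
  change (1 - N) (B i) = _
  rw [LinearMap.sub_apply, hN]
  rfl

end Pool.Agent.Helper190_Can
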