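import Pool.Agent.Helper190_Can.NodeTay
import Pool.Agent.Helper190_CoarseTwo.Pair

set_option linter.unusedSimpArgs false
set_option linter.unusedVariables false

open MvPolynomial
open Pool.Agent.Helper190_CoarseTwo (wt zdeg bz ex)

noncomputable section

namespace Pool.Agent.Helper190_Can

variable {k : Type} [Field k]

/-- the chart polynomial -/
def FA (k : Type) [Field k] : MvPolynomial (Fin 3) k :=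
  m3 0 0 2 + m3 1 0 0 + m3 5 0 0 + m3 5 8 0 + m3 9 8 0 + m3 3 1 0 + m3 3 3 0 + m3 8 7 0

/-- the other chart polynomial -/
def FB (k : Type) [Field k] : MvPolynomial (Fin 3) k :=
  m3 0 0 2 + m3 1 0 0 + m3 5 0 0 + m3 5 8 0 + m3 9 8 0 + m3 7 7 0 + m3 7 5 0 + m3 2 1 0

lemma mono_ex (a b c d : ℕ) : (monomial (ex a b c d) (1 : k) : MvPolynomial (Fin 4) k) =
    X 0 ^ a * X 1 ^ b * X 2 ^ c * X 3 ^ d := by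
  rw [monomial_eq, C_1, one_mul, Finsupp.prod_fintype _ _ (by simp), Fin.prod_univ_four]
  simp [Helper190_CoarseTwo.ex_zero, Helper190_CoarseTwo.ex_one, Helper190_CoarseTwo.ex_two,
    Helper190_CoarseTwo.ex_three]

lemma bz_eq : bz k 2 = X 0 ^ 8 * X 2 ^ 8 + X 1 ^ 8 * X 2 ^ 8 + X 0 ^ 8 * X 3 ^ 8 +
    X 1 ^ 8 * X 3 ^ 8 + X 0 ^ 5 * X 1 ^ 3 * X 2 ^ 7 * X 3 + X 0 ^ 7 * X 1 * X 2 ^ 5 * X 3 ^ 3 +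
    X 0 * X 1 ^ 7 * X 2 * X 3 ^ 7 := by
  simp only [bz, mono_ex]
  norm_num

lemma chart_A : IsChart (rename ![0, 1, 2, 3] (0 : MvPolynomial (Fin 4) k))
    (rename ![0, 1, 2, 3] (bz k 2)) (FA k) := by
  rw [IsChart, bz_eq]
  simp only [map_zero, zero_mul, zero_add, map_add, map_mul, map_pow, rename_X, bind₁_X_right, FA,
    m3]
  simp
  ring

lemma chart_A' : IsChart (rename ![2, 3, 0, 1] (0 : MvPolynomial (Fin 4) k))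
    (rename ![2, 3, 0, 1] (bz k 2)) (FA k) := by
  rw [IsChart, bz_eq]
  simp only [map_zero, zero_mul, zero_add, map_add, map_mul, map_pow, rename_X, bind₁_X_right, FA,
    m3]
  simp
  ring

lemma chart_B : IsChart (rename ![1, 0, 3, 2] (0 : MvPolynomial (Fin 4) k))
    (rename ![1, 0, 3, 2] (bz k 2)) (FB k) := by
  rw [IsChart, bz_eq]
  simp only [map_zero, zero_mul, zero_add, map_add, map_mul, map_pow, rename_X, bind₁_X_right, FB,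
    m3]
  simp
  ring

lemma chart_B' : IsChart (rename ![3, 2, 1, 0] (0 : MvPolynomial (Fin 4) k))
    (rename ![3, 2, 1, 0] (bz k 2)) (FB k) := by
  rw [IsChart, bz_eq]
  simp only [map_zero, zero_mul, zero_add, map_add, map_mul, map_pow, rename_X, bind₁_X_right, FB,
    m3]
  simp
  ring

lemma tay_FA (c : Fin 3 → k) :
    tay (FA k) c (Finsupp.single 0 1) = 1 + 5 * c 0 ^ 4 + 5 * c 0 ^ 4 * c 1 ^ 8 +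
      9 * c 0 ^ 8 * c 1 ^ 8 + 3 * c 0 ^ 2 * c 1 + 3 * c 0 ^ 2 * c 1 ^ 3 + 8 * c 0 ^ 7 * c 1 ^ 7 ∧
    tay (FA k) c (Finsupp.single 1 1) = 8 * c 0 ^ 5 * c 1 ^ 7 + 8 * c 0 ^ 9 * c 1 ^ 7 + c 0 ^ 3 +
      3 * c 0 ^ 3 * c 1 ^ 2 + 7 * c 0 ^ 8 * c 1 ^ 6 ∧
    tay (FA k) c (Finsupp.single 2 1) = 2 * c 2 ∧
    tay2 (FA k) c 0 0 = 10 * c 0 ^ 3 + 10 * c 0 ^ 3 * c 1 ^ 8 + 36 * c 0 ^ 7 * c 1 ^ 8 +
      3 * c 0 * c 1 + 3 * c 0 * c 1 ^ 3 + 28 * c 0 ^ 6 * c 1 ^ 7 ∧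
    tay2 (FA k) c 1 1 = 28 * c 0 ^ 5 * c 1 ^ 6 + 28 * c 0 ^ 9 * c 1 ^ 6 + 3 * c 0 ^ 3 * c 1 +
      21 * c 0 ^ 8 * c 1 ^ 5 ∧
    tay2 (FA k) c 2 2 = 1 ∧
    tay2 (FA k) c 0 1 = 40 * c 0 ^ 4 * c 1 ^ 7 + 72 * c 0 ^ 8 * c 1 ^ 7 + 3 * c 0 ^ 2 +
      9 * c 0 ^ 2 * c 1 ^ 2 + 56 * c 0 ^ 7 * c 1 ^ 6 ∧
    tay2 (FA k) c 0 2 = 0 ∧ tay2 (FA k) c 1 2 = 0 := by
  obtain ⟨h0, h1, h2⟩ := tay1_eq (FA k) c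
  obtain ⟨h3, h4, h5, h6, h7, h8⟩ := tay2_eq (FA k) c
  rw [h0, h1, h2, h3, h4, h5, h6, h7, h8]
  simp only [FA, tay_add, tay_m3]
  refine ⟨?_, ?_, ?_, ?_, ?_, ?_, ?_, ?_, ?_⟩ <;> simp [Nat.choose] <;> ring

lemma tay_FB (c : Fin 3 → k) :
    tay (FB k) c (Finsupp.single 0 1) = 1 + 5 * c 0 ^ 4 + 5 * c 0 ^ 4 * c 1 ^ 8 +
      9 * c 0 ^ 8 * c 1 ^ 8 + 7 * c 0 ^ 6 * c 1 ^ 7 + 7 * c 0 ^ 6 * c 1 ^ 5 + 2 * c 0 * c 1 ∧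
    tay (FB k) c (Finsupp.single 1 1) = 8 * c 0 ^ 5 * c 1 ^ 7 + 8 * c 0 ^ 9 * c 1 ^ 7 +
      7 * c 0 ^ 7 * c 1 ^ 6 + 5 * c 0 ^ 7 * c 1 ^ 4 + c 0 ^ 2 ∧
    tay (FB k) c (Finsupp.single 2 1) = 2 * c 2 ∧
    tay2 (FB k) c 0 0 = 10 * c 0 ^ 3 + 10 * c 0 ^ 3 * c 1 ^ 8 + 36 * c 0 ^ 7 * c 1 ^ 8 +
      21 * c 0 ^ 5 * c 1 ^ 7 + 21 * c 0 ^ 5 * c 1 ^ 5 + c 1 ∧
    tay2 (FB k) c 1 1 = 28 * c 0 ^ 5 * c 1 ^ 6 + 28 * c 0 ^ 9 * c 1 ^ 6 + 21 * c 0 ^ 7 * c 1 ^ 5 +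
      10 * c 0 ^ 7 * c 1 ^ 3 ∧
    tay2 (FB k) c 2 2 = 1 ∧
    tay2 (FB k) c 0 1 = 40 * c 0 ^ 4 * c 1 ^ 7 + 72 * c 0 ^ 8 * c 1 ^ 7 + 49 * c 0 ^ 6 * c 1 ^ 6 +
      35 * c 0 ^ 6 * c 1 ^ 4 + 2 * c 0 ∧
    tay2 (FB k) c 0 2 = 0 ∧ tay2 (FB k) c 1 2 = 0 := by
  obtain ⟨h0, h1, h2⟩ := tay1_eq (FB k) c
  obtain ⟨h3, h4, h5, h6, h7, h8⟩ := tay2_eq (FB k) c
  rw [h0, h1, h2, h3, h4, h5, h6, h7, h8]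
  simp only [FB, tay_add, tay_m3]
  refine ⟨?_, ?_, ?_, ?_, ?_, ?_, ?_, ?_, ?_⟩ <;> simp [Nat.choose] <;> ring

end Pool.Agent.Helper190_Can
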