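import Pool.Agent.Helper190_Can.NodeBz

set_option linter.unusedSimpArgs false
set_option linter.unusedVariables false

open MvPolynomial

noncomputable section

namespace Pool.Agent.Helper190_Can

variable {k : Type} [Field k]

lemma node_FA_two (h2 : (2 : k) = 0) (c : Fin 3 → k) (hc : c 0 ≠ 0) : SmoothOrNode (FA k) c := by
  intro _
  by_contra hcon
  rw [not_or, not_exists] at hcon
  obtain ⟨h1, h3⟩ := hcon
  obtain ⟨e0, e1, e2, e3, e4, e5, e6, e7, e8⟩ := tay_FA c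
  have g1 := h1 1
  rw [not_not] at g1 h3
  rw [e1] at g1
  rw [e3, e4, e5, e6, e7, e8] at h3
  set U := c 0
  set w := c 1
  have f1 : U ^ 3 * (1 + w ^ 2 + U ^ 5 * w ^ 6) = 0 := by
    linear_combination g1 - (4 * U ^ 5 * w ^ 7 + 4 * U ^ 9 * w ^ 7 + U ^ 3 * w ^ 2 +
      3 * U ^ 8 * w ^ 6) * h2
  have f2 : (U ^ 2 * (1 + w ^ 2)) ^ 2 = 0 := by
    have : (40 * U ^ 4 * w ^ 7 + 72 * U ^ 8 * w ^ 7 + 3 * U ^ 2 + 9 * U ^ 2 * w ^ 2 +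
        56 * U ^ 7 * w ^ 6) = U ^ 2 * (1 + w ^ 2) := by
      linear_combination (20 * U ^ 4 * w ^ 7 + 36 * U ^ 8 * w ^ 7 + U ^ 2 + 4 * U ^ 2 * w ^ 2 +
        28 * U ^ 7 * w ^ 6) * h2
    rw [this] at h3
    linear_combination -h3 + 2 * ((10 * U ^ 3 + 10 * U ^ 3 * w ^ 8 + 36 * U ^ 7 * w ^ 8 +
      3 * U * w + 3 * U * w ^ 3 + 28 * U ^ 6 * w ^ 7) *
      (28 * U ^ 5 * w ^ 6 + 28 * U ^ 9 * w ^ 6 + 3 * U ^ 3 * w + 21 * U ^ 8 * w ^ 5)) * h2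
  have f3 : 1 + w ^ 2 = 0 := by
    have := pow_eq_zero_iff (two_ne_zero) |>.mp f2
    exact (mul_eq_zero.mp this).resolve_left (pow_ne_zero _ hc)
  have f4 : 1 + w ^ 2 + U ^ 5 * w ^ 6 = 0 := (mul_eq_zero.mp f1).resolve_left (pow_ne_zero _ hc)
  rw [f3, zero_add] at f4
  have f5 : w = 0 := pow_eq_zero_iff (by norm_num) |>.mp
    ((mul_eq_zero.mp f4).resolve_left (pow_ne_zero _ hc))
  rw [f5] at f3
  simp at f3

lemma node_FB_two (h2 : (2 : k) = 0) (c : Fin 3 → k) (hc : c 0 ≠ 0) : SmoothOrNode (FB k) c := by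
  intro _
  by_contra hcon
  rw [not_or, not_exists] at hcon
  obtain ⟨h1, h3⟩ := hcon
  obtain ⟨e0, e1, e2, e3, e4, e5, e6, e7, e8⟩ := tay_FB c
  have g1 := h1 1
  rw [not_not] at g1 h3
  rw [e1] at g1
  rw [e3, e4, e5, e6, e7, e8] at h3
  set U := c 0
  set w := c 1
  have f1 : U ^ 2 * (1 + U ^ 5 * w ^ 4 * (w ^ 2 + 1)) = 0 := by
    linear_combination g1 - (4 * U ^ 5 * w ^ 7 + 4 * U ^ 9 * w ^ 7 + 3 * U ^ 7 * w ^ 6 +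
      2 * U ^ 7 * w ^ 4) * h2
  have f2 : (U ^ 6 * (w ^ 4 * (w ^ 2 + 1))) ^ 2 = 0 := by
    have : (40 * U ^ 4 * w ^ 7 + 72 * U ^ 8 * w ^ 7 + 49 * U ^ 6 * w ^ 6 + 35 * U ^ 6 * w ^ 4 +
        2 * U) = U ^ 6 * (w ^ 4 * (w ^ 2 + 1)) := by
      linear_combination (20 * U ^ 4 * w ^ 7 + 36 * U ^ 8 * w ^ 7 + 24 * U ^ 6 * w ^ 6 +
        17 * U ^ 6 * w ^ 4 + U) * h2
    rw [this] at h3
    linear_combination -h3 + 2 * ((10 * U ^ 3 + 10 * U ^ 3 * w ^ 8 + 36 * U ^ 7 * w ^ 8 +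
      21 * U ^ 5 * w ^ 7 + 21 * U ^ 5 * w ^ 5 + w) *
      (28 * U ^ 5 * w ^ 6 + 28 * U ^ 9 * w ^ 6 + 21 * U ^ 7 * w ^ 5 + 10 * U ^ 7 * w ^ 3)) * h2
  have f3 : w ^ 4 * (w ^ 2 + 1) = 0 := by
    have := pow_eq_zero_iff (two_ne_zero) |>.mp f2
    exact (mul_eq_zero.mp this).resolve_left (pow_ne_zero _ hc)
  have f4 : 1 + U ^ 5 * w ^ 4 * (w ^ 2 + 1) = 0 :=
    (mul_eq_zero.mp f1).resolve_left (pow_ne_zero _ hc)
  have f5 : (1 : k) = 0 := by linear_combination f4 - U ^ 5 * f3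
  exact one_ne_zero f5

end Pool.Agent.Helper190_Can
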