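import Pool.Agent.Helper190_Can.Cox
import Pool.Agent.Helper190_Can.Defs

set_option linter.unusedSimpArgs false
set_option linter.unusedSectionVars false

open Module MvPolynomial
open Pool.Agent.Helper190_CoarseTwo (wt zdeg Cox piece ex nf nf_surj nf_inj root_sq qd)

noncomputable section

namespace Pool.Agent.Helper190_Can

variable {R A : Type} [CommRing R] [CommRing A] [Algebra R A]

lemma bot_smul_mem {x : A} : x ∈ (⊥ : Ideal R) • (⊤ : Submodule R A) ↔ x = 0 := by
  rw [Submodule.bot_smul, Submodule.mem_bot]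

/-- exact multiplication table -/
structure Tab (B : Basis Ix R A) (α : Bool → Lt → R) : Prop where
  one : EE B false 0 = 1
  mulS : ∀ d σ μ, inS σ → inD d μ → EE B false σ * EE B d μ = EE B d (σ + μ)
  mulM : ∀ μ ν, inM μ → inM ν →
    EE B true μ * EE B true ν = - ∑ d, ∑ κ ∈ KF d, α d κ • EE B d (μ + ν + κ)

lemma Rel.tab {B : Basis Ix R A} {α : Bool → Lt → R} (h : Rel B (fun _ => ⊥) ⊥ α) : Tab B α :=
  ⟨h.one, fun d σ μ hσ hμ => sub_eq_zero.mp (bot_smul_mem.mp (h.mulS d σ μ hσ hμ)),
    fun μ ν hμ hν => eq_neg_of_add_eq_zero_left (bot_smul_mem.mp (h.mulM μ ν hμ hν))⟩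

section
variable {B : Basis Ix R A} {α : Bool → Lt → R} (h : Tab B α)

/-- the linear map to the Cox ring -/
def toCoxL (B : Basis Ix R A) (α : Bool → Lt → R) : A →ₗ[R] Cox (pol true α) (pol false α) :=
  B.constr R (fun i => elt (pol true α) (pol false α) i.1.1 i.1.2)

lemma toCoxL_EE (B : Basis Ix R A) (α : Bool → Lt → R) {d : Bool} {v : Lt} (hv : inD d v) :
    toCoxL B α (EE B d v) = elt (pol true α) (pol false α) d v := by
  rw [EE_of hv, toCoxL, Basis.constr_basis]

include h in
lemma toCoxL_mul (x y : A) : toCoxL B α (x * y) = toCoxL B α x * toCoxL B α y := by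
  refine mem_span_EE (B := B) (P := fun x => toCoxL B α (x * y) = toCoxL B α x * toCoxL B α y)
    ?_ ?_ ?_ ?_ x
  · simp
  · intro x x' h1 h2
    rw [add_mul, map_add, h1, h2, map_add, add_mul]
  · intro r x h1
    rw [smul_mul_assoc, map_smul, h1, map_smul, smul_mul_assoc]
  intro d v hv
  refine mem_span_EE (B := B) (P := fun y => toCoxL B α (EE B d v * y) =
    toCoxL B α (EE B d v) * toCoxL B α y) ?_ ?_ ?_ ?_ y
  · simp
  · intro x x' h1 h2
    rw [mul_add, map_add, h1, h2, map_add, mul_add]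
  · intro r x h1
    rw [mul_smul_comm, map_smul, h1, map_smul, mul_smul_comm]
  intro d' v' hv'
  rw [toCoxL_EE B α hv, toCoxL_EE B α hv']
  cases d
  · rw [h.mulS d' v v' hv hv', toCoxL_EE B α (inD_add hv hv'), elt_mulS _ _ hv hv']
  · cases d'
    · rw [mul_comm (EE B true v), h.mulS true v' v hv' hv, toCoxL_EE B α (inD_add hv' hv),
        mul_comm (elt _ _ true v), elt_mulS _ _ hv' hv]
    · rw [h.mulM v v' hv hv', eq_neg_of_add_eq_zero_left (elt_mulM α hv hv'), map_neg, map_sum]
      congr 1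
      refine Finset.sum_congr rfl fun d _ => ?_
      rw [map_sum]
      refine Finset.sum_congr rfl fun κ hκ => ?_
      rw [map_smul, toCoxL_EE B α (inD_mm hv hv' (mem_KF.mp hκ))]

include h in
lemma toCoxL_one : toCoxL B α 1 = 1 := by
  rw [← h.one, toCoxL_EE B α (show inD false 0 from inS_zero), elt_one]

/-- the algebra map to the Cox ring -/
def toCox : A →ₐ[R] Cox (pol true α) (pol false α) :=
  AlgHom.ofLinearMap (toCoxL B α) (toCoxL_one h) (toCoxL_mul h)

lemma toCox_EE {d : Bool} {v : Lt} (hv : inD d v) :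
    toCox h (EE B d v) = elt (pol true α) (pol false α) d v := toCoxL_EE B α hv

lemma pc_toCox {d : Bool} {w : Lt} (hw : inD d w) (x : A) :
    pc (pol true α) (pol false α) d (mexp d w) (toCox h x) = cf B d w x := by
  refine mem_span_EE (B := B) (P := fun x =>
    pc (pol true α) (pol false α) d (mexp d w) (toCox h x) = cf B d w x) ?_ ?_ ?_ ?_ x
  · simp
  · intro x y h1 h2
    rw [map_add, map_add, h1, h2, map_add]
  · intro r x h1
    rw [map_smul, map_smul, h1, map_smul]
  · intro d' v hv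
    rw [toCox_EE h hv, pc_elt _ _ hv hw, cf_EE]
    by_cases hc : d = d' ∧ w = v
    · rw [if_pos ⟨hc.1.symm, hc.2.symm⟩, if_pos ⟨hc, hw⟩]
    · rw [if_neg, if_neg]
      · exact fun h => hc h.1
      · exact fun h => hc ⟨h.1.symm, h.2.symm⟩

lemma toCox_injective : Function.Injective (toCox h) := by
  rw [injective_iff_map_eq_zero]
  intro x hx
  apply B.ext_elem
  intro i
  rw [map_zero, Finsupp.zero_apply]
  have := pc_toCox h i.2 x
  rw [hx, map_zero, cf, dif_pos i.2] at this
  exact this.symm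

lemma nsmul_kappa (N : ℕ) : N • ((2, 2, 1) : ℤ × ℤ × ZMod 2) =
    ((2 * N : ℤ), (2 * N : ℤ), (N : ZMod 2)) := by
  rw [Prod.smul_mk, Prod.smul_mk]
  refine Prod.ext ?_ (Prod.ext ?_ ?_) <;> simp [mul_comm]

lemma weight_mexp {d : Bool} {v : Lt} (hv : inD d v) :
    Finsupp.weight wt (mexp d v) = v.1.toNat • ((2, 2, 1) : ℤ × ℤ × ZMod 2) -
      cond d (zdeg 2) 0 := by
  rw [Helper190_CoarseTwo.weight_wt]
  obtain ⟨n, i, j⟩ := v
  obtain ⟨N, rfl⟩ : ∃ N : ℕ, n = N := ⟨n.toNat, by
    have := inD_nonneg hv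
    simp only at this
    omega⟩
  simp only [mexp, Helper190_CoarseTwo.ex_zero, Helper190_CoarseTwo.ex_one,
    Helper190_CoarseTwo.ex_two, Helper190_CoarseTwo.ex_three, Int.toNat_natCast]
  have hpar : ∀ (x y : ℕ) (ε : ℕ), (x + y) % 2 = ε % 2 → (x : ZMod 2) + y = ε := by
    intro x y ε hxy
    rw [← Nat.cast_add]
    exact (ZMod.natCast_eq_natCast_iff' _ _ _).mpr hxy
  rw [nsmul_kappa]
  cases d
  · simp only [cond_false, sub_zero, inD, inS] at *
    refine Prod.ext ?_ (Prod.ext ?_ ?_)
    · dsimp only; omega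
    · dsimp only; omega
    · exact hpar _ _ _ (by omega)
  · simp only [cond_true, inD, inM, zdeg, Prod.mk_sub_mk] at *
    refine Prod.ext ?_ (Prod.ext ?_ ?_)
    · dsimp only; push_cast; omega
    · dsimp only; push_cast; omega
    · dsimp only
      rw [eq_sub_iff_add_eq]
      have := hpar (i.toNat + j.toNat) 1 N (by omega)
      push_cast at this ⊢
      exact this

lemma elt_mem_piece (a b : MvPolynomial (Fin 4) R) {d : Bool} {v : Lt} (hv : inD d v) :
    elt a b d v ∈ piece 2 a b (v.1.toNat • ((2, 2, 1) : ℤ × ℤ × ZMod 2)) := by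
  rw [elt_eq_nf]
  refine ⟨_, _, ?_, ?_, rfl⟩
  · cases d
    · simp only [cond_false]
      apply isWeightedHomogeneous_monomial
      rw [weight_mexp hv]
      simp
    · simp only [cond_true]
      exact isWeightedHomogeneous_zero _ _ _
  · cases d
    · simp only [cond_false]
      exact isWeightedHomogeneous_zero _ _ _
    · simp only [cond_true]
      apply isWeightedHomogeneous_monomial
      rw [weight_mexp hv]
      simp

end

end Pool.Agent.Helper190_Can
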