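import Pool.Agent.Helper190_Can.BC2

set_option linter.unusedSimpArgs false
set_option linter.unusedSectionVars false
set_option linter.unusedVariables false

open Module
open Pool.Agent.Helper190_CoarseTwo (good)

noncomputable section

namespace Pool.Agent.Helper190_Can

/-- the generators of degree one -/
def gen : Fin 4 → Lt := ![e12, e10, e21, e01]
/-- the corner generators -/
def cor : Fin 4 → Lt := ![c00, c40, c04, c44]
/-- the generators of degree one whose product with a corner is decomposable -/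
def kill (c g : Fin 4) : Bool := (![![true, false, true, false], ![true, false, false, true],
  ![false, true, true, false], ![false, true, false, true]] : Fin 4 → Fin 4 → Bool) c g
/-- exponent vectors of the generators of degree one -/
def gv : Fin 4 → Fin 4 → ℕ := ![![1,1,0,2], ![1,1,2,0], ![0,2,1,1], ![2,0,1,1]]

lemma kill_rel : ∀ c g, kill c g = true → ∃ x y z, gen g + cor c = gen x + (gen y + gen z) := by
  decide
lemma out1 : ∀ c h g, kill c h = false → g ≠ h → ¬ inS (gen h + cor c - gen g) := by decide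
lemma out2 : ∀ c g, ¬ inS (cor c - gen g) := by decide
lemma gen_inS : ∀ g, inS (gen g) := by decide
lemma cor_inS : ∀ c, inS (cor c) := by decide
lemma gen_inj : ∀ g h, gen g = gen h → g = h := by decide
lemma cor_inj : ∀ g h, cor g = cor h → g = h := by decide
lemma gen_fst : ∀ g, (gen g).1 = 1 := by decide
lemma cor_fst : ∀ g, (cor g).1 = 2 := by decide

set_option maxRecDepth 100000 in
lemma comb : ∀ φ : Fin 4 → Fin 4,
    (∀ g, ∃ h, ∀ c, kill c g = true → kill (φ c) h = true) →
    (∀ h, ∃ g, ∀ c, kill c g = true → kill (φ c) h = true) →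
    ∃ π : Equiv.Perm (Fin 4), good π ∧
      ∀ g h, (∀ c, kill c g = true → kill (φ c) h = true) → ∀ i, gv h (π i) = gv g i := by
  decide +kernel

lemma gv_inj : ∀ g h, gv g = gv h → g = h := by decide

lemma deg1 {d : Bool} {w : Lt} (h : inD d w) (hw : w.1 = 1) : d = false ∧ ∃ g, w = gen g := by
  obtain ⟨n, i, j⟩ := w
  simp only at hw
  subst hw
  cases d
  · refine ⟨rfl, ?_⟩
    simp only [inD, inS] at h
    have hi : i = 0 ∨ i = 1 ∨ i = 2 := by omega
    have hj : j = 0 ∨ j = 1 ∨ j = 2 := by omega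
    rcases hi with rfl | rfl | rfl <;> rcases hj with rfl | rfl | rfl <;>
      first | (exfalso; omega) | decide
  · exfalso
    simp only [inD, inM] at h
    omega

set_option maxRecDepth 10000 in
lemma deg2 {d : Bool} {w : Lt} (h : inD d w) (hw : w.1 = 2) :
    d = false ∧ ((∃ c, w = cor c) ∨ ∃ g g', w = gen g + gen g') := by
  obtain ⟨n, i, j⟩ := w
  simp only at hw
  subst hw
  cases d
  · refine ⟨rfl, ?_⟩
    simp only [inD, inS] at h
    have hi : i = 0 ∨ i = 1 ∨ i = 2 ∨ i = 3 ∨ i = 4 := by omega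
    have hj : j = 0 ∨ j = 1 ∨ j = 2 ∨ j = 3 ∨ j = 4 := by omega
    rcases hi with rfl | rfl | rfl | rfl | rfl <;>
      rcases hj with rfl | rfl | rfl | rfl | rfl <;>
      first | (exfalso; omega) | decide
  · exfalso
    simp only [inD, inM] at h
    omega

variable {R A : Type} [CommRing R] [CommRing A] [Algebra R A]
  {gr : ℕ → Submodule R A} [GradedAlgebra gr]

lemma cf_shift {B : Basis Ix R A} {α : Bool → Lt → R} (h : Tab B α) {σ : Lt} (hσ : inS σ)
    (d : Bool) (w : Lt) (x : A) : cf B d w (EE B false σ * x) = cf B d (w - σ) x := by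
  refine mem_span_EE (B := B) (P := fun x => cf B d w (EE B false σ * x) = cf B d (w - σ) x)
    ?_ ?_ ?_ ?_ x
  · simp
  · intro x y h1 h2
    rw [mul_add, map_add, h1, h2, map_add]
  · intro r x h1
    rw [mul_smul_comm, map_smul, h1, map_smul]
  · intro d' v hv
    rw [h.mulS d' σ v hσ hv, cf_EE, cf_EE]
    by_cases hdv : d = d' ∧ w = σ + v
    · obtain ⟨rfl, rfl⟩ := hdv
      rw [if_pos ⟨⟨rfl, rfl⟩, inD_add hσ hv⟩, if_pos]
      rw [add_sub_cancel_left]
      exact ⟨⟨rfl, rfl⟩, hv⟩
    · rw [if_neg, if_neg]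
      · rintro ⟨⟨rfl, h4⟩, _⟩
        apply hdv
        refine ⟨rfl, ?_⟩
        rw [← h4]; abel
      · exact fun h => hdv h.1

lemma ext_cf (B : Basis Ix R A) {x y : A} (h : ∀ d w, inD d w → cf B d w x = cf B d w y) :
    x = y := by
  apply B.ext_elem
  intro i
  have := h i.1.1 i.1.2 i.2
  rw [cf, dif_pos i.2] at this
  exact this

lemma eq_gen {B : Basis Ix R A} (hB : HomB gr B) {x : A} (hx : x ∈ gr 1) :
    x = ∑ g, cf B false (gen g) x • EE B false (gen g) := by
  apply ext_cf B
  intro d w hw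
  by_cases hw1 : w.1 = 1
  · obtain ⟨rfl, g, rfl⟩ := deg1 hw hw1
    rw [map_sum, Finset.sum_eq_single g]
    · rw [map_smul, cf_EE, if_pos ⟨⟨rfl, rfl⟩, gen_inS g⟩, smul_eq_mul, mul_one]
    · intro g' _ hne
      rw [map_smul, cf_EE, if_neg, smul_zero]
      exact fun h => hne (gen_inj _ _ h.1.2.symm)
    · intro h; exact absurd (Finset.mem_univ _) h
  · rw [cf_degree hB hx d (by exact_mod_cast hw1), map_sum]
    symm
    refine Finset.sum_eq_zero fun g _ => ?_
    rw [map_smul, cf_EE, if_neg, smul_zero]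
    rintro ⟨⟨_, h2⟩, _⟩
    apply hw1
    rw [h2, gen_fst]

lemma cf_mul1 {B : Basis Ix R A} {α : Bool → Lt → R} (hB : HomB gr B) (h : Tab B α) {x : A}
    (hx : x ∈ gr 1) (y : A) (d : Bool) (w : Lt) :
    cf B d w (x * y) = ∑ g, cf B false (gen g) x * cf B d (w - gen g) y := by
  conv_lhs => rw [eq_gen hB hx]
  rw [Finset.sum_mul, map_sum]
  refine Finset.sum_congr rfl fun g _ => ?_
  rw [smul_mul_assoc, map_smul, cf_shift h (gen_inS g), smul_eq_mul]

lemma cf_corner1 {B : Basis Ix R A} {α : Bool → Lt → R} (hB : HomB gr B) (h : Tab B α) {x : A}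
    (hx : x ∈ gr 1) (y : A) {c g : Fin 4} (hk : kill c g = false) :
    cf B false (gen g + cor c) (x * y) = cf B false (gen g) x * cf B false (cor c) y := by
  rw [cf_mul1 hB h hx, Finset.sum_eq_single g]
  · rw [add_sub_cancel_left]
  · intro g' _ hne
    rw [cf_out (d := false) (out1 c g g' hk hne), mul_zero]
  · intro h; exact absurd (Finset.mem_univ _) h

lemma cf_corner2 {B : Basis Ix R A} {α : Bool → Lt → R} (hB : HomB gr B) (h : Tab B α) {x : A}
    (hx : x ∈ gr 1) (y : A) (c : Fin 4) : cf B false (cor c) (x * y) = 0 := by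
  rw [cf_mul1 hB h hx]
  refine Finset.sum_eq_zero fun g _ => ?_
  rw [cf_out (d := false) (out2 c g), mul_zero]

section two
variable {B B' : Basis Ix R A} {α α' : Bool → Lt → R} (hB : HomB gr B) (h : Tab B α)
  (hB' : HomB gr B') (h' : Tab B' α')

/-- the transition coefficients in degree one -/
def TT (B B' : Basis Ix R A) (g h : Fin 4) : R := cf B false (gen h) (EE B' false (gen g))
/-- the transition coefficients of the corners -/
def CC (B B' : Basis Ix R A) (c d : Fin 4) : R := cf B false (cor d) (EE B' false (cor c))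

lemma gen_gr {B : Basis Ix R A} (hB : HomB gr B) (g : Fin 4) : EE B false (gen g) ∈ gr 1 := by
  have := hB false (gen g) (gen_inS g)
  rwa [gen_fst] at this

lemma cor_gr {B : Basis Ix R A} (hB : HomB gr B) (g : Fin 4) : EE B false (cor g) ∈ gr 2 := by
  have := hB false (cor g) (cor_inS g)
  rwa [cor_fst] at this

include hB h hB' h' in
lemma TC_zero {c' g c k : Fin 4} (h1 : kill c' g = true) (h2 : kill c k = false) :
    TT B B' g k * CC B B' c' c = 0 := by
  obtain ⟨x, y, z, hxyz⟩ := kill_rel c' g h1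
  have e1 : EE B' false (gen g) * EE B' false (cor c') =
      EE B' false (gen x) * (EE B' false (gen y) * EE B' false (gen z)) := by
    rw [h'.mulS false _ _ (gen_inS g) (cor_inS c'), hxyz,
      h'.mulS false _ _ (gen_inS y) (gen_inS z),
      h'.mulS false _ _ (gen_inS x) (inS_add (gen_inS y) (gen_inS z))]
  have e2 := cf_corner1 hB h (gen_gr hB' g) (EE B' false (cor c')) h2
  rw [e1, cf_corner1 hB h (gen_gr hB' x) _ h2, cf_corner2 hB h (gen_gr hB' y), mul_zero] at e2
  exact e2.symm

include hB hB' in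
lemma TT_inv (g g' : Fin 4) : ∑ k, TT B B' g k * TT B' B k g' = if g = g' then 1 else 0 := by
  have e1 := eq_gen hB (gen_gr hB' g)
  have e2 := congrArg (cf B' false (gen g')) e1
  rw [map_sum] at e2
  simp only [map_smul, smul_eq_mul] at e2
  change _ = ∑ k, TT B B' g k * TT B' B k g' at e2
  rw [← e2, cf_EE]
  by_cases hg : g = g'
  · rw [if_pos hg, if_pos ⟨⟨rfl, by rw [hg]⟩, gen_inS g'⟩]
  · rw [if_neg hg, if_neg]
    exact fun h => hg (gen_inj _ _ h.1.2).symm

include hB h hB' h' in
lemma CC_inv (c c' : Fin 4) : ∑ k, CC B B' c k * CC B' B k c' = if c = c' then 1 else 0 := by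
  have key : ∀ x ∈ gr 2, cf B' false (cor c') x = ∑ k, cf B false (cor k) x * CC B' B k c' := by
    intro x hx
    rw [← grB_eq hB] at hx
    refine grB_ind (P := fun x => cf B' false (cor c') x =
      ∑ k, cf B false (cor k) x * CC B' B k c') ?_ ?_ ?_ ?_ hx
    · simp
    · intro x y h1 h2
      rw [map_add, h1, h2, ← Finset.sum_add_distrib]
      refine Finset.sum_congr rfl fun k _ => ?_
      rw [map_add]; ring
    · intro r x h1
      rw [map_smul, h1, smul_eq_mul, Finset.mul_sum]
      refine Finset.sum_congr rfl fun k _ => ?_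
      rw [map_smul, smul_eq_mul]; ring
    · intro d v hv hv2
      obtain ⟨rfl, hc | ⟨g, g', hg⟩⟩ := deg2 hv (by exact_mod_cast hv2)
      · obtain ⟨c₁, rfl⟩ := hc
        rw [Finset.sum_eq_single c₁]
        · rw [cf_EE (B := B), if_pos ⟨⟨rfl, rfl⟩, cor_inS _⟩, one_mul]; rfl
        · intro k _ hk
          rw [cf_EE, if_neg, zero_mul]
          exact fun h => hk (cor_inj _ _ h.1.2)
        · intro h; exact absurd (Finset.mem_univ _) h
      · subst hg
        rw [← h.mulS false _ _ (gen_inS g) (gen_inS g'), cf_corner2 hB' h' (gen_gr hB g)]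
        symm
        refine Finset.sum_eq_zero fun k _ => ?_
        rw [cf_corner2 hB h (gen_gr hB g), zero_mul]
  have e2 := key _ (cor_gr hB' c)
  change _ = ∑ k, CC B B' c k * CC B' B k c' at e2
  rw [← e2, cf_EE]
  by_cases hg : c = c'
  · rw [if_pos hg, if_pos ⟨⟨rfl, by rw [hg]⟩, cor_inS c'⟩]
  · rw [if_neg hg, if_neg]
    exact fun h => hg (cor_inj _ _ h.1.2).symm

include hB h hB' h' in
theorem exists_perm [IsLocalRing R] : ∃ (π : Equiv.Perm (Fin 4)) (T : Fin 4 → R)
    (ρ : Fin 4 → Fin 4), good π ∧ (∀ g, IsUnit (T g)) ∧ (∀ g i, gv (ρ g) (π i) = gv g i) ∧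
    ∀ g, EE B' false (gen g) = T g • EE B false (gen (ρ g)) := by
  classical
  have hφ : ∀ c', ∃ c, IsUnit (CC B B' c' c) := by
    intro c'
    have h1 := CC_inv hB h hB' h' c' c'
    rw [if_pos rfl] at h1
    have h2 : IsUnit (∑ k, CC B B' c' k * CC B' B k c') := by rw [h1]; exact isUnit_one
    obtain ⟨k, _, hk⟩ := IsLocalRing.exists_of_isUnit_sum h2
    exact ⟨k, isUnit_of_mul_isUnit_left hk⟩
  choose φ hφ using hφ
  have hT0 : ∀ c g k, kill c g = true → kill (φ c) k = false → TT B B' g k = 0 := by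
    intro c g k h1 h2
    have := TC_zero hB h hB' h' h1 h2
    exact ((hφ c).mul_left_eq_zero).mp this
  have hT0' : ∀ g k, ¬ (∀ c, kill c g = true → kill (φ c) k = true) → TT B B' g k = 0 := by
    intro g k hn
    push Not at hn
    obtain ⟨c, h1, h2⟩ := hn
    exact hT0 c g k h1 (by simpa using h2)
  have hrow : ∀ g, ∃ k, ∀ c, kill c g = true → kill (φ c) k = true := by
    intro g
    by_contra hn
    push Not at hn
    have h1 := TT_inv hB hB' g g
    rw [if_pos rfl] at h1
    have h2 : ∑ k, TT B B' g k * TT B' B k g = 0 := by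
      refine Finset.sum_eq_zero fun k _ => ?_
      obtain ⟨c, h3, h4⟩ := hn k
      rw [hT0 c g k h3 (by simpa using h4), zero_mul]
    rw [h2] at h1
    exact zero_ne_one h1
  have hcol : ∀ k, ∃ g, ∀ c, kill c g = true → kill (φ c) k = true := by
    intro k
    by_contra hn
    push Not at hn
    have h1 := TT_inv hB' hB k k
    rw [if_pos rfl] at h1
    have h2 : ∑ g, TT B' B k g * TT B B' g k = 0 := by
      refine Finset.sum_eq_zero fun g _ => ?_
      obtain ⟨c, h3, h4⟩ := hn g
      rw [hT0 c g k h3 (by simpa using h4), mul_zero]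
    rw [h2] at h1
    exact zero_ne_one h1
  obtain ⟨π, hπ, hgv⟩ := comb φ hrow hcol
  choose ρ hρ using hrow
  have huniq : ∀ g k, k ≠ ρ g → TT B B' g k = 0 := by
    intro g k hne
    apply hT0'
    intro hk
    apply hne
    apply gv_inj
    funext i
    obtain ⟨i, rfl⟩ := π.surjective i
    rw [hgv g k hk, hgv g (ρ g) (hρ g)]
  refine ⟨π, fun g => TT B B' g (ρ g), ρ, hπ, ?_, fun g => hgv g (ρ g) (hρ g), ?_⟩
  · intro g
    have h1 := TT_inv hB hB' g g
    rw [if_pos rfl, Finset.sum_eq_single (ρ g)] at h1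
    · exact IsUnit.of_mul_eq_one _ h1
    · intro k _ hk
      rw [huniq g k hk, zero_mul]
    · intro h; exact absurd (Finset.mem_univ _) h
  · intro g
    have e1 := eq_gen hB (gen_gr hB' g)
    rw [e1, Finset.sum_eq_single (ρ g)]
    · rfl
    · intro k _ hk
      have : cf B false (gen k) (EE B' false (gen g)) = 0 := huniq g k hk
      rw [this, zero_smul]
    · intro h; exact absurd (Finset.mem_univ _) h

end two

end Pool.Agent.Helper190_Can
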