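import Pool.Agent.Helper190_Can.Uniq1

set_option linter.unusedSimpArgs false
set_option linter.unusedSectionVars false
set_option linter.unusedVariables false

open Module MvPolynomial
open Pool.Agent.Helper190_CoarseTwo (wt zdeg Cox piece ex nf nf_surj nf_inj root_sq qd good cc sc
  cc_eq Expl)

noncomputable section

namespace Pool.Agent.Helper190_Can

variable {R : Type} [CommRing R]

lemma cc_monomial (π : Equiv.Perm (Fin 4)) (l : Fin 4 → R) (e : Fin 4 →₀ ℕ) (r : R) :
    cc π l (monomial e r) = monomial (e.mapDomain π)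
      (l 0 ^ e 0 * l 1 ^ e 1 * l 2 ^ e 2 * l 3 ^ e 3 * r) := by
  rw [cc_eq]
  have h : sc l (monomial e r) =
      monomial e (l 0 ^ e 0 * l 1 ^ e 1 * l 2 ^ e 2 * l 3 ^ e 3 * r) := by
    ext d
    rw [Helper190_CoarseTwo.coeff_sc, coeff_monomial, coeff_monomial]
    split_ifs with hd
    · rw [hd]
    · rw [mul_zero]
  rw [h, rename_monomial]

/-- the coordinate change into the Cox ring -/
def Pm (a b : MvPolynomial (Fin 4) R) (π : Equiv.Perm (Fin 4)) (l : Fin 4 → R) :
    MvPolynomial (Fin 4) R →+* Cox a b :=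
  (AdjoinRoot.of _).comp (cc π l : MvPolynomial (Fin 4) R →+* MvPolynomial (Fin 4) R)

lemma Pm_apply (a b : MvPolynomial (Fin 4) R) (π : Equiv.Perm (Fin 4)) (l : Fin 4 → R)
    (p : MvPolynomial (Fin 4) R) : Pm a b π l p = AdjoinRoot.of _ (cc π l p) := rfl

lemma of_mul_nf (a b : MvPolynomial (Fin 4) R) (r p q : MvPolynomial (Fin 4) R) :
    AdjoinRoot.of _ r * nf a b p q = nf a b (r * p) (r * q) := by
  simp only [nf, map_mul]; ring

lemma monomial_cancel {e : Fin 4 →₀ ℕ} {u : R} (hu : IsUnit u) {p : MvPolynomial (Fin 4) R}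
    (h : monomial e u * p = 0) : p = 0 := by
  ext d
  have h1 := congrArg (coeff (e + d)) h
  rw [coeff_monomial_mul, coeff_zero] at h1
  rw [coeff_zero]
  exact hu.mul_right_eq_zero.mp h1

lemma nzd {a b : MvPolynomial (Fin 4) R} {π : Equiv.Perm (Fin 4)} {l : Fin 4 → R}
    (hl : ∀ i, IsUnit (l i)) (e : Fin 4 →₀ ℕ) {x y : Cox a b}
    (h : Pm a b π l (monomial e 1) * x = Pm a b π l (monomial e 1) * y) : x = y := by
  obtain ⟨p, q, rfl⟩ := nf_surj a b x
  obtain ⟨p', q', rfl⟩ := nf_surj a b y
  rw [Pm_apply, cc_monomial, mul_one, of_mul_nf, of_mul_nf] at h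
  have hu : IsUnit (l 0 ^ e 0 * l 1 ^ e 1 * l 2 ^ e 2 * l 3 ^ e 3) :=
    ((((hl 0).pow _).mul ((hl 1).pow _)).mul ((hl 2).pow _)).mul ((hl 3).pow _)
  obtain ⟨h1, h2⟩ := nf_inj h
  rw [← sub_eq_zero, ← mul_sub] at h1 h2
  rw [sub_eq_zero.mp (monomial_cancel hu h1), sub_eq_zero.mp (monomial_cancel hu h2)]

/-- a second presentation inside the Cox ring -/
structure Sys (a b : MvPolynomial (Fin 4) R) (SM : Bool → Lt → Cox a b)
    (α' : Bool → Lt → R) : Prop where
  one : SM false 0 = 1
  mulS : ∀ d σ μ, inS σ → inD d μ → SM false σ * SM d μ = SM d (σ + μ)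
  mulM : ∀ μ ν, inM μ → inM ν →
    SM true μ * SM true ν = - ∑ d, ∑ κ ∈ KF d, α' d κ • SM d (μ + ν + κ)
  hom : ∀ μ, inM μ → SM true μ ∈ piece 2 a b (μ.1.toNat • ((2, 2, 1) : ℤ × ℤ × ZMod 2))

/-- the basis monomial as a polynomial -/
abbrev mono (R : Type) [CommRing R] (d : Bool) (v : Lt) : MvPolynomial (Fin 4) R :=
  monomial (mexp d v) 1

lemma mono_mul {d : Bool} {σ μ : Lt} (hσ : inS σ) (hμ : inD d μ) :
    mono R false σ * mono R d μ = mono R d (σ + μ) := by
  rw [monomial_mul, mul_one, mexp_add hσ hμ]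

lemma dvd_aux {i j : Fin 4} (hij : i ≠ j) {u u' : R} (hu : IsUnit u)
    {p p' : MvPolynomial (Fin 4) R}
    (h : monomial (Finsupp.single i 2) u * p = monomial (Finsupp.single j 2) u' * p')
    {e : Fin 4 →₀ ℕ} (he : coeff e p ≠ 0) : 2 ≤ e j := by
  have h1 := congrArg (coeff (Finsupp.single i 2 + e)) h
  rw [coeff_monomial_mul, coeff_monomial_mul'] at h1
  split_ifs at h1 with h2
  · have h3 := h2 j
    rw [Finsupp.single_eq_same, Finsupp.add_apply, Finsupp.single_eq_of_ne (Ne.symm hij),
      zero_add] at h3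
    exact h3
  · exact absurd (hu.mul_right_eq_zero.mp h1) he

lemma div_aux {s : Fin 4 →₀ ℕ} {p : MvPolynomial (Fin 4) R} (h : ∀ e, coeff e p ≠ 0 → s ≤ e) :
    p = monomial s 1 * (p.divMonomial s) := by
  ext e
  rw [coeff_monomial_mul']
  split_ifs with hs
  · rw [one_mul, coeff_divMonomial, add_tsub_cancel_of_le hs]
  · by_contra hne
    exact hs (h e hne)

lemma div_hom {s : Fin 4 →₀ ℕ} {p : MvPolynomial (Fin 4) R} {γ : ℤ × ℤ × ZMod 2}
    (hp : p.IsWeightedHomogeneous wt γ) :
    (p.divMonomial s).IsWeightedHomogeneous wt (γ - Finsupp.weight wt s) := by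
  intro e he
  rw [coeff_divMonomial] at he
  have := hp he
  rw [map_add] at this
  rw [← this, add_sub_cancel_left]

lemma mexp_m00 : mexp true m00 = ex 2 0 2 0 := by
  apply Helper190_CoarseTwo.ext4 <;> rfl

lemma weight_pi {π : Equiv.Perm (Fin 4)} (hπ : good π) :
    Finsupp.weight wt ((mexp true m00).mapDomain π) = (2, 2, 0) := by
  have h1 : mexp true m00 = Finsupp.single 0 2 + Finsupp.single 2 2 := by
    rw [mexp_m00]
    apply Helper190_CoarseTwo.ext4 <;> simp
  rw [h1, Finsupp.mapDomain_add, Finsupp.mapDomain_single, Finsupp.mapDomain_single, map_add,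
    Finsupp.weight_single, Finsupp.weight_single]
  have h2 := Helper190_CoarseTwo.two_m_wt 1
  simp only [mul_one] at h2
  rw [h2, h2]
  rcases hπ with h | h
  · rw [h 0, h 2]
    decide
  · have h0 : ((π 0).val / 2 = 1) := by have := h 0; have := (π 0).isLt; simp at *; omega
    have h2 : ((π 2).val / 2 = 0) := by have := h 2; have := (π 2).isLt; simp at *; omega
    rw [h0, h2]
    decide

lemma mexp_mK {κ : Lt} (hκ : inK true κ) :
    inS (m00 + κ) ∧ mexp false (m00 + κ) = mexp true m00 + kexp true κ := by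
  obtain ⟨n, i, j⟩ := κ
  simp only [inK] at hκ
  constructor
  · simp only [inS, m00, Prod.mk_add_mk]; omega
  · rw [mexp_m00]
    apply Helper190_CoarseTwo.ext4 <;>
      simp only [mexp, kexp, m00, Finsupp.add_apply, Helper190_CoarseTwo.ex_zero,
        Helper190_CoarseTwo.ex_one, Helper190_CoarseTwo.ex_two, Helper190_CoarseTwo.ex_three,
        Prod.mk_add_mk, cond_true, cond_false] <;> omega

lemma smul_Pm {a b : MvPolynomial (Fin 4) R} {π : Equiv.Perm (Fin 4)} {l : Fin 4 → R} (r : R)
    (p : MvPolynomial (Fin 4) R) : r • Pm a b π l p = Pm a b π l (C r * p) := by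
  rw [smul_eq_of, map_mul, Pm_apply, Pm_apply]
  congr 2
  exact ((cc π l).commutes r).symm

theorem expl_of_sys {a b : MvPolynomial (Fin 4) R} {SM : Bool → Lt → Cox a b}
    {α' : Bool → Lt → R} (h : Sys a b SM α') {π : Equiv.Perm (Fin 4)} (hπ : good π)
    {T : Fin 4 → R} (hT : ∀ g, IsUnit (T g))
    (hgen : ∀ g, SM false (gen g) =
      AdjoinRoot.of _ (C (T g) * rename π (mono R false (gen g))))
    {lam : R} (hlam : IsUnit lam) (hlam4 : lam ^ 4 * T 0 = T 1 * T 3 ^ 2)
    {r : Bool → Lt → R} (hr : elt a b true m00 =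
      ∑ d, ∑ v ∈ box 3, r d v • (if inD d v then SM d v else 0)) :
    Expl 2 (pol true α') (pol false α') a b := by
  obtain ⟨lami, hlami⟩ := hlam.exists_right_inv
  set l : Fin 4 → R := ![lam, T 1 * lami, 1, T 3 * lami ^ 2] with hl
  have hulami : IsUnit lami := IsUnit.of_mul_eq_one _ (by rw [mul_comm]; exact hlami)
  have l0 : l 0 = lam := rfl
  have l1 : l 1 = T 1 * lami := rfl
  have l2 : l 2 = 1 := rfl
  have l3 : l 3 = T 3 * lami ^ 2 := rfl
  have hlu : ∀ i, IsUnit (l i) := by
    intro i
    fin_cases i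
    · exact hlam
    · exact (hT 1).mul hulami
    · exact isUnit_one
    · exact (hT 3).mul (hulami.pow 2)
  have hlami4 : lam ^ 4 * lami ^ 4 = 1 := by rw [← mul_pow, hlami, one_pow]
  have eT0 : T 0 = T 1 * T 3 ^ 2 * lami ^ 4 := by
    linear_combination (lami ^ 4) * hlam4 - (T 0) * hlami4
  -- the value of `T 2`
  have mk : ∀ g, mono R false (gen g) = monomial (mexp false (gen g)) 1 := fun _ => rfl
  have eT2' : T 1 * T 0 = T 3 * T 2 := by
    have s1 := h.mulS false (gen 1) (gen 0) (gen_inS 1) (gen_inS 0)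
    have s2 := h.mulS false (gen 3) (gen 2) (gen_inS 3) (gen_inS 2)
    have s3 : gen 1 + gen 0 = gen 3 + gen 2 := by decide
    rw [s3, ← s2, hgen, hgen, hgen, hgen, ← map_mul, ← map_mul] at s1
    have s4 := Helper190_CoarseTwo.cox_of_inj s1
    have s5 : ∀ g g', (C (T g) * rename π (mono R false (gen g))) *
        (C (T g') * rename π (mono R false (gen g'))) =
        monomial ((mexp false (gen g + gen g')).mapDomain π) (T g * T g') := by
      intro g g'
      have : (C (T g) * rename π (mono R false (gen g))) *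
        (C (T g') * rename π (mono R false (gen g'))) =
        C (T g * T g') * rename π (mono R false (gen g) * mono R false (gen g')) := by
        rw [map_mul, map_mul]; ring
      rw [this, mono_mul (gen_inS g) (show inD false _ from gen_inS g'), rename_monomial,
        C_mul_monomial, mul_one]
    rw [s5, s5, s3] at s4
    have s6 := congrArg (coeff ((mexp false (gen 3 + gen 2)).mapDomain π)) s4
    rw [coeff_monomial, coeff_monomial, if_pos rfl, if_pos rfl] at s6
    exact s6
  have eT2 : T 2 = T 1 ^ 2 * T 3 * lami ^ 4 := by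
    apply (hT 3).mul_left_cancel
    rw [← eT2', eT0]; ring
  set P := Pm a b π l with hP
  -- generators
  have hg1 : ∀ g, SM false (gen g) = P (mono R false (gen g)) := by
    intro g
    rw [hgen, hP, Pm_apply, cc_monomial, rename_monomial, C_mul_monomial]
    congr 2
    simp only [mul_one]
    fin_cases g
    · change T 0 = l 0 ^ 1 * l 1 ^ 1 * l 2 ^ 0 * l 3 ^ 2
      rw [l0, l1, l2, l3, eT0]
      linear_combination (- T 1 * T 3 ^ 2 * lami ^ 4) * hlami
    · change T 1 = l 0 ^ 1 * l 1 ^ 1 * l 2 ^ 2 * l 3 ^ 0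
      rw [l0, l1, l2, l3]
      linear_combination (- T 1) * hlami
    · change T 2 = l 0 ^ 0 * l 1 ^ 2 * l 2 ^ 1 * l 3 ^ 1
      rw [l0, l1, l2, l3, eT2]
      ring
    · change T 3 = l 0 ^ 2 * l 1 ^ 0 * l 2 ^ 1 * l 3 ^ 1
      rw [l0, l1, l2, l3]
      linear_combination (- T 3 - T 3 * lam * lami) * hlami
  have hadd : ∀ σ τ, inS σ → inS τ → SM false σ = P (mono R false σ) →
      SM false τ = P (mono R false τ) → SM false (σ + τ) = P (mono R false (σ + τ)) := by
    intro σ τ hσ hτ e1 e2
    rw [← h.mulS false σ τ hσ hτ, e1, e2, ← map_mul, mono_mul hσ (show inD false _ from hτ)]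
  have hcor : ∀ c, SM false (cor c) = P (mono R false (cor c)) := by
    intro c
    obtain ⟨g, hg⟩ : ∃ g, kill c g = true := by revert c; decide
    obtain ⟨x, y, z, hxyz⟩ := kill_rel c g hg
    have e1 : SM false (gen g + cor c) = P (mono R false (gen g + cor c)) := by
      rw [hxyz]
      exact hadd _ _ (gen_inS x) (inS_add (gen_inS y) (gen_inS z)) (hg1 x)
        (hadd _ _ (gen_inS y) (gen_inS z) (hg1 y) (hg1 z))
    rw [← h.mulS false _ _ (gen_inS g) (cor_inS c), ← mono_mul (gen_inS g)
      (show inD false _ from cor_inS c), map_mul, hg1] at e1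
    exact nzd hlu _ e1
  have hS : ∀ σ, inS σ → SM false σ = P (mono R false σ) := by
    intro σ hσ
    refine gen_ind (P := fun σ => SM false σ = P (mono R false σ)) ?_ ?_ σ hσ
    · rw [h.one]
      have : mono R false 0 = 1 := by
        have : mexp false 0 = 0 := by
          apply Helper190_CoarseTwo.ext4 <;> simp [mexp]
        rw [mono, this]; rfl
      rw [this, map_one]
    · intro g σ hgg hσ e1
      refine hadd g σ hgg.inS hσ ?_ e1
      rcases hgg with rfl | rfl | rfl | rfl | rfl | rfl | rfl | rfl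
      · exact hg1 1
      · exact hg1 3
      · exact hg1 0
      · exact hg1 2
      · exact hcor 0
      · exact hcor 1
      · exact hcor 2
      · exact hcor 3
  -- the module part
  set N := SM true m00 with hN
  have hm00 : inM m00 := by decide
  obtain ⟨p, q, hp, hq, hpq⟩ := h.hom m00 hm00
  have hpq' : N = nf a b p q := hpq
  have h3 : (m00.1.toNat • ((2, 2, 1) : ℤ × ℤ × ZMod 2)) = (6, 6, 1) := by decide
  rw [h3] at hp hq
  -- divisibility
  have hdiv : ∀ (e : Fin 4 →₀ ℕ), (coeff e p ≠ 0 ∨ coeff e q ≠ 0) →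
      2 ≤ e (π 0) ∧ 2 ≤ e (π 2) := by
    have hstep : ∀ (σ m e e' : Lt) (s : Fin 4 →₀ ℕ) (i j : Fin 4), inS σ → inM m → π i ≠ π j →
        σ + m00 = c00 + m →
        mexp false σ = s + Finsupp.single i 2 → mexp false c00 = s + Finsupp.single j 2 →
        ∀ (e : Fin 4 →₀ ℕ), (coeff e p ≠ 0 ∨ coeff e q ≠ 0) → 2 ≤ e (π j) := by
      intro σ m _ _ s i j hσ hm hij e1 e2 e3 e he
      have k1 := h.mulS true σ m00 hσ hm00
      have k2 := h.mulS true c00 m (by decide) hm
      rw [e1, ← k2, hS σ hσ, hS c00 (by decide)] at k1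
      have k3 : mono R false σ = monomial s 1 * monomial (Finsupp.single i 2) 1 := by
        rw [monomial_mul, mul_one, mono, e2]
      have k4 : mono R false c00 = monomial s 1 * monomial (Finsupp.single j 2) 1 := by
        rw [monomial_mul, mul_one, mono, e3]
      rw [k3, k4, map_mul, map_mul, mul_assoc, mul_assoc] at k1
      have k5 := nzd hlu _ k1
      obtain ⟨p2, q2, h7⟩ := nf_surj a b (SM true m)
      rw [← hN, hpq', h7, hP, Pm_apply, Pm_apply, cc_monomial, cc_monomial,
        Finsupp.mapDomain_single, Finsupp.mapDomain_single, of_mul_nf, of_mul_nf] at k5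
      obtain ⟨k6, k7⟩ := nf_inj k5
      have hu : IsUnit (l 0 ^ (Finsupp.single i 2 : Fin 4 →₀ ℕ) 0 *
          l 1 ^ (Finsupp.single i 2 : Fin 4 →₀ ℕ) 1 *
          l 2 ^ (Finsupp.single i 2 : Fin 4 →₀ ℕ) 2 *
          l 3 ^ (Finsupp.single i 2 : Fin 4 →₀ ℕ) 3 * 1) :=
        (((((hlu 0).pow _).mul ((hlu 1).pow _)).mul ((hlu 2).pow _)).mul
          ((hlu 3).pow _)).mul isUnit_one
      rcases he with he | he
      · exact dvd_aux hij hu k6 he
      · exact dvd_aux hij hu k7 he
    intro e he
    constructor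
    · refine hstep (2, 2, 0) m20 0 0 (ex 2 0 4 0) 1 0 (by decide) (by decide) ?_ (by decide)
        ?_ ?_ e he
      · exact fun h => absurd (π.injective h) (by decide)
      · apply Helper190_CoarseTwo.ext4 <;> simp [mexp]
      · apply Helper190_CoarseTwo.ext4 <;> simp [mexp, c00]
    · refine hstep (2, 0, 2) m02 0 0 (ex 4 0 2 0) 3 2 (by decide) (by decide) ?_ (by decide)
        ?_ ?_ e he
      · exact fun h => absurd (π.injective h) (by decide)
      · apply Helper190_CoarseTwo.ext4 <;> simp [mexp]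
      · apply Helper190_CoarseTwo.ext4 <;> simp [mexp, c00]
  set s := (mexp true m00).mapDomain π with hs
  have hs' : s = Finsupp.single (π 0) 2 + Finsupp.single (π 2) 2 := by
    have h1 : mexp true m00 = Finsupp.single 0 2 + Finsupp.single 2 2 := by
      rw [mexp_m00]
      apply Helper190_CoarseTwo.ext4 <;> simp
    rw [hs, h1, Finsupp.mapDomain_add, Finsupp.mapDomain_single, Finsupp.mapDomain_single]
  have h02 : π 0 ≠ π 2 := fun h => absurd (π.injective h) (by decide)
  have hle : ∀ (e : Fin 4 →₀ ℕ), (coeff e p ≠ 0 ∨ coeff e q ≠ 0) → s ≤ e := by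
    intro e he
    obtain ⟨g0, g2⟩ := hdiv e he
    intro i
    rw [hs', Finsupp.add_apply]
    by_cases hi0 : i = π 0
    · subst hi0
      rw [Finsupp.single_eq_same, Finsupp.single_eq_of_ne h02]
      omega
    · by_cases hi2 : i = π 2
      · subst hi2
        rw [Finsupp.single_eq_same, Finsupp.single_eq_of_ne (Ne.symm h02)]
        omega
      · rw [Finsupp.single_eq_of_ne hi0, Finsupp.single_eq_of_ne hi2]
        omega
  have hp1 := div_aux (fun e he => hle e (Or.inl he))
  have hq1 := div_aux (fun e he => hle e (Or.inr he))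
  have hp2 := div_hom (s := s) hp
  have hq2 := div_hom (s := s) hq
  rw [hs, weight_pi hπ, ← hs] at hp2 hq2
  have hz1 : ((6, 6, 1) : ℤ × ℤ × ZMod 2) - (2, 2, 0) = zdeg 2 := by decide
  have hz2 : ((6, 6, 1) : ℤ × ℤ × ZMod 2) - zdeg 2 - (2, 2, 0) = 0 := by decide
  rw [hz1] at hp2
  rw [hz2] at hq2
  set p' := p.divMonomial s with hp'
  set q' := q.divMonomial s with hq'
  have hq3 := Helper190_CoarseTwo.hom_zero hq2
  have hY : P (mono R true m00) = AdjoinRoot.of _ (monomial s (l 0 ^ 2 * l 2 ^ 2)) := by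
    rw [hP, Pm_apply, cc_monomial, ← hs, mexp_m00]
    congr 2
    simp
  have huu : IsUnit (l 0 ^ 2 * l 2 ^ 2) := ((hlu 0).pow 2).mul ((hlu 2).pow 2)
  obtain ⟨ui, hui⟩ := huu.exists_right_inv
  set N1 := nf a b (C ui * p') (C (ui * coeff 0 q')) with hN1
  have hNY : N = P (mono R true m00) * N1 := by
    rw [hY, hN1, of_mul_nf, hpq']
    have e1 : ∀ w : MvPolynomial (Fin 4) R, monomial s (l 0 ^ 2 * l 2 ^ 2) * (C ui * w) =
        monomial s 1 * w := by
      intro w
      have : monomial s (l 0 ^ 2 * l 2 ^ 2) * C ui = (monomial s 1 : MvPolynomial (Fin 4) R) := by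
        rw [mul_comm, C_mul_monomial, mul_comm ui, hui]
      rw [← mul_assoc, this]
    rw [map_mul C, e1, e1, ← hp1, ← hq3, ← hq1]
  have hMv : ∀ v, inM v → SM true v = P (mono R true v) * N1 := by
    intro v hv
    have hφ : inS (v - m00 + c00) := by
      obtain ⟨n, i, j⟩ := v
      simp only [inM] at hv
      simp only [m00, c00, Prod.mk_sub_mk, Prod.mk_add_mk, inS]
      omega
    have k1 := h.mulS true c00 v (by decide) hv
    have k2 := h.mulS true (v - m00 + c00) m00 hφ hm00
    have k3 : v - m00 + c00 + m00 = c00 + v := by abel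
    rw [k3, ← k1, hS _ hφ, hS c00 (by decide), ← hN, hNY, ← mul_assoc, ← map_mul,
      mono_mul hφ (show inD true m00 from hm00), k3, ← mono_mul (σ := c00) (by decide)
      (show inD true v from hv), map_mul, mul_assoc] at k2
    exact (nzd hlu _ k2).symm
  -- the quadratic identity
  have hquad : N1 * N1 + P (pol true α') * N1 + P (pol false α') = 0 := by
    have k1 := h.mulM m00 m00 hm00 hm00
    rw [Fintype.sum_bool, ← hN] at k1
    have k2 : ∑ κ ∈ KF true, α' true κ • SM true (m00 + m00 + κ) =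
        P (mono R true m00) * P (mono R true m00) * (P (pol true α') * N1) := by
      have k3 : ∀ κ ∈ KF true, α' true κ • SM true (m00 + m00 + κ) =
          P (mono R true m00) * P (monomial (kexp true κ) (α' true κ)) * N := by
        intro κ hκ
        obtain ⟨c1, c2⟩ := mexp_mK (mem_KF.mp hκ)
        have c3 : m00 + m00 + κ = (m00 + κ) + m00 := by abel
        rw [c3, ← h.mulS true _ _ c1 hm00, hS _ c1, ← hN, ← smul_mul_assoc, hP, smul_Pm,
          ← map_mul, C_mul_monomial, monomial_mul, c2, mul_one, one_mul]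
      rw [Finset.sum_congr rfl k3, ← Finset.sum_mul, ← Finset.mul_sum, ← map_sum, hNY]
      change _ * P (pol true α') * _ = _
      ring
    have k4 : ∑ κ ∈ KF false, α' false κ • SM false (m00 + m00 + κ) =
        P (mono R true m00) * P (mono R true m00) * P (pol false α') := by
      have k5 : ∀ κ ∈ KF false, α' false κ • SM false (m00 + m00 + κ) =
          P (mono R true m00) * P (mono R true m00) * P (monomial (kexp false κ) (α' false κ)) := by
        intro κ hκ
        rw [hS _ (inD_mm (d := false) hm00 hm00 (mem_KF.mp hκ)), hP, smul_Pm, ← map_mul,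
          ← map_mul, C_mul_monomial, mul_one, monomial_mul, monomial_mul,
          mexp_mm hm00 hm00 (mem_KF.mp hκ), mul_one, one_mul]
      rw [Finset.sum_congr rfl k5, ← Finset.mul_sum, ← map_sum]
      rfl
    rw [k2, k4, hNY] at k1
    have k6 : P (mono R true m00) * (P (mono R true m00) *
        (N1 * N1 + P (pol true α') * N1 + P (pol false α'))) = 0 := by
      linear_combination k1
    have k7 := nzd hlu (mexp true m00) (x := P (mono R true m00) *
        (N1 * N1 + P (pol true α') * N1 + P (pol false α'))) (y := 0) (by rw [mul_zero]; exact k6)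
    exact nzd hlu (mexp true m00) (x := _) (y := 0) (by rw [mul_zero]; exact k7)
  set g1 := C ui * p' with hg1'
  set μ1 := ui * coeff 0 q' with hμ1
  have hg1hom : g1.IsWeightedHomogeneous wt (zdeg 2) := by
    intro d hd
    rw [hg1', coeff_C_mul] at hd
    exact hp2 (right_ne_zero_of_mul hd)
  have hμu : IsUnit μ1 := by
    have k1 := congrArg (pc a b true (mexp true m00)) hr
    rw [pc_elt a b (show inD true m00 from hm00) (show inD true m00 from hm00),
      if_pos ⟨rfl, rfl⟩, Fintype.sum_bool, map_add] at k1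
    have k2 : pc a b true (mexp true m00)
        (∑ v ∈ box 3, r false v • (if inD false v then SM false v else 0)) = 0 := by
      rw [map_sum]
      refine Finset.sum_eq_zero fun v _ => ?_
      split_ifs with hv
      · have : SM false v = nf a b (cc π l (mono R false v)) 0 := by
          rw [hS v hv, hP, Pm_apply]
          exact Helper190_CoarseTwo.nf_of a b _
        rw [map_smul, this, pc_nf, cond_true, coeff_zero, smul_zero]
      · rw [smul_zero, map_zero]
    have k3 : ∃ t, pc a b true (mexp true m00)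
        (∑ v ∈ box 3, r true v • (if inD true v then SM true v else 0)) = μ1 * t := by
      rw [map_sum]
      refine ⟨∑ v ∈ box 3, if inD true v then r true v * coeff (mexp true m00)
        (cc π l (mono R true v)) else 0, ?_⟩
      rw [Finset.mul_sum]
      refine Finset.sum_congr rfl fun v _ => ?_
      split_ifs with hv
      · rw [map_smul, hMv v hv, hP, Pm_apply, hN1, of_mul_nf, pc_nf, cond_true, mul_comm _ (C μ1),
          coeff_C_mul, smul_eq_mul]
        ring
      · rw [smul_zero, map_zero, mul_zero]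
    obtain ⟨t, k4⟩ := k3
    rw [k2, add_zero, k4] at k1
    exact IsUnit.of_mul_eq_one _ k1.symm
  -- comparison of normal forms
  have hr2 := root_sq a b
  simp only [nf, map_neg] at hr2
  have key : nf a b (g1 ^ 2 - C μ1 ^ 2 * b + cc π l (pol true α') * g1 + cc π l (pol false α'))
      (2 * g1 * C μ1 - C μ1 ^ 2 * a + cc π l (pol true α') * C μ1) = nf a b 0 0 := by
    rw [hN1, hP, Pm_apply, Pm_apply] at hquad
    simp only [nf, map_mul, map_add, map_sub, map_pow, map_ofNat, map_zero] at hquad hr2 ⊢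
    linear_combination hquad - (AdjoinRoot.of _ (C μ1)) ^ 2 * hr2
  obtain ⟨k1, k2⟩ := nf_inj key
  refine ⟨π, l, μ1, g1, hπ, hlu, hμu, hg1hom, ?_, ?_⟩
  · obtain ⟨ν, hν⟩ := hμu.exists_left_inv
    have hCν : C ν * C μ1 = (1 : MvPolynomial (Fin 4) R) := by rw [← C_mul, hν, C_1]
    linear_combination (-C ν) * k2 + (2 * g1 + cc π l (pol true α') - C μ1 * a) * hCν
  · linear_combination (-1 : MvPolynomial (Fin 4) R) * k1

end Pool.Agent.Helper190_Can
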