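import Pool.Agent.Helper190_Can.Uniq2

set_option linter.unusedSimpArgs false
set_option linter.unusedSectionVars false
set_option linter.unusedVariables false

open Module MvPolynomial
open Pool.Agent.Helper190_CoarseTwo (wt zdeg Cox piece ex nf nf_surj nf_inj root_sq qd good cc sc
  cc_eq Expl Ok fbar)

noncomputable section

namespace Pool.Agent.Helper190_Can

variable {R : Type} [CommRing R]

/-! ### the polynomials of a presentation -/

/-- units at the four corners -/
structure Cu (α : Bool → Lt → R) : Prop where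
  h00 : IsUnit (α false (0, 0, 0))
  h80 : IsUnit (α false (0, 8, 0))
  h08 : IsUnit (α false (0, 0, 8))
  h88 : IsUnit (α false (0, 8, 8))

lemma kexp_weight {d : Bool} {κ : Lt} (h : inK d κ) :
    Finsupp.weight wt (kexp d κ) = cond d (zdeg 2) (zdeg 2 + zdeg 2) := by
  rw [Helper190_CoarseTwo.weight_wt]
  obtain ⟨n, i, j⟩ := κ
  have hpar : ∀ (x y : ℕ) (ε : ℕ), (x + y) % 2 = ε % 2 → (x : ZMod 2) + y = ε := by
    intro x y ε hxy
    rw [← Nat.cast_add]
    exact (ZMod.natCast_eq_natCast_iff' _ _ _).mpr hxy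
  simp only [kexp, Helper190_CoarseTwo.ex_zero, Helper190_CoarseTwo.ex_one,
    Helper190_CoarseTwo.ex_two, Helper190_CoarseTwo.ex_three]
  cases d
  · have hz : cond false (zdeg 2) (zdeg 2 + zdeg 2) = (8, 8, 0) := by decide
    rw [hz]
    simp only [inK, cond_false] at *
    refine Prod.ext ?_ (Prod.ext ?_ ?_)
    · dsimp only; omega
    · dsimp only; omega
    · exact hpar _ _ 0 (by omega)
  · have hz : cond true (zdeg 2) (zdeg 2 + zdeg 2) = (4, 4, 1) := by decide
    rw [hz]
    simp only [inK, cond_true] at *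
    refine Prod.ext ?_ (Prod.ext ?_ ?_)
    · dsimp only; omega
    · dsimp only; omega
    · have := hpar i.toNat j.toNat 1 (by omega)
      simpa using this

lemma pol_hom (d : Bool) (α : Bool → Lt → R) :
    (pol d α).IsWeightedHomogeneous wt (cond d (zdeg 2) (zdeg 2 + zdeg 2)) := by
  rw [pol]
  refine (weightedHomogeneousSubmodule R wt _).sum_mem fun κ hκ => ?_
  rw [mem_weightedHomogeneousSubmodule]
  apply isWeightedHomogeneous_monomial
  exact kexp_weight (mem_KF.mp hκ)

lemma kexp_inj {d : Bool} {κ κ' : Lt} (h : inK d κ) (h' : inK d κ') :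
    kexp d κ = kexp d κ' ↔ κ = κ' := by
  constructor
  · intro he
    have h1 := DFunLike.congr_fun he 1
    have h3 := DFunLike.congr_fun he 3
    obtain ⟨n, i, j⟩ := κ
    obtain ⟨n', i', j'⟩ := κ'
    simp only [kexp, Helper190_CoarseTwo.ex_one, Helper190_CoarseTwo.ex_three] at h1 h3
    simp only [Prod.mk.injEq]
    cases d <;> simp only [inK] at h h' <;> omega
  · rintro rfl; rfl

lemma coeff_pol {d : Bool} {κ : Lt} (h : inK d κ) (α : Bool → Lt → R) :
    coeff (kexp d κ) (pol d α) = α d κ := by
  rw [pol, coeff_sum, Finset.sum_eq_single κ]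
  · rw [coeff_monomial, if_pos rfl]
  · intro κ' hκ' hne
    rw [coeff_monomial, if_neg]
    exact fun h2 => hne ((kexp_inj (mem_KF.mp hκ') h).mp h2)
  · intro h2
    exact absurd (mem_KF.mpr h) h2

lemma eval_corner (α : Bool → Lt → R) (x : Fin 4 → R) (κ₀ : Lt) (hκ₀ : inK false κ₀)
    (h1 : ∏ i, x i ^ (kexp false κ₀ i) = 1)
    (h2 : ∀ κ, inK false κ → κ ≠ κ₀ → ∏ i, x i ^ (kexp false κ i) = 0) :
    eval x (pol false α) = α false κ₀ := by
  rw [pol, map_sum, Finset.sum_eq_single κ₀]
  · rw [eval_monomial, Finsupp.prod_fintype _ _ (by simp), h1, mul_one]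
  · intro κ hκ hne
    rw [eval_monomial, Finsupp.prod_fintype _ _ (by simp), h2 κ (mem_KF.mp hκ) hne, mul_zero]
  · intro h
    exact absurd (mem_KF.mpr hκ₀) h

lemma ok_pol {α : Bool → Lt → R} (h : Cu α) : Ok 2 (pol true α) (pol false α) := by
  refine ⟨pol_hom true α, pol_hom false α, ?_, ?_, ?_, ?_⟩
  · rw [eval_corner α _ (0, 0, 0) (by decide)]
    · exact h.h00
    · simp [Fin.prod_univ_four, kexp]
    · rintro ⟨n, i, j⟩ hκ hne
      simp only [inK] at hκ
      simp only [Fin.prod_univ_four, kexp, Helper190_CoarseTwo.ex_zero,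
        Helper190_CoarseTwo.ex_one, Helper190_CoarseTwo.ex_two, Helper190_CoarseTwo.ex_three]
      simp only [Matrix.cons_val_zero, Matrix.cons_val_one, Matrix.cons_val, one_pow, one_mul,
        mul_one]
      have : i.toNat ≠ 0 ∨ j.toNat ≠ 0 := by
        by_contra hc
        apply hne
        simp only [Prod.mk.injEq]
        omega
      rcases this with h | h <;> simp [h]
  · rw [eval_corner α _ (0, 8, 0) (by decide)]
    · exact h.h80
    · simp [Fin.prod_univ_four, kexp]
    · rintro ⟨n, i, j⟩ hκ hne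
      simp only [inK] at hκ
      simp only [Fin.prod_univ_four, kexp, Helper190_CoarseTwo.ex_zero,
        Helper190_CoarseTwo.ex_one, Helper190_CoarseTwo.ex_two, Helper190_CoarseTwo.ex_three]
      simp only [Matrix.cons_val_zero, Matrix.cons_val_one, Matrix.cons_val, one_pow, one_mul,
        mul_one, cond_false]
      have : (8 - i).toNat ≠ 0 ∨ j.toNat ≠ 0 := by
        by_contra hc
        apply hne
        simp only [Prod.mk.injEq]
        omega
      rcases this with h | h <;> simp [h]
  · rw [eval_corner α _ (0, 0, 8) (by decide)]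
    · exact h.h08
    · simp [Fin.prod_univ_four, kexp]
    · rintro ⟨n, i, j⟩ hκ hne
      simp only [inK] at hκ
      simp only [Fin.prod_univ_four, kexp, Helper190_CoarseTwo.ex_zero,
        Helper190_CoarseTwo.ex_one, Helper190_CoarseTwo.ex_two, Helper190_CoarseTwo.ex_three]
      simp only [Matrix.cons_val_zero, Matrix.cons_val_one, Matrix.cons_val, one_pow, one_mul,
        mul_one, cond_false]
      have : i.toNat ≠ 0 ∨ (8 - j).toNat ≠ 0 := by
        by_contra hc
        apply hne
        simp only [Prod.mk.injEq]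
        omega
      rcases this with h | h <;> simp [h]
  · rw [eval_corner α _ (0, 8, 8) (by decide)]
    · exact h.h88
    · simp [Fin.prod_univ_four, kexp]
    · rintro ⟨n, i, j⟩ hκ hne
      simp only [inK] at hκ
      simp only [Fin.prod_univ_four, kexp, Helper190_CoarseTwo.ex_zero,
        Helper190_CoarseTwo.ex_one, Helper190_CoarseTwo.ex_two, Helper190_CoarseTwo.ex_three]
      simp only [Matrix.cons_val_zero, Matrix.cons_val_one, Matrix.cons_val, one_pow, one_mul,
        mul_one, cond_false]
      have : (8 - i).toNat ≠ 0 ∨ (8 - j).toNat ≠ 0 := by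
        by_contra hc
        apply hne
        simp only [Prod.mk.injEq]
        omega
      rcases this with h | h <;> simp [h]

lemma pol_map {S : Type} [CommRing S] (j : R →+* S) (d : Bool) (α : Bool → Lt → R) :
    pol d (fun d κ => j (α d κ)) = map j (pol d α) := by
  simp [pol, map_sum]

lemma Cu.map {S : Type} [CommRing S] (j : R →+* S) {α : Bool → Lt → R} (h : Cu α) :
    Cu (fun d κ => j (α d κ)) :=
  ⟨h.h00.map j, h.h80.map j, h.h08.map j, h.h88.map j⟩

/-! ### functoriality of the Cox ring -/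

/-- base change of the Cox ring -/
def coxMap {S : Type} [CommRing S] (j : R →+* S) (a b : MvPolynomial (Fin 4) R) :
    Cox a b →+* Cox (map j a) (map j b) :=
  AdjoinRoot.lift ((AdjoinRoot.of (qd (map j a) (map j b))).comp (map j))
    (AdjoinRoot.root (qd (map j a) (map j b))) (by
      have hr := root_sq (map j a) (map j b)
      simp only [nf, map_neg] at hr
      simp only [Polynomial.eval₂_add, Polynomial.eval₂_mul, Polynomial.eval₂_pow,
        Polynomial.eval₂_X, Polynomial.eval₂_C, RingHom.comp_apply]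
      linear_combination hr)

lemma coxMap_nf {S : Type} [CommRing S] (j : R →+* S) (a b p q : MvPolynomial (Fin 4) R) :
    coxMap j a b (nf a b p q) = nf (map j a) (map j b) (map j p) (map j q) := by
  have h1 : ∀ p, coxMap j a b (AdjoinRoot.of _ p) = AdjoinRoot.of _ (map j p) := by
    intro p
    rw [coxMap, AdjoinRoot.lift_of]; rfl
  have h2 : coxMap j a b (AdjoinRoot.root _) = AdjoinRoot.root _ := by
    rw [coxMap, AdjoinRoot.lift_root]
  rw [nf, map_add, map_mul, h1, h1, h2]; rfl

lemma coxMap_of {S : Type} [CommRing S] (j : R →+* S) (a b p : MvPolynomial (Fin 4) R) :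
    coxMap j a b (AdjoinRoot.of _ p) = AdjoinRoot.of _ (map j p) := by
  rw [coxMap, AdjoinRoot.lift_of]; rfl

lemma coxMap_smul {S : Type} [CommRing S] (j : R →+* S) (a b : MvPolynomial (Fin 4) R) (r : R)
    (x : Cox a b) : coxMap j a b (r • x) = j r • coxMap j a b x := by
  rw [smul_eq_of, smul_eq_of, map_mul, coxMap_of, map_C]

/-! ### adjoining a fourth root -/

lemma exists_root4 (h2 : (2 : R) = 0) {u : R} (hu : IsUnit u) :
    ∃ (S : Type) (_ : CommRing S) (j : R →+* S) (lam : S), Function.Injective j ∧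
      (2 : S) = 0 ∧ IsUnit lam ∧ lam ^ 4 = j u := by
  rcases subsingleton_or_nontrivial R with hR | hR
  · exact ⟨R, inferInstance, RingHom.id R, 1, fun x y h => h, h2, isUnit_one,
      Subsingleton.elim _ _⟩
  set g : Polynomial R := Polynomial.X ^ 4 - Polynomial.C u with hg
  have hm : g.Monic := Polynomial.monic_X_pow_sub_C u (by norm_num)
  have hroot : (AdjoinRoot.root g) ^ 4 = AdjoinRoot.of g u := by
    have := AdjoinRoot.mk_self (f := g)
    rw [hg, map_sub, map_pow, AdjoinRoot.mk_X, AdjoinRoot.mk_C, ← hg, sub_eq_zero] at this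
    exact this
  refine ⟨AdjoinRoot g, inferInstance, AdjoinRoot.of g, AdjoinRoot.root g, ?_, ?_, ?_, hroot⟩
  · rw [injective_iff_map_eq_zero]
    intro r hr
    by_contra h0
    have h1 : AdjoinRoot.mk g (Polynomial.C r) = 0 := hr
    rw [AdjoinRoot.mk_eq_zero] at h1
    refine hm.not_dvd_of_degree_lt (Polynomial.C_ne_zero.mpr h0) ?_ h1
    rw [hg, Polynomial.degree_X_pow_sub_C (by norm_num)]
    exact lt_of_le_of_lt Polynomial.degree_C_le (by norm_num)
  · have := congrArg (AdjoinRoot.of g) h2
    rwa [map_ofNat, map_zero] at this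
  · have h1 : IsUnit ((AdjoinRoot.root g) ^ 4) := by
      rw [hroot]; exact hu.map _
    exact (isUnit_pow_iff (by norm_num)).mp h1

/-! ### the comparison of two presentations -/

variable {A : Type} [CommRing A] [Algebra R A] {gr : ℕ → Submodule R A} [GradedAlgebra gr]
  {B B' : Basis Ix R A} {α α' : Bool → Lt → R}

lemma toCox_mem (h : Tab B α) (hB : HomB gr B) {n : ℕ} {x : A} (hx : x ∈ gr n) :
    toCox h x ∈ piece 2 (pol true α) (pol false α) (n • ((2, 2, 1) : ℤ × ℤ × ZMod 2)) :=
  (Set.ext_iff.mp (image_gr h hB n) (toCox h x)).mp (Set.mem_image_of_mem _ hx)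

lemma sys_of_tab (hB : HomB gr B) (h : Tab B α) (hB' : HomB gr B') (h' : Tab B' α') :
    Sys (pol true α) (pol false α) (fun d v => toCox h (EE B' d v)) α' := by
  refine ⟨?_, ?_, ?_, ?_⟩
  · rw [h'.one, map_one]
  · intro d σ μ hσ hμ
    rw [← map_mul, h'.mulS d σ μ hσ hμ]
  · intro μ ν hμ hν
    rw [← map_mul, h'.mulM μ ν hμ hν, map_neg, map_sum]
    congr 1
    refine Finset.sum_congr rfl fun d _ => ?_
    rw [map_sum]
    refine Finset.sum_congr rfl fun κ _ => ?_
    rw [map_smul]
  · intro μ hμ
    have h1 := toCox_mem h hB (hB' true μ hμ)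
    exact h1

lemma Sys.map {S : Type} [CommRing S] (j : R →+* S) {a b : MvPolynomial (Fin 4) R}
    {SM : Bool → Lt → Cox a b} (h : Sys a b SM α') :
    Sys (MvPolynomial.map j a) (MvPolynomial.map j b) (fun d v => coxMap j a b (SM d v))
      (fun d κ => j (α' d κ)) := by
  refine ⟨?_, ?_, ?_, ?_⟩
  · rw [h.one, map_one]
  · intro d σ μ hσ hμ
    rw [← map_mul, h.mulS d σ μ hσ hμ]
  · intro μ ν hμ hν
    rw [← map_mul, h.mulM μ ν hμ hν, map_neg, map_sum]
    congr 1
    refine Finset.sum_congr rfl fun d _ => ?_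
    rw [map_sum]
    refine Finset.sum_congr rfl fun κ _ => ?_
    rw [coxMap_smul]
  · intro μ hμ
    obtain ⟨p, q, hp, hq, hpq⟩ := h.hom μ hμ
    have hpq' : SM true μ = nf a b p q := hpq
    refine ⟨MvPolynomial.map j p, MvPolynomial.map j q, Helper190_CoarseTwo.hom_map j hp,
      Helper190_CoarseTwo.hom_map j hq, ?_⟩
    rw [hpq', coxMap_nf]
    rfl

lemma gv_mexp : ∀ g i, mexp false (gen g) i = gv g i := by decide

lemma mexp_pi {π : Equiv.Perm (Fin 4)} {ρ : Fin 4 → Fin 4}
    (hρ : ∀ g i, gv (ρ g) (π i) = gv g i) (g : Fin 4) :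
    (mexp false (gen g)).mapDomain π = mexp false (gen (ρ g)) := by
  apply Finsupp.ext
  intro i
  obtain ⟨i, rfl⟩ := π.surjective i
  rw [Finsupp.mapDomain_apply π.injective, gv_mexp, gv_mexp, hρ]

theorem fbar_unique [IsLocalRing R] (h2 : (2 : R) = 0) (hB : HomB gr B) (h : Tab B α)
    (hc : Cu α) (hB' : HomB gr B') (h' : Tab B' α') (hc' : Cu α') :
    fbar 2 (pol true α') (pol false α') = fbar 2 (pol true α) (pol false α) := by
  obtain ⟨π, T, ρ, hπ, hT, hρ, hgen⟩ := exists_perm hB h hB' h'
  have hsys := sys_of_tab hB h hB' h'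
  obtain ⟨t0, ht0⟩ := (hT 0).exists_right_inv
  have hu : IsUnit (T 1 * T 3 ^ 2 * t0) :=
    ((hT 1).mul ((hT 3).pow 2)).mul (IsUnit.of_mul_eq_one _ (by rw [mul_comm]; exact ht0))
  obtain ⟨S, _, j, lam, hj, hS2, hlam, hlam4⟩ := exists_root4 h2 hu
  have hsys' := hsys.map j
  have hexpl := expl_of_sys hsys' hπ (T := fun g => j (T g)) (fun g => (hT g).map j) (by
    intro g
    rw [hgen, map_smul, toCox_EE h (show inD false _ from gen_inS _), coxMap_smul, smul_eq_of,
      elt, cond_false, mul_one, coxMap_of, ← map_mul]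
    rw [map_monomial, map_one, rename_monomial, mexp_pi hρ]) hlam (by
    rw [hlam4]
    simp only [map_mul, map_pow]
    have := congrArg j ht0
    rw [map_mul, map_one] at this
    linear_combination (j (T 1) * j (T 3) ^ 2) * this)
    (r := fun d v => j (cf B' d v (EE B true m00))) (by
    have e1 : (m00 : Lt).1.toNat = 3 := rfl
    have e2 : EE B true m00 ∈ gr 3 := by
      have := hB true m00 (by decide)
      rwa [e1] at this
    have e3 := eq_bsum hB' e2
    have e4 := congrArg (coxMap j _ _) (congrArg (toCox h) e3)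
    rw [toCox_EE h (show inD true m00 by decide)] at e4
    have e5 : coxMap j (pol true α) (pol false α) (elt (pol true α) (pol false α) true m00) =
        elt (MvPolynomial.map j (pol true α)) (MvPolynomial.map j (pol false α)) true m00 := by
      rw [elt_eq_nf, coxMap_nf, elt_eq_nf]
      simp
    rw [e5] at e4
    rw [← e4, bsum, map_sum, map_sum]
    refine Finset.sum_congr rfl fun d _ => ?_
    rw [map_sum, map_sum]
    refine Finset.sum_congr rfl fun v _ => ?_
    rw [map_smul, coxMap_smul]
    split_ifs with hv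
    · rfl
    · rw [EE_out hv, map_zero, map_zero])
  rw [pol_map, pol_map] at hexpl
  have hok := ok_pol hc
  have hok' := ok_pol hc'
  have hokS : Ok 2 (MvPolynomial.map j (pol true α)) (MvPolynomial.map j (pol false α)) := by
    rw [← pol_map, ← pol_map]; exact ok_pol (hc.map j)
  have hokS' : Ok 2 (MvPolynomial.map j (pol true α')) (MvPolynomial.map j (pol false α')) := by
    rw [← pol_map, ← pol_map]; exact ok_pol (hc'.map j)
  have e := Helper190_CoarseTwo.fbar_expl (by norm_num) hS2 hokS' hokS hexpl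
  rw [hok'.fbar_map, hok.fbar_map] at e
  exact hj e

end Pool.Agent.Helper190_Can
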