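import Pool.Agent.Helper190_Can.Main
import Mathlib.RingTheory.GradedAlgebra.TensorProduct

set_option linter.unusedSimpArgs false
set_option linter.unusedSectionVars false
set_option linter.unusedVariables false

open Module MvPolynomial DirectSum TensorProduct

noncomputable section

namespace Pool.Agent.Helper190_Can

variable {R S : Type} [CommRing R] [CommRing S] [Algebra R S]

section
variable {X : GrAlg R} {n k : ℕ}

lemma bc_linInd (v : Basis (Fin k) R (X.gr n)) :
    LinearIndependent S fun i => (1 : S) ⊗ₜ[R] (v i : X.A) := by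
  classical
  let inc : X.gr n →ₗ[R] X.A := (X.gr n).subtype
  let pr : X.A →ₗ[R] X.gr n := (DirectSum.component R ℕ (fun n => X.gr n) n).comp
    (DirectSum.decomposeLinearEquiv X.gr).toLinearMap
  have h1 : pr.comp inc = LinearMap.id := by
    refine LinearMap.ext fun x => ?_
    change (DirectSum.decompose X.gr (x : X.A)) n = x
    rw [DirectSum.decompose_coe, DirectSum.of_eq_same]
  have h2 : Function.Injective (inc.baseChange S) := by
    have h3 : (pr.baseChange S).comp (inc.baseChange S) = LinearMap.id := by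
      rw [← LinearMap.baseChange_comp, h1, LinearMap.baseChange_id]
    exact Function.LeftInverse.injective (g := pr.baseChange S)
      fun x => LinearMap.congr_fun h3 x
  have h4 := (v.baseChange S).linearIndependent.map' (inc.baseChange S)
    (LinearMap.ker_eq_bot.mpr h2)
  have h5 : (fun i => (1 : S) ⊗ₜ[R] (v i : X.A)) = inc.baseChange S ∘ v.baseChange S := by
    funext i
    simp [inc]
  rw [h5]
  exact h4

lemma bc_span (v : Basis (Fin k) R (X.gr n)) :
    Submodule.span S (Set.range fun i => (1 : S) ⊗ₜ[R] (v i : X.A)) =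
      (X.gr n).baseChange S := by
  apply le_antisymm
  · rw [Submodule.span_le]
    rintro _ ⟨i, rfl⟩
    exact Submodule.tmul_mem_baseChange_of_mem _ (v i).2
  · rw [Submodule.baseChange_eq_span, Submodule.span_le]
    rintro _ ⟨x, hx, rfl⟩
    change (1 : S) ⊗ₜ[R] x ∈ _
    have h1 : x = ∑ i, v.repr ⟨x, hx⟩ i • (v i : X.A) := by
      have h2 := congrArg (Submodule.subtype _) (v.sum_repr ⟨x, hx⟩)
      rw [map_sum] at h2
      exact h2.symm
    rw [h1, TensorProduct.tmul_sum]
    refine Submodule.sum_mem _ fun i _ => ?_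
    rw [TensorProduct.tmul_smul, ← algebraMap_smul S]
    exact Submodule.smul_mem _ _ (Submodule.subset_span ⟨i, rfl⟩)

/-- the basis of a graded piece of the base change -/
def bcBas (v : Basis (Fin k) R (X.gr n)) : Basis (Fin k) S ((X.gr n).baseChange S) :=
  (Basis.span (bc_linInd (S := S) v)).map (LinearEquiv.ofEq _ _ (bc_span v))

lemma bcBas_coe (v : Basis (Fin k) R (X.gr n)) (i : Fin k) :
    (bcBas (S := S) v i : S ⊗[R] X.A) = 1 ⊗ₜ (v i : X.A) := by
  rw [bcBas, Basis.map_apply, LinearEquiv.coe_ofEq_apply]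
  exact congrArg Subtype.val (Basis.span_apply (bc_linInd (S := S) v) i)

end

/-- base change of a graded algebra -/
def GrAlg.bc (X : GrAlg R) (S : Type) [CommRing S] [Algebra R S] : GrAlg S where
  A := S ⊗[R] X.A
  gr n := (X.gr n).baseChange S
  free n := by
    obtain ⟨k, ⟨v⟩⟩ := exists_fin_basis X n
    exact Module.Free.of_basis (bcBas v)
  finite n := by
    obtain ⟨k, ⟨v⟩⟩ := exists_fin_basis X n
    exact Module.Finite.of_basis (bcBas v)

theorem isBC_bc (X : GrAlg R) (S : Type) [CommRing S] [Algebra R S] :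
    IsBC (algebraMap R S) X (X.bc S) := by
  rw [isBC_iff]
  refine ⟨(Algebra.TensorProduct.includeRight : X.A →ₐ[R] S ⊗[R] X.A).toRingHom, ?_, ?_⟩
  · intro r
    change (1 : S) ⊗ₜ[R] algebraMap R X.A r = algebraMap S (S ⊗[R] X.A) (algebraMap R S r)
    rw [Algebra.TensorProduct.algebraMap_apply, Algebra.algebraMap_self_apply,
      Algebra.algebraMap_eq_smul_one, TensorProduct.tmul_smul, Algebra.algebraMap_eq_smul_one,
      TensorProduct.smul_tmul']
  · intro n
    obtain ⟨k, ⟨v⟩⟩ := exists_fin_basis X n
    exact ⟨k, v, bcBas v, fun i => (bcBas_coe v i).symm⟩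

end Pool.Agent.Helper190_Can
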