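import Pool.Agent.Helper190_Can.Families

open CategoryTheory
open Pool.Agent.Helper190_CoarseTwo (CharTwo)

noncomputable section

namespace Pool.Agent.Helper190_Can

variable {P : ∀ (k : Type) [Field k], GrAlg k → Prop}

/-- All geometric fibres of the family `X` lie in the class `C`. -/
def Fam.In {R : Type} [CommRing R] (X : Fam P R) (C : ∀ (k : Type) [Field k], GrAlg k → Prop) :
    Prop :=
  ∀ (k : Type) [Field k] [IsAlgClosed k] (f : R →+* k) (Y : GrAlg k), IsBC f X.X Y → C k Y

/-- The class `C` is open in families with fibres in `P`: if a geometric fibre of a family over a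
Noetherian ring `R` lies in `C`, then so do all geometric fibres over some open neighbourhood
`{r ≠ 0}` in `Spec R` of the point under consideration. -/
def IsOpenIn (P C : ∀ (k : Type) [Field k], GrAlg k → Prop) : Prop :=
  ∀ (R : Type) [CommRing R] [IsNoetherianRing R] (X : Fam P R) (k : Type) [Field k]
    [IsAlgClosed k] (f : R →+* k) (Y : GrAlg k), IsBC f X.X Y → C k Y →
    ∃ r : R, f r ≠ 0 ∧ ∀ (l : Type) [Field l] [IsAlgClosed l] (g : R →+* l) (Z : GrAlg l),
      g r ≠ 0 → IsBC g X.X Z → C l Z

/-- A function on the moduli problem of the families with geometric fibres in `C` over rings with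
`2 = 0`: an element of `R` for every such family over a Noetherian ring `R`, compatible with base
change (hence with isomorphisms of families). -/
structure OpenFun (P C : ∀ (k : Type) [Field k], GrAlg k → Prop) where
  f : ∀ (R : CharTwo.FullSubcategory) [IsNoetherianRing R.obj] (X : Fam P R.obj), X.In C → R.obj
  nat : ∀ (R S : CharTwo.FullSubcategory) [IsNoetherianRing R.obj] [IsNoetherianRing S.obj]
    (g : R.obj →+* S.obj) (X : Fam P R.obj) (Y : Fam P S.obj) (hX : X.In C) (hY : Y.In C),
    IsBC g X.X Y.X → f S Y hY = g (f R X hX)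

/-- For every open class `C`, the functions on the families with fibres in `C` factor through
`π'`. -/
def OpenSep (M' : CharTwo.FullSubcategory ⥤ Type)
    (π' : ∀ R : CharTwo.FullSubcategory, Fam P R.obj → M'.obj R) : Prop :=
  ∀ C : ∀ (k : Type) [Field k], GrAlg k → Prop, IsOpenIn P C → ∀ (F : OpenFun P C)
    (R : CharTwo.FullSubcategory) [IsNoetherianRing R.obj] (X Y : Fam P R.obj) (hX : X.In C)
    (hY : Y.In C), π' R X = π' R Y → F.f R X hX = F.f R Y hY

end Pool.Agent.Helper190_Can
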