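import Pool.Agent.Helper190_Can.ZLoc

set_option linter.unusedSimpArgs false
set_option linter.unusedSectionVars false
set_option linter.unusedVariables false

open Module MvPolynomial DirectSum TensorProduct

noncomputable section

namespace Pool.Agent.Helper190_Can

/-- the degree of an index -/
def dg (i : Ix) : ℕ := i.1.2.1.toNat

/-- pairs of indices of the same degree `≤ N` -/
abbrev VT (N : ℕ) : Type := {p : Ix × Ix // dg p.1 = dg p.2 ∧ dg p.1 ≤ N}

/-- the exponents of `α` -/
abbrev VA : Type := {p : Bool × Lt // p.2 ∈ KF p.1}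

instance finite_VT (N : ℕ) : Finite (VT N) := by
  let f : VT N → (Σ n : Fin (N + 1), Ixn n × Ixn n) := fun p =>
    ⟨⟨dg p.1.1, Nat.lt_succ_of_le p.2.2⟩, ⟨p.1.1, rfl⟩, ⟨p.1.2, p.2.1.symm⟩⟩
  let g : (Σ n : Fin (N + 1), Ixn n × Ixn n) → Ix × Ix := fun x => (x.2.1.1, x.2.2.1)
  refine Finite.of_injective f (Function.Injective.of_comp (f := g) ?_)
  intro p q h
  exact Subtype.ext h

instance finite_VA : Finite VA := by
  let f : VA → (Σ d : Bool, {κ : Lt // κ ∈ KF d}) := fun p => ⟨p.1.1, ⟨p.1.2, p.2⟩⟩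
  let g : (Σ d : Bool, {κ : Lt // κ ∈ KF d}) → Bool × Lt := fun x => (x.1, x.2.1)
  refine Finite.of_injective f (Function.Injective.of_comp (f := g) ?_)
  intro p q h
  exact Subtype.ext h

/-- the variables -/
abbrev Var (N : ℕ) : Type := VT 3 ⊕ VT N ⊕ VA ⊕ Fin 4

/-! ### decompositions -/

lemma exists_list (σ : Lt) (hσ : inS σ) : ∃ l : List Ix, (∀ i ∈ l, i.1.1 = false ∧ dg i ≤ 3) ∧
    (l.map fun i => i.1.2).sum = σ := by
  refine gen_ind (P := fun σ => ∃ l : List Ix, (∀ i ∈ l, i.1.1 = false ∧ dg i ≤ 3) ∧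
    (l.map fun i => i.1.2).sum = σ) ⟨[], by simp, by simp⟩ ?_ σ hσ
  rintro g σ hg hσ ⟨l, h1, h2⟩
  refine ⟨⟨(false, g), hg.inS⟩ :: l, ?_, ?_⟩
  · intro i hi
    rw [List.mem_cons] at hi
    rcases hi with rfl | hi
    · refine ⟨rfl, ?_⟩
      simp only [dg]
      rcases hg with rfl | rfl | rfl | rfl | rfl | rfl | rfl | rfl <;> decide
    · exact h1 i hi
  · rw [List.map_cons, List.sum_cons, h2]

/-- a decomposition of an element of the semigroup -/
def lst (σ : Lt) : List Ix := by
  classical exact if h : inS σ then (exists_list σ h).choose else []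

lemma lst_spec {σ : Lt} (hσ : inS σ) : (∀ i ∈ lst σ, i.1.1 = false ∧ dg i ≤ 3) ∧
    ((lst σ).map fun i => i.1.2).sum = σ := by
  rw [lst, dif_pos hσ]
  exact (exists_list σ hσ).choose_spec

lemma exists_mm (v : Lt) : ∃ i : Ix, i.1.1 = true ∧ dg i ≤ 3 ∧ (inM v → inS (v - i.1.2)) := by
  by_cases hv : inM v
  · obtain ⟨m, hm, hmM, hmS⟩ := genM_aux hv
    refine ⟨⟨(true, m), hmM⟩, rfl, ?_, fun _ => hmS⟩
    simp only [dg]
    rcases hm with rfl | rfl | rfl | rfl | rfl <;> decide
  · exact ⟨⟨(true, m00), by decide⟩, rfl, by decide, fun h => absurd h hv⟩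

/-- a generator of the module part dividing `v` -/
def mm (v : Lt) : Ix := (exists_mm v).choose

lemma mm_spec (v : Lt) : (mm v).1.1 = true ∧ dg (mm v) ≤ 3 ∧ (inM v → inS (v - (mm v).1.2)) :=
  (exists_mm v).choose_spec

section
variable {A : Type} [CommRing A]

/-- the product attached to `σ` -/
def prS (gen : Ix → A) (σ : Lt) : A := ((lst σ).map gen).prod

/-- the product of generators attached to an index -/
def pr (gen : Ix → A) : Bool → Lt → A
  | false => fun v => if inS v then prS gen v else 0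
  | true => fun v => if inM v then prS gen (v - (mm v).1.2) * gen (mm v) else 0

lemma map_pr {A' : Type} [CommRing A'] (h : A →+* A') (gen : Ix → A) (d : Bool) (v : Lt) :
    h (pr gen d v) = pr (fun i => h (gen i)) d v := by
  have h1 : ∀ σ, h (prS gen σ) = prS (fun i => h (gen i)) σ := by
    intro σ
    rw [prS, prS, map_list_prod, List.map_map]
    rfl
  cases d <;> simp only [pr] <;> split_ifs <;> simp [h1]

lemma pr_out (gen : Ix → A) {d : Bool} {v : Lt} (h : ¬ inD d v) : pr gen d v = 0 := by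
  cases d
  · exact if_neg h
  · exact if_neg h

lemma inS_sum (l : List Ix) (hl : ∀ i ∈ l, i.1.1 = false ∧ dg i ≤ 3) :
    inS (l.map fun i => i.1.2).sum := by
  induction l with
  | nil => exact inS_zero
  | cons i l ih =>
    rw [List.map_cons, List.sum_cons]
    refine inS_add ?_ (ih fun j hj => hl j (List.mem_cons_of_mem _ hj))
    have h1 := (hl i (List.mem_cons_self)).1
    have h2 := i.2
    rw [h1] at h2
    exact h2

lemma pr_of_tab {R : Type} [CommRing R] [Algebra R A] {B : Basis Ix R A} {α : Bool → Lt → R}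
    (h : Tab B α) (d : Bool) (v : Lt) : pr (fun i => B i) d v = EE B d v := by
  have h1 : ∀ l : List Ix, (∀ i ∈ l, i.1.1 = false ∧ dg i ≤ 3) →
      (l.map fun i => B i).prod = EE B false (l.map fun i => i.1.2).sum := by
    intro l
    induction l with
    | nil => intro _; simp [h.one]
    | cons i l ih =>
      intro hl
      have hl' := fun j hj => hl j (List.mem_cons_of_mem _ hj)
      have h1 := (hl i (List.mem_cons_self)).1
      have h2 := i.2
      rw [h1] at h2
      rw [List.map_cons, List.prod_cons, ih hl', List.map_cons, List.sum_cons,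
        ← h.mulS false _ _ h2 (inS_sum l hl'), EE_ix, h1]
  have h2 : ∀ σ, inS σ → prS (fun i => B i) σ = EE B false σ := by
    intro σ hσ
    rw [prS, h1 _ (lst_spec hσ).1, (lst_spec hσ).2]
  cases d
  · simp only [pr]
    split_ifs with hv
    · exact h2 v hv
    · exact (EE_out (show ¬ inD false v from hv)).symm
  · simp only [pr]
    split_ifs with hv
    · obtain ⟨g1, g2, g3⟩ := mm_spec v
      have g4 := (mm v).2
      rw [g1] at g4
      rw [h2 _ (g3 hv), EE_ix B (mm v), g1, h.mulS true _ _ (g3 hv) g4, sub_add_cancel]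
    · exact (EE_out (show ¬ inD true v from hv)).symm

lemma pr_mem {R : Type} [CommRing R] [Algebra R A] {gr : ℕ → Submodule R A} [GradedAlgebra gr]
    {gen : Ix → A} (hg : ∀ i, gen i ∈ gr (dg i)) {d : Bool} {v : Lt}
    (hv : inD d v) : pr gen d v ∈ gr v.1.toNat := by
  have h1 : ∀ l : List Ix, (∀ i ∈ l, i.1.1 = false ∧ dg i ≤ 3) →
      (l.map gen).prod ∈ gr (l.map fun i : Ix => i.1.2).sum.1.toNat := by
    intro l
    induction l with
    | nil =>
      intro _
      exact (SetLike.GradedOne.one_mem : (1 : A) ∈ gr 0)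
    | cons i l ih =>
      intro hl
      have hl' := fun j hj => hl j (List.mem_cons_of_mem _ hj)
      have h0 := inD_nonneg i.2
      have h0' := inD_nonneg (d := false) (inS_sum l hl')
      have e1 : (List.map gen (i :: l)).prod = gen i * (List.map gen l).prod := by simp
      have e2 : (List.map (fun i : Ix => i.1.2) (i :: l)).sum =
        i.1.2 + (List.map (fun i : Ix => i.1.2) l).sum := by simp
      rw [e1, e2, Prod.fst_add]
      exact gr_mul h0 h0' (hg i) (ih hl')
  have h2 : ∀ σ, inS σ → prS gen σ ∈ gr σ.1.toNat := by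
    intro σ hσ
    have := h1 _ (lst_spec hσ).1
    rwa [(lst_spec hσ).2] at this
  cases d
  · simp only [pr]
    rw [if_pos (show inS v from hv)]
    exact h2 v hv
  · simp only [pr]
    rw [if_pos (show inM v from hv)]
    obtain ⟨g1, g2, g3⟩ := mm_spec v
    have h3 := h2 _ (g3 hv)
    have h4 := hg (mm v)
    have h5 := inD_nonneg (d := false) (g3 hv)
    have h6 := inD_nonneg (mm v).2
    have h7 := gr_mul h5 h6 h3 h4
    rw [Prod.fst_sub, sub_add_cancel] at h7
    exact h7

end

end Pool.Agent.Helper190_Can
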