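import Pool.Agent.Helper190_Can.ZTr
import Mathlib.RingTheory.Smooth.Flat
import Mathlib.RingTheory.Flat.FaithfullyFlat.Algebra
import Mathlib.RingTheory.TensorProduct.IncludeLeftSubRight

set_option linter.unusedSimpArgs false
set_option linter.unusedSectionVars false
set_option linter.unusedVariables false

open Module MvPolynomial DirectSum TensorProduct

noncomputable section

namespace Pool.Agent.Helper190_Can

/-- objects with a presentation -/
def Cls (k : Type) [Field k] (Y : GrAlg k) : Prop := ∃ B α, Pres Y B α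

lemma val_congr {S : Type} [CommRing S] {α α' : Bool → Lt → S}
    (h : ∀ d, ∀ κ ∈ KF d, α d κ = α' d κ) : val α = val α' := by
  have h1 : ∀ d, pol d α = pol d α' := by
    intro d
    rw [pol, pol]
    exact Finset.sum_congr rfl fun κ hκ => by rw [h d κ hκ]
  rw [val, val, h1, h1]

section
variable {R : Type} [CommRing R]

/-- `r` computes the value on all presented base changes of `X` -/
def IsVal (X : GrAlg R) (r : R) : Prop :=
  ∀ (S : Type) [CommRing S] (f : R →+* S) (Y : GrAlg S) (B : Basis Ix S Y.A)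
    (α : Bool → Lt → S), IsBC f X Y → Pres Y B α → val α = f r

lemma IsVal.image {S : Type} [CommRing S] {g : R →+* S} {X : GrAlg R} {Y : GrAlg S}
    (h : IsBC g X Y) {r : R} (hr : IsVal X r) : IsVal Y (g r) := by
  intro T _ f Z B α hbc hp
  exact hr T (f.comp g) Z B α (h.trans hbc) hp

variable {X : GrAlg R} {V : Basis Ix R X.A} (hV : HomB X.gr V) {N : ℕ}
  (hN : Algebra.adjoin R {x : X.A | ∃ n ≤ N, x ∈ X.gr n} = ⊤)

include hV hN

/-- a point of the space of presentations from a presentation of a base change -/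
lemma exists_hom {S : Type} [CommRing S] [Algebra R S] {Y : GrAlg S}
    (hbc : IsBC (algebraMap R S) X Y) {B : Basis Ix S Y.A} {α : Bool → Lt → S}
    (h : Pres Y B α) : ∃ ψ : OO V N →ₐ[R] S,
      ∀ d, ∀ κ ∈ KF d, ψ (WA (wO V N) d κ) = α d κ := by
  obtain ⟨B', h1, h2⟩ := pres_to_bc hbc hV h
  obtain ⟨w, hw, hWA, _⟩ := pt_of_pres X hV (N := N) h1 h2 h.2.2
  refine ⟨ofPt V hw, fun d κ hκ => ?_⟩
  rw [← hWA d κ hκ]
  refine (WA_map (ofPt V hw : OO V N →+* S) (wO V N) d κ).trans ?_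
  congr 1
  funext x
  exact ofPt_wO V hw x

lemma flat_OO [IsNoetherianRing R] : Module.Flat R (OO V N) := by
  have h1 := smooth_OO X hV hN
  have h2 : Algebra.FinitePresentation R (OO V N) :=
    Algebra.FinitePresentation.of_finiteType.mp inferInstance
  have h3 : Algebra.Smooth R (OO V N) := ⟨h1, h2⟩
  exact Algebra.Smooth.flat_of_isNoetherianRing R (OO V N)

lemma ff_OO [IsNoetherianRing R] (hgeo : ∀ (K : Type) [Field K] [IsAlgClosed K] (f : R →+* K)
    (Y : GrAlg K), IsBC f X Y → Cls K Y) : Module.FaithfullyFlat R (OO V N) := by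
  have := flat_OO hV hN
  apply Module.FaithfullyFlat.of_comap_surjective
  intro q
  let K := AlgebraicClosure q.asIdeal.ResidueField
  let f : R →+* K := (algebraMap q.asIdeal.ResidueField K).comp
    (algebraMap R q.asIdeal.ResidueField)
  letI : Algebra R K := f.toAlgebra
  have hf : RingHom.ker f = q.asIdeal := by
    ext r
    rw [RingHom.mem_ker, RingHom.comp_apply, map_eq_zero]
    exact Ideal.algebraMap_residueField_eq_zero
  obtain ⟨B, α, hp⟩ := hgeo K f (X.bc K) (isBC_bc X K)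
  obtain ⟨ψ, _⟩ := exists_hom hV hN (isBC_bc X K) hp
  refine ⟨PrimeSpectrum.comap (ψ : OO V N →+* K) ⊥, ?_⟩
  apply PrimeSpectrum.ext
  ext r
  have h1 : (ψ : OO V N →+* K) (algebraMap R (OO V N) r) = f r := ψ.commutes r
  have h2 : f r = 0 ↔ r ∈ q.asIdeal := by rw [← RingHom.mem_ker, hf]
  rw [PrimeSpectrum.comap_asIdeal, PrimeSpectrum.comap_asIdeal, Ideal.mem_comap,
    Ideal.mem_comap, h1]
  exact Ideal.mem_bot.trans h2

lemma descend (h2 : (2 : R) = 0) {O : Type} [CommRing O] [Algebra R O]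
    [Module.FaithfullyFlat R O] {w : Var N → O} (hw : IsPt V w) :
    ∃ r, algebraMap R O r = val (WA w) := by
  let i1 : O →ₐ[R] O ⊗[R] O := Algebra.TensorProduct.includeLeft
  let i2 : O →ₐ[R] O ⊗[R] O := Algebra.TensorProduct.includeRight
  obtain ⟨B, hB, hT, hC, _⟩ := pres_of_pt X hV hw hN
  obtain ⟨B1, hB1, hT1, hC1, _⟩ := pres_of_pt X hV (hw.map i1) hN
  obtain ⟨B2, hB2, hT2, hC2, _⟩ := pres_of_pt X hV (hw.map i2) hN
  have h22 : (2 : O ⊗[R] O) = 0 := by
    have := congrArg (algebraMap R (O ⊗[R] O)) h2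
    rwa [map_ofNat, map_zero] at this
  have h3 := val_unique' h22 (X := X.bc (O ⊗[R] O)) (B := B1) (B' := B2) ⟨hB1, hT1, hC1⟩
    ⟨hB2, hT2, hC2⟩
  have e1 : val (WA fun x => i1 (w x)) = i1 (val (WA w)) := by
    refine Eq.trans ?_ (val_map (i1 : O →+* O ⊗[R] O) hC)
    congr 1
    funext d κ
    exact (WA_map (i1 : O →+* O ⊗[R] O) w d κ).symm
  have e2 : val (WA fun x => i2 (w x)) = i2 (val (WA w)) := by
    refine Eq.trans ?_ (val_map (i2 : O →+* O ⊗[R] O) hC)
    congr 1
    funext d κ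
    exact (WA_map (i2 : O →+* O ⊗[R] O) w d κ).symm
  rw [e1, e2] at h3
  have h4 : Algebra.IsEffective R O := Algebra.IsEffective.of_faithfullyFlat R O
  have h5 := h4.eqLocus_includeLeft_includeRight
  have h6 : val (WA w) ∈ (Set.range (algebraMap R O)) := by
    rw [← h5]
    exact h3
  exact h6

theorem exists_val (h2 : (2 : R) = 0) [Module.FaithfullyFlat R (OO V N)] :
    ∃ r, IsVal X r := by
  obtain ⟨r, hr⟩ := descend hV hN h2 (isPt_wO V N)
  obtain ⟨B, hB, hT, hC, _⟩ := pres_of_pt X hV (isPt_wO V N) hN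
  refine ⟨r, ?_⟩
  intro S _ f Y B' α hbc hp
  letI : Algebra R S := f.toAlgebra
  obtain ⟨ψ, hψ⟩ := exists_hom hV hN (S := S) hbc hp
  have h7 : val α = ψ (val (WA (wO V N))) := by
    refine Eq.trans ?_ (val_map (ψ : OO V N →+* S) hC)
    exact val_congr fun d κ hκ => (hψ d κ hκ).symm
  rw [h7, ← hr, ψ.commutes]
  rfl

lemma IsVal.unique [Module.FaithfullyFlat R (OO V N)] {r r' : R} (h : IsVal X r)
    (h' : IsVal X r') : r = r' := by
  obtain ⟨B, hB, hT, hC, _⟩ := pres_of_pt X hV (isPt_wO V N) hN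
  have h1 := h (OO V N) (algebraMap R (OO V N)) (X.bc (OO V N)) B _ (isBC_bc X _) ⟨hB, hT, hC⟩
  have h2 := h' (OO V N) (algebraMap R (OO V N)) (X.bc (OO V N)) B _ (isBC_bc X _) ⟨hB, hT, hC⟩
  exact FaithfulSMul.algebraMap_injective R (OO V N) (h1.symm.trans h2)

end

end Pool.Agent.Helper190_Can
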