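import Pool.Agent.Helper190_Can.ZBase

set_option linter.unusedSimpArgs false
set_option linter.unusedSectionVars false
set_option linter.unusedVariables false

open Module MvPolynomial DirectSum TensorProduct

noncomputable section

namespace Pool.Agent.Helper190_Can

section
variable {R S T : Type} [CommRing R] [CommRing S] [CommRing T] {f : R →+* S} {g : S →+* T}

lemma IsBC.trans {X : GrAlg R} {Y : GrAlg S} {Z : GrAlg T} (h : IsBC f X Y) (h' : IsBC g Y Z) :
    IsBC (g.comp f) X Z := by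
  rw [isBC_iff] at h h' ⊢
  obtain ⟨Φ, hΦ, hbas⟩ := h
  obtain ⟨Ψ, hΨ, hbas'⟩ := h'
  refine ⟨Ψ.comp Φ, fun r => by simp [hΦ, hΨ], fun n => ?_⟩
  obtain ⟨k, v, w, hvw⟩ := hbas n
  obtain ⟨k', v', w', hvw'⟩ := hbas' n
  have hmem : ∀ x ∈ Y.gr n, Ψ x ∈ Z.gr n := fun x hx => bc_mem Ψ hΨ v' w' hvw' hx
  obtain ⟨u', hu'⟩ := basis_image g (bcn Ψ n hmem) (fun r x => by
    apply Subtype.ext
    exact bc_smul Ψ hΨ r x) v' w' (fun i => Subtype.ext (hvw' i)) w
  refine ⟨k, v, u', fun i => ?_⟩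
  rw [hu']
  change Ψ (Φ (v i)) = Ψ (w i)
  rw [hvw]

/-- images of homogeneous bases -/
lemma exists_image_basis {X : GrAlg R} {Y : GrAlg S} (Φ : X.A →+* Y.A)
    (hΦ : ∀ r, Φ (algebraMap R X.A r) = algebraMap S Y.A (f r))
    (hbas : ∀ n, ∃ (k : ℕ) (v : Basis (Fin k) R (X.gr n)) (w : Basis (Fin k) S (Y.gr n)),
      ∀ i, Φ (v i) = w i) {V : Basis Ix R X.A} (hV : HomB X.gr V) :
    ∃ W : Basis Ix S Y.A, HomB Y.gr W ∧ ∀ i, W i = Φ (V i) := by
  have hsm := bc_smul Φ hΦ
  have hu : ∀ n, ∃ u' : Basis (Ixn n) S (Y.gr n), ∀ i, (u' i : Y.A) = Φ (resB hV n i) := by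
    intro n
    obtain ⟨k, v, w, hvw⟩ := hbas n
    have hmem : ∀ x ∈ X.gr n, Φ x ∈ Y.gr n := fun x hx => bc_mem Φ hΦ v w hvw hx
    obtain ⟨u', hu'⟩ := basis_image f (bcn Φ n hmem) (fun r x => by
      apply Subtype.ext
      exact hsm r x) v w (fun i => Subtype.ext (hvw i)) (resB hV n)
    exact ⟨u', fun i => by rw [hu']; rfl⟩
  choose u' hu' using hu
  refine ⟨colB u', ?_, fun i => ?_⟩
  · intro d v hv
    rw [EE_of hv, colB_apply]
    exact (u' _ _).2
  · rw [colB_apply, hu', resB_coe]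

end

/-- independence of the presentation over an arbitrary ring -/
lemma val_unique' {R : Type} [CommRing R] (h2 : (2 : R) = 0) {X : GrAlg R}
    {B B' : Basis Ix R X.A} {α α' : Bool → Lt → R} (h : Pres X B α) (h' : Pres X B' α') :
    val α = val α' := by
  rw [← sub_eq_zero]
  refine eq_zero_of_localization _ fun m hm => ?_
  have hbc := isBC_bc X (Localization.AtPrime m)
  obtain ⟨B1, h1⟩ := h.image hbc
  obtain ⟨B2, h3⟩ := h'.image hbc
  have h4 : (2 : Localization.AtPrime m) = 0 := by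
    have := congrArg (algebraMap R (Localization.AtPrime m)) h2
    rwa [map_ofNat, map_zero] at this
  have h5 := val_unique h4 h1 h3
  rw [val_map _ h.2.2, val_map _ h'.2.2] at h5
  rw [map_sub, h5, sub_self]

end Pool.Agent.Helper190_Can
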