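import Pool.Agent.Helper190_Can.ZPt

set_option linter.unusedSimpArgs false
set_option linter.unusedSectionVars false
set_option linter.unusedVariables false

open Module MvPolynomial DirectSum TensorProduct

noncomputable section

namespace Pool.Agent.Helper190_Can

section
variable {R : Type} [CommRing R] {A : Type} [CommRing A] [Algebra R A] (V : Basis Ix R A) (N : ℕ)

/-- the ideal of relations -/
def JJ : Ideal (MvPolynomial (Var N) R) :=
  Ideal.span ({p | ∃ x, IsRel V (N := N) (MvPolynomial.X : Var N → MvPolynomial (Var N) R) x ∧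
      ∃ j, p = (VS V (MvPolynomial (Var N) R)).coord j x} ∪
    Set.range fun c : Fin 4 => WA (N := N) (MvPolynomial.X : Var N → MvPolynomial (Var N) R)
      false (cn c) * WY (N := N) (MvPolynomial.X : Var N → MvPolynomial (Var N) R) c - 1)

/-- the ring of the space of presentations -/
abbrev OO : Type := MvPolynomial (Var N) R ⧸ JJ V N

/-- the universal point -/
def wO : Var N → OO V N := fun x => Ideal.Quotient.mkₐ R (JJ V N) (MvPolynomial.X x)

lemma isPt_wO : IsPt V (wO V N) := by
  constructor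
  · intro y hy
    obtain ⟨x, hx, rfl⟩ := hy.lift V (Ideal.Quotient.mkₐ R (JJ V N))
    apply (VS V (OO V N)).ext_elem
    intro j
    have h1 := coord_mp V (Ideal.Quotient.mkₐ R (JJ V N)) j x
    rw [Basis.coord_apply] at h1
    rw [h1, map_zero, Finsupp.zero_apply, Ideal.Quotient.mkₐ_eq_mk,
      Ideal.Quotient.eq_zero_iff_mem]
    exact Ideal.subset_span (Or.inl ⟨x, hx, j, rfl⟩)
  · intro c
    have h1 : Ideal.Quotient.mk (JJ V N) (WA (N := N)
        (MvPolynomial.X : Var N → MvPolynomial (Var N) R) false (cn c) *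
        WY (N := N) (MvPolynomial.X : Var N → MvPolynomial (Var N) R) c - 1) = 0 := by
      rw [Ideal.Quotient.eq_zero_iff_mem]
      exact Ideal.subset_span (Or.inr ⟨c, rfl⟩)
    rw [map_sub, map_mul, map_one, sub_eq_zero] at h1
    rw [← h1, WA_map]
    rfl

variable {N} {S : Type} [CommRing S] [Algebra R S]

lemma JJ_le {w : Var N → S} (hw : IsPt V w) : ∀ a ∈ JJ V N, aeval w a = 0 := by
  intro a ha
  have h1 : JJ V N ≤ RingHom.ker (aeval w : MvPolynomial (Var N) R →ₐ[R] S) := by
    rw [JJ, Ideal.span_le]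
    have hww : (fun y => (aeval w : MvPolynomial (Var N) R →ₐ[R] S) (MvPolynomial.X y)) = w := by
      funext y
      exact aeval_X w y
    rintro p (⟨x, hx, j, rfl⟩ | ⟨c, rfl⟩)
    · rw [SetLike.mem_coe, RingHom.mem_ker]
      have h2 := hx.map V (aeval w : MvPolynomial (Var N) R →ₐ[R] S)
      rw [hww] at h2
      have h3 := hw.rel _ h2
      rw [← coord_mp, h3, map_zero]
    · rw [SetLike.mem_coe, RingHom.mem_ker, map_sub, map_mul, map_one, sub_eq_zero]
      have h4 := WA_map (N := N) ((aeval w : MvPolynomial (Var N) R →ₐ[R] S) :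
        MvPolynomial (Var N) R →+* S) MvPolynomial.X false (cn c)
      have h5 : (fun x => ((aeval w : MvPolynomial (Var N) R →ₐ[R] S) :
        MvPolynomial (Var N) R →+* S) (MvPolynomial.X x)) = w := hww
      rw [h5] at h4
      have h6 := hw.cor c
      rw [← h4, WY, ← congrFun hww (Sum.inr (Sum.inr (Sum.inr c)))] at h6
      exact h6
  exact h1 ha

/-- the map classifying a point -/
def ofPt {w : Var N → S} (hw : IsPt V w) : OO V N →ₐ[R] S :=
  Ideal.Quotient.liftₐ (JJ V N) (aeval w) (JJ_le V hw)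

lemma ofPt_wO {w : Var N → S} (hw : IsPt V w) (x : Var N) : ofPt V hw (wO V N x) = w x := by
  exact aeval_X w x

lemma OO_ext {f g : OO V N →ₐ[R] S} (h : ∀ x, f (wO V N x) = g (wO V N x)) : f = g := by
  apply Ideal.Quotient.algHom_ext
  apply MvPolynomial.algHom_ext
  intro x
  exact h x

/-- the point attached to a homomorphism -/
lemma isPt_of_hom (f : OO V N →ₐ[R] S) : IsPt V fun x => f (wO V N x) := by
  constructor
  · intro y hy
    obtain ⟨x, hx, rfl⟩ := hy.lift V f
    rw [(isPt_wO V N).rel x hx, map_zero]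
  · intro c
    have h1 := congrArg f ((isPt_wO V N).cor c)
    rw [map_mul, map_one] at h1
    rw [← h1]
    congr 1
    exact (WA_map (f : OO V N →+* S) (wO V N) false (cn c)).symm

instance finiteType_OO : Algebra.FiniteType R (OO V N) :=
  Algebra.FiniteType.of_surjective (Ideal.Quotient.mkₐ R (JJ V N))
    (Ideal.Quotient.mkₐ_surjective R _)

end

/-! ### presentations give points -/

section
variable {R A : Type} [CommRing R] [CommRing A] [Algebra R A] {gr : ℕ → Submodule R A}
  [GradedAlgebra gr]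

lemma sum_homog {B : Basis Ix R A} (hB : HomB gr B) {n : ℕ} {x : A} (hx : x ∈ gr n) :
    x = ∑ i : Ixn n, B.coord i.1 x • B i.1 := by
  have h1 : x = ∑ i : Ixn n, (resB hB n).repr ⟨x, hx⟩ i • B i.1 := by
    have h2 := congrArg (Submodule.subtype _) ((resB hB n).sum_repr ⟨x, hx⟩)
    rw [map_sum] at h2
    refine h2.symm.trans (Finset.sum_congr rfl fun i _ => ?_)
    rw [map_smul, Submodule.subtype_apply, resB_coe]
  have h3 : ∀ j : Ixn n, B.coord j.1 x = (resB hB n).repr ⟨x, hx⟩ j := by
    intro j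
    conv_lhs => rw [h1]
    rw [map_sum, Finset.sum_eq_single j]
    · rw [map_smul, Basis.coord_apply, Basis.repr_self, Finsupp.single_eq_same, smul_eq_mul,
        mul_one]
    · intro i _ hij
      rw [map_smul, Basis.coord_apply, Basis.repr_self, Finsupp.single_eq_of_ne, smul_zero]
      intro h
      exact hij (Subtype.ext h.symm)
    · intro h
      exact absurd (Finset.mem_univ _) h
  conv_lhs => rw [h1]
  exact Finset.sum_congr rfl fun j _ => by rw [h3]

lemma pr_congr {gen gen' : Ix → A} (h : ∀ i, dg i ≤ 3 → gen i = gen' i) (d : Bool) (v : Lt) :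
    pr gen d v = pr gen' d v := by
  have h1 : ∀ σ, prS gen σ = prS gen' σ := by
    intro σ
    rw [prS, prS]
    congr 1
    refine List.map_congr_left fun i hi => ?_
    by_cases hσ : inS σ
    · exact h i ((lst_spec hσ).1 i hi).2
    · rw [lst, dif_neg hσ] at hi
      simp at hi
  cases d <;> simp only [pr] <;> split_ifs
  · exact h1 _
  · rfl
  · rw [h1, h _ (mm_spec v).2.1]
  · rfl

end

section
variable {R : Type} [CommRing R] (X : GrAlg R) {V : Basis Ix R X.A} (hV : HomB X.gr V) {N : ℕ}
  {S : Type} [CommRing S] [Algebra R S]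

/-- the grading of the base change -/
abbrev gbc (X : GrAlg R) (S : Type) [CommRing S] [Algebra R S] (n : ℕ) :
    Submodule S (S ⊗[R] X.A) := (X.gr n).baseChange S

include hV in
lemma hom_VS : HomB (gbc X S) (VS V S) := by
  intro d v hv
  rw [EE_of hv, VS_apply]
  refine Submodule.tmul_mem_baseChange_of_mem _ ?_
  have := hV d v hv
  rwa [EE_of hv] at this

include hV in
theorem pt_of_pres {B : Basis Ix S (S ⊗[R] X.A)} {α : Bool → Lt → S} (hB : HomB (gbc X S) B)
    (hT : Tab B α) (hC : Cu α) :
    ∃ w : Var N → S, IsPt V w ∧ (∀ d, ∀ κ ∈ KF d, WA w d κ = α d κ) ∧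
      ∀ d v, ee V w d v = EE B d v := by
  have hu : ∀ c, ∃ y, α false (cn c) * y = 1 := by
    intro c
    fin_cases c
    · exact hC.h00.exists_right_inv
    · exact hC.h80.exists_right_inv
    · exact hC.h08.exists_right_inv
    · exact hC.h88.exists_right_inv
  choose y hy using hu
  let w : Var N → S := fun x => match x with
    | Sum.inl p => (VS V S).coord p.1.2 (B p.1.1)
    | Sum.inr (Sum.inl p) => B.coord p.1.2 (VS V S p.1.1)
    | Sum.inr (Sum.inr (Sum.inl p)) => α p.1.1 p.1.2
    | Sum.inr (Sum.inr (Sum.inr c)) => y c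
  have hW1 : ∀ i j, dg i = dg j → dg i ≤ 3 → W1 w i j = (VS V S).coord j (B i) := by
    intro i j h1 h2
    rw [W1, dif_pos ⟨h1, h2⟩]
  have hW2 : ∀ k i, dg k = dg i → dg k ≤ N → W2 w k i = B.coord i (VS V S k) := by
    intro i j h1 h2
    rw [W2, dif_pos ⟨h1, h2⟩]
  have hWA : ∀ d, ∀ κ ∈ KF d, WA w d κ = α d κ := by
    intro d κ hκ
    rw [WA, dif_pos hκ]
  have hgn : ∀ i, dg i ≤ 3 → gn V w i = B i := by
    intro i hi
    have hBi : B i ∈ gbc X S (dg i) := by
      have := hB i.1.1 i.1.2 i.2
      rwa [← EE_ix] at this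
    rw [gn]
    refine Eq.trans ?_ (sum_homog (hom_VS X hV) hBi).symm
    refine Finset.sum_congr rfl fun j _ => ?_
    rw [hW1 i j.1 j.2.symm hi]
  have hee : ∀ d v, ee V w d v = EE B d v := by
    intro d v
    rw [ee, pr_congr hgn]
    exact pr_of_tab hT d v
  refine ⟨w, ⟨?_, ?_⟩, hWA, hee⟩
  · intro x hx
    cases hx with
    | one => rw [hee]; exact sub_eq_zero.mpr hT.one
    | mulS d σ μ hσ hμ =>
      rw [hee, hee, hee]
      exact sub_eq_zero.mpr (hT.mulS d σ μ hσ hμ)
    | mulM μ ν hμ hν =>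
      rw [hee, hee, hT.mulM μ ν hμ hν, neg_add_eq_zero]
      refine Finset.sum_congr rfl fun d _ => Finset.sum_congr rfl fun κ hκ => ?_
      rw [hee, hWA d κ hκ]
    | gen i hi =>
      rw [hee, hgn i hi, ← EE_ix]
      exact sub_self _
    | inv k hk =>
      rw [sub_eq_zero]
      have hVk : VS V S k ∈ gbc X S (dg k) := by
        have := (hom_VS X hV (S := S)) k.1.1 k.1.2 k.2
        rwa [← EE_ix] at this
      refine (sum_homog hB hVk).trans ?_
      refine Finset.sum_congr rfl fun i _ => ?_
      rw [hee, ← EE_ix, hW2 k i.1 i.2.symm hk]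
  · intro c
    rw [hWA]
    · exact hy c
    · fin_cases c <;> decide

end

end Pool.Agent.Helper190_Can
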