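import Pool.Agent.Helper190_Can.ZFun
import Pool.Agent.Helper190_Can.ZDefs
import Mathlib.RingTheory.Jacobson.Ring
import Mathlib.RingTheory.Spectrum.Prime.Chevalley

set_option linter.unusedSimpArgs false
set_option linter.unusedSectionVars false
set_option linter.unusedVariables false

open Module MvPolynomial DirectSum TensorProduct CategoryTheory
open Pool.Agent.Helper190_CoarseTwo (CharTwo)

noncomputable section

namespace Pool.Agent.Helper190_Can

lemma lift_field (k E L : Type) [Field k] [Field E] [Field L] [IsAlgClosed L] [Algebra k E]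
    [Algebra k L] [Algebra.FiniteType k E] : Nonempty (E →ₐ[k] L) := by
  have : Module.Finite k E := finite_of_finite_type_of_isJacobsonRing k _
  have : Algebra.IsAlgebraic k E := Algebra.IsAlgebraic.of_finite k _
  exact ⟨IsAlgClosed.lift⟩

/-- Nullstellensatz for a fibre -/
lemma exists_geom_point {R O L : Type} [CommRing R] [CommRing O] [Algebra R O]
    [Algebra.FiniteType R O] [Field L] [IsAlgClosed L] [Algebra R L] (q : PrimeSpectrum R)
    (hq : RingHom.ker (algebraMap R L) = q.asIdeal)
    (h : q ∈ Set.range (PrimeSpectrum.comap (algebraMap R O))) : Nonempty (O →ₐ[R] L) := by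
  let k := q.asIdeal.ResidueField
  let g : k →+* L := Ideal.ResidueField.lift q.asIdeal (algebraMap R L) hq.ge (by
    intro x hx
    rw [Submonoid.mem_comap, IsUnit.mem_submonoid_iff, isUnit_iff_ne_zero]
    intro h0
    exact hx (hq.le h0))
  let _ : Algebra k L := g.toAlgebra
  have : IsScalarTower R k L := IsScalarTower.of_algebraMap_eq fun r =>
    (Ideal.ResidueField.lift_algebraMap q.asIdeal (algebraMap R L) hq.ge _ r).symm
  have hn : Nontrivial (k ⊗[R] O) := (PrimeSpectrum.nontrivial_iff_mem_rangeComap q).mpr h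
  obtain ⟨m, hm⟩ := Ideal.exists_maximal (k ⊗[R] O)
  let _ : Field ((k ⊗[R] O) ⧸ m) := Ideal.Quotient.field m
  have : Algebra.FiniteType k ((k ⊗[R] O) ⧸ m) :=
    Algebra.FiniteType.of_surjective (Ideal.Quotient.mkₐ k m) (Ideal.Quotient.mkₐ_surjective k m)
  obtain ⟨φ⟩ : Nonempty (((k ⊗[R] O) ⧸ m) →ₐ[k] L) := lift_field k ((k ⊗[R] O) ⧸ m) L
  let ψ : (k ⊗[R] O) →ₐ[k] L := φ.comp (Ideal.Quotient.mkₐ k m)
  exact ⟨(ψ.restrictScalars R).comp Algebra.TensorProduct.includeRight⟩

variable {P : ∀ (k : Type) [Field k], GrAlg k → Prop}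

theorem isOpenIn_Cls : IsOpenIn P Cls := by
  intro R _ _ X K _ _ g Y hbc hY
  obtain ⟨B, α, hp⟩ := hY
  obtain ⟨V, hV⟩ := exists_refBasis hbc hp.1
  obtain ⟨N, hN⟩ := exists_N X.X X.ft
  have hflat := flat_OO hV hN
  have hfp : Algebra.FinitePresentation R (OO V N) :=
    Algebra.FinitePresentation.of_finiteType.mp inferInstance
  have hU := (PrimeSpectrum.isOpenMap_comap_of_hasGoingDown_of_finitePresentation
    (R := R) (S := OO V N)).isOpen_range
  have hrange : ∀ (L : Type) [Field L] (h : R →+* L) (χ : OO V N →+* L),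
      (∀ r, χ (algebraMap R _ r) = h r) →
      PrimeSpectrum.comap h ⊥ ∈ Set.range (PrimeSpectrum.comap (algebraMap R (OO V N))) := by
    intro L _ h χ hχ
    refine ⟨PrimeSpectrum.comap χ ⊥, ?_⟩
    apply PrimeSpectrum.ext
    ext r
    rw [PrimeSpectrum.comap_asIdeal, PrimeSpectrum.comap_asIdeal, Ideal.mem_comap,
      Ideal.mem_comap, hχ]
    rfl
  let _ : Algebra R K := g.toAlgebra
  obtain ⟨ψ, _⟩ := exists_hom hV hN (S := K) hbc hp
  have hpU := hrange K g ψ fun r => ψ.commutes r
  obtain ⟨_, ⟨r, rfl⟩, hr, hrU⟩ :=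
    PrimeSpectrum.isTopologicalBasis_basic_opens.exists_subset_of_mem_open hpU hU
  refine ⟨r, ?_, ?_⟩
  · intro h0
    exact hr (show g r ∈ (⊥ : Ideal K) from h0)
  · intro L _ _ h Z hr' hbcZ
    have hq : PrimeSpectrum.comap h ⊥ ∈
        Set.range (PrimeSpectrum.comap (algebraMap R (OO V N))) := by
      apply hrU
      intro h0
      exact hr' (show h r ∈ (⊥ : Ideal L) from h0)
    let _ : Algebra R L := h.toAlgebra
    obtain ⟨χ⟩ := exists_geom_point (L := L) (PrimeSpectrum.comap h ⊥) (by
      ext x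
      rw [RingHom.mem_ker, PrimeSpectrum.comap_asIdeal, Ideal.mem_comap]
      rfl) hq
    obtain ⟨B', h1, h2, h3, _⟩ := pres_of_pt X.X hV (isPt_of_hom V χ) hN
    obtain ⟨B'', hB''⟩ := pres_of_bc (S := L) hbcZ hV h1 h2 h3
    exact ⟨B'', _, hB''⟩

/-! ### the function on the open class -/

lemma exists_data {R : Type} [CommRing R] [IsNoetherianRing R] [Nontrivial R] (X : Fam P R)
    (hX : X.In Cls) : ∃ (V : Basis Ix R X.X.A) (hV : HomB X.X.gr V) (N : ℕ)
      (hN : Algebra.adjoin R {x : X.X.A | ∃ n ≤ N, x ∈ X.X.gr n} = ⊤),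
      Module.FaithfullyFlat R (OO V N) := by
  obtain ⟨m, hm⟩ := Ideal.exists_maximal R
  let K := AlgebraicClosure m.ResidueField
  let f : R →+* K := (algebraMap m.ResidueField K).comp (algebraMap R m.ResidueField)
  let _ : Algebra R K := f.toAlgebra
  obtain ⟨B, α, hp⟩ := hX K f (X.X.bc K) (isBC_bc X.X K)
  obtain ⟨V, hV⟩ := exists_refBasis (isBC_bc X.X K) hp.1
  obtain ⟨N, hN⟩ := exists_N X.X X.ft
  exact ⟨V, hV, N, hN, ff_OO hV hN hX⟩

theorem exists_isVal {R : Type} [CommRing R] [IsNoetherianRing R] (h2 : (2 : R) = 0)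
    (X : Fam P R) (hX : X.In Cls) : ∃ r, IsVal X.X r := by
  rcases subsingleton_or_nontrivial R with h | h
  · refine ⟨0, ?_⟩
    intro S _ f Y B α _ _
    have h1 : (1 : S) = 0 := by
      rw [← map_one f, ← map_zero f, Subsingleton.elim (1 : R) 0]
    have := subsingleton_of_zero_eq_one h1.symm
    exact Subsingleton.elim _ _
  · obtain ⟨V, hV, N, hN, hff⟩ := exists_data X hX
    exact exists_val hV hN h2

theorem isVal_unique {R : Type} [CommRing R] [IsNoetherianRing R]
    (X : Fam P R) (hX : X.In Cls) {r r' : R} (h : IsVal X.X r) (h' : IsVal X.X r') : r = r' := by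
  rcases subsingleton_or_nontrivial R with hR | hR
  · exact Subsingleton.elim _ _
  · obtain ⟨V, hV, N, hN, hff⟩ := exists_data X hX
    exact h.unique hV hN h'

/-- the function on the families with geometric fibres in the open class -/
def openFun : OpenFun P Cls where
  f R _ X hX := (exists_isVal R.property X hX).choose
  nat R S _ _ g X Y hX hY hbc := by
    have h1 := (exists_isVal R.property X hX).choose_spec
    have h2 := (exists_isVal S.property Y hY).choose_spec
    exact isVal_unique Y hY h2 (h1.image hbc)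

lemma openFun_eq (R : CharTwo.FullSubcategory) [IsNoetherianRing R.obj] (X : Fam P R.obj)
    (hX : X.In Cls) {B : Basis Ix R.obj X.X.A} {α : Bool → Lt → R.obj} (h : Pres X.X B α) :
    (openFun (P := P)).f R X hX = val α := by
  have h1 := (exists_isVal R.property X hX).choose_spec
  have h3 : IsBC (RingHom.id R.obj) X.X X.X :=
    isBC_of_equiv AlgEquiv.refl (fun n x => Iff.rfl)
  exact (h1 R.obj (RingHom.id R.obj) X.X B α h3 h).symm

end Pool.Agent.Helper190_Can
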