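import Pool.Agent.Helper190_Can.ZO

set_option linter.unusedSimpArgs false
set_option linter.unusedSectionVars false
set_option linter.unusedVariables false

open Module MvPolynomial DirectSum TensorProduct

noncomputable section

namespace Pool.Agent.Helper190_Can

section
variable {R : Type} [CommRing R] (X : GrAlg R) {V : Basis Ix R X.A} (hV : HomB X.gr V) {N : ℕ}
  {S : Type} [CommRing S] [Algebra R S] {w : Var N → S}

include hV in
lemma gn_mem (i : Ix) : gn V w i ∈ gbc X S (dg i) := by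
  rw [gn]
  refine Submodule.sum_mem _ fun j _ => Submodule.smul_mem _ _ ?_
  have := (hom_VS X hV (S := S)) j.1.1.1 j.1.1.2 j.1.2
  rw [← EE_ix] at this
  have h2 : j.1.1.2.1.toNat = dg i := j.2
  rwa [h2] at this

include hV in
lemma ee_mem {d : Bool} {v : Lt} (hv : inD d v) : ee V w d v ∈ gbc X S v.1.toNat :=
  pr_mem (gr := gbc X S) (gn_mem X hV) hv

/-- the span of the prospective basis -/
def MS (V : Basis Ix R X.A) (w : Var N → S) : Submodule S (S ⊗[R] X.A) :=
  Submodule.span S (Set.range fun i : Ix => ee V w i.1.1 i.1.2)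

lemma ee_mem_MS (d : Bool) (v : Lt) : ee V w d v ∈ MS X V w := by
  by_cases hv : inD d v
  · exact Submodule.subset_span ⟨⟨(d, v), hv⟩, rfl⟩
  · rw [ee, pr_out _ hv]
    exact Submodule.zero_mem _

variable (hw : IsPt V w)
include hw

lemma ee_mul_mem {d d' : Bool} {v v' : Lt} (hv : inD d v) (hv' : inD d' v') :
    ee V w d v * ee V w d' v' ∈ MS X V w := by
  cases d
  · have h1 := hw.rel _ (.mulS d' v v' hv hv')
    rw [sub_eq_zero] at h1
    rw [h1]
    exact ee_mem_MS X _ _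
  · cases d'
    · have h1 := hw.rel _ (.mulS true v' v hv' hv)
      rw [sub_eq_zero] at h1
      rw [mul_comm, h1]
      exact ee_mem_MS X _ _
    · have h1 := hw.rel _ (.mulM v v' hv hv')
      rw [eq_neg_of_add_eq_zero_left h1]
      exact Submodule.neg_mem _ (Submodule.sum_mem _ fun d _ => Submodule.sum_mem _ fun κ _ =>
        Submodule.smul_mem _ _ (ee_mem_MS X _ _))

lemma MS_mul {x y : S ⊗[R] X.A} (hx : x ∈ MS X V w) (hy : y ∈ MS X V w) :
    x * y ∈ MS X V w := by
  refine Submodule.span_induction (p := fun x _ => x * y ∈ MS X V w) ?_ ?_ ?_ ?_ hx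
  · rintro _ ⟨i, rfl⟩
    refine Submodule.span_induction (p := fun y _ => _ * y ∈ MS X V w) ?_ ?_ ?_ ?_ hy
    · rintro _ ⟨j, rfl⟩
      exact ee_mul_mem X hw i.2 j.2
    · rw [mul_zero]; exact Submodule.zero_mem _
    · intro a b _ _ ha hb
      rw [mul_add]; exact Submodule.add_mem _ ha hb
    · intro r a _ ha
      rw [mul_smul_comm]; exact Submodule.smul_mem _ _ ha
  · rw [zero_mul]; exact Submodule.zero_mem _
  · intro a b _ _ ha hb
    rw [add_mul]; exact Submodule.add_mem _ ha hb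
  · intro r a _ ha
    rw [smul_mul_assoc]; exact Submodule.smul_mem _ _ ha

lemma MS_one : (1 : S ⊗[R] X.A) ∈ MS X V w := by
  have h1 := hw.rel _ .one
  rw [sub_eq_zero] at h1
  rw [← h1]
  exact ee_mem_MS X _ _

lemma VS_mem_MS {k : Ix} (hk : dg k ≤ N) : VS V S k ∈ MS X V w := by
  have h1 := hw.rel _ (.inv k hk)
  rw [sub_eq_zero] at h1
  rw [h1]
  exact Submodule.sum_mem _ fun i _ => Submodule.smul_mem _ _ (ee_mem_MS X _ _)

include hV in
theorem MS_top (hN : Algebra.adjoin R {x : X.A | ∃ n ≤ N, x ∈ X.gr n} = ⊤) :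
    MS X V w = ⊤ := by
  have h1 : ∀ a : X.A, (1 : S) ⊗ₜ[R] a ∈ MS X V w := by
    intro a
    have ha : a ∈ Algebra.adjoin R {x : X.A | ∃ n ≤ N, x ∈ X.gr n} := by rw [hN]; trivial
    refine Algebra.adjoin_induction (p := fun a _ => (1 : S) ⊗ₜ[R] a ∈ MS X V w) ?_ ?_ ?_ ?_ ha
    · rintro a ⟨n, hn, ha⟩
      rw [sum_homog hV ha, TensorProduct.tmul_sum]
      refine Submodule.sum_mem _ fun i _ => ?_
      rw [TensorProduct.tmul_smul, ← algebraMap_smul S]
      refine Submodule.smul_mem _ _ ?_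
      rw [← VS_apply]
      refine VS_mem_MS X hw ?_
      have h2 : dg i.1 = n := i.2
      rw [h2]
      exact hn
    · intro r
      rw [Algebra.algebraMap_eq_smul_one, TensorProduct.tmul_smul, ← algebraMap_smul S]
      exact Submodule.smul_mem _ _ (MS_one X hw)
    · intro a b _ _ ha hb
      rw [TensorProduct.tmul_add]
      exact Submodule.add_mem _ ha hb
    · intro a b _ _ ha hb
      have h3 := MS_mul X hw ha hb
      rwa [Algebra.TensorProduct.tmul_mul_tmul, one_mul] at h3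
  rw [eq_top_iff]
  rintro x -
  induction x with
  | zero => exact Submodule.zero_mem _
  | tmul s a =>
    have : s ⊗ₜ[R] a = s • ((1 : S) ⊗ₜ[R] a) := by
      rw [TensorProduct.smul_tmul', smul_eq_mul, mul_one]
    rw [this]
    exact Submodule.smul_mem _ _ (h1 a)
  | add x y hx hy => exact Submodule.add_mem _ hx hy

include hV in
theorem span_n (hN : Algebra.adjoin R {x : X.A | ∃ n ≤ N, x ∈ X.gr n} = ⊤) (n : ℕ) :
    gbc X S n ≤ Submodule.span S (Set.range fun i : Ixn n => ee V w i.1.1.1 i.1.1.2) := by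
  intro x hx
  have h1 : ∀ y : S ⊗[R] X.A, GradedAlgebra.proj (gbc X S) n y ∈
      Submodule.span S (Set.range fun i : Ixn n => ee V w i.1.1.1 i.1.1.2) := by
    intro y
    have hy : y ∈ MS X V w := by rw [MS_top X hV hw hN]; trivial
    refine Submodule.span_induction (p := fun y _ => GradedAlgebra.proj (gbc X S) n y ∈
      Submodule.span S (Set.range fun i : Ixn n => ee V w i.1.1.1 i.1.1.2)) ?_ ?_ ?_ ?_ hy
    · rintro _ ⟨i, rfl⟩
      have hi := ee_mem X hV (w := w) i.2
      rw [GradedAlgebra.proj_apply]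
      by_cases hn : i.1.2.1.toNat = n
      · subst hn
        rw [DirectSum.decompose_of_mem_same (gbc X S) hi]
        exact Submodule.subset_span ⟨⟨i, rfl⟩, rfl⟩
      · rw [DirectSum.decompose_of_mem_ne (gbc X S) hi hn]
        exact Submodule.zero_mem _
    · rw [map_zero]; exact Submodule.zero_mem _
    · intro a b _ _ ha hb
      rw [map_add]; exact Submodule.add_mem _ ha hb
    · intro r a _ ha
      rw [map_smul]; exact Submodule.smul_mem _ _ ha
  have h2 := h1 x
  rwa [GradedAlgebra.proj_apply, DirectSum.decompose_of_mem_same (gbc X S) hx] at h2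

include hV in
theorem exists_basis_n (hN : Algebra.adjoin R {x : X.A | ∃ n ≤ N, x ∈ X.gr n} = ⊤) (n : ℕ) :
    ∃ u : Basis (Ixn n) S (gbc X S n), ∀ i, (u i : S ⊗[R] X.A) = ee V w i.1.1.1 i.1.1.2 := by
  let r : Basis (Ixn n) S (gbc X S n) := resB (hom_VS X hV (S := S)) n
  have : Module.Finite S (gbc X S n) := Module.Finite.of_basis r
  have hmem : ∀ i : Ixn n, ee V w i.1.1.1 i.1.1.2 ∈ gbc X S n := by
    intro i
    have h1 := ee_mem X hV (w := w) i.1.2
    have h2 : i.1.1.2.1.toNat = n := i.2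
    rwa [h2] at h1
  let T : Module.End S (gbc X S n) := r.constr S fun i => ⟨ee V w i.1.1.1 i.1.1.2, hmem i⟩
  have hT : ∀ i, T (r i) = ⟨ee V w i.1.1.1 i.1.1.2, hmem i⟩ := fun i => r.constr_basis S _ i
  have hsurj : Function.Surjective T := by
    rintro ⟨y, hy⟩
    have h1 := span_n X hV hw hN n hy
    suffices h : ∀ y ∈ Submodule.span S (Set.range fun i : Ixn n => ee V w i.1.1.1 i.1.1.2),
        ∃ x, (T x : S ⊗[R] X.A) = y by
      obtain ⟨x, hx⟩ := h y h1
      exact ⟨x, Subtype.ext hx⟩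
    intro y hy
    refine Submodule.span_induction (p := fun y _ => ∃ x, (T x : S ⊗[R] X.A) = y) ?_ ?_ ?_ ?_ hy
    · rintro _ ⟨i, rfl⟩
      exact ⟨r i, by rw [hT]⟩
    · exact ⟨0, by simp⟩
    · rintro a b _ _ ⟨x, hx⟩ ⟨x', hx'⟩
      exact ⟨x + x', by rw [map_add, Submodule.coe_add, hx, hx']⟩
    · rintro s a _ ⟨x, hx⟩
      exact ⟨s • x, by rw [map_smul, Submodule.coe_smul, hx]⟩
  have hinj := OrzechProperty.injective_of_surjective_endomorphism T hsurj
  refine ⟨r.map (LinearEquiv.ofBijective T ⟨hinj, hsurj⟩), fun i => ?_⟩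
  rw [Basis.map_apply]
  change (T (r i) : S ⊗[R] X.A) = _
  rw [hT]

include hV in
theorem pres_of_pt (hN : Algebra.adjoin R {x : X.A | ∃ n ≤ N, x ∈ X.gr n} = ⊤) :
    ∃ B : Basis Ix S (S ⊗[R] X.A), HomB (gbc X S) B ∧ Tab B (WA w) ∧ Cu (WA w) ∧
      ∀ d v, EE B d v = ee V w d v := by
  choose u hu using exists_basis_n X hV hw hN
  have hE : ∀ d v, EE (colB u) d v = ee V w d v := by
    intro d v
    by_cases hv : inD d v
    · rw [EE_of hv, colB_apply, hu]
    · rw [EE_out hv, ee, pr_out _ hv]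
  refine ⟨colB u, ?_, ⟨?_, ?_, ?_⟩, ⟨?_, ?_, ?_, ?_⟩, hE⟩
  · intro d v hv
    rw [hE]
    exact ee_mem X hV hv
  · rw [hE]
    exact sub_eq_zero.mp (hw.rel _ .one)
  · intro d σ μ hσ hμ
    rw [hE, hE, hE]
    exact sub_eq_zero.mp (hw.rel _ (.mulS d σ μ hσ hμ))
  · intro μ ν hμ hν
    rw [hE, hE]
    simp only [hE]
    exact eq_neg_of_add_eq_zero_left (hw.rel _ (.mulM μ ν hμ hν))
  · exact IsUnit.of_mul_eq_one _ (hw.cor 0)
  · exact IsUnit.of_mul_eq_one _ (hw.cor 1)
  · exact IsUnit.of_mul_eq_one _ (hw.cor 2)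
  · exact IsUnit.of_mul_eq_one _ (hw.cor 3)

end

end Pool.Agent.Helper190_Can
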