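import Pool.Agent.Helper190_Can.ZEl

set_option linter.unusedSimpArgs false
set_option linter.unusedSectionVars false
set_option linter.unusedVariables false

open Module MvPolynomial DirectSum TensorProduct

noncomputable section

namespace Pool.Agent.Helper190_Can

instance fintype_Ixn (n : ℕ) : Fintype (Ixn n) := Fintype.ofFinite _

section
variable {R : Type} [CommRing R] {A : Type} [CommRing A] [Algebra R A] (V : Basis Ix R A)

/-- the base-changed basis -/
def VS (S : Type) [CommRing S] [Algebra R S] : Basis Ix S (S ⊗[R] A) :=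
  Algebra.TensorProduct.basis S V

lemma VS_apply (S : Type) [CommRing S] [Algebra R S] (i : Ix) : VS V S i = 1 ⊗ₜ V i :=
  Algebra.TensorProduct.basis_apply V i

variable {S S' : Type} [CommRing S] [Algebra R S] [CommRing S'] [Algebra R S']

/-- the base change map -/
def mp (A : Type) [CommRing A] [Algebra R A] (h : S →ₐ[R] S') :
    S ⊗[R] A →ₐ[R] S' ⊗[R] A := Algebra.TensorProduct.map h (AlgHom.id R A)

lemma mp_tmul (h : S →ₐ[R] S') (s : S) (a : A) : mp A h (s ⊗ₜ a) = h s ⊗ₜ a := by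
  simp [mp]

lemma mp_smul (h : S →ₐ[R] S') (s : S) (x : S ⊗[R] A) : mp A h (s • x) = h s • mp A h x := by
  induction x with
  | zero => simp
  | tmul t a => rw [TensorProduct.smul_tmul', mp_tmul, mp_tmul, TensorProduct.smul_tmul',
      smul_eq_mul, smul_eq_mul, map_mul]
  | add x y hx hy => rw [smul_add, map_add, hx, hy, map_add, smul_add]

lemma mp_VS (h : S →ₐ[R] S') (i : Ix) : mp A h (VS V S i) = VS V S' i := by
  rw [VS_apply, VS_apply, mp_tmul, map_one]

lemma coord_mp (h : S →ₐ[R] S') (j : Ix) (x : S ⊗[R] A) :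
    (VS V S').coord j (mp A h x) = h ((VS V S).coord j x) := by
  induction x with
  | zero => simp
  | tmul t a =>
    rw [mp_tmul]
    simp [VS, Basis.coord_apply, Algebra.TensorProduct.basis_repr_tmul]
  | add x y hx hy => rw [map_add, map_add, hx, hy, map_add, map_add]

/-! ### the data attached to a point -/

variable {N : ℕ}

/-- coordinates of the generators -/
def W1 (w : Var N → S) (i j : Ix) : S := by
  classical exact if h : dg i = dg j ∧ dg i ≤ 3 then w (Sum.inl ⟨(i, j), h⟩) else 0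

/-- the inverse matrix -/
def W2 (w : Var N → S) (k i : Ix) : S := by
  classical exact if h : dg k = dg i ∧ dg k ≤ N then w (Sum.inr (Sum.inl ⟨(k, i), h⟩)) else 0

/-- the exponents -/
def WA (w : Var N → S) (d : Bool) (κ : Lt) : S := by
  classical exact if h : κ ∈ KF d then w (Sum.inr (Sum.inr (Sum.inl ⟨(d, κ), h⟩))) else 0

/-- the inverses of the corners -/
def WY (w : Var N → S) (c : Fin 4) : S := w (Sum.inr (Sum.inr (Sum.inr c)))

/-- the corners -/
def cn : Fin 4 → Lt := ![(0, 0, 0), (0, 8, 0), (0, 0, 8), (0, 8, 8)]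

lemma W1_map (h : S →+* S') (w : Var N → S) (i j : Ix) : h (W1 w i j) = W1 (fun x => h (w x)) i j := by
  simp only [W1]; split_ifs <;> simp

lemma W2_map (h : S →+* S') (w : Var N → S) (i j : Ix) : h (W2 w i j) = W2 (fun x => h (w x)) i j := by
  simp only [W2]; split_ifs <;> simp

lemma WA_map (h : S →+* S') (w : Var N → S) (d : Bool) (κ : Lt) :
    h (WA w d κ) = WA (fun x => h (w x)) d κ := by
  simp only [WA]; split_ifs <;> simp

/-- the generators -/
def gn (w : Var N → S) (i : Ix) : S ⊗[R] A := ∑ j : Ixn (dg i), W1 w i j.1 • VS V S j.1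

/-- the elements of the prospective basis -/
def ee (w : Var N → S) (d : Bool) (v : Lt) : S ⊗[R] A := pr (gn V w) d v

lemma mp_gn (h : S →ₐ[R] S') (w : Var N → S) (i : Ix) :
    mp A h (gn V w i) = gn V (fun x => h (w x)) i := by
  rw [gn, gn, map_sum]
  refine Finset.sum_congr rfl fun j _ => ?_
  rw [mp_smul, mp_VS]
  congr 1
  exact W1_map (h : S →+* S') w i j.1

lemma mp_ee (h : S →ₐ[R] S') (w : Var N → S) (d : Bool) (v : Lt) :
    mp A h (ee V w d v) = ee V (fun x => h (w x)) d v := by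
  rw [ee, ee]
  have := map_pr (mp A h : S ⊗[R] A →+* S' ⊗[R] A) (gn V w) d v
  refine this.trans ?_
  congr 1
  funext i
  exact mp_gn V h w i

/-- the relations -/
inductive IsRel (w : Var N → S) : S ⊗[R] A → Prop
  | one : IsRel w (ee V w false 0 - 1)
  | mulS (d : Bool) (σ μ : Lt) (hσ : inS σ) (hμ : inD d μ) :
      IsRel w (ee V w false σ * ee V w d μ - ee V w d (σ + μ))
  | mulM (μ ν : Lt) (hμ : inM μ) (hν : inM ν) :
      IsRel w (ee V w true μ * ee V w true ν +
        ∑ d, ∑ κ ∈ KF d, WA w d κ • ee V w d (μ + ν + κ))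
  | gen (i : Ix) (hi : dg i ≤ 3) : IsRel w (ee V w i.1.1 i.1.2 - gn V w i)
  | inv (k : Ix) (hk : dg k ≤ N) :
      IsRel w (VS V S k - ∑ i : Ixn (dg k), W2 w k i.1 • ee V w i.1.1.1 i.1.1.2)

lemma mp_rel_one (h : S →ₐ[R] S') (w : Var N → S) :
    mp A h (ee V w false 0 - 1) = ee V (fun x => h (w x)) false 0 - 1 := by
  rw [map_sub, mp_ee, map_one]

lemma mp_rel_mulS (h : S →ₐ[R] S') (w : Var N → S) (d : Bool) (σ μ : Lt) :
    mp A h (ee V w false σ * ee V w d μ - ee V w d (σ + μ)) =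
    ee V (fun x => h (w x)) false σ * ee V (fun x => h (w x)) d μ -
      ee V (fun x => h (w x)) d (σ + μ) := by
  rw [map_sub, map_mul, mp_ee, mp_ee, mp_ee]

lemma mp_rel_mulM (h : S →ₐ[R] S') (w : Var N → S) (μ ν : Lt) :
    mp A h (ee V w true μ * ee V w true ν +
        ∑ d, ∑ κ ∈ KF d, WA w d κ • ee V w d (μ + ν + κ)) =
      (ee V (fun x => h (w x)) true μ * ee V (fun x => h (w x)) true ν +
        ∑ d, ∑ κ ∈ KF d, WA (fun x => h (w x)) d κ • ee V (fun x => h (w x)) d (μ + ν + κ)) := by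
  rw [map_add, map_mul, mp_ee, mp_ee, map_sum]
  congr 1
  refine Finset.sum_congr rfl fun d _ => ?_
  rw [map_sum]
  refine Finset.sum_congr rfl fun κ _ => ?_
  rw [mp_smul, mp_ee]
  congr 1
  exact WA_map (h : S →+* S') w d κ

lemma mp_rel_gen (h : S →ₐ[R] S') (w : Var N → S) (i : Ix) :
    mp A h (ee V w i.1.1 i.1.2 - gn V w i) =
    ee V (fun x => h (w x)) i.1.1 i.1.2 - gn V (fun x => h (w x)) i := by
  rw [map_sub, mp_ee, mp_gn]

lemma mp_rel_inv (h : S →ₐ[R] S') (w : Var N → S) (k : Ix) :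
    mp A h (VS V S k - ∑ i : Ixn (dg k), W2 w k i.1 • ee V w i.1.1.1 i.1.1.2) =
    VS V S' k - ∑ i : Ixn (dg k), W2 (fun x => h (w x)) k i.1 •
      ee V (fun x => h (w x)) i.1.1.1 i.1.1.2 := by
  rw [map_sub, mp_VS, map_sum]
  congr 1
  refine Finset.sum_congr rfl fun i _ => ?_
  rw [mp_smul, mp_ee]
  congr 1
  exact W2_map (h : S →+* S') w k i.1

lemma IsRel.map (h : S →ₐ[R] S') {w : Var N → S} {x : S ⊗[R] A} (hx : IsRel V w x) :
    IsRel V (fun y => h (w y)) (mp A h x) := by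
  cases hx with
  | one => rw [mp_rel_one]; exact .one
  | mulS d σ μ hσ hμ => rw [mp_rel_mulS]; exact .mulS d σ μ hσ hμ
  | mulM μ ν hμ hν => rw [mp_rel_mulM]; exact .mulM μ ν hμ hν
  | gen i hi => rw [mp_rel_gen]; exact .gen i hi
  | inv k hk => rw [mp_rel_inv]; exact .inv k hk

lemma IsRel.lift (h : S →ₐ[R] S') {w : Var N → S} {y : S' ⊗[R] A}
    (hy : IsRel V (fun y => h (w y)) y) : ∃ x, IsRel V w x ∧ mp A h x = y := by
  cases hy with
  | one => exact ⟨_, .one, mp_rel_one V h w⟩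
  | mulS d σ μ hσ hμ => exact ⟨_, .mulS d σ μ hσ hμ, mp_rel_mulS V h w d σ μ⟩
  | mulM μ ν hμ hν => exact ⟨_, .mulM μ ν hμ hν, mp_rel_mulM V h w μ ν⟩
  | gen i hi => exact ⟨_, .gen i hi, mp_rel_gen V h w i⟩
  | inv k hk => exact ⟨_, .inv k hk, mp_rel_inv V h w k⟩

/-- the points of the space of presentations -/
structure IsPt (w : Var N → S) : Prop where
  rel : ∀ x, IsRel V w x → x = 0
  cor : ∀ c, WA w false (cn c) * WY w c = 1

end

end Pool.Agent.Helper190_Can
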