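import Pool.Agent.Helper190_Can.ZPres

set_option linter.unusedSimpArgs false
set_option linter.unusedSectionVars false
set_option linter.unusedVariables false

open Module MvPolynomial DirectSum TensorProduct

noncomputable section

namespace Pool.Agent.Helper190_Can

section
variable {R : Type} [CommRing R] {A : Type} [CommRing A] [Algebra R A] {V : Basis Ix R A} {N : ℕ}
  {S S' : Type} [CommRing S] [Algebra R S] [CommRing S'] [Algebra R S']

lemma IsPt.map (h : S →ₐ[R] S') {w : Var N → S} (hw : IsPt V w) :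
    IsPt V fun x => h (w x) := by
  constructor
  · intro y hy
    obtain ⟨x, hx, rfl⟩ := hy.lift V h
    rw [hw.rel x hx, map_zero]
  · intro c
    have h1 := congrArg h (hw.cor c)
    rw [map_mul, map_one] at h1
    rw [← h1]
    congr 1
    exact (WA_map (h : S →+* S') w false (cn c)).symm

lemma coord_gn (w : Var N → S) {i j : Ix} (hij : dg j = dg i) :
    (VS V S).coord j (gn V w i) = W1 w i j := by
  rw [gn, map_sum, Finset.sum_eq_single (⟨j, hij⟩ : Ixn (dg i))]
  · rw [map_smul, Basis.coord_apply, Basis.repr_self, Finsupp.single_eq_same, smul_eq_mul,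
      mul_one]
  · intro l _ hl
    rw [map_smul, Basis.coord_apply, Basis.repr_self, Finsupp.single_eq_of_ne, smul_zero]
    intro h
    exact hl (Subtype.ext h.symm)
  · intro h
    exact absurd (Finset.mem_univ _) h

end

section
variable {R : Type} [CommRing R] (X : GrAlg R) {V : Basis Ix R X.A} (hV : HomB X.gr V) {N : ℕ}
  (hN : Algebra.adjoin R {x : X.A | ∃ n ≤ N, x ∈ X.gr n} = ⊤)
  {S : Type} [CommRing S] [Algebra R S]

include hV hN

lemma pt_ext {w w' : Var N → S} (hw : IsPt V w) (hw' : IsPt V w')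
    (hee : ∀ d v, ee V w d v = ee V w' d v) (hWA : ∀ d, ∀ κ ∈ KF d, WA w d κ = WA w' d κ) :
    w = w' := by
  have h1 : ∀ i j, dg i = dg j → dg i ≤ 3 → W1 w i j = W1 w' i j := by
    intro i j hij hi
    have g1 := hw.rel _ (.gen i hi)
    have g2 := hw'.rel _ (.gen i hi)
    rw [sub_eq_zero] at g1 g2
    rw [← coord_gn (V := V) w hij.symm, ← coord_gn (V := V) w' hij.symm, ← g1, ← g2, hee]
  have h2 : ∀ k i, dg k = dg i → dg k ≤ N → W2 w k i = W2 w' k i := by
    intro k i hki hk
    have g1 := hw.rel _ (.inv k hk)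
    have g2 := hw'.rel _ (.inv k hk)
    rw [sub_eq_zero] at g1 g2
    obtain ⟨B, hB, hT, hC, hBe⟩ := pres_of_pt X hV hw hN
    have key : ∀ u : Ix → S, B.coord i (∑ l : Ixn (dg k), u l.1 • B l.1) = u i := by
      intro u
      rw [map_sum, Finset.sum_eq_single (⟨i, hki.symm⟩ : Ixn (dg k))]
      · rw [map_smul, Basis.coord_apply, Basis.repr_self, Finsupp.single_eq_same, smul_eq_mul,
          mul_one]
      · intro l _ hl
        rw [map_smul, Basis.coord_apply, Basis.repr_self, Finsupp.single_eq_of_ne, smul_zero]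
        intro h
        exact hl (Subtype.ext h.symm)
      · intro h
        exact absurd (Finset.mem_univ _) h
    rw [← key (fun l => W2 w k l), ← key (fun l => W2 w' k l)]
    congr 1
    have e1 : (∑ l : Ixn (dg k), W2 w k l.1 • B l.1) = VS V S k := by
      rw [g1]
      exact Finset.sum_congr rfl fun l _ => by rw [← hBe, ← EE_ix]
    have e2 : (∑ l : Ixn (dg k), W2 w' k l.1 • B l.1) = VS V S k := by
      rw [g2]
      exact Finset.sum_congr rfl fun l _ => by rw [← hee, ← hBe, ← EE_ix]
    rw [e1, e2]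
  have h3 : ∀ c, WY w c = WY w' c := by
    intro c
    have g1 := hw.cor c
    have g2 := hw'.cor c
    have g3 : cn c ∈ KF false := by fin_cases c <;> decide
    rw [← hWA false _ g3] at g2
    calc WY w c = WY w c * (WA w false (cn c) * WY w' c) := by rw [g2, mul_one]
      _ = (WA w false (cn c) * WY w c) * WY w' c := by ring
      _ = WY w' c := by rw [g1, one_mul]
  funext x
  rcases x with p | p | p | c
  · have := h1 p.1.1 p.1.2 p.2.1 p.2.2
    rw [W1, W1, dif_pos p.2, dif_pos p.2] at this
    exact this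
  · have := h2 p.1.1 p.1.2 p.2.1 p.2.2
    rw [W2, W2, dif_pos p.2, dif_pos p.2] at this
    exact this
  · have := hWA p.1.1 p.1.2 p.2
    rw [WA, WA, dif_pos p.2, dif_pos p.2] at this
    exact this
  · exact h3 c

theorem smooth_OO : Algebra.FormallySmooth R (OO V N) := by
  apply Algebra.FormallySmooth.of_comp_surjective
  intro S _ _ I hI g
  rcases subsingleton_or_nontrivial (S ⧸ I) with hs | hs
  · have hIt : I = ⊤ := Ideal.Quotient.subsingleton_iff.mp hs
    have hS : Subsingleton S := by
      rw [hIt, Ideal.top_pow] at hI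
      exact subsingleton_of_bot_eq_top hI.symm |> fun h => by
        have h1 : (1 : S) ∈ (⊥ : Ideal S) := by rw [← hI]; trivial
        exact subsingleton_of_zero_eq_one (Ideal.mem_bot.mp h1).symm
    have hSA : Subsingleton (S ⊗[R] X.A) := Module.subsingleton S _
    exact ⟨ofPt V (w := fun _ => (0 : S)) ⟨fun x _ => Subsingleton.elim _ _,
      fun c => Subsingleton.elim _ _⟩, AlgHom.ext fun x => Subsingleton.elim _ _⟩
  · have hw₀ := isPt_of_hom V g
    set w₀ : Var N → S ⧸ I := fun x => g (wO V N x) with hw₀d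
    obtain ⟨B₀, hB₀, hT₀, hC₀, hE₀⟩ := pres_of_pt X hV hw₀ hN
    let q : S →ₐ[R] S ⧸ I := Ideal.Quotient.mkₐ R I
    have hsurj : Function.Surjective (q : S →+* S ⧸ I) := Ideal.Quotient.mk_surjective
    have hnil : IsNilpotent (RingHom.ker (q : S →+* S ⧸ I)) := by
      refine ⟨2, ?_⟩
      have : RingHom.ker (q : S →+* S ⧸ I) = I := Ideal.mk_ker
      rw [this, hI]; rfl
    obtain ⟨B, α, h1, h2, h3, h4⟩ := tab_lift' (X := X.bc S) (X₀ := X.bc (S ⧸ I)) hsurj hnil
      (mp X.A q : S ⊗[R] X.A →+* (S ⧸ I) ⊗[R] X.A) (by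
        intro r
        have e1 : algebraMap S (S ⊗[R] X.A) r = r • 1 := Algebra.algebraMap_eq_smul_one r
        have e2 : algebraMap (S ⧸ I) ((S ⧸ I) ⊗[R] X.A) (q r) = q r • 1 :=
          Algebra.algebraMap_eq_smul_one _
        change mp X.A q (algebraMap S (S ⊗[R] X.A) r) =
          algebraMap (S ⧸ I) ((S ⧸ I) ⊗[R] X.A) (q r)
        rw [e1, e2, mp_smul, map_one]) (by
        intro n
        obtain ⟨m, ⟨v⟩⟩ := exists_fin_basis X n
        refine ⟨m, bcBas (S := S) v, bcBas (S := S ⧸ I) v, fun i => ?_⟩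
        have e1 := bcBas_coe (S := S) v i
        have e2 := bcBas_coe (S := S ⧸ I) v i
        refine (congrArg (mp X.A q) e1).trans ((mp_tmul q 1 _).trans ?_)
        rw [map_one]
        exact e2.symm) (B₀ := B₀) (α₀ := WA w₀) hB₀ hT₀
    have hC : Cu α := by
      have hu : ∀ κ, IsUnit (WA w₀ false κ) → IsUnit (α false κ) := by
        intro κ hκ
        apply isUnit_of_map_nil hsurj hnil
        rw [h3]; exact hκ
      exact ⟨hu _ hC₀.h00, hu _ hC₀.h80, hu _ hC₀.h08, hu _ hC₀.h88⟩
    obtain ⟨w, hw, hWA, hee⟩ := pt_of_pres X hV (N := N) (B := B) (α := α) h1 h2 hC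
    have hwq := hw.map q
    have heq : (fun x => q (w x)) = w₀ := by
      refine pt_ext X hV hN hwq hw₀ ?_ ?_
      · intro d v
        rw [← mp_ee, hee, ← hE₀]
        exact h4 d v
      · intro d κ hκ
        have e1 := WA_map (q : S →+* S ⧸ I) w d κ
        refine e1.symm.trans ?_
        rw [hWA d κ hκ]
        exact h3 d κ
    refine ⟨ofPt V hw, OO_ext V fun x => ?_⟩
    change q (ofPt V hw (wO V N x)) = g (wO V N x)
    rw [ofPt_wO]
    exact congrFun heq x

end

end Pool.Agent.Helper190_Can
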