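import Pool.Agent.Helper190_Can.ZSmooth

set_option linter.unusedSimpArgs false
set_option linter.unusedSectionVars false
set_option linter.unusedVariables false

open Module MvPolynomial DirectSum TensorProduct

noncomputable section

namespace Pool.Agent.Helper190_Can

section
variable {R : Type} [CommRing R] {X : GrAlg R} {V : Basis Ix R X.A} (hV : HomB X.gr V)
  {S : Type} [CommRing S] [Algebra R S] {Y : GrAlg S}

/-- comparison of a base change with the standard one -/
lemma exists_cmp (hbc : IsBC (algebraMap R S) X Y) (hV : HomB X.gr V) :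
    ∃ (Ψ : (S ⊗[R] X.A) ≃ₐ[S] Y.A), (∀ n x, x ∈ gbc X S n ↔ Ψ x ∈ Y.gr n) := by
  obtain ⟨Φ, hΦ, hbas⟩ := isBC_iff.mp hbc
  obtain ⟨W, hW, hWV⟩ := exists_image_basis Φ hΦ hbas hV
  letI : Algebra R Y.A := ((algebraMap S Y.A).comp (algebraMap R S)).toAlgebra
  have : IsScalarTower R S Y.A := IsScalarTower.of_algebraMap_eq fun r => rfl
  let Φ' : X.A →ₐ[R] Y.A := { Φ with commutes' := fun r => hΦ r }
  let Ψ : S ⊗[R] X.A →ₐ[S] Y.A := Algebra.TensorProduct.lift (Algebra.ofId S Y.A) Φ'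
    (fun _ _ => Commute.all _ _)
  have h1 : ∀ i, Ψ (VS V S i) = W i := by
    intro i
    rw [VS_apply]
    change Algebra.TensorProduct.lift (Algebra.ofId S Y.A) Φ' (fun _ _ => Commute.all _ _)
      (1 ⊗ₜ V i) = W i
    rw [Algebra.TensorProduct.lift_tmul, map_one, one_mul]
    exact (hWV i).symm
  have h2 : Ψ.toLinearMap = ((VS V S).equiv W (Equiv.refl _)).toLinearMap := by
    apply (VS V S).ext
    intro i
    rw [LinearEquiv.coe_coe, Basis.equiv_apply]
    exact h1 i
  have h3 : Function.Bijective Ψ := by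
    have h4 : (Ψ : S ⊗[R] X.A → Y.A) = (VS V S).equiv W (Equiv.refl _) := by
      funext x
      exact LinearMap.congr_fun h2 x
    rw [h4]
    exact LinearEquiv.bijective _
  let E := AlgEquiv.ofBijective Ψ h3
  have hE : ∀ i, E (VS V S i) = W i := h1
  refine ⟨E, fun n x => ⟨fun hx => ?_, fun hx => ?_⟩⟩
  · rw [sum_homog (hom_VS X hV) hx, map_sum]
    refine Submodule.sum_mem _ fun i _ => ?_
    rw [map_smul, hE]
    refine Submodule.smul_mem _ _ ?_
    have h5 := hW i.1.1.1 i.1.1.2 i.1.2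
    rw [← EE_ix] at h5
    have h6 : i.1.1.2.1.toNat = n := i.2
    rwa [h6] at h5
  · have h4 : x = E.symm (E x) := (E.symm_apply_apply x).symm
    rw [h4, sum_homog hW hx, map_sum]
    refine Submodule.sum_mem _ fun i _ => ?_
    rw [map_smul]
    refine Submodule.smul_mem _ _ ?_
    have h7 : E.symm (W i.1) = VS V S i.1 := by
      rw [← hE, AlgEquiv.symm_apply_apply]
    rw [h7]
    have h5 := (hom_VS X hV (S := S)) i.1.1.1 i.1.1.2 i.1.2
    rw [← EE_ix] at h5
    have h6 : i.1.1.2.1.toNat = n := i.2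
    rwa [h6] at h5

/-- transport of a presentation along an isomorphism -/
lemma tab_equiv {A A' : Type} [CommRing A] [Algebra S A] [CommRing A'] [Algebra S A']
    (E : A ≃ₐ[S] A') {B : Basis Ix S A} {α : Bool → Lt → S} (h : Tab B α) :
    Tab (B.map E.toLinearEquiv) α ∧ ∀ d v, EE (B.map E.toLinearEquiv) d v = E (EE B d v) := by
  have hE : ∀ d v, EE (B.map E.toLinearEquiv) d v = E (EE B d v) := by
    intro d v
    by_cases hv : inD d v
    · rw [EE_of hv, EE_of hv, Basis.map_apply]; rfl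
    · rw [EE_out hv, EE_out hv, map_zero]
  refine ⟨⟨?_, ?_, ?_⟩, hE⟩
  · rw [hE, h.one, map_one]
  · intro d σ μ hσ hμ
    rw [hE, hE, hE, ← map_mul, h.mulS d σ μ hσ hμ]
  · intro μ ν hμ hν
    rw [hE, hE, ← map_mul, h.mulM μ ν hμ hν, map_neg, map_sum]
    congr 1
    refine Finset.sum_congr rfl fun d _ => ?_
    rw [map_sum]
    exact Finset.sum_congr rfl fun κ _ => by rw [hE, map_smul]

/-- presentations of a base change are presentations of the standard one -/
lemma pres_to_bc (hbc : IsBC (algebraMap R S) X Y) (hV : HomB X.gr V) {B : Basis Ix S Y.A}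
    {α : Bool → Lt → S} (h : Pres Y B α) :
    ∃ B' : Basis Ix S (S ⊗[R] X.A), HomB (gbc X S) B' ∧ Tab B' α := by
  obtain ⟨Ψ, hΨ⟩ := exists_cmp hbc hV
  obtain ⟨h1, h2⟩ := tab_equiv Ψ.symm h.2.1
  refine ⟨_, ?_, h1⟩
  intro d v hv
  rw [h2, hΨ, AlgEquiv.apply_symm_apply]
  exact h.1 d v hv

lemma pres_of_bc (hbc : IsBC (algebraMap R S) X Y) (hV : HomB X.gr V)
    {B : Basis Ix S (S ⊗[R] X.A)} {α : Bool → Lt → S} (hB : HomB (gbc X S) B) (hT : Tab B α)
    (hC : Cu α) : ∃ B', Pres Y B' α := by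
  obtain ⟨Ψ, hΨ⟩ := exists_cmp hbc hV
  obtain ⟨h1, h2⟩ := tab_equiv Ψ hT
  refine ⟨_, ?_, h1, hC⟩
  intro d v hv
  rw [h2, ← hΨ]
  exact hB d v hv

end

/-! ### reference bases and generation -/

section
variable {R S : Type} [CommRing R] [CommRing S] [Nontrivial S] {f : R →+* S}

/-- a family one of whose base changes has a presentation has a homogeneous basis -/
lemma exists_refBasis {X : GrAlg R} {Y : GrAlg S} (hbc : IsBC f X Y) {B : Basis Ix S Y.A}
    (hB : HomB Y.gr B) : ∃ V : Basis Ix R X.A, HomB X.gr V := by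
  obtain ⟨Φ, hΦ, hbas⟩ := isBC_iff.mp hbc
  have hu : ∀ n, Nonempty (Basis (Ixn n) R (X.gr n)) := by
    intro n
    obtain ⟨k, v, w, _⟩ := hbas n
    exact ⟨v.reindex (w.indexEquiv (resB hB n))⟩
  let u := fun n => (hu n).some
  refine ⟨colB u, fun d v hv => ?_⟩
  rw [EE_of hv, colB_apply]
  exact (u _ _).2

end

lemma exists_N {R : Type} [CommRing R] (X : GrAlg R) (hft : Algebra.FiniteType R X.A) :
    ∃ N, Algebra.adjoin R {x : X.A | ∃ n ≤ N, x ∈ X.gr n} = ⊤ := by
  classical
  obtain ⟨s, hs⟩ := hft.out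
  let N := s.sup fun x => ((DirectSum.decompose X.gr x).support).sup id
  refine ⟨N, ?_⟩
  rw [eq_top_iff, ← hs]
  refine Algebra.adjoin_le ?_
  intro x hx
  have h1 := DirectSum.sum_support_decompose X.gr x
  rw [← h1]
  refine Subalgebra.sum_mem _ fun n hn => Algebra.subset_adjoin ⟨n, ?_, SetLike.coe_mem _⟩
  have h2 : n ≤ ((DirectSum.decompose X.gr x).support).sup id :=
    Finset.le_sup (f := id) hn
  exact h2.trans (Finset.le_sup (f := fun x =>
    ((DirectSum.decompose X.gr x).support).sup id) hx)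

end Pool.Agent.Helper190_Can
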